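import Pool.Agent.HDP.PD

/-!
# HDP/P6: simultaneous diagonalisation of two real `(1,1)`-forms

The matrix `Mt e d` is positive definite; with `Q = diag (1 / sqrt l) Uᴴ` one has `Q (Mt e d) Qᴴ = 1`, the Hermitian matrix
`Q (Mt e a) Qᴴ` is diagonalised by a unitary matrix `S`, and `P = Sᴴ Q` diagonalises both. The new basis is
`e' j = ∑ p, P j p • e p`; then `Mt e' a = P (Mt e a) Pᴴ` (`P6_change`).
-/

set_option autoImplicit false

noncomputable section

open scoped ContDiff

namespace HDG

open Pool.Agent.FBR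

variable {H : Type*} [NormedAddCommGroup H] [NormedSpace ℂ H] [FiniteDimensional ℂ H] {n : ℕ}
  (e : Module.Basis (Fin n) ℂ H)

private theorem P6_II (v : H) : Complex.I • Complex.I • v = -v := by
  rw [smul_smul, Complex.I_mul_I, neg_smul, one_smul]

private theorem P6_neg {a : Bil H} (ha : O11 a) (u v : H) : a u (Complex.I • v) = - a (Complex.I • u) v := by
  rw [← ha.2 u (Complex.I • v), P6_II, map_neg]

/-- the Hermitian form of `a` -/
private def P6_h (a : Bil H) (u v : H) : ℂ := ((a u (Complex.I • v) : ℝ) : ℂ) - Complex.I * ((a u v : ℝ) : ℂ)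

private theorem P6_h_addl (a : Bil H) (u v w : H) : P6_h a (u + v) w = P6_h a u w + P6_h a v w := by
  simp only [P6_h, map_add, _root_.add_apply, Complex.ofReal_add]
  ring

private theorem P6_h_addr (a : Bil H) (u v w : H) : P6_h a u (v + w) = P6_h a u v + P6_h a u w := by
  simp only [P6_h, smul_add, map_add, Complex.ofReal_add]
  ring

private theorem P6_h_rl (a : Bil H) (r : ℝ) (u v : H) : P6_h a (r • u) v = r * P6_h a u v := by
  simp only [P6_h, map_smul, _root_.smul_apply, smul_eq_mul, Complex.ofReal_mul]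
  ring

private theorem P6_h_rr (a : Bil H) (r : ℝ) (u v : H) : P6_h a u (r • v) = r * P6_h a u v := by
  simp only [P6_h]
  rw [smul_comm Complex.I r v]
  simp only [map_smul, smul_eq_mul, Complex.ofReal_mul]
  ring

private theorem P6_h_Il {a : Bil H} (ha : O11 a) (u v : H) : P6_h a (Complex.I • u) v = Complex.I * P6_h a u v := by
  simp only [P6_h]
  rw [ha.2, P6_neg ha u v]
  push_cast
  linear_combination ((a u v : ℂ)) * Complex.I_mul_I

private theorem P6_h_Ir {a : Bil H} (u v : H) : P6_h a u (Complex.I • v) = -Complex.I * P6_h a u v := by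
  simp only [P6_h]
  rw [P6_II, map_neg]
  push_cast
  linear_combination (-(a u v : ℂ)) * Complex.I_mul_I

private theorem P6_split (c : ℂ) (u : H) : c • u = c.re • u + c.im • Complex.I • u := by
  rw [← Complex.coe_smul c.re u, ← Complex.coe_smul c.im (Complex.I • u), smul_smul, ← add_smul, Complex.re_add_im]

private theorem P6_h_smull {a : Bil H} (ha : O11 a) (c : ℂ) (u v : H) : P6_h a (c • u) v = c * P6_h a u v := by
  rw [P6_split c u, P6_h_addl, P6_h_rl, P6_h_rl, P6_h_Il ha]
  conv_rhs => rw [← Complex.re_add_im c]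
  ring

private theorem P6_h_smulr (a : Bil H) (c : ℂ) (u v : H) :
    P6_h a u (c • v) = (starRingEnd ℂ) c * P6_h a u v := by
  rw [P6_split c v, P6_h_addr, P6_h_rr, P6_h_rr, P6_h_Ir]
  conv_rhs => rw [← Complex.re_add_im c]
  simp only [map_add, map_mul, Complex.conj_ofReal, Complex.conj_I]
  ring

private theorem P6_h_suml {a : Bil H} (ha : O11 a) (c : Fin n → ℂ) (w : H) :
    P6_h a (∑ j, c j • e j) w = ∑ j, c j * P6_h a (e j) w := by
  let F : H →+ ℂ := ⟨⟨fun u => P6_h a u w, by
    have h0 := P6_h_smull ha 0 0 w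
    rw [zero_smul, zero_mul] at h0
    exact h0⟩, fun u v => P6_h_addl a u v w⟩
  have h1 : F (∑ j, c j • e j) = ∑ j, F (c j • e j) := map_sum F _ _
  refine h1.trans (Finset.sum_congr rfl fun j _ => ?_)
  exact P6_h_smull ha (c j) (e j) w

private theorem P6_h_sumr (a : Bil H) (c : Fin n → ℂ) (w : H) :
    P6_h a w (∑ j, c j • e j) = ∑ j, (starRingEnd ℂ) (c j) * P6_h a w (e j) := by
  let F : H →+ ℂ := ⟨⟨fun u => P6_h a w u, by
    have h0 := P6_h_smulr a 0 w 0
    rw [zero_smul, map_zero, zero_mul] at h0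
    exact h0⟩, fun u v => P6_h_addr a w u v⟩
  have h1 : F (∑ j, c j • e j) = ∑ j, F (c j • e j) := map_sum F _ _
  refine h1.trans (Finset.sum_congr rfl fun j _ => ?_)
  exact P6_h_smulr a (c j) w (e j)

open Matrix in
/-- change of the basis -/
private theorem P6_change {a : Bil H} (ha : O11 a) (P : Matrix (Fin n) (Fin n) ℂ) (e' : Module.Basis (Fin n) ℂ H)
    (he : ∀ j, e' j = ∑ p, P j p • e p) : Mt e' a = P * Mt e a * Pᴴ := by
  ext j k
  have h1 : Mt e' a j k = P6_h a (e' j) (e' k) := rfl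
  rw [h1, he j, he k, P6_h_suml e ha]
  rw [Matrix.mul_assoc, Matrix.mul_apply]
  refine Finset.sum_congr rfl fun p _ => ?_
  rw [P6_h_sumr, Matrix.mul_apply]
  congr 1
  refine Finset.sum_congr rfl fun q _ => ?_
  rw [Matrix.conjTranspose_apply, Complex.star_def, mul_comm]
  rfl

open Matrix in
/-- the spectral theorem -/
private theorem P6_spec {A : Matrix (Fin n) (Fin n) ℂ} (hA : A.IsHermitian) :
    ∃ U : Matrix (Fin n) (Fin n) ℂ, U * Uᴴ = 1 ∧ Uᴴ * U = 1 ∧
      A = U * diagonal (fun i => ((hA.eigenvalues i : ℝ) : ℂ)) * Uᴴ := by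
  refine ⟨(hA.eigenvectorUnitary : Matrix (Fin n) (Fin n) ℂ), ?_, ?_, ?_⟩
  · exact Unitary.coe_mul_star_self hA.eigenvectorUnitary
  · exact Unitary.coe_star_mul_self hA.eigenvectorUnitary
  · have h := hA.spectral_theorem
    rw [Unitary.conjStarAlgAut_apply] at h
    exact h

open Matrix ComplexOrder in
private theorem P6_pd {d : Bil H} (hd : O11 d) (hpos : ∀ v : H, v ≠ 0 → 0 < d v (Complex.I • v)) :
    (Mt e d).PosDef := by
  have key : ∀ c : Fin n → ℂ, dotProduct (star (star c)) (Matrix.mulVec (Mt e d) (star c)) =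
      ((d (∑ j, c j • e j) (Complex.I • ∑ j, c j • e j) : ℝ) : ℂ) := by
    intro c
    rw [← Mt_form e hd c, star_star]
    simp only [dotProduct, Matrix.mulVec, Finset.mul_sum, Pi.star_apply]
    refine Finset.sum_congr rfl fun j _ => Finset.sum_congr rfl fun k _ => ?_
    rw [Complex.star_def]
    ring
  rw [Matrix.posDef_iff_dotProduct_mulVec]
  refine ⟨Mt_herm e hd, fun x hx => ?_⟩
  have h1 := key (star x)
  rw [star_star x] at h1
  rw [h1, Complex.zero_lt_real]
  apply hpos
  intro h2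
  apply hx
  have h3 := Fintype.linearIndependent_iff.1 e.linearIndependent (star x) h2
  funext i
  have h4 := h3 i
  rw [Pi.star_apply, star_eq_zero] at h4
  exact h4

include e in
theorem exists_diag {a d : Bil H} (ha : O11 a) (hd : O11 d) (hpos : ∀ v : H, v ≠ 0 → 0 < d v (Complex.I • v)) :
    ∃ (e' : Module.Basis (Fin n) ℂ H) (l : Fin n → ℝ), Mt e' a = Matrix.diagonal (fun i => ((l i : ℝ) : ℂ)) ∧
      Mt e' d = Matrix.diagonal (fun _ => ((1 : ℝ) : ℂ)) := by
  classical
  obtain ⟨U, hU, hU', hUe⟩ := P6_spec (Mt_herm e hd)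
  have hl : ∀ i, 0 < (Mt_herm e hd).eigenvalues i := fun i => (P6_pd e hd hpos).eigenvalues_pos i
  obtain ⟨l, hl'⟩ : ∃ l : Fin n → ℝ, l = (Mt_herm e hd).eigenvalues := ⟨_, rfl⟩
  rw [← hl'] at hl hUe
  obtain ⟨Q, hQ⟩ : ∃ Q : Matrix (Fin n) (Fin n) ℂ,
    Q = Matrix.diagonal (fun i => (((Real.sqrt (l i))⁻¹ : ℝ) : ℂ)) * U.conjTranspose := ⟨_, rfl⟩
  have hQd : Q * Mt e d * Q.conjTranspose = 1 := by
    have h1 : Q * U = Matrix.diagonal (fun i => (((Real.sqrt (l i))⁻¹ : ℝ) : ℂ)) := by
      rw [hQ, Matrix.mul_assoc, hU', Matrix.mul_one]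
    have h2 : Q * Mt e d * Q.conjTranspose =
        (Q * U) * Matrix.diagonal (fun i => ((l i : ℝ) : ℂ)) * (Q * U).conjTranspose := by
      rw [Matrix.conjTranspose_mul]
      nth_rewrite 1 [hUe]
      simp only [Matrix.mul_assoc]
    rw [h2, h1, Matrix.diagonal_conjTranspose, Matrix.diagonal_mul_diagonal, Matrix.diagonal_mul_diagonal,
      ← Matrix.diagonal_one]
    congr 1
    funext i
    rw [Pi.star_apply, Complex.star_def, Complex.conj_ofReal, ← Complex.ofReal_mul, ← Complex.ofReal_mul,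
      ← Complex.ofReal_one]
    congr 1
    have h3 := Real.sqrt_pos.2 (hl i)
    have h4 := Real.mul_self_sqrt (hl i).le
    field_simp
    nlinarith
  have hB : (Q * Mt e a * Q.conjTranspose).IsHermitian := by
    unfold Matrix.IsHermitian
    rw [Matrix.conjTranspose_mul, Matrix.conjTranspose_mul, Matrix.conjTranspose_conjTranspose, (Mt_herm e ha).eq,
      Matrix.mul_assoc]
  obtain ⟨S, hS, hS', hSe⟩ := P6_spec hB
  obtain ⟨P, hP⟩ : ∃ P : Matrix (Fin n) (Fin n) ℂ, P = S.conjTranspose * Q := ⟨_, rfl⟩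
  have hPd : P * Mt e d * P.conjTranspose = 1 := by
    have h1 : P * Mt e d * P.conjTranspose = S.conjTranspose * (Q * Mt e d * Q.conjTranspose) * S := by
      rw [hP, Matrix.conjTranspose_mul, Matrix.conjTranspose_conjTranspose]
      simp only [Matrix.mul_assoc]
    rw [h1, hQd, Matrix.mul_one, hS']
  have hPa : P * Mt e a * P.conjTranspose = Matrix.diagonal (fun i => ((hB.eigenvalues i : ℝ) : ℂ)) := by
    have h1 : P * Mt e a * P.conjTranspose = S.conjTranspose * (Q * Mt e a * Q.conjTranspose) * S := by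
      rw [hP, Matrix.conjTranspose_mul, Matrix.conjTranspose_conjTranspose]
      simp only [Matrix.mul_assoc]
    have h2 : S.conjTranspose * (S * Matrix.diagonal (fun i => ((hB.eigenvalues i : ℝ) : ℂ)) * S.conjTranspose) * S =
        (S.conjTranspose * S) * Matrix.diagonal (fun i => ((hB.eigenvalues i : ℝ) : ℂ)) * (S.conjTranspose * S) := by
      simp only [Matrix.mul_assoc]
    rw [h1]
    nth_rewrite 1 [hSe]
    rw [h2, hS', Matrix.one_mul, Matrix.mul_one]
  have hdet : IsUnit P.transpose.det := by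
    rw [Matrix.det_transpose]
    have h1 : P * (Mt e d * P.conjTranspose) = 1 := by rw [← Matrix.mul_assoc, hPd]
    have h2 := congrArg Matrix.det h1
    rw [Matrix.det_mul, Matrix.det_one] at h2
    exact IsUnit.of_mul_eq_one _ h2
  have he : ∀ j, (e.map (Matrix.toLinearEquiv e P.transpose hdet)) j = ∑ p, P j p • e p := by
    intro j
    rw [Module.Basis.map_apply]
    exact Matrix.toLin_self e e P.transpose j
  refine ⟨e.map (Matrix.toLinearEquiv e P.transpose hdet), hB.eigenvalues, ?_, ?_⟩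
  · rw [P6_change e ha P _ he, hPa]
  · rw [P6_change e hd P _ he, hPd, ← Matrix.diagonal_one, Complex.ofReal_one]

end HDG
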