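import Pool.Agent.HDP.P5
import Pool.Agent.HDP.P6

/-!
# HDP/K0: `rr` vanishes for a pluriclosed form

In a basis `e'` in which `a` is diagonal (`exists_diag`), `rr e' a γ z` is a sum of multiples of the values of `psi γ z`
(`rr_diag`), and `rr e a γ z` is a multiple of `rr e' a γ z` (`rr_basis`).
-/

set_option autoImplicit false

noncomputable section

open scoped ContDiff Topology

open MeasureTheory

namespace HDG

open Pool.Agent.FBR

variable {H : Type*} [NormedAddCommGroup H] [NormedSpace ℂ H] [FiniteDimensional ℂ H] {n : ℕ}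
  (e : Module.Basis (Fin n) ℂ H)

theorem rr_of_psi {a : Bil H} (ha : O11 a) {γ : H → Bil H} (hγ : ContDiff ℝ ∞ γ) (hoo : ∀ z, O11 (γ z)) {z : H}
    (h : ∀ u v : H, psi γ z u v = 0) : rr e a γ z = 0 := by
  obtain ⟨e', l, hla, -⟩ := exists_diag e ha (w0_O11 e) fun v hv => by
    rw [w0_self]
    exact qf_pos e hv
  obtain ⟨c, -, hce⟩ := rr_basis e e'
  rw [hce a γ z ha hγ hoo, rr_diag e' ha hla hγ hoo z]
  simp [h]

end HDG
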