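import Pool.Agent.HDP.P9
import Pool.Agent.HDW.W8

/-!
# HDP/P10: the integral of `dd^c γ ∧ T^(n-2)` over the manifold is zero

With a partition of unity `χ`, the integral of `χ i` times the density is the integral of `dd^c (χ i) ∧ γ ∧ T^(n-2)` (integration by parts in the
ball `i`, `loc_rr`), which is the integral over the manifold of a continuous function `G i`; the sum of the `G i` is zero.
-/

set_option autoImplicit false

noncomputable section

open scoped ContDiff Topology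

open MeasureTheory

namespace HDG

open Pool.Agent.FBR

variable {H : Type*} [NormedAddCommGroup H] [NormedSpace ℂ H] {n : ℕ} {e : Module.Basis (Fin n) ℂ H}
  [FiniteDimensional ℂ H] [MeasurableSpace H] [BorelSpace H] {μ : Measure H} [μ.IsAddHaarMeasure]
  {Y : Type*} [TopologicalSpace Y] [CompactSpace Y] [T2Space Y] [MeasurableSpace Y] [BorelSpace Y]
  (B : BM e Y) {w b : B.I → H → Bil H} {ν : Measure Y}

omit [FiniteDimensional ℂ H] [MeasurableSpace H] [BorelSpace H] in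
private theorem P10_lj (x y z : Bil H) (c : ℝ) :
    (lj n 1 fun s => cf e (x + s • y) z / c) = mc e 1 x y z / c := by
  have h := lj_smul n 1 c⁻¹ (fun s => cf e (x + s • y) z)
  unfold mc
  rw [div_eq_inv_mul, ← h]
  refine congrArg (lj n 1) ?_
  funext s
  rw [div_eq_inv_mul]

omit [MeasurableSpace H] [BorelSpace H] in
set_option maxSynthPendingDepth 3 in
private theorem P10_zero (x z : Bil H) : mc e 1 x 0 z = 0 := by
  have h := c2_smul_left e x 0 (0 : Bil H) z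
  rwa [smul_zero, zero_mul] at h

omit [FiniteDimensional ℂ H] [MeasurableSpace H] [BorelSpace H] in
private theorem P10_ddc {f : H → ℝ} {z : H} (h1 : f =ᶠ[𝓝 z] fun _ => (0 : ℝ)) : ddc f z = 0 := by
  rw [ddc_congr h1]
  ext u v
  rw [ddc_apply]
  simp

omit [MeasurableSpace H] [BorelSpace H] in
private theorem P10_rr {x : Bil H} {γ γ' : H → Bil H} {z : H} (h : γ =ᶠ[𝓝 z] γ') :
    rr e x γ z = rr e x γ' z := by
  have h1 : ∀ u v : H, ddc (fun z => γ z u v) z = ddc (fun z => γ' z u v) z := fun u v =>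
    ddc_congr (h.mono fun z' hz' => by
      show γ z' u v = γ' z' u v
      rw [hz'])
  unfold rr
  simp only [h1]

namespace BM

/-- the density of `dd^c (χ) ∧ γ ∧ T^(n-2)` -/
private def P10_G (w T γ : B.I → H → Bil H) (f : Y → ℝ) (y : Y) : ℝ :=
  lj n 1 fun s => B.dcf w (T + s • B.dd f) γ y

omit [MeasurableSpace H] [BorelSpace H] [CompactSpace Y] [T2Space Y] [MeasurableSpace Y] [BorelSpace Y] in
private theorem P10_eq {T γ : B.I → H → Bil H} (f : Y → ℝ) (y : Y) :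
    B.P10_G w T γ f y = mc e 1 (T (B.ix y) (B.cd y)) (B.dd f (B.ix y) (B.cd y)) (γ (B.ix y) (B.cd y)) /
      dt e (w (B.ix y) (B.cd y)) :=
  P10_lj (T (B.ix y) (B.cd y)) (B.dd f (B.ix y) (B.cd y)) (γ (B.ix y) (B.cd y)) (dt e (w (B.ix y) (B.cd y)))

omit [MeasurableSpace H] [BorelSpace H] [CompactSpace Y] [T2Space Y] [MeasurableSpace Y] [BorelSpace Y] in
private theorem P10_box (hw : B.Met w) {T γ : B.I → H → Bil H} (hT : B.IsT T) (hγ : B.IsT γ) {f : Y → ℝ}
    (hf : B.Sm f) {i : B.I} {z : H} (hz : z ∈ qb e 4) :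
    B.P10_G w T γ f (B.ψ i z) = mc e 1 (T i z) (B.dd f i z) (γ i z) / dt e (w i z) := by
  rw [← P10_lj]
  unfold P10_G
  refine congrArg (lj n 1) ?_
  funext s
  exact B.dcf_box hw (B.IsT_add hT (B.IsT_smul (B.IsT_dd hf) s)) hγ hz

omit [MeasurableSpace H] [BorelSpace H] [CompactSpace Y] [T2Space Y] [MeasurableSpace Y] [BorelSpace Y] in
private theorem P10_cont (hw : B.Met w) {T γ : B.I → H → Bil H} (hT : B.IsT T) (hγ : B.IsT γ) {f : Y → ℝ}
    (hf : B.Sm f) : Continuous (B.P10_G w T γ f) := by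
  have h1 : B.P10_G w T γ f = fun y => ∑ k ∈ Finset.range (n + 1),
      (Lagrange.basis (Finset.range (n + 1)) (fun k : ℕ => (k : ℝ)) k).coeff 1 *
        B.dcf w (T + (k : ℝ) • B.dd f) γ y := rfl
  rw [h1]
  exact continuous_finsetSum _ fun k _ => continuous_const.mul
    (B.dcf_cont hw (B.IsT_add hT (B.IsT_smul (B.IsT_dd hf) (k : ℝ))) hγ)

omit [MeasurableSpace H] [BorelSpace H] [CompactSpace Y] [T2Space Y] [MeasurableSpace Y] [BorelSpace Y] in
private theorem P10_sum {T γ : B.I → H → Bil H} {χ : B.I → Y → ℝ} {c : B.I → H → ℝ} (hχ : B.Pou χ c) (y : Y) :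
    ∑ i, B.P10_G w T γ (χ i) y = 0 := by
  have hz : B.cd y ∈ qb e 4 := qb_mono (by norm_num) (by norm_num) (B.cd_mem y)
  have h1 : ∑ i, B.dd (χ i) (B.ix y) (B.cd y) = 0 := by
    rw [← B.dd_sum Finset.univ (fun i _ => hχ.sm i) hz]
    have h2 : (fun y => ∑ k, χ k y) = fun _ => (1 : ℝ) := funext hχ.sum
    rw [h2]
    exact B.dd_const 1 hz
  simp only [P10_eq]
  rw [← Finset.sum_div, ← c2_sum_left, h1, P10_zero, zero_div]

omit [FiniteDimensional ℂ H] [MeasurableSpace H] [BorelSpace H] in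
private theorem P10_sub {z : H} (hz : qf e z ≤ (3 / 2 : ℝ) ^ 2) : z ∈ qb e (7 / 2) :=
  lt_of_le_of_lt hz (by norm_num)

omit [FiniteDimensional ℂ H] [MeasurableSpace H] [BorelSpace H] in
private theorem P10_sub' {z : H} (hz : qf e z ≤ (3 / 2 : ℝ) ^ 2) : z ∈ qb e 4 :=
  lt_of_le_of_lt hz (by norm_num)

omit [MeasurableSpace H] [BorelSpace H] [CompactSpace Y] [MeasurableSpace Y] [BorelSpace Y] in
/-- the function `χ i` vanishes near the points which are not in the ball `i` -/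
private theorem P10_out {χ : B.I → Y → ℝ} {c : B.I → H → ℝ} (hχ : B.Pou χ c) (i : B.I) {y : Y}
    (hy : ∀ z ∈ qb e 4, B.ψ i z ≠ y) : ∀ᶠ y' in 𝓝 y, χ i y' = 0 := by
  have hK : IsClosed (B.ψ i '' {z | qf e z ≤ (3 / 2 : ℝ) ^ 2}) :=
    ((isCompact_qb e (3 / 2)).image_of_continuousOn
      ((B.cont i).mono fun z hz => P10_sub' hz)).isClosed
  have hy' : y ∈ (B.ψ i '' {z | qf e z ≤ (3 / 2 : ℝ) ^ 2})ᶜ := by
    rintro ⟨z, hz, hzy⟩
    exact hy z (P10_sub' hz) hzy
  filter_upwards [hK.isOpen_compl.mem_nhds hy'] with y' hy1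
  by_cases h : ∃ z ∈ qb e 4, B.ψ i z = y'
  · obtain ⟨z, hz, rfl⟩ := h
    rw [hχ.eq i z hz]
    have h2 : z ∉ tsupport (c i) := fun h3 => hy1 ⟨z, hχ.cs i h3, rfl⟩
    exact image_eq_zero_of_notMem_tsupport h2
  · push Not at h
    exact hχ.out i y' h

omit [MeasurableSpace H] [BorelSpace H] [CompactSpace Y] [MeasurableSpace Y] [BorelSpace Y] in
private theorem P10_h0 {T γ : B.I → H → Bil H} {χ : B.I → Y → ℝ} {c : B.I → H → ℝ} (hχ : B.Pou χ c) (i : B.I) {y : Y}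
    (hy : ∀ z ∈ qb e 4, B.ψ i z ≠ y) : B.P10_G w T γ (χ i) y = 0 := by
  have hz : B.cd y ∈ qb e 4 := qb_mono (by norm_num) (by norm_num) (B.cd_mem y)
  have h1 : B.dd (χ i) (B.ix y) (B.cd y) = 0 := by
    refine P10_ddc ?_
    have h2 : ContinuousAt (B.ψ (B.ix y)) (B.cd y) :=
      (B.cont (B.ix y)).continuousAt ((isOpen_qb e 4).mem_nhds hz)
    have h3 : ∀ᶠ y' in 𝓝 (B.ψ (B.ix y) (B.cd y)), χ i y' = 0 := by
      rw [B.ψ_cd]
      exact B.P10_out hχ i hy
    exact h2.eventually h3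
  rw [P10_eq, h1, P10_zero, zero_div]

omit [CompactSpace Y] in
/-- the integral over one ball -/
private theorem P10_loc (hw : B.Met w) (hν : B.IsVol μ w ν) {T γ : B.I → H → Bil H} (hT : B.IsT T)
    (hc : B.ClT T) (hγ : B.IsT γ) {χ : B.I → Y → ℝ} {c : B.I → H → ℝ} (hχ : B.Pou χ c) (i : B.I) :
    ∫ z, c i z * rr e (T i z) (γ i) z ∂μ = ∫ y, B.P10_G w T γ (χ i) y ∂ν := by
  have hm : MeasurableSet (qb e 4 : Set H) := (isOpen_qb e 4).measurableSet
  obtain ⟨T', hT1, hT2, hT3, hT4⟩ := B.loc_ten hT i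
  obtain ⟨γ', hγ1, hγ2, hγ3, -⟩ := B.loc_ten hγ i
  have hle : ∀ z ∈ qb e (7 / 2), qf e z ≤ (7 / 2 : ℝ) ^ 2 := fun z hz => le_of_lt hz
  have hcs : ∀ z ∈ tsupport (c i), z ∈ qb e (7 / 2) := fun z hz => P10_sub (hχ.cs i hz)
  have hcomp : HasCompactSupport (c i) :=
    (isCompact_qb e (3 / 2)).of_isClosed_subset (isClosed_tsupport _) (hχ.cs i)
  have h0 : ∀ z, z ∉ tsupport (c i) → ddc (c i) z = 0 := fun z hz =>
    P10_ddc (notMem_tsupport_iff_eventuallyEq.1 hz)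
  have h1 : ∫ z, c i z * rr e (T i z) (γ i) z ∂μ = ∫ z, c i z * rr e (T' z) γ' z ∂μ := by
    refine integral_congr_ae (Filter.Eventually.of_forall fun z => ?_)
    show c i z * rr e (T i z) (γ i) z = c i z * rr e (T' z) γ' z
    by_cases hz : z ∈ tsupport (c i)
    · have hz' := hcs z hz
      have h5 : (γ i) =ᶠ[𝓝 z] γ' := by
        filter_upwards [(isOpen_qb e (7 / 2)).mem_nhds hz'] with z' hz1
        exact (hγ3 z' (hle z' hz1)).symm
      rw [hT3 z (hle z hz'), P10_rr h5]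
    · rw [image_eq_zero_of_notMem_tsupport hz, zero_mul, zero_mul]
  have h2 := loc_rr e μ (T := T') (U := qb e (7 / 2)) ⟨hT1, hT2, hT4 hc⟩ (isOpen_qb e (7 / 2)) hγ1 hγ2
    (hχ.csm i) hcomp hcs
  rw [h1, h2, B.box_int hw hν i (B.P10_cont hw hT hγ (hχ.sm i)).measurable fun y hy => B.P10_h0 hχ i hy]
  have h3 : ∫ z in qb e 4, B.P10_G w T γ (χ i) (B.ψ i z) * dt e (w i z) ∂μ =
      ∫ z in qb e 4, mc e 1 (T' z) (ddc (c i) z) (γ' z) ∂μ := by
    refine setIntegral_congr_fun hm fun z hz => ?_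
    show B.P10_G w T γ (χ i) (B.ψ i z) * dt e (w i z) = mc e 1 (T' z) (ddc (c i) z) (γ' z)
    rw [B.P10_box hw hT hγ (hχ.sm i) hz, div_mul_cancel₀ _ (B.dt_w_pos hw hz).ne']
    have h4 : B.dd (χ i) i z = ddc (c i) z := by
      refine ddc_congr ?_
      filter_upwards [(isOpen_qb e 4).mem_nhds hz] with z' hz'
      exact hχ.eq i z' hz'
    rw [h4]
    by_cases hz1 : z ∈ tsupport (c i)
    · have hz' := hcs z hz1
      rw [hT3 z (hle z hz'), hγ3 z (hle z hz')]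
    · rw [h0 z hz1, P10_zero, P10_zero]
  rw [h3]
  refine (setIntegral_eq_integral_of_forall_compl_eq_zero fun z hz => ?_).symm
  have hz1 : z ∉ tsupport (c i) := fun h => hz (P10_sub' (hχ.cs i h))
  rw [h0 z hz1, P10_zero]

theorem glob_rr (hw : B.Met w) (hν : B.IsVol μ w ν) {T γ : B.I → H → Bil H} (hT : B.IsT T) (hc : B.ClT T) (hγ : B.IsT γ)
    {χ : B.I → Y → ℝ} {c : B.I → H → ℝ} (hχ : B.Pou χ c) :
    ∑ i, ∫ z, c i z * rr e (T i z) (γ i) z ∂μ = 0 := by
  have h1 : ∀ i, ∫ z, c i z * rr e (T i z) (γ i) z ∂μ = ∫ y, B.P10_G w T γ (χ i) y ∂ν := fun i =>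
    B.P10_loc hw hν hT hc hγ hχ i
  rw [Finset.sum_congr rfl fun i _ => h1 i, ← integral_finsetSum]
  · have h2 : (fun y => ∑ i, B.P10_G w T γ (χ i) y) = fun _ => (0 : ℝ) := funext fun y => B.P10_sum hχ y
    rw [h2, integral_zero]
  · intro i _
    have hcont := B.P10_cont hw hT hγ (hχ.sm i)
    obtain ⟨C, hC⟩ := (isCompact_univ (X := Y)).exists_bound_of_continuousOn hcont.continuousOn
    exact B.bd_int hν hcont.measurable fun y => hC y (Set.mem_univ y)

end BM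

end HDG
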