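import Pool.Agent.HDP.K0
import Pool.Agent.HDP.P10

/-!
# HDP/K1: the integral of `dd^c F ∧ γ ∧ T^(n-2)` is zero for a pluriclosed `γ`

With a partition of unity the function `F` is the sum of functions with support in one ball; there the integral is the
integral of the function times `rr e (T z) γ z` (integration by parts, `loc_rr`), and this is zero (`rr_of_psi`).
-/

set_option autoImplicit false

noncomputable section

open scoped ContDiff Topology

open MeasureTheory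

namespace HDG

open Pool.Agent.FBR

variable {H : Type*} [NormedAddCommGroup H] [NormedSpace ℂ H] {n : ℕ} {e : Module.Basis (Fin n) ℂ H}
  [FiniteDimensional ℂ H] [MeasurableSpace H] [BorelSpace H] {μ : Measure H} [μ.IsAddHaarMeasure]
  {Y : Type*} [TopologicalSpace Y] [CompactSpace Y] [T2Space Y] [MeasurableSpace Y] [BorelSpace Y]
  (B : BM e Y) {w b : B.I → H → Bil H} {ν : Measure Y}

omit [FiniteDimensional ℂ H] [MeasurableSpace H] [BorelSpace H] in
private theorem K1_lj (x y z : Bil H) (c : ℝ) :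
    (lj n 1 fun s => cf e (x + s • y) z / c) = mc e 1 x y z / c := by
  have h := lj_smul n 1 c⁻¹ (fun s => cf e (x + s • y) z)
  unfold mc
  rw [div_eq_inv_mul, ← h]
  refine congrArg (lj n 1) ?_
  funext s
  rw [div_eq_inv_mul]

omit [MeasurableSpace H] [BorelSpace H] in
set_option maxSynthPendingDepth 3 in
private theorem K1_zero (x z : Bil H) : mc e 1 x 0 z = 0 := by
  have h := c2_smul_left e x 0 (0 : Bil H) z
  rwa [smul_zero, zero_mul] at h

omit [FiniteDimensional ℂ H] [MeasurableSpace H] [BorelSpace H] in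
private theorem K1_ddc {f : H → ℝ} {z : H} (h1 : f =ᶠ[𝓝 z] fun _ => (0 : ℝ)) : ddc f z = 0 := by
  rw [ddc_congr h1]
  ext u v
  rw [ddc_apply]
  simp

omit [FiniteDimensional ℂ H] [MeasurableSpace H] [BorelSpace H] in
private theorem K1_psi {γ γ' : H → Bil H} {z : H} (h : γ =ᶠ[𝓝 z] γ') (u v : H) :
    psi γ z u v = psi γ' z u v := by
  have h1 : ∀ u v : H, ddc (fun z => γ z u v) z = ddc (fun z => γ' z u v) z := fun u v =>
    ddc_congr (h.mono fun z' hz' => by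
      show γ z' u v = γ' z' u v
      rw [hz'])
  unfold psi
  simp only [h1]

omit [FiniteDimensional ℂ H] [MeasurableSpace H] [BorelSpace H] in
private theorem K1_sub {z : H} (hz : qf e z ≤ (3 / 2 : ℝ) ^ 2) : z ∈ qb e (7 / 2) :=
  lt_of_le_of_lt hz (by norm_num)

omit [FiniteDimensional ℂ H] [MeasurableSpace H] [BorelSpace H] in
private theorem K1_sub' {z : H} (hz : qf e z ≤ (3 / 2 : ℝ) ^ 2) : z ∈ qb e 4 :=
  lt_of_le_of_lt hz (by norm_num)

namespace BM

/-- the density of `dd^c f ∧ γ ∧ T^(n-2)` -/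
private def K1_G (w T γ : B.I → H → Bil H) (f : Y → ℝ) (y : Y) : ℝ :=
  lj n 1 fun s => B.dcf w (T + s • B.dd f) γ y

omit [MeasurableSpace H] [BorelSpace H] [CompactSpace Y] [T2Space Y] [MeasurableSpace Y] [BorelSpace Y] in
private theorem K1_eq {T γ : B.I → H → Bil H} (f : Y → ℝ) (y : Y) :
    B.K1_G w T γ f y = mc e 1 (T (B.ix y) (B.cd y)) (B.dd f (B.ix y) (B.cd y)) (γ (B.ix y) (B.cd y)) /
      dt e (w (B.ix y) (B.cd y)) :=
  K1_lj (T (B.ix y) (B.cd y)) (B.dd f (B.ix y) (B.cd y)) (γ (B.ix y) (B.cd y)) (dt e (w (B.ix y) (B.cd y)))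

omit [MeasurableSpace H] [BorelSpace H] [CompactSpace Y] [T2Space Y] [MeasurableSpace Y] [BorelSpace Y] in
private theorem K1_box (hw : B.Met w) {T γ : B.I → H → Bil H} (hT : B.IsT T) (hγ : B.IsT γ) {f : Y → ℝ}
    (hf : B.Sm f) {i : B.I} {z : H} (hz : z ∈ qb e 4) :
    B.K1_G w T γ f (B.ψ i z) = mc e 1 (T i z) (B.dd f i z) (γ i z) / dt e (w i z) := by
  rw [← K1_lj]
  unfold K1_G
  refine congrArg (lj n 1) ?_
  funext s
  exact B.dcf_box hw (B.IsT_add hT (B.IsT_smul (B.IsT_dd hf) s)) hγ hz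

omit [MeasurableSpace H] [BorelSpace H] [CompactSpace Y] [T2Space Y] [MeasurableSpace Y] [BorelSpace Y] in
private theorem K1_cont (hw : B.Met w) {T γ : B.I → H → Bil H} (hT : B.IsT T) (hγ : B.IsT γ) {f : Y → ℝ}
    (hf : B.Sm f) : Continuous (B.K1_G w T γ f) := by
  have h1 : B.K1_G w T γ f = fun y => ∑ k ∈ Finset.range (n + 1),
      (Lagrange.basis (Finset.range (n + 1)) (fun k : ℕ => (k : ℝ)) k).coeff 1 *
        B.dcf w (T + (k : ℝ) • B.dd f) γ y := rfl
  rw [h1]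
  exact continuous_finsetSum _ fun k _ => continuous_const.mul
    (B.dcf_cont hw (B.IsT_add hT (B.IsT_smul (B.IsT_dd hf) (k : ℝ))) hγ)

omit [MeasurableSpace H] [BorelSpace H] [CompactSpace Y] [MeasurableSpace Y] [BorelSpace Y] in
private theorem K1_out {f : Y → ℝ} {c : H → ℝ} (i : B.I) (hcs : tsupport c ⊆ {z | qf e z ≤ (3 / 2) ^ 2})
    (heq : ∀ z ∈ qb e 4, f (B.ψ i z) = c z) (hout : ∀ y, (∀ z ∈ qb e 4, B.ψ i z ≠ y) → f y = 0) {y : Y}
    (hy : ∀ z ∈ qb e 4, B.ψ i z ≠ y) : ∀ᶠ y' in 𝓝 y, f y' = 0 := by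
  have hK : IsClosed (B.ψ i '' {z | qf e z ≤ (3 / 2 : ℝ) ^ 2}) :=
    ((isCompact_qb e (3 / 2)).image_of_continuousOn
      ((B.cont i).mono fun z hz => K1_sub' hz)).isClosed
  have hy' : y ∈ (B.ψ i '' {z | qf e z ≤ (3 / 2 : ℝ) ^ 2})ᶜ := by
    rintro ⟨z, hz, hzy⟩
    exact hy z (K1_sub' hz) hzy
  filter_upwards [hK.isOpen_compl.mem_nhds hy'] with y' hy1
  by_cases h : ∃ z ∈ qb e 4, B.ψ i z = y'
  · obtain ⟨z, hz, rfl⟩ := h
    rw [heq z hz]
    have h2 : z ∉ tsupport c := fun h3 => hy1 ⟨z, hcs h3, rfl⟩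
    exact image_eq_zero_of_notMem_tsupport h2
  · push Not at h
    exact hout y' h

omit [MeasurableSpace H] [BorelSpace H] [CompactSpace Y] [MeasurableSpace Y] [BorelSpace Y] in
private theorem K1_h0 {T γ : B.I → H → Bil H} {f : Y → ℝ} {c : H → ℝ} (i : B.I)
    (hcs : tsupport c ⊆ {z | qf e z ≤ (3 / 2) ^ 2})
    (heq : ∀ z ∈ qb e 4, f (B.ψ i z) = c z) (hout : ∀ y, (∀ z ∈ qb e 4, B.ψ i z ≠ y) → f y = 0) {y : Y}
    (hy : ∀ z ∈ qb e 4, B.ψ i z ≠ y) : B.K1_G w T γ f y = 0 := by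
  have hz : B.cd y ∈ qb e 4 := qb_mono (by norm_num) (by norm_num) (B.cd_mem y)
  have h1 : B.dd f (B.ix y) (B.cd y) = 0 := by
    refine K1_ddc ?_
    have h2 : ContinuousAt (B.ψ (B.ix y)) (B.cd y) :=
      (B.cont (B.ix y)).continuousAt ((isOpen_qb e 4).mem_nhds hz)
    have h3 : ∀ᶠ y' in 𝓝 (B.ψ (B.ix y) (B.cd y)), f y' = 0 := by
      rw [B.ψ_cd]
      exact B.K1_out i hcs heq hout hy
    exact h2.eventually h3
  rw [K1_eq, h1, K1_zero, zero_div]

omit [CompactSpace Y] in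
/-- the integral for a function with support in one ball -/
private theorem K1_loc (hw : B.Met w) (hν : B.IsVol μ w ν) {T γ : B.I → H → Bil H} (hT : B.IsT T)
    (hc : B.ClT T) (hγ : B.IsT γ) (hpsi : ∀ i, ∀ z ∈ qb e 4, ∀ u v : H, psi (γ i) z u v = 0)
    {f : Y → ℝ} (hf : B.Sm f) {c : H → ℝ} (i : B.I) (hcsm : ContDiff ℝ ∞ c)
    (hcs : tsupport c ⊆ {z | qf e z ≤ (3 / 2) ^ 2})
    (heq : ∀ z ∈ qb e 4, f (B.ψ i z) = c z) (hout : ∀ y, (∀ z ∈ qb e 4, B.ψ i z ≠ y) → f y = 0) :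
    ∫ y, B.K1_G w T γ f y ∂ν = 0 := by
  have hm : MeasurableSet (qb e 4 : Set H) := (isOpen_qb e 4).measurableSet
  obtain ⟨T', hT1, hT2, hT3, hT4⟩ := B.loc_ten hT i
  obtain ⟨γ', hγ1, hγ2, hγ3, -⟩ := B.loc_ten hγ i
  have hle : ∀ z ∈ qb e (7 / 2), qf e z ≤ (7 / 2 : ℝ) ^ 2 := fun z hz => le_of_lt hz
  have hcs' : ∀ z ∈ tsupport c, z ∈ qb e (7 / 2) := fun z hz => K1_sub (hcs hz)
  have hcomp : HasCompactSupport c :=
    (isCompact_qb e (3 / 2)).of_isClosed_subset (isClosed_tsupport _) hcs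
  have h0 : ∀ z, z ∉ tsupport c → ddc c z = 0 := fun z hz =>
    K1_ddc (notMem_tsupport_iff_eventuallyEq.1 hz)
  have h1 : ∫ z, c z * rr e (T' z) γ' z ∂μ = 0 := by
    have h5 : (fun z => c z * rr e (T' z) γ' z) = fun _ => (0 : ℝ) := by
      funext z
      by_cases hz : z ∈ tsupport c
      · have hz' := hcs' z hz
        have h6 : (γ i) =ᶠ[𝓝 z] γ' := by
          filter_upwards [(isOpen_qb e (7 / 2)).mem_nhds hz'] with z' hz1
          exact (hγ3 z' (hle z' hz1)).symm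
        have h7 : rr e (T' z) γ' z = 0 := by
          refine rr_of_psi e (hT2 z) hγ1 hγ2 fun u v => ?_
          rw [← K1_psi h6]
          exact hpsi i z (K1_sub' (hcs hz)) u v
        rw [h7, mul_zero]
      · rw [image_eq_zero_of_notMem_tsupport hz, zero_mul]
    rw [h5, integral_zero]
  have h2 := loc_rr e μ (T := T') (U := qb e (7 / 2)) ⟨hT1, hT2, hT4 hc⟩ (isOpen_qb e (7 / 2)) hγ1 hγ2
    hcsm hcomp hcs'
  rw [h1] at h2
  rw [B.box_int hw hν i (B.K1_cont hw hT hγ hf).measurable fun y hy => B.K1_h0 i hcs heq hout hy]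
  have h3 : ∫ z in qb e 4, B.K1_G w T γ f (B.ψ i z) * dt e (w i z) ∂μ =
      ∫ z in qb e 4, mc e 1 (T' z) (ddc c z) (γ' z) ∂μ := by
    refine setIntegral_congr_fun hm fun z hz => ?_
    show B.K1_G w T γ f (B.ψ i z) * dt e (w i z) = mc e 1 (T' z) (ddc c z) (γ' z)
    rw [B.K1_box hw hT hγ hf hz, div_mul_cancel₀ _ (B.dt_w_pos hw hz).ne']
    have h4 : B.dd f i z = ddc c z := by
      refine ddc_congr ?_
      filter_upwards [(isOpen_qb e 4).mem_nhds hz] with z' hz'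
      exact heq z' hz'
    rw [h4]
    by_cases hz1 : z ∈ tsupport c
    · have hz' := hcs' z hz1
      rw [hT3 z (hle z hz'), hγ3 z (hle z hz')]
    · rw [h0 z hz1, K1_zero, K1_zero]
  rw [h3, h2]
  refine setIntegral_eq_integral_of_forall_compl_eq_zero fun z hz => ?_
  have hz1 : z ∉ tsupport c := fun h => hz (K1_sub' (hcs h))
  rw [h0 z hz1, K1_zero]

theorem int_pc (hw : B.Met w) (hν : B.IsVol μ w ν) {T γ : B.I → H → Bil H} (hT : B.IsT T) (hc : B.ClT T) (hγ : B.IsT γ)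
    (hpsi : ∀ i, ∀ z ∈ qb e 4, ∀ u v : H, psi (γ i) z u v = 0) {F : Y → ℝ} (hF : B.Sm F) :
    ∫ y, (lj n 1 fun s => B.dcf w (T + s • B.dd F) γ y) ∂ν = 0 := by
  obtain ⟨χ, c, hχ⟩ := B.exists_pou
  have hsm : ∀ i, B.Sm fun y => χ i y * F y := fun i => B.Sm_mul (hχ.sm i) hF
  have h1 : ∀ i, ∫ y, B.K1_G w T γ (fun y => χ i y * F y) y ∂ν = 0 := by
    intro i
    obtain ⟨φ, hφ, hφ1, -⟩ := B.loc_fun hF i
    have hsub : tsupport (fun z => c i z * φ z) ⊆ tsupport (c i) :=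
      closure_mono fun z hz => by
        rw [Function.mem_support] at hz ⊢
        exact fun h => hz (by rw [h, zero_mul])
    refine B.K1_loc hw hν hT hc hγ hpsi (hsm i) (c := fun z => c i z * φ z) i ((hχ.csm i).mul hφ)
      (hsub.trans (hχ.cs i)) ?_ ?_
    · intro z hz
      show χ i (B.ψ i z) * F (B.ψ i z) = c i z * φ z
      rw [hχ.eq i z hz]
      by_cases h2 : z ∈ tsupport (c i)
      · have h3 : qf e z ≤ (7 / 2 : ℝ) ^ 2 := le_of_lt (K1_sub (hχ.cs i h2))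
        rw [hφ1 z h3]
      · rw [image_eq_zero_of_notMem_tsupport h2, zero_mul, zero_mul]
    · intro y hy
      show χ i y * F y = 0
      rw [hχ.out i y hy, zero_mul]
  have h2 : (fun y => lj n 1 fun s => B.dcf w (T + s • B.dd F) γ y) =
      fun y => ∑ i, B.K1_G w T γ (fun y => χ i y * F y) y := by
    funext y
    have hz : B.cd y ∈ qb e 4 := qb_mono (by norm_num) (by norm_num) (B.cd_mem y)
    have h3 : B.dd F (B.ix y) (B.cd y) =
        ∑ i, B.dd (fun y => χ i y * F y) (B.ix y) (B.cd y) := by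
      rw [← B.dd_sum Finset.univ (fun i _ => hsm i) hz]
      have h4 : (fun y => ∑ k, χ k y * F y) = F := by
        funext y
        rw [← Finset.sum_mul, hχ.sum, one_mul]
      rw [h4]
    show B.K1_G w T γ F y = _
    simp only [K1_eq]
    rw [h3, c2_sum_left, Finset.sum_div]
  rw [h2, integral_finsetSum]
  · exact Finset.sum_eq_zero fun i _ => h1 i
  · intro i _
    have hcont := B.K1_cont hw hT hγ (hsm i)
    obtain ⟨C, hC⟩ := (isCompact_univ (X := Y)).exists_bound_of_continuousOn hcont.continuousOn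
    exact B.bd_int hν hcont.measurable fun y => hC y (Set.mem_univ y)

end BM

end HDG
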