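import Pool.Agent.HDP.K1

/-!
# HDP/K2: the mass of `T_F^(n-1) ∧ γ` does not depend on `F`, for a pluriclosed `γ`

`Q t`, the integral of `B.dcf w (b + t • B.dd F) γ`, is a polynomial in `t` (Lagrange interpolation at `0, ..., n` under the integral sign). Its derivative at `t` is
`lj n 1 fun s => Q (t + s)`, which is zero by `int_pc` for the closed tensor `b + t • B.dd F`.
-/

set_option autoImplicit false

noncomputable section

open scoped ContDiff Topology

open MeasureTheory

namespace HDG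

open Pool.Agent.FBR

variable {H : Type*} [NormedAddCommGroup H] [NormedSpace ℂ H] {n : ℕ} {e : Module.Basis (Fin n) ℂ H}
  [FiniteDimensional ℂ H] [MeasurableSpace H] [BorelSpace H] {μ : Measure H} [μ.IsAddHaarMeasure]
  {Y : Type*} [TopologicalSpace Y] [CompactSpace Y] [T2Space Y] [MeasurableSpace Y] [BorelSpace Y]
  (B : BM e Y) {w b : B.I → H → Bil H} {ν : Measure Y}

private theorem K2_inj (n : ℕ) : Set.InjOn (fun k : ℕ => (k : ℝ)) (Finset.range (n + 1) : Set ℕ) := fun _ _ _ _ hab =>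
  Nat.cast_injective (R := ℝ) hab

private theorem K2_interp {n : ℕ} {P : Polynomial ℝ} (hP : P.degree < n) (t : ℝ) :
    P.eval t = ∑ k ∈ Finset.range (n + 1),
      (Lagrange.basis (Finset.range (n + 1)) (fun k : ℕ => (k : ℝ)) k).eval t * P.eval (k : ℝ) := by
  have hdeg : P.degree < (Finset.range (n + 1)).card := by
    rw [Finset.card_range]
    exact lt_trans hP (by exact_mod_cast Nat.lt_succ_self n)
  have h := Lagrange.eq_interpolate (K2_inj n) hdeg
  rw [Lagrange.interpolate_apply] at h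
  have h2 := congrArg (Polynomial.eval t) h
  rw [h2, Polynomial.eval_finsetSum]
  refine Finset.sum_congr rfl fun k _ => ?_
  rw [Polynomial.eval_mul, Polynomial.eval_C, mul_comm]

private theorem K2_const {n : ℕ} {Q : ℝ → ℝ}
    (hQ : ∀ t, Q t = ∑ k ∈ Finset.range (n + 1),
      (Lagrange.basis (Finset.range (n + 1)) (fun k : ℕ => (k : ℝ)) k).eval t * Q k)
    (h0 : ∀ t, lj n 1 (fun s => Q (t + s)) = 0) (t t' : ℝ) : Q t = Q t' := by
  obtain ⟨R, hR⟩ : ∃ R : Polynomial ℝ,
      R = Lagrange.interpolate (Finset.range (n + 1)) (fun k : ℕ => (k : ℝ)) (fun k : ℕ => Q k) := ⟨_, rfl⟩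
  have hdeg : R.natDegree ≤ n := by
    have h1 := Lagrange.degree_interpolate_lt (fun k : ℕ => Q k) (K2_inj n)
    rw [← hR, Finset.card_range] at h1
    rw [Polynomial.natDegree_le_iff_coeff_eq_zero]
    intro N hN
    exact Polynomial.coeff_eq_zero_of_degree_lt (lt_of_lt_of_le h1 (by exact_mod_cast hN))
  have hev : ∀ t, Q t = R.eval t := by
    intro t
    rw [hQ t, hR, Lagrange.interpolate_apply, Polynomial.eval_finsetSum]
    refine Finset.sum_congr rfl fun k _ => ?_
    rw [Polynomial.eval_mul, Polynomial.eval_C, mul_comm]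
  have hd : R.derivative = 0 := by
    refine Polynomial.funext fun t => ?_
    have h1 : lj n 1 (fun s => Q (t + s)) = (Polynomial.taylor t R).coeff 1 := by
      refine lj_poly 1 ?_ fun k _ => ?_
      · rw [Polynomial.natDegree_taylor]
        exact hdeg
      · rw [Polynomial.taylor_eval, hev, add_comm]
    rw [h0, Polynomial.taylor_coeff_one] at h1
    rw [← h1, Polynomial.eval_zero]
  have hc := Polynomial.derivative_eq_zero.1 hd
  obtain ⟨c, hc⟩ := Polynomial.natDegree_eq_zero.1 hc
  rw [hev, hev, ← hc, Polynomial.eval_C, Polynomial.eval_C]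

omit [FiniteDimensional ℂ H] [MeasurableSpace H] [BorelSpace H] in
private theorem K2_zs (x : Bil H) : (0 : ℝ) • x = 0 :=
  ContinuousLinearMap.ext fun u => ContinuousLinearMap.ext fun v => zero_mul (x u v)

omit [FiniteDimensional ℂ H] [MeasurableSpace H] [BorelSpace H] in
private theorem K2_add0 (x : Bil H) : x + 0 = x :=
  ContinuousLinearMap.ext fun u => ContinuousLinearMap.ext fun v => add_zero (x u v)

omit [FiniteDimensional ℂ H] [MeasurableSpace H] [BorelSpace H] in
private theorem K2_assoc (a x : Bil H) (t s : ℝ) : a + (t + s) • x = a + t • x + s • x :=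
  ContinuousLinearMap.ext fun u => ContinuousLinearMap.ext fun v => by
    show a u v + (t + s) * x u v = a u v + t * x u v + s * x u v
    ring

omit [T2Space Y] in
private theorem K2_int {ν : Measure Y} (hν : IsFiniteMeasure ν) {f : Y → ℝ} (hf : Continuous f) : Integrable f ν := by
  have := hν
  exact hf.integrable_of_hasCompactSupport (HasCompactSupport.of_compactSpace f)

namespace BM

theorem dcf_pc (hw : B.Met w) (hν : B.IsVol μ w ν) (hb : B.IsT b) (hc : B.ClT b) {γ : B.I → H → Bil H} (hγ : B.IsT γ)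
    (hpsi : ∀ i, ∀ z ∈ qb e 4, ∀ u v : H, psi (γ i) z u v = 0) {F : Y → ℝ} (hF : B.Sm F) :
    ∫ y, B.dcf w (b + B.dd F) γ y ∂ν = ∫ y, B.dcf w b γ y ∂ν := by
  obtain ⟨Q, hQ⟩ : ∃ Q : ℝ → ℝ, Q = fun t => ∫ y, B.dcf w (b + t • B.dd F) γ y ∂ν := ⟨_, rfl⟩
  have hQt : ∀ t, Q t = ∫ y, B.dcf w (b + t • B.dd F) γ y ∂ν := fun t => by rw [hQ]
  have hT : ∀ t : ℝ, B.IsT (b + t • B.dd F) := fun t => B.IsT_add hb (B.IsT_smul (B.IsT_dd hF) t)
  have hcl : ∀ t : ℝ, B.ClT (b + t • B.dd F) := fun t =>
    B.ClT_add hb (B.IsT_smul (B.IsT_dd hF) t) hc (B.ClT_smul (B.IsT_dd hF) (B.ClT_dd hF) t)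
  have hint : ∀ t : ℝ, Integrable (B.dcf w (b + t • B.dd F) γ) ν := fun t =>
    K2_int hν.fin (B.dcf_cont hw (hT t) hγ)
  have hA : ∀ y t, B.dcf w (b + t • B.dd F) γ y = ∑ k ∈ Finset.range (n + 1),
      (Lagrange.basis (Finset.range (n + 1)) (fun k : ℕ => (k : ℝ)) k).eval t * B.dcf w (b + (k : ℝ) • B.dd F) γ y := by
    intro y t
    obtain ⟨P, h1, h2⟩ := cf_poly e (b (B.ix y) (B.cd y)) (B.dd F (B.ix y) (B.cd y)) (γ (B.ix y) (B.cd y))
    have h3 : ∀ s : ℝ, B.dcf w (b + s • B.dd F) γ y = P.eval s / dt e (w (B.ix y) (B.cd y)) := by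
      intro s
      rw [← h2 s]
      rfl
    rw [h3 t, K2_interp h1 t, Finset.sum_div]
    refine Finset.sum_congr rfl fun k _ => ?_
    rw [h3 k, mul_div_assoc]
  have hB : ∀ t, Q t = ∑ k ∈ Finset.range (n + 1),
      (Lagrange.basis (Finset.range (n + 1)) (fun k : ℕ => (k : ℝ)) k).eval t * Q k := by
    intro t
    rw [hQt t, integral_congr_ae (Filter.Eventually.of_forall fun y => hA y t), integral_finsetSum]
    · refine Finset.sum_congr rfl fun k _ => ?_
      rw [integral_const_mul, hQt k]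
    · intro k _
      exact (hint k).const_mul _
  have h0 : ∀ t, lj n 1 (fun s => Q (t + s)) = 0 := by
    intro t
    have h1 := B.int_pc hw hν (hT t) (hcl t) hγ hpsi hF
    rw [← h1]
    simp only [lj]
    rw [integral_finsetSum]
    · refine Finset.sum_congr rfl fun k _ => ?_
      rw [integral_const_mul, hQt]
      have h2 : b + (t + (k : ℝ)) • B.dd F = b + t • B.dd F + (k : ℝ) • B.dd F :=
        funext fun i => funext fun z => K2_assoc _ _ _ _
      rw [h2]
    · intro k _
      refine Integrable.const_mul ?_ _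
      have h2 : b + (t + (k : ℝ)) • B.dd F = b + t • B.dd F + (k : ℝ) • B.dd F :=
        funext fun i => funext fun z => K2_assoc _ _ _ _
      rw [← h2]
      exact hint _
  have h1 := K2_const hB h0 1 0
  have h2 : b + (0 : ℝ) • B.dd F = b := by
    refine funext fun i => funext fun z => ?_
    show b i z + (0 : ℝ) • B.dd F i z = b i z
    rw [K2_zs, K2_add0]
  have h3 : b + (1 : ℝ) • B.dd F = b + B.dd F := by
    rw [one_smul]
  rw [hQt, hQt, h2, h3] at h1
  exact h1

end BM

end HDG
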