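import Pool.Agent.HDP.P8

/-!
# HDP/K3a: a perturbation of `cf`

The function `t ↦ cf e (a + s x + t x) X` is a polynomial of degree at most `n`, its coefficients are bounded by its values at
`0, .., n` (Lagrange interpolation). These values are at most `C1 R cf e (a + s x + K w0) w0` with `K = n C0`, and this is
compared termwise with `cf e (a + s x + c1 w0) w0` in terms of the eigenvalues.
-/

set_option autoImplicit false

noncomputable section

open scoped ContDiff Topology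

open MeasureTheory

namespace HDG

open Pool.Agent.FBR

variable {H : Type*} [NormedAddCommGroup H] [NormedSpace ℂ H] [FiniteDimensional ℂ H] {n : ℕ}
  (e : Module.Basis (Fin n) ℂ H)

omit [FiniteDimensional ℂ H] in
private theorem K3a_z (a x : Bil H) : a + (0 : ℝ) • x = a := by
  refine ContinuousLinearMap.ext fun u => ContinuousLinearMap.ext fun v => ?_
  have h : (a + (0 : ℝ) • x) u v = a u v + 0 * x u v := rfl
  rw [h, zero_mul, add_zero]

omit [FiniteDimensional ℂ H] in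
private theorem K3a_back (a x : Bil H) (s : ℝ) : a + s • x + (-s) • x = a := by
  refine ContinuousLinearMap.ext fun u => ContinuousLinearMap.ext fun v => ?_
  have h : (a + s • x + (-s) • x) u v = a u v + s * x u v + (-s) * x u v := rfl
  rw [h]
  ring

private theorem K3a_w0 : Nn (w0 e : Bil H) := by
  intro v
  rw [w0_self]
  exact qf_nonneg e v

/-- a polynomial of degree at most `n` which is bounded by `B` at `0, .., n` -/
private theorem K3a_lag (n : ℕ) : ∃ L : ℝ, 0 ≤ L ∧ ∀ (P : Polynomial ℝ) (B s : ℝ), P.natDegree ≤ n →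
    (∀ k : ℕ, k ≤ n → |P.eval (k : ℝ)| ≤ B) → 0 ≤ s → s ≤ 1 → |P.eval (-s) - P.eval 0| ≤ L * s * B := by
  refine ⟨∑ j ∈ Finset.range n, ∑ k ∈ Finset.range (n + 1),
    |(Lagrange.basis (Finset.range (n + 1)) (fun k : ℕ => (k : ℝ)) k).coeff (j + 1)|,
    Finset.sum_nonneg fun _ _ => Finset.sum_nonneg fun _ _ => abs_nonneg _, ?_⟩
  intro P B s hP hB hs hs1
  have h1 : ∀ t : ℝ, P.eval t = ∑ j ∈ Finset.range n, P.coeff (j + 1) * t ^ (j + 1) + P.coeff 0 := by
    intro t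
    rw [Polynomial.eval_eq_sum_range' (Nat.lt_succ_iff.2 hP) t, Finset.sum_range_succ']
    rw [pow_zero, mul_one]
  have h2 : P.eval (-s) - P.eval 0 = ∑ j ∈ Finset.range n, P.coeff (j + 1) * (-s) ^ (j + 1) := by
    rw [h1 (-s), h1 0]
    have h3 : ∑ j ∈ Finset.range n, P.coeff (j + 1) * (0 : ℝ) ^ (j + 1) = 0 :=
      Finset.sum_eq_zero fun j _ => by rw [zero_pow (Nat.succ_ne_zero j), mul_zero]
    rw [h3]
    ring
  rw [h2, mul_assoc, Finset.sum_mul]
  refine (Finset.abs_sum_le_sum_abs _ _).trans (Finset.sum_le_sum fun j _ => ?_)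
  have h4 : |P.coeff (j + 1)| ≤ (∑ k ∈ Finset.range (n + 1),
      |(Lagrange.basis (Finset.range (n + 1)) (fun k : ℕ => (k : ℝ)) k).coeff (j + 1)|) * B := by
    rw [← lj_poly (j + 1) hP (f := fun t => P.eval t) fun k _ => rfl]
    unfold lj
    rw [Finset.sum_mul]
    refine (Finset.abs_sum_le_sum_abs _ _).trans (Finset.sum_le_sum fun k hk => ?_)
    rw [abs_mul]
    exact mul_le_mul_of_nonneg_left (hB k (Nat.lt_succ_iff.1 (Finset.mem_range.1 hk))) (abs_nonneg _)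
  have h5 : |(-s) ^ (j + 1)| ≤ s := by
    rw [abs_pow, abs_neg, abs_of_nonneg hs, pow_succ]
    have h6 : s ^ j ≤ 1 := pow_le_one₀ hs hs1
    exact mul_le_of_le_one_left hs h6
  rw [abs_mul]
  calc |P.coeff (j + 1)| * |(-s) ^ (j + 1)| ≤ ((∑ k ∈ Finset.range (n + 1),
      |(Lagrange.basis (Finset.range (n + 1)) (fun k : ℕ => (k : ℝ)) k).coeff (j + 1)|) * B) * s :=
        mul_le_mul h4 h5 (abs_nonneg _) ((abs_nonneg _).trans h4)
    _ = _ := by ring

/-- a form with norm at most `R` against `w0` -/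
private theorem K3a_abs {R : ℝ} (hR : 0 ≤ R) : ∃ C : ℝ, 0 ≤ C ∧ ∀ b X : Bil H, O11 b → O11 X → Nn b → ‖X‖ ≤ R →
    |cf e b X| ≤ C * cf e b (w0 e) := by
  obtain ⟨C1, hC1, hF⟩ := form_le e
  refine ⟨C1 * R, by positivity, fun b X hb hX hbn hXR => ?_⟩
  have hbd : ∀ v : H, |X v (Complex.I • v)| ≤ C1 * R * qf e v := by
    intro v
    refine (hF X v).trans ?_
    exact mul_le_mul_of_nonneg_right (mul_le_mul_of_nonneg_left hXR hC1.le) (qf_nonneg e v)
  have h1 : 0 ≤ cf e b ((C1 * R) • w0 e + (1 : ℝ) • X) := by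
    refine cf_nonneg e hb (O11_add (O11_smul _ (w0_O11 e)) (O11_smul _ hX)) hbn fun v => ?_
    have h : ((C1 * R) • w0 e + (1 : ℝ) • X) v (Complex.I • v) =
      (C1 * R) * w0 e v (Complex.I • v) + 1 * X v (Complex.I • v) := rfl
    rw [h, w0_self]
    have h' := (abs_le.1 (hbd v)).1
    linarith
  have h2 : 0 ≤ cf e b ((C1 * R) • w0 e + (-1 : ℝ) • X) := by
    refine cf_nonneg e hb (O11_add (O11_smul _ (w0_O11 e)) (O11_smul _ hX)) hbn fun v => ?_
    have h : ((C1 * R) • w0 e + (-1 : ℝ) • X) v (Complex.I • v) =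
      (C1 * R) * w0 e v (Complex.I • v) + (-1) * X v (Complex.I • v) := rfl
    rw [h, w0_self]
    have h' := (abs_le.1 (hbd v)).2
    linarith
  rw [cf_add, cf_smul, cf_smul] at h1 h2
  rw [abs_le]
  constructor <;> linarith

private theorem K3a_le {K c1 : ℝ} (hK : 0 ≤ K) (hc : 0 < c1) : ∃ C : ℝ, 0 ≤ C ∧ ∀ b : Bil H, O11 b → Nn b →
    cf e (b + K • w0 e) (w0 e) ≤ C * cf e (b + c1 • w0 e) (w0 e) := by
  obtain ⟨D, hD⟩ : ∃ D : ℝ, D = 1 + K / c1 := ⟨_, rfl⟩
  have hD1 : 1 ≤ D := by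
    rw [hD]
    have : 0 ≤ K / c1 := by positivity
    linarith
  refine ⟨D ^ n, by positivity, fun b hb hbn => ?_⟩
  obtain ⟨l, -, h2, h3⟩ := exists_eig e hb
  have hl : ∀ i, 0 ≤ l i := by
    have h4 := (h3 0).1
    rw [K3a_z] at h4
    intro i
    have h6 := h4 hbn i
    linarith
  rw [h2, h2, Finset.mul_sum]
  refine Finset.sum_le_sum fun i _ => ?_
  have h1 : ∏ j ∈ Finset.univ.erase i, (l j + K) ≤ ∏ j ∈ Finset.univ.erase i, (D * (l j + c1)) := by
    refine Finset.prod_le_prod (fun j _ => by linarith [hl j]) fun j _ => ?_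
    have h2 : D * (l j + c1) = l j + c1 + K * (l j / c1) + K := by
      rw [hD]
      field_simp
      ring
    have h3 : 0 ≤ K * (l j / c1) := mul_nonneg hK (div_nonneg (hl j) hc.le)
    linarith
  rw [Finset.prod_mul_distrib, Finset.prod_const] at h1
  have hcard : (Finset.univ.erase i).card ≤ n := by
    refine (Finset.card_le_univ _).trans ?_
    rw [Fintype.card_fin]
  have hP : 0 ≤ ∏ j ∈ Finset.univ.erase i, (l j + c1) :=
    Finset.prod_nonneg fun j _ => by linarith [hl j]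
  exact h1.trans (mul_le_mul_of_nonneg_right (pow_le_pow_right₀ hD1 hcard) hP)

theorem cf_err {R C0 c1 : ℝ} (hR : 0 ≤ R) (hC0 : 0 ≤ C0) (hc : 0 < c1) : ∃ C : ℝ, 0 ≤ C ∧ ∀ (a x X : Bil H) (s : ℝ),
    O11 a → O11 x → O11 X → Nn x → Nn (C0 • w0 e - x) → 0 ≤ s → s ≤ 1 → Nn (a + s • x) → ‖X‖ ≤ R →
    |cf e a X - cf e (a + s • x) X| ≤ C * s * cf e (a + s • x + c1 • w0 e) (w0 e) := by
  obtain ⟨L, hL, hL2⟩ := K3a_lag n
  obtain ⟨C1, hC1, h1⟩ := K3a_abs e hR
  have hK : 0 ≤ (n : ℝ) * C0 := mul_nonneg (Nat.cast_nonneg n) hC0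
  obtain ⟨C2, hC2, h2⟩ := K3a_le e hK hc
  refine ⟨L * (C1 * C2), mul_nonneg hL (mul_nonneg hC1 hC2), ?_⟩
  intro a x X s ha hx hX hnx hnx' hs hs1 hn hXR
  obtain ⟨b, hb⟩ : ∃ b : Bil H, b = a + s • x := ⟨_, rfl⟩
  have hb11 : O11 b := by
    rw [hb]
    exact O11_add ha (O11_smul s hx)
  have hab : a = b + (-s) • x := by rw [hb, K3a_back]
  rw [← hb] at hn ⊢
  obtain ⟨P, hP, hP2⟩ := cf_poly e b x X
  have hB : ∀ k : ℕ, k ≤ n → |P.eval (k : ℝ)| ≤ C1 * C2 * cf e (b + c1 • w0 e) (w0 e) := by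
    intro k hk
    rw [← hP2]
    have hk0 : (0 : ℝ) ≤ k := Nat.cast_nonneg k
    have hkn : (k : ℝ) ≤ n := Nat.cast_le.2 hk
    have g1 : O11 (b + (k : ℝ) • x) := O11_add hb11 (O11_smul _ hx)
    have g2 : Nn (b + (k : ℝ) • x) := by
      intro v
      have h : (b + (k : ℝ) • x) v (Complex.I • v) = b v (Complex.I • v) + k * x v (Complex.I • v) := rfl
      rw [h]
      exact add_nonneg (hn v) (mul_nonneg hk0 (hnx v))
    have g3 : O11 (b + ((n : ℝ) * C0) • w0 e) := O11_add hb11 (O11_smul _ (w0_O11 e))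
    have g4 : Nn (b + ((n : ℝ) * C0) • w0 e - (b + (k : ℝ) • x)) := by
      intro v
      have h : (b + ((n : ℝ) * C0) • w0 e - (b + (k : ℝ) • x)) v (Complex.I • v) =
        b v (Complex.I • v) + ((n : ℝ) * C0) * w0 e v (Complex.I • v) -
          (b v (Complex.I • v) + k * x v (Complex.I • v)) := rfl
      have h' := hnx' v
      have h'' : (C0 • w0 e - x) v (Complex.I • v) = C0 * w0 e v (Complex.I • v) - x v (Complex.I • v) := rfl
      rw [h''] at h'
      rw [h]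
      have i1 := mul_nonneg hk0 h'
      have i2 := mul_nonneg (sub_nonneg.2 hkn) (mul_nonneg hC0 (K3a_w0 e v))
      nlinarith
    have g5 : Nn (w0 e - w0 e : Bil H) := by
      intro v
      have h : (w0 e - w0 e : Bil H) v (Complex.I • v) = w0 e v (Complex.I • v) - w0 e v (Complex.I • v) := rfl
      rw [h, sub_self]
    have i1 := h1 (b + (k : ℝ) • x) X g1 hX g2 hXR
    have i2 := cf_mono e g1 g3 (w0_O11 e) (w0_O11 e) g2 g4 (K3a_w0 e) g5
    have i3 := h2 b hb11 hn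
    calc |cf e (b + (k : ℝ) • x) X| ≤ C1 * cf e (b + (k : ℝ) • x) (w0 e) := i1
      _ ≤ C1 * (C2 * cf e (b + c1 • w0 e) (w0 e)) := mul_le_mul_of_nonneg_left (i2.trans i3) hC1
      _ = _ := by ring
  have h3 := hL2 P _ s (Polynomial.natDegree_le_of_degree_le hP.le) hB hs hs1
  rw [← hP2, ← hP2, K3a_z, ← hab] at h3
  refine h3.trans (le_of_eq ?_)
  ring

end HDG
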