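import Pool.Agent.HDP.K2
import Pool.Agent.HDP.K3a
import Pool.Agent.HDW.W10

/-!
# HDP/K3: the masses for a pluriclosed metric

By `dcf_pc` the mass of `b + dd F` against `w` does not depend on `F`; the perturbation by `ε • w` changes the density by at most
`C ε` times the density for `ε + 1 / 2` (`cf_err`, `cf_mono`), whose integral is bounded by the weighted mass estimate `mass_w`
if `F` is bounded.
-/

set_option autoImplicit false

noncomputable section

open scoped ContDiff Topology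

open MeasureTheory

namespace HDG

open Pool.Agent.FBR

variable {H : Type*} [NormedAddCommGroup H] [NormedSpace ℂ H] {n : ℕ} {e : Module.Basis (Fin n) ℂ H}
  [FiniteDimensional ℂ H] [MeasurableSpace H] [BorelSpace H] {μ : Measure H} [μ.IsAddHaarMeasure]
  {Y : Type*} [TopologicalSpace Y] [CompactSpace Y] [T2Space Y] [MeasurableSpace Y] [BorelSpace Y]
  (B : BM e Y) {w b : B.I → H → Bil H} {ν : Measure Y}

omit [MeasurableSpace H] [BorelSpace H] [FiniteDimensional ℂ H] in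
private theorem K3_app (a x : Bil H) (s : ℝ) (v : H) :
    (a + s • x) v (Complex.I • v) = a v (Complex.I • v) + s * x v (Complex.I • v) := rfl

omit [MeasurableSpace H] [BorelSpace H] in
private theorem K3_pt {R C0 c0 C : ℝ} (hc0 : 0 < c0) (hC : 0 ≤ C)
    (h : ∀ (a x X : Bil H) (s : ℝ),
      O11 a → O11 x → O11 X → Nn x → Nn (C0 • w0 e - x) → 0 ≤ s → s ≤ 1 → Nn (a + s • x) → ‖X‖ ≤ R →
      |cf e a X - cf e (a + s • x) X| ≤ C * s * cf e (a + s • x + (c0 / 2) • w0 e) (w0 e))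
    {a x : Bil H} {s : ℝ} (ha : O11 a) (hx : O11 x) (hnx : Nn x) (hx1 : Nn (x - c0 • w0 e))
    (hx2 : Nn (C0 • w0 e - x)) (hs : 0 ≤ s) (hs1 : s ≤ 1) (hn : Nn (a + s • x)) (hR : ‖x‖ ≤ R) :
    cf e (a + s • x) x ≤ cf e a x + s * (C * c0⁻¹ * cf e (a + (s + 1 / 2) • x) x) := by
  have h1 := (abs_le.1 (h a x x s ha hx hx hnx hx2 hs hs1 hn hR)).1
  have hq : ∀ v : H, (w0 e : Bil H) v (Complex.I • v) = qf e v := w0_self e
  have hp : ∀ v : H, c0 * qf e v ≤ x v (Complex.I • v) := by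
    intro v
    have h2 := hx1 v
    have h3 : (x - c0 • w0 e) v (Complex.I • v) = x v (Complex.I • v) - c0 * (w0 e v (Complex.I • v)) := rfl
    rw [h3, hq] at h2
    linarith
  have h4 : cf e (a + s • x + (c0 / 2) • w0 e) (w0 e) ≤ cf e (a + (s + 1 / 2) • x) (c0⁻¹ • x) := by
    refine cf_mono e (O11_add (O11_add ha (O11_smul s hx)) (O11_smul _ (w0_O11 e)))
      (O11_add ha (O11_smul _ hx)) (w0_O11 e) (O11_smul _ hx) ?_ ?_ ?_ ?_
    · intro v
      have h5 := hn v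
      have h6 := qf_nonneg e v
      rw [K3_app, hq]
      have h7 : 0 ≤ c0 / 2 * qf e v := by positivity
      linarith
    · intro v
      have h5 : (a + (s + 1 / 2) • x - (a + s • x + (c0 / 2) • w0 e)) v (Complex.I • v) =
          a v (Complex.I • v) + (s + 1 / 2) * x v (Complex.I • v) -
            (a v (Complex.I • v) + s * x v (Complex.I • v) + c0 / 2 * (w0 e v (Complex.I • v))) := rfl
      rw [h5, hq]
      have h6 := hp v
      linarith
    · intro v
      rw [hq]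
      exact qf_nonneg e v
    · intro v
      have h5 : (c0⁻¹ • x - w0 e) v (Complex.I • v) =
          c0⁻¹ * x v (Complex.I • v) - (w0 e v (Complex.I • v)) := rfl
      rw [h5, hq]
      have h6 := mul_le_mul_of_nonneg_left (hp v) (inv_pos.2 hc0).le
      rw [← mul_assoc, inv_mul_cancel₀ hc0.ne', one_mul] at h6
      linarith
  rw [cf_smul] at h4
  have h5 := mul_le_mul_of_nonneg_left h4 (mul_nonneg hC hs)
  have h6 : s * (C * c0⁻¹ * cf e (a + (s + 1 / 2) • x) x) = C * s * (c0⁻¹ * cf e (a + (s + 1 / 2) • x) x) := by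
    ring
  rw [h6]
  linarith

namespace BM

omit [FiniteDimensional ℂ H] [BorelSpace H] [μ.IsAddHaarMeasure] [T2Space Y] in
private theorem K3_int (hν : B.IsVol μ w ν) {f : Y → ℝ} (hf : Continuous f) : Integrable f ν := by
  have := hν.fin
  exact hf.integrable_of_hasCompactSupport (HasCompactSupport.of_compactSpace f)

omit [MeasurableSpace H] [BorelSpace H] [CompactSpace Y] [T2Space Y] [MeasurableSpace Y] [BorelSpace Y] in
private theorem K3_dens (hw : B.Met w) : ∃ K : ℝ, 0 ≤ K ∧ ∀ (a : B.I → H → Bil H) (ε : ℝ), B.IsT a →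
    0 ≤ ε → ε ≤ 1 → B.NnT (a + ε • w) → ∀ y,
      B.dcf w (a + ε • w) w y ≤ B.dcf w a w y + ε * (K * B.dcf w (a + (ε + 1 / 2) • w) w y) := by
  obtain ⟨c0, hc0, hge⟩ := B.Met_ge hw (r := 1) (by norm_num) (by norm_num)
  obtain ⟨C0, hC0, hle⟩ := B.Met_le hw (r := 1) (by norm_num) (by norm_num)
  obtain ⟨R, hR, hbd⟩ := B.IsT_bd hw.t (r := 1) (by norm_num) (by norm_num)
  obtain ⟨C, hC, h⟩ := cf_err e (R := R) (C0 := C0) (c1 := c0 / 2) hR hC0.le (by positivity)
  refine ⟨C * c0⁻¹, by positivity, fun a ε ha hε hε1 hnn y => ?_⟩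
  have hz := B.cd_mem y
  have hz1 : qf e (B.cd y) ≤ 1 ^ 2 := le_of_lt hz
  have hz4 : B.cd y ∈ qb e 4 := qb_mono (by norm_num) (by norm_num) hz
  have hnw : Nn (w (B.ix y) (B.cd y)) := by
    intro v
    by_cases hv : v = 0
    · rw [hv, smul_zero, map_zero]
    · exact (hw.pos _ _ hz4 v hv).le
  have h1 := K3_pt hc0 hC h (ha.oo _ _ hz4) (hw.t.oo _ _ hz4) hnw (hge _ _ hz1) (hle _ _ hz1) hε hε1
    (hnn _ _ hz4) (hbd _ _ hz1)
  have h2 := B.dt_w_pos hw (i := B.ix y) hz4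
  have h3 := div_le_div_of_nonneg_right h1 h2.le
  rw [add_div, mul_div_assoc, mul_div_assoc] at h3
  exact h3

theorem mass_k [ConnectedSpace Y] (hw : B.Met w) (hν : B.IsVol μ w ν) (hb : B.IsT b) (hc : B.ClT b) (hn2 : 2 ≤ n)
    (hpsi : ∀ i, ∀ z ∈ qb e 4, ∀ u v : H, psi (w i) z u v = 0) :
    ∃ CM : ℝ, 0 ≤ CM ∧ ∀ A : ℝ, ∃ εM : ℝ, 0 < εM ∧ ∀ (F : Y → ℝ) (ε : ℝ), B.Sm F → (∀ y, F y ≤ 0) → (∀ y, |F y| ≤ A) →
      0 ≤ ε → ε ≤ εM → B.NnT (b + B.dd F + ε • w) → ∫ y, B.dcf w (b + B.dd F + ε • w) w y ∂ν ≤ CM := by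
  obtain ⟨K, hK, hdens⟩ := B.K3_dens hw
  have hn0 : (0 : ℝ) < n := by
    exact_mod_cast (by omega : 0 < n)
  obtain ⟨CB, hCB, hmass⟩ := B.mass_w hw hν hb hc hn2 (p := n) hn0 (by linarith)
  refine ⟨max (∫ y, B.dcf w b w y ∂ν) 0 + 1, add_nonneg (le_max_right _ _) zero_le_one, fun A => ?_⟩
  have hg := gp_pos (n : ℝ) (-A)
  obtain ⟨L, hL⟩ : ∃ L : ℝ, L = K * (CB / gp n (-A)) := ⟨_, rfl⟩
  have hL0 : 0 ≤ L := by
    rw [hL]
    positivity
  refine ⟨min (1 / 2) (L + 1)⁻¹, lt_min (by norm_num) (by positivity), fun F ε hF hF0 hFA hε hεM hnn => ?_⟩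
  have hε1 : ε ≤ 1 / 2 := hεM.trans (min_le_left _ _)
  have hε2 : ε ≤ (L + 1)⁻¹ := hεM.trans (min_le_right _ _)
  have ha : B.IsT (b + B.dd F) := B.IsT_add hb (B.IsT_dd hF)
  have ha1 : B.IsT (b + B.dd F + ε • w) := B.IsT_add ha (B.IsT_smul hw.t ε)
  have ha2 : B.IsT (b + B.dd F + (ε + 1 / 2) • w) := B.IsT_add ha (B.IsT_smul hw.t _)
  have hnn2 : B.NnT (b + B.dd F + (ε + 1 / 2) • w) := by
    intro i z hz v
    have h1 := hnn i z hz v
    have h2 : 0 ≤ w i z v (Complex.I • v) := by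
      by_cases hv : v = 0
      · rw [hv, smul_zero, map_zero]
      · exact (hw.pos _ _ hz v hv).le
    have h3 : ∀ r : ℝ, (b + B.dd F + r • w) i z v (Complex.I • v) =
        (b + B.dd F) i z v (Complex.I • v) + r * w i z v (Complex.I • v) := fun r => rfl
    rw [h3] at h1 ⊢
    linarith
  have hc1 := B.dcf_cont hw ha1 hw.t
  have hc2 := B.dcf_cont hw ha2 hw.t
  have hc3 := B.dcf_cont hw ha hw.t
  have hm2 : ∫ y, B.dcf w (b + B.dd F + (ε + 1 / 2) • w) w y ∂ν ≤ CB / gp n (-A) := by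
    rw [le_div_iff₀ hg, mul_comm, ← integral_const_mul]
    refine le_trans (integral_mono (B.K3_int hν (continuous_const.mul hc2))
      (B.K3_int hν (((gp_smooth n).continuous.comp (B.Sm_cont hF)).mul hc2)) fun y => ?_)
      (hmass F (ε + 1 / 2) hF hF0 (by linarith) (by linarith) hnn2)
    refine mul_le_mul_of_nonneg_right ?_ ?_
    · exact gp_mono hn0.le (neg_le_of_abs_le (hFA y)) (hF0 y)
    · have hz4 : B.cd y ∈ qb e 4 := qb_mono (by norm_num) (by norm_num) (B.cd_mem y)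
      refine div_nonneg (cf_nonneg e (ha2.oo _ _ hz4) (hw.t.oo _ _ hz4) (hnn2 _ _ hz4) ?_)
        (B.dt_w_pos hw hz4).le
      intro v
      by_cases hv : v = 0
      · rw [hv, smul_zero, map_zero]
      · exact (hw.pos _ _ hz4 v hv).le
  have h1 : ∫ y, B.dcf w (b + B.dd F + ε • w) w y ∂ν ≤
      ∫ y, (B.dcf w (b + B.dd F) w y + ε * (K * B.dcf w (b + B.dd F + (ε + 1 / 2) • w) w y)) ∂ν :=
    integral_mono (B.K3_int hν hc1) (B.K3_int hν (hc3.add (continuous_const.mul (continuous_const.mul hc2))))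
      fun y => hdens (b + B.dd F) ε ha hε (by linarith) hnn y
  have i1 : Integrable (fun y => B.dcf w (b + B.dd F) w y) ν := B.K3_int hν hc3
  have i2 : Integrable (fun y => ε * (K * B.dcf w (b + B.dd F + (ε + 1 / 2) • w) w y)) ν :=
    B.K3_int hν (continuous_const.mul (continuous_const.mul hc2))
  rw [integral_add i1 i2, integral_const_mul, integral_const_mul, B.dcf_pc hw hν hb hc hw.t hpsi hF] at h1
  have h2 : ε * (K * ∫ y, B.dcf w (b + B.dd F + (ε + 1 / 2) • w) w y ∂ν) ≤ ε * L := by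
    rw [hL]
    exact mul_le_mul_of_nonneg_left (mul_le_mul_of_nonneg_left hm2 hK) hε
  have h3 : ε * L ≤ 1 := by
    have h4 : ε * (L + 1) ≤ 1 := by
      have h5 := mul_le_mul_of_nonneg_right hε2 (by linarith : 0 ≤ L + 1)
      rw [inv_mul_cancel₀ (by linarith : L + 1 ≠ 0)] at h5
      exact h5
    linarith
  have h6 := le_max_left (∫ y, B.dcf w b w y ∂ν) 0
  linarith

end BM

end HDG
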