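import Pool.Agent.HDW.W14a
import Pool.Agent.HDW.W11
import Pool.Agent.HDW.W12
import Pool.Agent.HDW.W13

/-!
# HDP/K4: one ball, for a metric with bounded masses

`step_k`: as `step_w` (HDW/W14), with the bound `CM` for the mass without a weight, for functions with a lower bound and small `ε`; the
constant `L` does not depend on the exponent `p ≤ 1`.
-/

set_option autoImplicit false

noncomputable section

open scoped ContDiff Topology

open MeasureTheory

namespace HDG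

open Pool.Agent.FBR

variable {H : Type*} [NormedAddCommGroup H] [NormedSpace ℂ H] {n : ℕ} {e : Module.Basis (Fin n) ℂ H}
  [FiniteDimensional ℂ H] [MeasurableSpace H] [BorelSpace H] {μ : Measure H} [μ.IsAddHaarMeasure]
  {Y : Type*} [TopologicalSpace Y] [CompactSpace Y] [T2Space Y] [MeasurableSpace Y] [BorelSpace Y]
  (B : BM e Y) {w b : B.I → H → Bil H} {ν : Measure Y}

namespace BM

omit [CompactSpace Y] [T2Space Y] in
private theorem K4_den (hw : B.Met w) (hν : B.IsVol μ w ν) {a : B.I → H → Bil H} (ha : B.IsT a) (i : B.I)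
    {F : Y → ℝ} (hF : Measurable F) {g G : H → ℝ} (h0 : ∀ y, (∀ z ∈ qb e 4, B.ψ i z ≠ y) → F y = 0)
    (h1 : ∀ z ∈ qb e 4, F (B.ψ i z) = g z) (h2 : ∀ z ∈ qb e 4, g z ≠ 0 → G z = dt e (a i z))
    (h3 : ∀ z, z ∉ (qb e 4 : Set H) → g z = 0) :
    ∫ y, F y * B.den w a y ∂ν = ∫ z, g z * G z ∂μ := by
  rw [B.int_den hw hν ha i hF h0]
  have hm : MeasurableSet (qb e 4 : Set H) := (isOpen_qb e 4).measurableSet
  rw [← setIntegral_eq_integral_of_forall_compl_eq_zero (μ := μ) (s := (qb e 4 : Set H)) (f := fun z => g z * G z)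
    (fun z hz => by rw [h3 z hz, zero_mul])]
  refine setIntegral_congr_fun hm fun z hz => ?_
  show F (B.ψ i z) * dt e (a i z) = g z * G z
  rw [h1 z hz]
  by_cases h : g z = 0
  · rw [h, zero_mul, zero_mul]
  · rw [h2 z hz h]

omit [FiniteDimensional ℂ H] [MeasurableSpace H] [BorelSpace H] in
private theorem K4_zero {f : H → ℝ} {r : ℝ} (hf : tsupport f ⊆ qb e r) {z : H} (hz : z ∉ (qb e r : Set H)) :
    f z = 0 :=
  image_eq_zero_of_notMem_tsupport fun h => hz (hf h)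

omit [MeasurableSpace H] [BorelSpace H] [CompactSpace Y] [T2Space Y] [MeasurableSpace Y] [BorelSpace Y] [FiniteDimensional ℂ H] in
private theorem K4_w (hw : B.Met w) {j : B.I} {z : H} (hz : z ∈ qb e 4) (v : H) : 0 ≤ w j z v (Complex.I • v) := by
  rcases eq_or_ne v 0 with h0 | h0
  · rw [h0]
    simp
  · exact (hw.pos j z hz v h0).le

omit [MeasurableSpace H] [BorelSpace H] [CompactSpace Y] [T2Space Y] [MeasurableSpace Y] [BorelSpace Y] in
private theorem K4_den0 (hw : B.Met w) {a : B.I → H → Bil H} (ha : B.IsT a) (hn : B.NnT a) (y : Y) : 0 ≤ B.den w a y := by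
  have hz : B.cd y ∈ qb e 4 := qb_mono (by norm_num) (by norm_num) (B.cd_mem y)
  exact div_nonneg (dt_nonneg e (ha.oo _ _ hz) (hn _ _ hz)) (B.dt_w_pos hw hz).le

omit [MeasurableSpace H] [BorelSpace H] [CompactSpace Y] [T2Space Y] [MeasurableSpace Y] [BorelSpace Y] in
private theorem K4_dcf0 (hw : B.Met w) {a : B.I → H → Bil H} (ha : B.IsT a) (hn : B.NnT a) (y : Y) : 0 ≤ B.dcf w a w y := by
  have hz : B.cd y ∈ qb e 4 := qb_mono (by norm_num) (by norm_num) (B.cd_mem y)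
  exact div_nonneg (cf_nonneg e (ha.oo _ _ hz) (hw.t.oo _ _ hz) (hn _ _ hz) fun v => B.K4_w hw hz v)
    (B.dt_w_pos hw hz).le

set_option maxSynthPendingDepth 3 in
omit [FiniteDimensional ℂ H] [MeasurableSpace H] [BorelSpace H] in
private theorem K4_cont {f g h : H → Bil H} (hf : ContDiff ℝ ∞ f) (hg : ContDiff ℝ ∞ g) (hh : ContDiff ℝ ∞ h)
    (x : Bil H) : Continuous fun z => f z + g z + h z + x :=
  (((hf.add hg).add hh).add contDiff_const).continuous

omit [T2Space Y] in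
/-- the integral with the weight -/
private theorem K4_t (hw : B.Met w) (hν : B.IsVol μ w ν) (hb : B.IsT b)
    {χ : B.I → Y → ℝ} {c : B.I → H → ℝ} (hχ : B.Pou χ c) {p CM δ r : ℝ} (hδ : 0 < δ) (i : B.I) {F : Y → ℝ}
    (hF : B.Sm F) (hN : B.NnT (b + B.dd F + r • w))
    (hM : ∫ y, gp p (F y) * B.dcf w (b + B.dd F + r • w) w y ∂ν ≤ CM) {c0 ρ : ℝ}
    (hge : ∀ z ∈ (qb e 3 : Set H), ∀ v, c0 * qf e v ≤ w i z v (Complex.I • v)) (hr : 0 ≤ r) (hρ : ρ ≤ r * c0)
    {X : H → Bil H} {t : H → ℝ} {W : H → Bil H} (hX : Continuous X) (ht : Continuous t) (hW : Continuous W)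
    (hWw : ∀ z ∈ (qb e 3 : Set H), W z = w i z) (oX : ∀ z, O11 (X z)) (hXN : ∀ z ∈ (qb e 3 : Set H), Nn (X z))
    (hXF : ∀ z ∈ (qb e 3 : Set H), X z = b i z + B.dd F i z + ρ • w0 e)
    (ht0 : ∀ z ∈ (qb e 3 : Set H), 0 ≤ t z) (htF : ∀ z ∈ (qb e 3 : Set H), t z ≤ δ * gp p (F (B.ψ i z))) :
    ∫ z, c i z * (t z * cf e (X z) (W z)) ∂μ ≤ δ * CM := by
  have := hν.fin
  have h34 : (qb e 3 : Set H) ⊆ qb e 4 := qb_mono (by norm_num) (by norm_num)
  have hq3 : ∀ z ∈ (qb e 3 : Set H), qf e z ≤ (7 / 2) ^ 2 := fun z hz => by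
    have h1 : qf e z < 3 ^ 2 := hz
    linarith
  have hc3 : ∀ z, z ∉ (qb e 3 : Set H) → c i z = 0 := fun z hz =>
    image_eq_zero_of_notMem_tsupport fun h' => hz (by
      have h1 : qf e z ≤ (3 / 2) ^ 2 := hχ.cs i h'
      show qf e z < 3 ^ 2
      linarith)
  have hcnn : ∀ z, 0 ≤ c i z := fun z => by
    by_cases hz : z ∈ (qb e 3 : Set H)
    · rw [← hχ.eq i z (h34 hz)]
      exact hχ.nn i _
    · rw [hc3 z hz]
  have hχ1 : ∀ y, χ i y ≤ 1 := fun y => by
    rw [← hχ.sum y]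
    exact Finset.single_le_sum (f := fun i' => χ i' y) (fun i' _ => hχ.nn i' _) (Finset.mem_univ i)
  have hdF : B.IsT (b + B.dd F) := B.IsT_add hb (B.IsT_dd hF)
  have ha : B.IsT (b + B.dd F + r • w) := B.IsT_add hdF (B.IsT_smul hw.t r)
  obtain ⟨D, hD1, hD2, hD3, -⟩ := B.loc_ten ha i
  obtain ⟨f, hf1, hf2, -⟩ := B.loc_fun hF i
  obtain ⟨W', hW1, hW2, hW3, -⟩ := B.loc_ten hw.t i
  have hcc : HasCompactSupport (c i) :=
    (isCompact_qb e (3 / 2)).of_isClosed_subset (isClosed_tsupport _) (hχ.cs i)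
  have hccont : Continuous (c i) := (hχ.csm i).continuous
  have hi1 : Integrable (fun z => c i z * (t z * cf e (X z) (W z))) μ :=
    (hccont.mul (ht.mul ((cf_smooth e).continuous.comp (hX.prodMk hW)))).integrable_of_hasCompactSupport hcc.mul_right
  have hi2 : Integrable (fun z => c i z * ((δ * gp p (f z)) * cf e (D z) (W' z))) μ :=
    (hccont.mul ((continuous_const.mul ((gp_smooth p).continuous.comp hf1.continuous)).mul
      ((cf_smooth e).continuous.comp (hD1.continuous.prodMk hW1.continuous)))).integrable_of_hasCompactSupport hcc.mul_right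
  have h1 : ∫ z, c i z * (t z * cf e (X z) (W z)) ∂μ ≤ ∫ z, c i z * ((δ * gp p (f z)) * cf e (D z) (W' z)) ∂μ := by
    refine integral_mono hi1 hi2 fun z => ?_
    show c i z * (t z * cf e (X z) (W z)) ≤ c i z * ((δ * gp p (f z)) * cf e (D z) (W' z))
    by_cases hz : z ∈ (qb e 3 : Set H)
    · refine mul_le_mul_of_nonneg_left ?_ (hcnn z)
      rw [hf2 z (hq3 z hz), hD3 z (hq3 z hz), hW3 z (hq3 z hz), hWw z hz]
      have nW : Nn (w i z) := fun v => B.K4_w hw (h34 hz) v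
      have oW : O11 (w i z) := hw.t.oo i z (h34 hz)
      have oD : O11 ((b + B.dd F + r • w) i z) := ha.oo i z (h34 hz)
      have k1 : cf e (X z) (w i z) ≤ cf e ((b + B.dd F + r • w) i z) (w i z) := by
        refine cf_mono e (oX z) oD oW oW (hXN z hz) ?_ nW ?_
        · intro v
          have e1 : (b + B.dd F + r • w) i z = b i z + B.dd F i z + r • w i z := rfl
          rw [e1, hXF z hz]
          have k2 := hge z hz v
          simp only [add_apply, smul_apply, sub_apply, smul_eq_mul, w0_self]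
          have k3 := mul_le_mul_of_nonneg_left k2 hr
          have k4 := mul_le_mul_of_nonneg_right hρ (qf_nonneg e v)
          linarith
        · intro v
          have k5 : (w i z - w i z) v (Complex.I • v) = w i z v (Complex.I • v) - w i z v (Complex.I • v) := rfl
          rw [k5, sub_self]
      have k0 : 0 ≤ cf e (X z) (w i z) := cf_nonneg e (oX z) oW (hXN z hz) nW
      exact mul_le_mul (htF z hz) k1 k0 ((ht0 z hz).trans (htF z hz))
    · rw [hc3 z hz, zero_mul, zero_mul]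
  have hgc : Continuous fun y => gp p (F y) := (gp_smooth p).continuous.comp (B.Sm_cont hF)
  have hχc : Continuous (χ i) := B.Sm_cont (hχ.sm i)
  have hdc : Continuous (B.dcf w (b + B.dd F + r • w) w) := B.dcf_cont hw ha hw.t
  have h2 : ∫ z, c i z * ((δ * gp p (f z)) * cf e (D z) (W' z)) ∂μ =
      ∫ y, (χ i y * (δ * gp p (F y))) * B.dcf w (b + B.dd F + r • w) w y ∂ν := by
    rw [B.int_dcf hw hν ha hw.t i (f := fun y => χ i y * (δ * gp p (F y)))
      (hχc.mul (continuous_const.mul hgc)).measurable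
      (fun y hy => by
        show χ i y * (δ * gp p (F y)) = 0
        rw [hχ.out i y hy, zero_mul])]
    have hm : MeasurableSet (qb e 4 : Set H) := (isOpen_qb e 4).measurableSet
    rw [← setIntegral_eq_integral_of_forall_compl_eq_zero (μ := μ) (s := (qb e 4 : Set H))
      (f := fun z => c i z * ((δ * gp p (f z)) * cf e (D z) (W' z)))
      (fun z hz => by rw [hc3 z fun h' => hz (h34 h'), zero_mul])]
    refine setIntegral_congr_fun hm fun z hz => ?_
    show c i z * ((δ * gp p (f z)) * cf e (D z) (W' z)) =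
      (χ i (B.ψ i z) * (δ * gp p (F (B.ψ i z)))) * cf e ((b + B.dd F + r • w) i z) (w i z)
    rw [hχ.eq i z hz]
    by_cases hz3 : z ∈ (qb e 3 : Set H)
    · rw [hf2 z (hq3 z hz3), hD3 z (hq3 z hz3), hW3 z (hq3 z hz3)]
      ring
    · rw [hc3 z hz3, zero_mul, zero_mul, zero_mul]
  have hint : ∀ {G : Y → ℝ}, Continuous G → Integrable G ν := fun hG =>
    hG.integrable_of_hasCompactSupport (HasCompactSupport.of_compactSpace _)
  have h3 : ∫ y, (χ i y * (δ * gp p (F y))) * B.dcf w (b + B.dd F + r • w) w y ∂ν ≤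
      ∫ y, δ * (gp p (F y) * B.dcf w (b + B.dd F + r • w) w y) ∂ν := by
    refine integral_mono (hint ((hχc.mul (continuous_const.mul hgc)).mul hdc))
      (hint (continuous_const.mul (hgc.mul hdc))) fun y => ?_
    show (χ i y * (δ * gp p (F y))) * B.dcf w (b + B.dd F + r • w) w y ≤
      δ * (gp p (F y) * B.dcf w (b + B.dd F + r • w) w y)
    have k1 : 0 ≤ δ * (gp p (F y) * B.dcf w (b + B.dd F + r • w) w y) :=
      mul_nonneg hδ.le (mul_nonneg (gp_pos p _).le (B.K4_dcf0 hw ha hN y))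
    have k2 := mul_le_mul_of_nonneg_right (hχ1 y) k1
    linarith
  rw [integral_const_mul] at h3
  have h4 := mul_le_mul_of_nonneg_left hM hδ.le
  linarith

private theorem K4_gp (hw : B.Met w) (hν : B.IsVol μ w ν) (hb : B.IsT b) {F : Y → ℝ} (hF : B.Sm F) (hF0 : ∀ y, F y ≤ 0)
    {p r CM : ℝ} (hp : 0 ≤ p) (hN : B.NnT (b + B.dd F + r • w)) (h : ∫ y, B.dcf w (b + B.dd F + r • w) w y ∂ν ≤ CM) :
    ∫ y, gp p (F y) * B.dcf w (b + B.dd F + r • w) w y ∂ν ≤ CM := by
  have := hν.fin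
  refine le_trans ?_ h
  have ha : B.IsT (b + B.dd F + r • w) := B.IsT_add (B.IsT_add hb (B.IsT_dd hF)) (B.IsT_smul hw.t r)
  have hint : ∀ {G : Y → ℝ}, Continuous G → Integrable G ν := fun hG =>
    hG.integrable_of_hasCompactSupport (HasCompactSupport.of_compactSpace _)
  have hdc : Continuous (B.dcf w (b + B.dd F + r • w) w) := B.dcf_cont hw ha hw.t
  have hgc : Continuous fun y => gp p (F y) := (gp_smooth p).continuous.comp (B.Sm_cont hF)
  refine integral_mono (hint (hgc.mul hdc)) (hint hdc) fun y => ?_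
  have k1 := mul_le_mul_of_nonneg_right (gp_le_one hp (hF0 y)) (B.K4_dcf0 hw ha hN y)
  show gp p (F y) * B.dcf w (b + B.dd F + r • w) w y ≤ B.dcf w (b + B.dd F + r • w) w y
  linarith

theorem step_k (hw : B.Met w) (hν : B.IsVol μ w ν) (hb : B.IsT b) (hc : B.ClT b) (hn : B.NnT b)
    {χ : B.I → Y → ℝ} {c : B.I → H → ℝ} (hχ : B.Pou χ c) {CM : ℝ}
    (hM : ∀ A : ℝ, ∃ εM : ℝ, 0 < εM ∧ ∀ (F : Y → ℝ) (ε : ℝ), B.Sm F → (∀ y, F y ≤ 0) → (∀ y, |F y| ≤ A) → 0 ≤ ε → ε ≤ εM →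
      B.NnT (b + B.dd F + ε • w) → ∫ y, B.dcf w (b + B.dd F + ε • w) w y ∂ν ≤ CM) :
    ∃ L : ℝ, 0 < L ∧ ∀ p : ℝ, 0 < p → p ≤ 1 → ∀ A : ℝ, ∃ C ε0 K : ℝ, 0 ≤ C ∧ 0 < ε0 ∧ 2 ≤ K ∧
      ∀ (i : B.I) (φ : Y → ℝ) (δ κ0 τ ε κ : ℝ), B.Sm φ → (∀ y, |φ y| ≤ A) → 0 < δ → δ * L ≤ 1 → 0 ≤ κ0 → κ0 ≤ 1 →
        (∀ y, φ y ≤ -(2 * τ)) → (∀ y, κ0 - δ * gp p (φ y) ≤ ε) →
        0 < τ → τ ≤ 1 → 0 < ε → ε ≤ ε0 → ε ≤ τ / 2 → 0 ≤ κ → B.cls w b p δ κ0 ε φ →
        (∀ f : Y → ℝ, B.Sm f → B.cls w b p δ κ0 (K * ε) f → (∀ y, φ y ≤ f y) → (∀ y, f y ≤ 0) →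
          B.En w b ν f ≤ B.En w b ν φ + κ) →
        ∫ y, χ i y * B.den w (b + B.dd φ) y ∂ν ≤
          δ * (L * (∫ y, B.den w b y ∂ν) + CM) + C * (τ + ε + (ε + κ) / τ) := by
  have h34 : (qb e 3 : Set H) ⊆ qb e 4 := qb_mono (by norm_num) (by norm_num)
  have h37 : (qb e 3 : Set H) ⊆ qb e (7 / 2) := qb_mono (by norm_num) (by norm_num)
  have h54 : (qb e (5 / 2) : Set H) ⊆ qb e 4 := qb_mono (by norm_num) (by norm_num)
  have h53 : (qb e (5 / 2) : Set H) ⊆ qb e 3 := qb_mono (by norm_num) (by norm_num)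
  have h5t : (qb e (5 / 2) : Set H) ⊆ qb e (11 / 4) := qb_mono (by norm_num) (by norm_num)
  have h2t : (qb e (21 / 8) : Set H) ⊆ qb e (11 / 4) := qb_mono (by norm_num) (by norm_num)
  have h24 : (qb e (21 / 8) : Set H) ⊆ qb e 4 := qb_mono (by norm_num) (by norm_num)
  have hq3 : ∀ z ∈ (qb e 3 : Set H), qf e z ≤ (7 / 2) ^ 2 := fun z hz => by
    have h1 : qf e z < 3 ^ 2 := hz
    linarith
  have hq3' : ∀ z ∈ (qb e 3 : Set H), qf e z ≤ 3 ^ 2 := fun z hz => by
    have h1 : qf e z < 3 ^ 2 := hz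
    exact h1.le
  obtain ⟨A1, hA1, hbA⟩ := B.IsT_bd hb (r := 3) (by norm_num) (by norm_num)
  obtain ⟨c0, hc0, hge'⟩ := B.Met_ge hw (r := 3) (by norm_num) (by norm_num)
  obtain ⟨C1, hC1, hle'⟩ := B.Met_le hw (r := 3) (by norm_num) (by norm_num)
  obtain ⟨C0, hC0d⟩ : ∃ C0 : ℝ, C0 = max C1 1 := ⟨_, rfl⟩
  have hC01 : 1 ≤ C0 := by
    rw [hC0d]
    exact le_max_right _ _
  have hC0 : 0 < C0 := by linarith
  have hle : ∀ i, ∀ z ∈ (qb e 3 : Set H), ∀ v, w i z v (Complex.I • v) ≤ C0 * qf e v := by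
    intro i z hz v
    have k1 := hle' i z (hq3' z hz) v
    simp only [smul_apply, sub_apply, smul_eq_mul, w0_self] at k1
    have k2 : C1 * qf e v ≤ C0 * qf e v :=
      mul_le_mul_of_nonneg_right (by rw [hC0d]; exact le_max_left _ _) (qf_nonneg e v)
    linarith
  have hge : ∀ i, ∀ z ∈ (qb e 3 : Set H), ∀ v, c0 * qf e v ≤ w i z v (Complex.I • v) := by
    intro i z hz v
    have k1 := hge' i z (hq3' z hz) v
    simp only [smul_apply, sub_apply, smul_eq_mul, w0_self] at k1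
    linarith
  choose bb hbb1 hbb2 hbb3 hbb4 using fun i => B.loc_ten hb i
  choose ww hww1 hww2 hww3 hww4 using fun i => B.loc_ten hw.t i
  have hc32 : ∀ i z, z ∉ {z : H | qf e z ≤ (3 / 2) ^ 2} → c i z = 0 := fun i z hz =>
    image_eq_zero_of_notMem_tsupport fun h' => hz (hχ.cs i h')
  have h324 : {z : H | qf e z ≤ (3 / 2) ^ 2} ⊆ qb e 4 := fun z hz => by
    have h1 : qf e z ≤ (3 / 2) ^ 2 := hz
    show qf e z < 4 ^ 2
    linarith
  have hcnn : ∀ i z, 0 ≤ c i z := fun i z => by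
    by_cases hz : z ∈ {z : H | qf e z ≤ (3 / 2) ^ 2}
    · rw [← hχ.eq i z (h324 hz)]
      exact hχ.nn i _
    · rw [hc32 i z hz]
  have hcle : ∀ i z, c i z ≤ 1 := fun i z => by
    by_cases hz : z ∈ {z : H | qf e z ≤ (3 / 2) ^ 2}
    · rw [← hχ.eq i z (h324 hz), ← hχ.sum (B.ψ i z)]
      exact Finset.single_le_sum (f := fun i' => χ i' (B.ψ i z)) (fun i' _ => hχ.nn i' _) (Finset.mem_univ i)
    · rw [hc32 i z hz]
      exact zero_le_one
  obtain ⟨V, hVd⟩ : ∃ V : ℝ, V = ∫ y, B.den w b y ∂ν := ⟨_, rfl⟩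
  have hV : 0 ≤ V := by
    rw [hVd]
    exact integral_nonneg fun y => B.K4_den0 hw hb hn y
  rw [← hVd]
  refine ⟨9 * C0 + 1, by positivity, fun p hp hp1 A => ?_⟩
  obtain ⟨eM, heM, hM'⟩ := hM (|A| + 4)
  choose Ci hCi hst using fun i =>
    loc_step_w e μ (|A| + A1) hC0.le (hχ.csm i) (hcnn i) (hcle i) (hχ.cs i)
  obtain ⟨C', e1, hC', he1, hGE⟩ := B.glob_E hw hν hb hc (|A| + 4)
  have hCS : 0 ≤ ∑ i, Ci i := Finset.sum_nonneg fun i _ => hCi i
  obtain ⟨K, hKd⟩ : ∃ K : ℝ, K = 2 + (C0 + 1) / c0 := ⟨_, rfl⟩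
  have hK2 : 2 ≤ K := by
    have h1 : 0 ≤ (C0 + 1) / c0 := by positivity
    linarith
  have hKc : C0 + 1 ≤ K * c0 := by
    have h1 : K * c0 = 2 * c0 + (C0 + 1) := by
      rw [hKd]
      field_simp
    linarith
  obtain ⟨K', hK'd⟩ : ∃ K' : ℝ, K' = 1 + K + ((1 + C0) * C0 + 1) / c0 := ⟨_, rfl⟩
  have hK'K : 1 + K ≤ K' := by
    have h1 : 0 ≤ ((1 + C0) * C0 + 1) / c0 := by positivity
    linarith
  have hK'0 : 0 < K' := by linarith
  have hK'c : (1 + C0) * C0 + 1 ≤ K' * c0 := by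
    have h1 : K' * c0 = (1 + K) * c0 + ((1 + C0) * C0 + 1) := by
      rw [hK'd]
      field_simp
    have h2 : 0 ≤ (1 + K) * c0 := by positivity
    linarith
  refine ⟨(∑ i, Ci i) * (1 + C0) + (C' * K' + 2), min (1 / (2 * (C0 * (1 + C0)))) (min (e1 / K') (eM / K')), K,
    by positivity, lt_min (by positivity) (lt_min (by positivity) (by positivity)), hK2, ?_⟩
  intro i φ δ κ0 τ ε κ hφ hφA hδ hδL hκ0 hκ1 hφτ hθ hτ hτ1 hε hε0 hετ hκ hcls hE
  have hε1 : C0 * ε * (1 + C0) ≤ 1 / 2 := by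
    have h1 : ε ≤ 1 / (2 * (C0 * (1 + C0))) := hε0.trans (min_le_left _ _)
    calc C0 * ε * (1 + C0) = ε * (C0 * (1 + C0)) := by ring
      _ ≤ 1 / (2 * (C0 * (1 + C0))) * (C0 * (1 + C0)) := mul_le_mul_of_nonneg_right h1 (by positivity)
      _ = 1 / 2 := by field_simp
  have hε2 : K' * ε ≤ e1 := by
    have h1 : ε ≤ e1 / K' := hε0.trans ((min_le_right _ _).trans (min_le_left _ _))
    calc K' * ε ≤ K' * (e1 / K') := mul_le_mul_of_nonneg_left h1 hK'0.le
      _ = e1 := by field_simp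
  have hε3 : K' * ε ≤ eM := by
    have h1 : ε ≤ eM / K' := hε0.trans ((min_le_right _ _).trans (min_le_right _ _))
    calc K' * ε ≤ K' * (eM / K') := mul_le_mul_of_nonneg_left h1 hK'0.le
      _ = eM := by field_simp
  obtain ⟨a, had⟩ : ∃ a : ℝ, a = δ * p * C0 := ⟨_, rfl⟩
  have ha0 : 0 < a := by
    rw [had]
    positivity
  have hδa : 9 * a + δ ≤ 1 := by
    have h1 : δ * (9 * C0 + 1) = 9 * (δ * C0) + δ := by ring
    have h2 : a ≤ δ * C0 := by
      rw [had]
      have h3 : δ * p ≤ δ * 1 := mul_le_mul_of_nonneg_left hp1 hδ.le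
      have h4 := mul_le_mul_of_nonneg_right h3 hC0.le
      linarith
    linarith
  have hδ1 : δ ≤ 1 := by linarith
  have ha4 : a ≤ 1 / 4 := by linarith
  obtain ⟨φi, hφ1, hφ2, hφ3⟩ := B.loc_fun hφ i
  have hφ0 : ∀ y, φ y ≤ 0 := fun y => (hφτ y).trans (by linarith)
  have hφi0 : ∀ z ∈ (qb e 3 : Set H), φi z ≤ 0 := fun z hz => by
    rw [hφ2 z (hq3 z hz)]
    exact hφ0 _
  have hgpc : ContDiff ℝ ∞ fun z => gp p (φi z) := (gp_smooth p).comp hφ1
  have hg1 : ∀ z ∈ (qb e 3 : Set H), δ * gp p (φi z) ≤ 1 := fun z hz => by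
    have h1 := mul_le_mul hδ1 (gp_le_one hp.le (hφi0 z hz)) (gp_pos p (φi z)).le zero_le_one
    linarith
  have hg0 : ∀ z, 0 < δ * gp p (φi z) := fun z => mul_pos hδ (gp_pos p _)
  have hcN : ∀ z ∈ (qb e 3 : Set H),
      Nn (bb i z + ddc φi z + (κ0 - δ * gp p (φi z)) • ww i z + (C0 * ε) • w0 e) := by
    intro z hz v
    have k1 : 0 ≤ (b i z + B.dd φ i z + (κ0 - δ * gp p (φ (B.ψ i z)) + ε) • w i z) v (Complex.I • v) :=
      hcls i z (h34 hz) v
    have k2 := mul_le_mul_of_nonneg_left (hle i z hz v) hε.le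
    rw [hbb3 i z (hq3 z hz), hφ3 z (h37 hz), hφ2 z (hq3 z hz), hww3 i z (hq3 z hz)]
    simp only [add_apply, smul_apply, smul_eq_mul, w0_self] at k1 ⊢
    linarith
  obtain ⟨Pk, hP1, hP2, hP3⟩ := hst i (bb i) (ww i) φi (fun z => κ0 - δ * gp p (φi z)) (fun z => δ * gp p (φi z))
    τ (C0 * ε)
    ⟨hbb1 i, hbb2 i, fun z hz => hbb4 i hc z (h37 hz)⟩
    (fun z hz => by
      rw [hbb3 i z (hq3 z hz)]
      have h1 := hbA i z (hq3' z hz)
      have h2 := abs_nonneg A
      linarith)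
    hφ1
    (fun z hz => by
      rw [hφ2 z (hq3 z hz)]
      have h1 := (hφA (B.ψ i z)).trans (le_abs_self A)
      linarith)
    (hww1 i) (hww2 i)
    (fun z hz => by
      rw [hww3 i z (hq3 z hz)]
      exact fun v => B.K4_w hw (h34 hz) v)
    (fun z hz v => by
      rw [hww3 i z (hq3 z hz)]
      have k1 := hle i z hz v
      simp only [smul_apply, sub_apply, smul_eq_mul, w0_self]
      linarith)
    (contDiff_const.sub (contDiff_const.mul hgpc))
    (fun z hz => by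
      have k1 := hg1 z hz
      have k2 := hg0 z
      rw [abs_le]
      constructor <;> linarith)
    (continuous_const.mul hgpc.continuous)
    (fun z _ => (hg0 z).le)
    (fun z _ => by
      show -(δ * gp p (φi z)) ≤ κ0 - δ * gp p (φi z)
      linarith)
    hτ hτ1 (mul_pos hC0 hε) hε1
    (fun z hz => by
      show κ0 - δ * gp p (φi z) ≤ C0 * ε
      rw [hφ2 z (hq3 z hz)]
      have k1 := hθ (B.ψ i z)
      have k2 := mul_le_mul_of_nonneg_right hC01 hε.le
      linarith)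
    hcN
  obtain ⟨k, hk1, hk3, hk4⟩ := (hP3 ε hε).exists
  obtain ⟨P, hPd⟩ : ∃ P : H → ℝ, P = Pk k := ⟨_, rfl⟩
  have hPsm := hP1 k
  have hPsu := hP2 k
  rw [← hPd] at hk1 hk3 hk4 hPsm hPsu
  obtain ⟨Q, hQ1, hQ2, hQ3, hQ4, hQ5, hQ6⟩ := exists_mod e hPsm hPsu ha0 ha4 hτ hε.le hετ (fun z => (hk1 z).1)
    (fun z => (hk1 z).2)
  have hPs : B.Sm (B.ext i P) := B.Sm_ext i hPsm (hPsu.trans h54)
  have hQs : B.Sm (B.ext i Q) := B.Sm_ext i hQ1 (hQ2.trans h24)
  have haτ : 0 < 9 * a * τ := by positivity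
  have haτ1 : 9 * a * τ ≤ 1 := by
    have h1 : 9 * a * τ ≤ 1 * 1 := mul_le_mul (by linarith) hτ1 hτ.le zero_le_one
    linarith
  have hext : ∀ y, 0 ≤ B.ext i P y ∧ B.ext i P y ≤ τ + ε ∧ 0 ≤ B.ext i Q y ∧ B.ext i Q y ≤ 2 * τ ∧
      B.ext i P y - 9 * a * τ ≤ B.ext i Q y := by
    intro y
    by_cases hy : ∃ z ∈ qb e 4, B.ψ i z = y
    · obtain ⟨z, hz, rfl⟩ := hy
      rw [B.ext_apply hz, B.ext_apply hz]
      exact ⟨(hk1 z).1, (hk1 z).2, hQ3 z, hQ4 z, hQ5 z⟩
    · push Not at hy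
      rw [B.ext_zero fun z hz he => absurd he (hy z hz), B.ext_zero fun z hz he => absurd he (hy z hz)]
      refine ⟨le_rfl, by linarith, le_rfl, by linarith, by linarith⟩
  have hG : B.Sm (fun y => φ y + B.ext i Q y) := B.Sm_add hφ hQs
  have hF : B.Sm (fun y => φ y + B.ext i P y) := B.Sm_add hφ hPs
  have hG0 : ∀ y, φ y + B.ext i Q y ≤ 0 := fun y => by
    have h1 := hφτ y
    have h2 := (hext y).2.2.2.1
    linarith
  have hF0 : ∀ y, φ y + B.ext i P y ≤ 0 := fun y => by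
    have h1 := hφτ y
    have h2 := (hext y).2.1
    linarith
  have hFA : ∀ y, |φ y + B.ext i P y| ≤ |A| + 4 := fun y => by
    have h1 := (hφA y).trans (le_abs_self A)
    have h2 := hext y
    have h3 := abs_le.1 h1
    rw [abs_le]
    constructor <;> linarith [h2.1, h2.2.1, h3.1, h3.2]
  have hKε : ε ≤ K * ε := by
    have h1 := mul_le_mul_of_nonneg_right hK2 hε.le
    linarith
  -- the class
  have hGcls : B.cls w b p δ κ0 (K * ε) (fun y => φ y + B.ext i Q y) := by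
    refine B.adm_w hw hb hφ hQ1 i (hQ2.trans h2t) hKε ?_ hcls
    intro z hz v
    have k1 := hQ6 z _ (hcN z hz) (hk3 z hz) v
    rw [hbb3 i z (hq3 z hz), hφ3 z (h37 hz), hφ2 z (hq3 z hz), hww3 i z (hq3 z hz)] at k1
    have k2 := hle i z hz v
    have k3 := hge i z hz v
    have k4 := B.K4_w hw (j := i) (h34 hz) v
    have k5 : gp p (φ (B.ψ i z) + Q z) - gp p (φ (B.ψ i z)) ≤ p * (φ (B.ψ i z) + Q z - φ (B.ψ i z)) := by
      refine gp_lip hp.le (by linarith [hQ3 z]) ?_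
      have h1 := hφτ (B.ψ i z)
      have h2 := hQ4 z
      linarith
    have k6 : δ * gp p (φ (B.ψ i z) + Q z) ≤ δ * gp p (φ (B.ψ i z)) + δ * p * Q z := by
      have h1 := mul_le_mul_of_nonneg_left k5 hδ.le
      have h2 : δ * (p * (φ (B.ψ i z) + Q z - φ (B.ψ i z))) = δ * p * Q z := by ring
      rw [h2] at h1
      linarith
    have k7 := mul_le_mul_of_nonneg_right k6 k4
    have k8 : δ * p * Q z * w i z v (Complex.I • v) ≤ a * Q z * qf e v := by
      have h1 : 0 ≤ δ * p * Q z := mul_nonneg (mul_pos hδ hp).le (hQ3 z)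
      have h2 := mul_le_mul_of_nonneg_left k2 h1
      have h3 : δ * p * Q z * (C0 * qf e v) = a * Q z * qf e v := by
        rw [had]
        ring
      rw [h3] at h2
      exact h2
    have k9 : (C0 * ε + ε) * qf e v ≤ K * ε * w i z v (Complex.I • v) := by
      have h0 : 0 ≤ K * ε := by positivity
      have h1 := mul_le_mul_of_nonneg_left k3 h0
      have h2 := mul_le_mul_of_nonneg_right hKc (mul_nonneg hε.le (qf_nonneg e v))
      have h3 : K * ε * (c0 * qf e v) = K * c0 * (ε * qf e v) := by ring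
      rw [h3] at h1
      have h4 : (C0 * ε + ε) * qf e v = (C0 + 1) * (ε * qf e v) := by ring
      rw [h4]
      linarith
    simp only [add_apply, smul_apply, smul_eq_mul, w0_self] at k1 ⊢
    linarith
  have hE1 := hE _ hG hGcls (fun y => by have := (hext y).2.2.1; linarith) hG0
  -- the function `φ + ext P`
  have hFN : B.NnT (b + B.dd (fun y => φ y + B.ext i P y) + (K' * ε) • w) := by
    refine B.adm_nn hw hb hφ hPsm i (hPsu.trans h5t) (ε := ε + ε) ?_ ?_ (B.cls_nn hw hcls hθ)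
    · have h1 := mul_le_mul_of_nonneg_right hK'K hε.le
      linarith
    · intro z hz v
      have k1 := hk3 z hz v
      rw [hbb3 i z (hq3 z hz), hφ3 z (h37 hz), hφ2 z (hq3 z hz), hww3 i z (hq3 z hz)] at k1
      have k3 := hge i z hz v
      have k4 := B.K4_w hw (j := i) (h34 hz) v
      have k5 := mul_le_mul_of_nonneg_right (hθ (B.ψ i z)) k4
      have k6 := mul_le_mul_of_nonneg_right hK'K (mul_nonneg hε.le k4)
      have k9 : (C0 * ε + ε) * qf e v ≤ K * ε * w i z v (Complex.I • v) := by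
        have h0 : 0 ≤ K * ε := by positivity
        have h1 := mul_le_mul_of_nonneg_left k3 h0
        have h2 := mul_le_mul_of_nonneg_right hKc (mul_nonneg hε.le (qf_nonneg e v))
        have h3 : K * ε * (c0 * qf e v) = K * c0 * (ε * qf e v) := by ring
        rw [h3] at h1
        have h4 : (C0 * ε + ε) * qf e v = (C0 + 1) * (ε * qf e v) := by ring
        rw [h4]
        linarith
      simp only [add_apply, smul_apply, smul_eq_mul, w0_self] at k1 ⊢
      linarith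
  have hGN : B.NnT (b + B.dd (fun y => φ y + B.ext i Q y) + (K' * ε) • w) := by
    have h1 : B.NnT (b + B.dd (fun y => φ y + B.ext i Q y) + (ε + K * ε) • w) := by
      refine B.cls_nn hw hGcls fun y => ?_
      have h2 : gp p (φ y) ≤ gp p (φ y + B.ext i Q y) :=
        gp_mono hp.le (by have := (hext y).2.2.1; linarith) (hG0 y)
      have h3 := mul_le_mul_of_nonneg_left h2 hδ.le
      have h4 := hθ y
      linarith
    intro j z hz v
    have k1 : 0 ≤ (b j z + B.dd (fun y => φ y + B.ext i Q y) j z + (ε + K * ε) • w j z) v (Complex.I • v) := h1 j z hz v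
    have k2 := mul_le_mul_of_nonneg_right hK'K (mul_nonneg hε.le (B.K4_w hw (j := j) hz v))
    show 0 ≤ (b j z + B.dd (fun y => φ y + B.ext i Q y) j z + (K' * ε) • w j z) v (Complex.I • v)
    simp only [add_apply, smul_apply, smul_eq_mul] at k1 ⊢
    linarith
  -- the energies
  have hfs : B.Sm (fun y => B.ext i P y + (-1) * B.ext i Q y) := B.Sm_add hPs (B.Sm_mul (B.Sm_const _) hQs)
  have hfun : (fun y => (φ y + B.ext i Q y) + (B.ext i P y + (-1) * B.ext i Q y)) = fun y => φ y + B.ext i P y := by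
    funext y
    ring
  have hE2 := hGE (fun y => φ y + B.ext i Q y) (fun y => B.ext i P y + (-1) * B.ext i Q y) (K' * ε) (9 * a * τ) hG hfs
    (fun y => by
      have h1 := (hφA y).trans (le_abs_self A)
      have h2 := hext y
      have h3 := abs_le.1 h1
      show |φ y + B.ext i Q y| ≤ |A| + 4
      rw [abs_le]
      constructor <;> linarith [h2.2.2.1, h2.2.2.2.1, h3.1, h3.2])
    (fun y => by
      have h2 := hext y
      have h4 := abs_nonneg A
      show |B.ext i P y + (-1) * B.ext i Q y| ≤ |A| + 4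
      rw [abs_le]
      constructor <;> linarith [h2.1, h2.2.1, h2.2.2.1, h2.2.2.2.1])
    (by positivity) hε2 haτ.le (by linarith [abs_nonneg A])
    (fun y => by
      have h2 := (hext y).2.2.2.2
      show B.ext i P y + (-1) * B.ext i Q y ≤ 9 * a * τ
      linarith)
    hGN (by rw [hfun]; exact hFN)
  rw [hfun, ← hVd] at hE2
  have e2 := B.En_diff hw hν hb hc hφ hPs
  have hPz : ∀ z, z ∉ (qb e 3 : Set H) → P z = 0 := fun z hz => K4_zero hPsu fun h' => hz (h53 h')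
  have e3 : (∫ a in (0 : ℝ)..1, ∫ y, B.ext i P y *
        B.den w (b + B.dd φ + a • B.dd (B.ext i P)) y ∂ν) =
      ∫ s in (0 : ℝ)..1, ∫ z, P z * dt e (bb i z + ddc φi z + s • ddc P z) ∂μ := by
    refine intervalIntegral.integral_congr fun s _ => ?_
    refine B.K4_den hw hν (B.IsT_add (B.IsT_add hb (B.IsT_dd hφ)) (B.IsT_smul (B.IsT_dd hPs) s)) i
      (B.Sm_cont hPs).measurable ?_ ?_ ?_ ?_
    · intro y hy
      exact B.ext_zero fun z hz he => absurd he (hy z hz)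
    · intro z hz
      exact B.ext_apply hz
    · intro z hz hp
      have hz3 : z ∈ (qb e 3 : Set H) := by
        by_contra h'
        exact hp (hPz z h')
      have r1 : (b + B.dd φ + s • B.dd (B.ext i P)) i z = b i z + B.dd φ i z + s • B.dd (B.ext i P) i z :=
        rfl
      rw [r1, B.dd_ext hz, hbb3 i z (hq3 z hz3), hφ3 z (h37 hz3)]
    · intro z hz
      exact hPz z fun h' => hz (h34 h')
  have eL : ∫ y, χ i y * B.den w (b + B.dd φ) y ∂ν = ∫ z, c i z * dt e (bb i z + ddc φi z) ∂μ := by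
    refine B.K4_den hw hν (B.IsT_add hb (B.IsT_dd hφ)) i (B.Sm_cont (hχ.sm i)).measurable (hχ.out i)
      (hχ.eq i) ?_ ?_
    · intro z hz hcz
      have hz1 : z ∈ {z : H | qf e z ≤ (3 / 2) ^ 2} := by
        by_contra h'
        exact hcz (hc32 i z h')
      have hz2 : qf e z ≤ (3 / 2) ^ 2 := hz1
      have hz3 : z ∈ (qb e (7 / 2) : Set H) := by
        show qf e z < (7 / 2) ^ 2
        linarith
      rw [hbb3 i z (by linarith), hφ3 z hz3]
      rfl
    · intro z hz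
      exact hc32 i z fun h' => hz (h324 h')
  -- the integral with the weight
  have h4 : (∫ z, c i z * ((δ * gp p (φi z)) * cf e (bb i z + ddc φi z + ddc P z + ((1 + C0) * (C0 * ε) + ε) • w0 e)
      (ww i z)) ∂μ) ≤ δ * CM := by
    have hdP : ContDiff ℝ ∞ (ddc P) := contDiff_iff_contDiffAt.2 fun _ => ddc_smooth hPsm.contDiffAt
    have hdφ : ContDiff ℝ ∞ (ddc φi) := contDiff_iff_contDiffAt.2 fun _ => ddc_smooth hφ1.contDiffAt
    refine B.K4_t hw hν hb hχ hδ i hF hFN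
      (B.K4_gp hw hν hb hF hF0 hp.le hFN (hM' _ _ hF hF0 hFA (by positivity) hε3 hFN)) (c0 := c0) (ρ := (1 + C0) * (C0 * ε) + ε) (hge i) (by positivity) ?_
      (X := fun z => bb i z + ddc φi z + ddc P z + ((1 + C0) * (C0 * ε) + ε) • w0 e)
      (t := fun z => δ * gp p (φi z)) (W := ww i)
      (K4_cont (hbb1 i) hdφ hdP _) (continuous_const.mul hgpc.continuous)
      (hww1 i).continuous (fun z hz => hww3 i z (hq3 z hz)) ?_ ?_ ?_ (fun z _ => (hg0 z).le) ?_
    · have h1 := mul_le_mul_of_nonneg_right hK'c hε.le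
      linarith
    · intro z
      exact O11_add (O11_add (O11_add (hbb2 i z) (O11_ddc (hφ1.contDiffAt.of_le (by norm_cast))))
        (O11_ddc (hPsm.contDiffAt.of_le (by norm_cast)))) (O11_smul _ (w0_O11 e))
    · intro z hz v
      have k1 := hk3 z hz v
      have k2 := hle i z hz v
      have k4 := B.K4_w hw (j := i) (h34 hz) v
      have k5 := mul_le_mul_of_nonneg_right (hθ (B.ψ i z)) k4
      have k6 := mul_le_mul_of_nonneg_left k2 hε.le
      have k7 : C0 * (ε * qf e v) ≤ C0 * (C0 * (ε * qf e v)) := by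
        have h1 : 0 ≤ C0 * (ε * qf e v) := mul_nonneg hC0.le (mul_nonneg hε.le (qf_nonneg e v))
        have h2 := mul_le_mul_of_nonneg_right hC01 h1
        linarith
      rw [hφ2 z (hq3 z hz), hww3 i z (hq3 z hz)] at k1
      simp only [add_apply, smul_apply, smul_eq_mul, w0_self] at k1 ⊢
      linarith
    · intro z hz
      show bb i z + ddc φi z + ddc P z + ((1 + C0) * (C0 * ε) + ε) • w0 e = _
      rw [B.dd_add hφ hPs (h34 hz), B.dd_ext (h34 hz), hbb3 i z (hq3 z hz), hφ3 z (h37 hz), add_assoc (b i z)]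
    · intro z hz
      show δ * gp p (φi z) ≤ δ * gp p (φ (B.ψ i z) + B.ext i P (B.ψ i z))
      refine mul_le_mul_of_nonneg_left ?_ hδ.le
      rw [hφ2 z (hq3 z hz)]
      exact gp_mono hp.le (by have := (hext (B.ψ i z)).1; linarith) (hF0 _)
  rw [← eL, ← e3, ← e2] at hk4
  have hJ : B.En w b ν (fun y => φ y + B.ext i P y) - B.En w b ν φ ≤ κ + 9 * a * τ * V + C' * (K' * ε) := by
    linarith
  have h2 := mul_le_mul_of_nonneg_left hJ (by positivity : (0 : ℝ) ≤ 1 / τ)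
  have h3 : 1 / τ * (κ + 9 * a * τ * V + C' * (K' * ε)) = κ / τ + 9 * a * V + C' * K' * (ε / τ) := by
    field_simp
  rw [h3] at h2
  have hX0 : 0 ≤ τ + ε + (ε + κ) / τ := by positivity
  have hX1 : κ / τ ≤ τ + ε + (ε + κ) / τ := by
    rw [add_div]
    have : 0 ≤ ε / τ := by positivity
    linarith
  have hX3 : ε ≤ τ + ε + (ε + κ) / τ := by
    have : 0 ≤ (ε + κ) / τ := by positivity
    linarith
  have hX4 : ε / τ ≤ τ + ε + (ε + κ) / τ := by
    rw [add_div]
    have : 0 ≤ κ / τ := by positivity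
    linarith
  have hX2 : τ + C0 * ε + C0 * ε / τ ≤ (1 + C0) * (τ + ε + (ε + κ) / τ) := by
    have h1 : (1 + C0) * (τ + ε + (ε + κ) / τ) = τ + C0 * ε + C0 * ε / τ +
        (C0 * τ + ε + ε / τ + (1 + C0) * (κ / τ)) := by
      field_simp
      ring
    rw [h1]
    have h2 : 0 ≤ C0 * τ + ε + ε / τ + (1 + C0) * (κ / τ) := by positivity
    linarith
  have hX5 : Ci i * (τ + C0 * ε + C0 * ε / τ) ≤ (∑ i, Ci i) * ((1 + C0) * (τ + ε + (ε + κ) / τ)) :=
    mul_le_mul (Finset.single_le_sum (fun i _ => hCi i) (Finset.mem_univ i)) hX2 (by positivity) hCS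
  have hX6 : C' * K' * (ε / τ) ≤ C' * K' * (τ + ε + (ε + κ) / τ) := mul_le_mul_of_nonneg_left hX4 (by positivity)
  have hX7 : 9 * a * V ≤ δ * ((9 * C0 + 1) * V) := by
    have h1 : δ * ((9 * C0 + 1) * V) = 9 * (δ * C0) * V + δ * V := by ring
    have h2 : 0 ≤ δ * V := mul_nonneg hδ.le hV
    have h3 : a ≤ δ * C0 := by
      rw [had]
      have h3 : δ * p ≤ δ * 1 := mul_le_mul_of_nonneg_left hp1 hδ.le
      have h4 := mul_le_mul_of_nonneg_right h3 hC0.le
      linarith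
    have h4 : 9 * a * V ≤ 9 * (δ * C0) * V := mul_le_mul_of_nonneg_right (by linarith) hV
    linarith
  have hR : δ * ((9 * C0 + 1) * V + CM) + ((∑ i, Ci i) * (1 + C0) + (C' * K' + 2)) * (τ + ε + (ε + κ) / τ) =
      δ * ((9 * C0 + 1) * V) + δ * CM + (∑ i, Ci i) * ((1 + C0) * (τ + ε + (ε + κ) / τ)) +
        C' * K' * (τ + ε + (ε + κ) / τ) + 2 * (τ + ε + (ε + κ) / τ) := by ring
  rw [hR]
  linarith

end BM

end HDG
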