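import Pool.Agent.HDP.K3
import Pool.Agent.HDP.K5

/-!
# HDP/K6: the inequality for a pluriclosed metric

`weighted_k` (K5) with the masses of `mass_k` (K3).
-/

set_option autoImplicit false

noncomputable section

open scoped ContDiff Topology

open MeasureTheory

namespace HDG

open Pool.Agent.FBR

variable {H : Type*} [NormedAddCommGroup H] [NormedSpace ℂ H] {n : ℕ} {e : Module.Basis (Fin n) ℂ H}
  [FiniteDimensional ℂ H] [MeasurableSpace H] [BorelSpace H] {μ : Measure H} [μ.IsAddHaarMeasure]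
  {Y : Type*} [TopologicalSpace Y] [CompactSpace Y] [T2Space Y] [MeasurableSpace Y] [BorelSpace Y]
  (B : BM e Y) {w b : B.I → H → Bil H} {ν : Measure Y}

namespace BM

theorem weighted_pc [ConnectedSpace Y] (hw : B.Met w) (hν : B.IsVol μ w ν) (hb : B.IsT b) (hc : B.ClT b) (hn : B.NnT b)
    (hpos : ∃ i, ∃ z ∈ qb e 4, ∀ v : H, v ≠ 0 → 0 < b i z v (Complex.I • v)) (hn2 : 2 ≤ n)
    (hpsi : ∀ i, ∀ z ∈ qb e 4, ∀ u v : H, psi (w i) z u v = 0) :
    ∃ δ : ℝ, 0 < δ ∧ ∀ κ : ℝ, 0 < κ → ∀ p : ℝ, 0 < p → p ≤ 1 → ∃ f : Y → ℝ, B.Sm f ∧ (∀ y, f y ≤ 0) ∧ (∃ y, f y = 0) ∧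
      B.NnT (b + B.dd f + B.wt (fun y => κ - δ * gp p (f y)) w) := by
  obtain ⟨CM, hCM, hM⟩ := B.mass_k hw hν hb hc hn2 hpsi
  exact B.weighted_k hw hν hb hc hn hpos hCM hM

end BM

end HDG
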