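import Pool.Agent.HDG.ST2
import Pool.Agent.HDG.ST3

/-!
# HDP/P15: affine parametrizations, one of them around a given point of a given chart

A compact complex manifold is covered by finitely many parametrized balls `z ↦ (chartAt E x).symm (y + r z)`, and one of
the parametrizations may be chosen around a given point `y0` of the target of a given chart.
-/

set_option autoImplicit false

noncomputable section

open scoped Manifold ContDiff Topology

namespace HDG

open Pool.Agent.FBR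

variable {E X : Type*} [NormedAddCommGroup E] [NormedSpace ℂ E] [FiniteDimensional ℂ E]
  [TopologicalSpace X] [ChartedSpace E X] [IsManifold 𝓘(ℂ, E) ω X] [CompactSpace X] [T2Space X]
  {n : ℕ} (e : Module.Basis (Fin n) ℂ E)

private def P15_aff (c : E) (r : ℝ) (z : E) : E := c + (r : ℂ) • z

omit [FiniteDimensional ℂ E] in
private theorem P15_aff_smooth (c : E) (r : ℝ) : ContDiff ℂ ∞ (P15_aff c r) := by
  unfold P15_aff
  exact contDiff_const.add (contDiff_const.smul contDiff_id)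

omit [FiniteDimensional ℂ E] in
private theorem P15_aff_cont (c : E) (r : ℝ) : Continuous (P15_aff c r) :=
  (P15_aff_smooth c r).continuous

omit [FiniteDimensional ℂ E] in
private theorem P15_aff_inj (c : E) {r : ℝ} (hr : 0 < r) : Function.Injective (P15_aff c r) := by
  intro z w h
  have hr' : (r : ℂ) ≠ 0 := by exact_mod_cast hr.ne'
  exact smul_right_injective E hr' (add_left_cancel h)

omit [FiniteDimensional ℂ E] in
private theorem P15_aff_open (c : E) {r : ℝ} (hr : 0 < r) {U : Set E} (hU : IsOpen U) :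
    IsOpen (P15_aff c r '' U) := by
  have hr' : (r : ℂ) ≠ 0 := by exact_mod_cast hr.ne'
  have h : P15_aff c r = ((Homeomorph.smulOfNeZero (r : ℂ) hr').trans (Homeomorph.addLeft c) : E → E) := by
    funext z
    rfl
  rw [h]
  exact ((Homeomorph.smulOfNeZero (r : ℂ) hr').trans (Homeomorph.addLeft c)).isOpenMap U hU

omit [FiniteDimensional ℂ E] in
private theorem P15_aff_inv (c : E) {r : ℝ} (hr : 0 < r) (z : E) :
    ((r : ℂ)⁻¹) • (P15_aff c r z - c) = z := by
  have hr' : (r : ℂ) ≠ 0 := by exact_mod_cast hr.ne'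
  unfold P15_aff
  rw [add_sub_cancel_left, smul_smul, inv_mul_cancel₀ hr', one_smul]

omit [FiniteDimensional ℂ E] in
private theorem P15_aff_deriv (c : E) {r : ℝ} (hr : 0 < r) (z : E) :
    DifferentiableAt ℝ (P15_aff c r) z ∧ Function.Bijective (fderiv ℝ (P15_aff c r) z) := by
  have hr' : (r : ℂ) ≠ 0 := by exact_mod_cast hr.ne'
  have h1 : HasFDerivAt (P15_aff c r) ((r : ℂ) • ContinuousLinearMap.id ℂ E) z := by
    unfold P15_aff
    exact ((hasFDerivAt_id z).const_smul (r : ℂ)).const_add c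
  have h2 : HasFDerivAt (P15_aff c r) (((r : ℂ) • ContinuousLinearMap.id ℂ E).restrictScalars ℝ) z :=
    h1.restrictScalars ℝ
  refine ⟨h2.differentiableAt, ?_⟩
  rw [h2.fderiv]
  constructor
  · intro v w h
    exact smul_right_injective E hr' h
  · intro w
    refine ⟨(r : ℂ)⁻¹ • w, ?_⟩
    have h3 : (r : ℂ) • ((r : ℂ)⁻¹ • w) = w := by
      rw [smul_smul, mul_inv_cancel₀ hr', one_smul]
    exact h3

private theorem P15_bound : ∃ M : ℝ, 0 ≤ M ∧ ∀ z ∈ (qb e 4 : Set E), ‖z‖ ≤ M := by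
  obtain ⟨c, C, hc, hC, h⟩ := qf_equiv e
  refine ⟨16 / c + 1, by positivity, fun z hz => ?_⟩
  have h1 : qf e z < 4 ^ 2 := hz
  have h2 := (h z).1
  have h3 : ‖z‖ ^ 2 ≤ 16 / c := by
    rw [le_div_iff₀ hc]
    linarith
  have h4 : 0 ≤ 16 / c := by positivity
  have h5 := norm_nonneg z
  nlinarith [sq_nonneg (‖z‖ - 1)]

omit [IsManifold 𝓘(ℂ, E) ω X] [CompactSpace X] [T2Space X] in
private theorem P15_radius (x : X) {y : E} (hy : y ∈ (chartAt E x).target) :
    ∃ r : ℝ, 0 < r ∧ ∀ z ∈ (qb e 4 : Set E), P15_aff y r z ∈ (chartAt E x).target := by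
  obtain ⟨M, hM0, hM⟩ := P15_bound e
  obtain ⟨ε, hε, hb⟩ := Metric.isOpen_iff.1 (chartAt E x).open_target _ hy
  refine ⟨ε / (M + 1), by positivity, fun z hz => ?_⟩
  have h1 : P15_aff y (ε / (M + 1)) z ∈ Metric.ball y ε := by
    rw [Metric.mem_ball, dist_eq_norm]
    unfold P15_aff
    have hpos : 0 < ε / (M + 1) := by positivity
    rw [add_sub_cancel_left, norm_smul, Complex.norm_real, Real.norm_of_nonneg hpos.le]
    calc ε / (M + 1) * ‖z‖ ≤ ε / (M + 1) * M := mul_le_mul_of_nonneg_left (hM z hz) hpos.le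
      _ < ε / (M + 1) * (M + 1) := mul_lt_mul_of_pos_left (by linarith) hpos
      _ = ε := by field_simp
  exact hb h1

/-- the parametrization -/
private def P15_psi (x : X) (y : E) (r : ℝ) (z : E) : X := (chartAt E x).symm (P15_aff y r z)

section

variable {e} {x : X} {y : E} {r : ℝ}

omit [FiniteDimensional ℂ E] [IsManifold 𝓘(ℂ, E) ω X] [CompactSpace X] [T2Space X] in
private theorem P15_cont (h : ∀ z ∈ (qb e 4 : Set E), P15_aff y r z ∈ (chartAt E x).target) :
    ContinuousOn (P15_psi (E := E) x y r) (qb e 4) :=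
  (chartAt E x).continuousOn_symm.comp (P15_aff_cont _ _).continuousOn h

omit [FiniteDimensional ℂ E] [IsManifold 𝓘(ℂ, E) ω X] [CompactSpace X] [T2Space X] in
private theorem P15_inj (hr : 0 < r)
    (h : ∀ z ∈ (qb e 4 : Set E), P15_aff y r z ∈ (chartAt E x).target) :
    Set.InjOn (P15_psi (E := E) x y r) (qb e 4) := by
  intro z hz w hw hzw
  exact P15_aff_inj _ hr ((chartAt E x).symm.injOn (h z hz) (h w hw) hzw)

omit [FiniteDimensional ℂ E] [IsManifold 𝓘(ℂ, E) ω X] [CompactSpace X] [T2Space X] in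
private theorem P15_opn (hr : 0 < r)
    (h : ∀ z ∈ (qb e 4 : Set E), P15_aff y r z ∈ (chartAt E x).target)
    {U : Set E} (hU : U ⊆ qb e 4) (hUo : IsOpen U) : IsOpen (P15_psi (E := E) x y r '' U) := by
  have h1 : P15_psi (E := E) x y r '' U = (chartAt E x).symm '' (P15_aff y r '' U) := by
    rw [Set.image_image]
    rfl
  rw [h1]
  refine (chartAt E x).symm.isOpen_image_of_subset_source (P15_aff_open _ hr hUo) ?_
  rintro _ ⟨z, hz, rfl⟩
  exact h z (hU hz)

omit [FiniteDimensional ℂ E] [CompactSpace X] [T2Space X] in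
private theorem P15_hol
    (h : ∀ z ∈ (qb e 4 : Set E), P15_aff y r z ∈ (chartAt E x).target) {z : E}
    (hz : z ∈ (qb e 4 : Set E)) : Hol E (P15_psi (E := E) x y r) z :=
  Hol.comp (f := (chartAt E x).symm) (k := P15_aff y r) (hol_symm (h z hz))
    (P15_aff_smooth _ _).contDiffAt

omit [FiniteDimensional ℂ E] [CompactSpace X] [T2Space X] in
private theorem P15_bij (hr : 0 < r)
    (h : ∀ z ∈ (qb e 4 : Set E), P15_aff y r z ∈ (chartAt E x).target) {z : E}
    (hz : z ∈ (qb e 4 : Set E)) : Function.Bijective (dvec E (P15_psi (E := E) x y r) z) := by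
  have h1 : dvec E (P15_psi (E := E) x y r) z =
      (dvec E (chartAt E x).symm (P15_aff y r z)).comp (fderiv ℝ (P15_aff y r) z) :=
    dvec_comp (f := (chartAt E x).symm) (k := P15_aff y r) (hol_symm (h z hz)).sm
      (P15_aff_deriv _ hr z).1
  rw [h1]
  exact (dvec_symm_bij (h z hz)).comp (P15_aff_deriv _ hr z).2

omit [FiniteDimensional ℂ E] [IsManifold 𝓘(ℂ, E) ω X] [CompactSpace X] [T2Space X] in
/-- the inverse of the parametrization -/
private theorem P15_inv (hr : 0 < r)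
    (h : ∀ z ∈ (qb e 4 : Set E), P15_aff y r z ∈ (chartAt E x).target) {q : X}
    (hq : q ∈ P15_psi (E := E) x y r '' qb e 4) : q ∈ (chartAt E x).source ∧
      Function.invFunOn (P15_psi (E := E) x y r) (qb e 4) q = ((r : ℂ)⁻¹) • (chartAt E x q - y) := by
  obtain ⟨w, hw, rfl⟩ := hq
  have h1 : P15_psi (E := E) x y r w ∈ (chartAt E x).source := (chartAt E x).map_target (h w hw)
  refine ⟨h1, ?_⟩
  rw [(P15_inj hr h).leftInvOn_invFunOn hw]
  have h2 : chartAt E x (P15_psi (E := E) x y r w) = P15_aff y r w :=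
    (chartAt E x).right_inv (h w hw)
  rw [h2, P15_aff_inv _ hr]

omit [CompactSpace X] [T2Space X] in
private theorem P15_tr
    (h : ∀ z ∈ (qb e 4 : Set E), P15_aff y r z ∈ (chartAt E x).target) {x' : X} {y' : E} {r' : ℝ} (hr' : 0 < r')
    (h' : ∀ z ∈ (qb e 4 : Set E), P15_aff y' r' z ∈ (chartAt E x').target) {z : E} (hz : z ∈ (qb e 4 : Set E))
    (hzx : P15_psi (E := E) x y r z ∈ P15_psi (E := E) x' y' r' '' qb e 4) :
    ContDiffAt ℂ ∞ (fun z => Function.invFunOn (P15_psi (E := E) x' y' r') (qb e 4)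
      (P15_psi (E := E) x y r z)) z := by
  have hc : ContinuousAt (P15_psi (E := E) x y r) z :=
    (P15_cont h).continuousAt ((isOpen_qb e 4).mem_nhds hz)
  have hop : IsOpen (P15_psi (E := E) x' y' r' '' qb e 4) :=
    P15_opn hr' h' subset_rfl (isOpen_qb e 4)
  have h1 : ContDiffAt ℂ ∞ (chartAt E x' ∘ P15_psi (E := E) x y r) z :=
    (hol_iff hc (P15_inv hr' h' hzx).1).1 (P15_hol h hz)
  have h2 : ContDiffAt ℂ ∞ (fun z => ((r' : ℂ)⁻¹) •
      ((chartAt E x' ∘ P15_psi (E := E) x y r) z - y')) z :=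
    contDiffAt_const.smul (h1.sub contDiffAt_const)
  refine h2.congr_of_eventuallyEq ?_
  filter_upwards [hc.eventually (hop.mem_nhds hzx)] with z' hz'
  exact (P15_inv hr' h' hz').2

end

theorem exists_aff (x0 : X) {y0 : E} (hy0 : y0 ∈ (chartAt E x0).target) :
    ∃ B : BM e X, Fit B ∧
      (∀ i, ∃ (x : X) (y : E) (r : ℝ), 0 < r ∧ ∀ z ∈ qb e 4, y + (r : ℂ) • z ∈ (chartAt E x).target ∧
        B.ψ i z = (chartAt E x).symm (y + (r : ℂ) • z)) ∧
      ∃ (i : B.I) (r : ℝ), 0 < r ∧ ∀ z ∈ qb e 4, y0 + (r : ℂ) • z ∈ (chartAt E x0).target ∧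
        B.ψ i z = (chartAt E x0).symm (y0 + (r : ℂ) • z) := by
  classical
  choose r hr h using fun x : X => P15_radius e x (mem_chart_target E x)
  obtain ⟨r0, hr0, h0⟩ := P15_radius e x0 hy0
  have h14 : (qb e 1 : Set E) ⊆ qb e 4 := by
    intro z hz
    have h1 : qf e z < 1 ^ 2 := hz
    have h2 : qf e z < 4 ^ 2 := by linarith
    exact h2
  have hz0 : (0 : E) ∈ (qb e 1 : Set E) := by
    have h1 : qf e (0 : E) < 1 ^ 2 := by
      unfold qf
      simp
    exact h1
  have hU : ∀ x, P15_psi (E := E) x (chartAt E x x) (r x) '' qb e 1 ∈ 𝓝 x := by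
    intro x
    refine (P15_opn (hr x) (h x) h14 (isOpen_qb e 1)).mem_nhds ⟨0, hz0, ?_⟩
    unfold P15_psi P15_aff
    rw [smul_zero, add_zero]
    exact (chartAt E x).left_inv (mem_chart_source E x)
  obtain ⟨t, ht⟩ := CompactSpace.elim_nhds_subcover _ hU
  let pp : Option (Fin t.card) → X × E × ℝ := fun i =>
    Option.elim i (x0, y0, r0) fun j => ((t.equivFin.symm j).1, chartAt E (t.equivFin.symm j).1 (t.equivFin.symm j).1,
      r (t.equivFin.symm j).1)
  have hp1 : ∀ i, 0 < (pp i).2.2 := by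
    intro i
    cases i with
    | none => exact hr0
    | some j => exact hr _
  have hp2 : ∀ i, ∀ z ∈ (qb e 4 : Set E), P15_aff (pp i).2.1 (pp i).2.2 z ∈ (chartAt E (pp i).1).target := by
    intro i
    cases i with
    | none => exact h0
    | some j => exact h _
  refine ⟨{
    I := Option (Fin t.card)
    fin := inferInstance
    ψ := fun i => P15_psi (E := E) (pp i).1 (pp i).2.1 (pp i).2.2
    cont := fun i => P15_cont (hp2 i)
    inj := fun i => P15_inj (hp1 i) (hp2 i)
    opn := fun i U hU hUo => P15_opn (hp1 i) (hp2 i) hU hUo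
    cov := ?_
    tr := fun i j z hz hzx => P15_tr (hp2 i) (hp1 j) (hp2 j) hz hzx }, ⟨fun i z hz => P15_hol (hp2 i) hz,
      fun i z hz => P15_bij (hp1 i) (hp2 i) hz⟩, ?_, ?_⟩
  · intro y
    have hy : y ∈ ⋃ x ∈ t, P15_psi (E := E) x (chartAt E x x) (r x) '' qb e 1 := by
      rw [ht]
      exact Set.mem_univ y
    rw [Set.mem_iUnion₂] at hy
    obtain ⟨x, hxt, z, hz, hzy⟩ := hy
    refine ⟨some (t.equivFin ⟨x, hxt⟩), z, hz, ?_⟩
    show P15_psi (E := E) (t.equivFin.symm (t.equivFin ⟨x, hxt⟩)).1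
      (chartAt E (t.equivFin.symm (t.equivFin ⟨x, hxt⟩)).1 (t.equivFin.symm (t.equivFin ⟨x, hxt⟩)).1)
      (r (t.equivFin.symm (t.equivFin ⟨x, hxt⟩)).1) z = y
    rw [Equiv.symm_apply_apply]
    exact hzy
  · intro i
    exact ⟨(pp i).1, (pp i).2.1, (pp i).2.2, hp1 i, fun z hz => ⟨hp2 i z hz, rfl⟩⟩
  · exact ⟨none, r0, hr0, fun z hz => ⟨h0 z hz, rfl⟩⟩

end HDG
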