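import Pool.Agent.HDP.P14

/-!
# HDP/P16: `psi` under affine maps; `psi` of dependent vectors

For an affine parametrization `z ↦ y + r z` of a chart all the coefficients are multiplied by `r²` and their second
derivatives by `r²`, so `psi` is multiplied by `r⁴` (`psi_aff`). `psi γ z u v` vanishes if `v` is a complex multiple of `u`
(`psi_dep`), so it vanishes in dimension `≤ 1` (`psi_one`).
-/

set_option autoImplicit false

noncomputable section

open scoped Manifold ContDiff

namespace HFC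

open Pool.Agent.FBR

universe u

private theorem P16_ev {G : Type*} [NormedAddCommGroup G] [NormedSpace ℝ G] {γ : G → Bil G} {y : G}
    (h : ContDiffAt ℝ ∞ γ y) (a b : G) : ContDiffAt ℝ ∞ (fun y => γ y a b) y :=
  (h.clm_apply contDiffAt_const).clm_apply contDiffAt_const

private theorem P16_aff {E : Type*} [NormedAddCommGroup E] [NormedSpace ℂ E] (y : E) (r : ℝ) (z : E) :
    HasFDerivAt (fun w : E => y + (r : ℂ) • w) ((r : ℝ) • ContinuousLinearMap.id ℝ E) z := by
  have h : (fun w : E => y + (r : ℂ) • w) = fun w : E => y + r • w := by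
    funext w
    rw [Complex.coe_smul]
  rw [h]
  exact ((hasFDerivAt_id z).const_smul r).const_add y

private theorem P16_affC {E : Type*} [NormedAddCommGroup E] [NormedSpace ℂ E] (y : E) (r : ℝ) (z : E) :
    ContDiffAt ℂ ∞ (fun w : E => y + (r : ℂ) • w) z :=
  contDiffAt_const.add (contDiffAt_id.const_smul (r : ℂ))

private theorem P16_zero {H : Type*} [NormedAddCommGroup H] [NormedSpace ℂ H] (z u v : H) :
    ddc (fun _ : H => (0 : ℝ)) z u v = 0 := by
  have h : fderiv ℝ (fun _ : H => (0 : ℝ)) = fun _ => 0 := by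
    funext x
    exact fderiv_const_apply (0 : ℝ)
  have h2 : fderiv ℝ (fderiv ℝ (fun _ : H => (0 : ℝ))) z = 0 := by
    rw [h]
    exact fderiv_const_apply _
  rw [ddc_apply, h2]
  simp

/-- the values of a form of type `(1,1)` at the vectors `u` and `(x + i y) u` -/
private theorem P16_val {H : Type*} [NormedAddCommGroup H] [NormedSpace ℂ H] {b : Bil H} (hb : HDG.O11 b) (u : H)
    (c : ℂ) : b u (c • u) = c.im * b u (Complex.I • u) ∧
      b u (Complex.I • (c • u)) = c.re * b u (Complex.I • u) ∧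
      b (c • u) (Complex.I • (c • u)) = (c.re ^ 2 + c.im ^ 2) * b u (Complex.I • u) := by
  have e1 : c • u = c.re • u + c.im • (Complex.I • u) := by
    conv_lhs => rw [← Complex.re_add_im c]
    rw [add_smul, mul_smul, Complex.coe_smul, Complex.coe_smul]
  have hII : Complex.I • Complex.I • u = -u := by
    rw [smul_smul, Complex.I_mul_I, neg_smul, one_smul]
  have e2 : Complex.I • (c • u) = c.re • (Complex.I • u) - c.im • u := by
    rw [e1, smul_add, smul_comm Complex.I c.re u, smul_comm Complex.I c.im (Complex.I • u), hII, smul_neg,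
      sub_eq_add_neg]
  have h1 : b u u = 0 := hb.1 u
  have h2 : b (Complex.I • u) (Complex.I • u) = 0 := hb.1 _
  have h3 : b (Complex.I • u) u = - b u (Complex.I • u) := antisymm_of_alt hb.1 _ _
  refine ⟨?_, ?_, ?_⟩
  · rw [e1, map_add, map_smul, map_smul, h1, smul_eq_mul, smul_eq_mul, mul_zero, zero_add]
  · rw [e2, map_sub, (b u).map_smul c.re, (b u).map_smul c.im, h1, smul_eq_mul, smul_eq_mul, mul_zero, sub_zero]
  · rw [e2, e1]
    simp only [map_add, map_sub, map_smul, _root_.add_apply, _root_.smul_apply, smul_eq_mul, h1, h2, h3]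
    ring

theorem psi_aff {E X : Type u} [NormedAddCommGroup E] [NormedSpace ℂ E] [FiniteDimensional ℂ E] [TopologicalSpace X]
    [ChartedSpace E X] [IsManifold 𝓘(ℂ, E) ω X] {n : ℕ} {e : Module.Basis (Fin n) ℂ E} {γ : X → Bil E} (hγ : Real11 γ)
    {x : X} {y : E} {r : ℝ} (hr : 0 < r) {ψ : E → X}
    (h : ∀ z ∈ HDG.qb e 4, y + (r : ℂ) • z ∈ (chartAt E x).target ∧ ψ z = (chartAt E x).symm (y + (r : ℂ) • z)) {z : E}
    (hz : z ∈ HDG.qb e 4) (u v : E) :
    HDG.psi (tpb γ ψ) z u v = r ^ 4 * HDG.psi (coef γ x) (y + (r : ℂ) • z) u v := by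
  obtain ⟨hsm, -⟩ := coef_real hγ x
  have hop := (chartAt E x).open_target
  -- the coefficients
  have key : ∀ w ∈ HDG.qb e 4, tpb γ ψ w = (coef γ x (y + (r : ℂ) • w)).bilinearComp
      (r • ContinuousLinearMap.id ℝ E) (r • ContinuousLinearMap.id ℝ E) := by
    intro w hw
    have hev : ψ =ᶠ[nhds w] (chartAt E x).symm ∘ fun w : E => y + (r : ℂ) • w := by
      filter_upwards [(HDG.isOpen_qb e 4).mem_nhds hw] with w' hw'
      exact (h w' hw').2
    have h1 : tpb γ ψ w = tpb γ ((chartAt E x).symm ∘ fun w : E => y + (r : ℂ) • w) w := by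
      have h2 := hev.eq_of_nhds
      have h3 : chartAt E (ψ w) ∘ ψ =ᶠ[nhds w]
          chartAt E (ψ w) ∘ ((chartAt E x).symm ∘ fun w : E => y + (r : ℂ) • w) := by
        filter_upwards [hev] with w' hw'
        show chartAt E (ψ w) (ψ w') = chartAt E (ψ w) _
        rw [hw']
      unfold tpb
      rw [h3.fderiv_eq, h2]
    rw [h1, tpb_comp γ (f := (chartAt E x).symm) (k := fun w : E => y + (r : ℂ) • w) (q := w)
      (hol_symm (h w hw).1).sm (P16_aff y r w).differentiableAt, (P16_aff y r w).fderiv]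
    rfl
  have hval : ∀ w ∈ HDG.qb e 4, ∀ a b : E,
      tpb γ ψ w a b = r ^ 2 * coef γ x (y + (r : ℂ) • w) a b := by
    intro w hw a b
    rw [key w hw, ContinuousLinearMap.bilinearComp_apply]
    simp only [_root_.smul_apply, ContinuousLinearMap.coe_id', id_eq, map_smul, smul_eq_mul]
    ring
  have hd : ∀ a b s t : E, ddc (fun w => tpb γ ψ w a b) z s t =
      r ^ 4 * ddc (fun w => coef γ x w a b) (y + (r : ℂ) • z) s t := by
    intro a b s t
    have hc : ContDiffAt ℝ 2 (fun w => coef γ x w a b) (y + (r : ℂ) • z) :=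
      (P16_ev (hsm.contDiffAt (hop.mem_nhds (h z hz).1)) a b).of_le (by norm_cast)
    have h1 : (fun w => tpb γ ψ w a b) =ᶠ[nhds z]
        (fun w => r ^ 2 * coef γ x w a b) ∘ fun w : E => y + (r : ℂ) • w := by
      filter_upwards [(HDG.isOpen_qb e 4).mem_nhds hz] with w hw
      exact hval w hw a b
    rw [ddc_congr h1, ddc_comp (φ := fun w => r ^ 2 * coef γ x w a b) (k := fun w : E => y + (r : ℂ) • w)
      (contDiffAt_const.mul hc) (P16_affC y r z), (P16_aff y r z).fderiv, ContinuousLinearMap.bilinearComp_apply,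
      ddc_smul (r ^ 2) hc]
    simp only [_root_.smul_apply, ContinuousLinearMap.coe_id', id_eq, map_smul, smul_eq_mul]
    ring
  unfold HDG.psi
  rw [hd, hd, hd, hd]
  ring

theorem psi_dep {H : Type*} [NormedAddCommGroup H] [NormedSpace ℂ H] {γ : H → Bil H} {O : Set H} (hO : IsOpen O)
    (hγ : ContDiffOn ℝ ∞ γ O) (hoo : ∀ z ∈ O, HDG.O11 (γ z)) {z : H} (hz : z ∈ O) (u : H) (c : ℂ) :
    HDG.psi γ z u (c • u) = 0 := by
  have hII : Complex.I • Complex.I • u = -u := by
    rw [smul_smul, Complex.I_mul_I, neg_smul, one_smul]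
  have hc : ContDiffAt ℝ 2 (fun w => γ w u (Complex.I • u)) z :=
    (P16_ev (hγ.contDiffAt (hO.mem_nhds hz)) u (Complex.I • u)).of_le (by norm_cast)
  have hev : ∀ᶠ w in nhds z, w ∈ O := hO.mem_nhds hz
  have h1 : (fun w => γ w u (c • u)) =ᶠ[nhds z] fun w => c.im * γ w u (Complex.I • u) := by
    filter_upwards [hev] with w hw
    exact (P16_val (hoo w hw) u c).1
  have h2 : (fun w => γ w u (Complex.I • (c • u))) =ᶠ[nhds z] fun w => c.re * γ w u (Complex.I • u) := by
    filter_upwards [hev] with w hw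
    exact (P16_val (hoo w hw) u c).2.1
  have h3 : (fun w => γ w (c • u) (Complex.I • (c • u))) =ᶠ[nhds z]
      fun w => (c.re ^ 2 + c.im ^ 2) * γ w u (Complex.I • u) := by
    filter_upwards [hev] with w hw
    exact (P16_val (hoo w hw) u c).2.2
  have hO11 := HDG.O11_ddc hc
  obtain ⟨k1, k2, k3⟩ := P16_val hO11 u c
  unfold HDG.psi
  rw [ddc_congr h1, ddc_congr h2, ddc_congr h3, ddc_smul _ hc, ddc_smul _ hc, ddc_smul _ hc]
  simp only [_root_.smul_apply, smul_eq_mul]
  rw [k1, k2, k3]
  ring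

theorem psi_one {H : Type*} [NormedAddCommGroup H] [NormedSpace ℂ H] [FiniteDimensional ℂ H]
    (hn : Module.finrank ℂ H ≤ 1) {γ : H → Bil H} {O : Set H} (hO : IsOpen O)
    (hγ : ContDiffOn ℝ ∞ γ O) (hoo : ∀ z ∈ O, HDG.O11 (γ z)) {z : H} (hz : z ∈ O) (u v : H) : HDG.psi γ z u v = 0 := by
  by_cases hu : u = 0
  · rw [hu]
    unfold HDG.psi
    simp only [smul_zero, map_zero, _root_.zero_apply, mul_zero, sub_zero, zero_add]
    exact P16_zero z v (Complex.I • v)
  · have : Nontrivial H := ⟨⟨u, 0, hu⟩⟩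
    have h1 : Module.finrank ℂ H = 1 := le_antisymm hn (Module.finrank_pos)
    obtain ⟨c, rfl⟩ := exists_smul_eq_of_finrank_eq_one h1 hu v
    exact psi_dep hO hγ hoo hz u c

end HFC
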