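import Pool.Agent.HDP.P13
import Pool.Agent.HDP.P15
import Pool.Agent.HDP.P16
import Pool.Agent.HDG.K2
import Pool.Agent.HDG.F6

/-!
# HDP/P17: Theorem D on the manifold

In a chart `dd^c γ` is given by `psi4` of the coefficients (`ddg_eq`), and `psi4 = 0` follows from `psi = 0` (`psi4_zero`). If the dimension is at most
one, this is `psi_one`. Otherwise take a family of affine balls, one of them around the given point (`exists_aff`); `main_D` for the form `β` and `γ`, read in
these balls, gives `psi = 0` at the center of this ball.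
-/

set_option autoImplicit false

noncomputable section

open scoped Manifold ContDiff

namespace HFC

open Pool.Agent.FBR

universe u

private theorem P17_nn {E X : Type u} [NormedAddCommGroup E] [NormedSpace ℂ E] [FiniteDimensional ℂ E] [TopologicalSpace X]
    [ChartedSpace E X] [IsManifold 𝓘(ℂ, E) ω X] {γ : X → Bil E} (hγ : Real11 γ) (h : Plurisub γ) {p : X} {y : E}
    (hy : y ∈ (chartAt E p).target) (u v : E) : 0 ≤ HDG.psi (coef γ p) y u v := by
  have h1 := h p y hy u v
  rw [ddg_eq hγ hy, HDG.psi4_self (chartAt E p).open_target (coef_real hγ p).1 (coef_real hγ p).2 hy] at h1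
  exact h1

private theorem P17_zero {E : Type u} [NormedAddCommGroup E] [NormedSpace ℂ E] {n : ℕ} (e : Module.Basis (Fin n) ℂ E)
    {r : ℝ} (hr : 0 < r) : (0 : E) ∈ HDG.qb e r := by
  show HDG.qf e (0 : E) < r ^ 2
  rw [HDG.qf_zero]
  exact pow_pos hr 2

theorem thmD (M : CM.{u}) (hM : SemiPos M) {γ : M.X → Bil M.E} (hγ : Real11 γ) (h : Plurisub γ) : Pluriclosed γ := by
  intro p y hy u v w t
  rw [ddg_eq hγ hy]
  refine HDG.psi4_zero (chartAt M.E p).open_target (coef_real hγ p).1 (coef_real hγ p).2 hy ?_ u v w t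
  by_cases hn : Module.finrank ℂ M.E ≤ 1
  · exact fun u v => psi_one hn (chartAt M.E p).open_target (coef_real hγ p).1 (coef_real hγ p).2 hy u v
  have hn2 : 2 ≤ Module.finrank ℂ M.E := by omega
  let _ : MeasurableSpace M.X := borel M.X
  have : BorelSpace M.X := ⟨rfl⟩
  let _ : MeasurableSpace M.E := borel M.E
  have : BorelSpace M.E := ⟨rfl⟩
  have : FiniteDimensional ℝ M.E := FiniteDimensional.complexToReal M.E
  obtain ⟨b, hb, x₀, hx₀⟩ := hM
  obtain ⟨B, hB, hall, i0, r0, hr0, hi0⟩ := HDG.exists_aff (X := M.X) (Module.finBasis ℂ M.E) p hy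
  obtain ⟨w', hw⟩ := B.exists_met
  obtain ⟨ν, hν⟩ := HDG.BM.exists_vol (MeasureTheory.Measure.addHaar : MeasureTheory.Measure M.E) B hw
  have hb1 := hB.isT b.alt b.j b.smooth
  have hγ1 : B.IsT fun i => tpb γ (B.ψ i) := hB.isT hγ.alt hγ.j fun q => (coef_real hγ q).1
  have hpsi : ∀ i, ∀ z ∈ HDG.qb (Module.finBasis ℂ M.E) 4, ∀ u v : M.E, 0 ≤ HDG.psi (tpb γ (B.ψ i)) z u v := by
    intro i z hz u v
    obtain ⟨x, y', r, hr, hxy⟩ := hall i
    rw [psi_aff hγ hr hxy hz u v]
    exact mul_nonneg (by positivity) (P17_nn hγ h (hxy z hz).1 u v)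
  have hmain := B.main_D hw hν hb1 (hB.clT b) (hB.nnT hb) (hB.pos hx₀) hn2 hγ1 hpsi
  intro u v
  have h1 := hmain i0 0 (P17_zero _ one_pos) u v
  have h2 := psi_aff hγ hr0 hi0 (P17_zero _ (by norm_num)) u v
  rw [smul_zero, add_zero] at h2
  have h3 := h2.symm.trans h1
  exact (mul_eq_zero.1 h3).resolve_left (pow_ne_zero 4 hr0.ne')

end HFC
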