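import Pool.Agent.HDP.K6
import Pool.Agent.HDP.P17
import Pool.Agent.HDW.W16

/-!
# HDP/K7: the inequality on the manifold, for a pluriclosed metric

A family of affine balls `B` from `exists_aff` (P15); the Hermitian metric and the form `β` are read in the balls, and
`BM.weighted_pc` (K6) gives the function `f`, as in `wk_of` (HDW/W16). The hypothesis `psi = 0` of `weighted_pc` follows from
`psi_aff` (P16), `ddg_eq` and `psi4_self`, because the metric is pluriclosed.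
-/

set_option autoImplicit false

noncomputable section

open scoped Manifold ContDiff Topology

namespace HFC

open Pool.Agent.FBR

universe u

theorem Herm.real {E X : Type u} [NormedAddCommGroup E] [NormedSpace ℂ E] [TopologicalSpace X] [ChartedSpace E X]
    {g : X → Bil E} (hg : Herm g) : Real11 g :=
  ⟨hg.smooth, hg.alt, hg.j⟩

private theorem K7_zero {E X : Type u} [NormedAddCommGroup E] [NormedSpace ℂ E] [FiniteDimensional ℂ E] [TopologicalSpace X]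
    [ChartedSpace E X] [IsManifold 𝓘(ℂ, E) ω X] {γ : X → Bil E} (hγ : Real11 γ) (h : Pluriclosed γ) {p : X} {y : E}
    (hy : y ∈ (chartAt E p).target) (u v : E) : HDG.psi (coef γ p) y u v = 0 := by
  have h1 := h p y hy u (Complex.I • u) v (Complex.I • v)
  rw [ddg_eq hγ hy, HDG.psi4_self (chartAt E p).open_target (coef_real hγ p).1 (coef_real hγ p).2 hy] at h1
  exact h1

private theorem K7_pt {E X : Type u} [NormedAddCommGroup E] [NormedSpace ℂ E] [FiniteDimensional ℂ E]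
    [TopologicalSpace X] [ChartedSpace E X] {n : ℕ} {e : Module.Basis (Fin n) ℂ E} {B : HDG.BM e X} (hB : HDG.Fit B)
    {f : X → ℝ} (hf : SmF E f) {b g : X → Bil E} {p δ κ : ℝ} (hf0 : ∀ x, f x ≤ 0) {i : B.I} {z : E} (hz : z ∈ HDG.qb e 4)
    (h : HDG.Nn (((fun i => tpb b (B.ψ i)) + B.dd f + B.wt (fun y => κ - δ * HDG.gp p (f y)) fun i => tpb g (B.ψ i)) i z))
    (u : E) :
    (δ * (1 - f (B.ψ i z)) ^ (-p) - κ) * ev (g (B.ψ i z)) (dvec E (B.ψ i) z u) (Complex.I • dvec E (B.ψ i) z u) ≤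
      ev (b (B.ψ i z)) (dvec E (B.ψ i) z u) (Complex.I • dvec E (B.ψ i) z u) + lev f (B.ψ i z) (dvec E (B.ψ i) z u) := by
  have h1 := h u
  obtain ⟨h2, h3⟩ := lev_comp hf (hB.hol i z hz) u
  have h4 : ∀ a : X → Bil E, tpb a (B.ψ i) z u (Complex.I • u) =
      ev (a (B.ψ i z)) (dvec E (B.ψ i) z u) (Complex.I • dvec E (B.ψ i) z u) := fun a => by
    rw [tpb_apply, h3]
    rfl
  have h5 : ((fun i => tpb b (B.ψ i)) + B.dd f + B.wt (fun y => κ - δ * HDG.gp p (f y)) fun i => tpb g (B.ψ i)) i z u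
      (Complex.I • u) = tpb b (B.ψ i) z u (Complex.I • u) + ddc (fun z => f (B.ψ i z)) z u (Complex.I • u) +
        (κ - δ * HDG.gp p (f (B.ψ i z))) * tpb g (B.ψ i) z u (Complex.I • u) := rfl
  rw [h5, h4, h4, h2, HDG.gp_eq p (hf0 _)] at h1
  linarith

theorem kc_of (M : CM.{u}) (hn : 2 ≤ Module.finrank ℂ M.E) (b : Form M.E M.X) (hb : b.Semi) (hb' : ∃ x, b.PosAt x)
    (g : M.X → Bil M.E) (hg : Herm g) (hpc : Pluriclosed g) :
    ∃ δ : ℝ, 0 < δ ∧ ∀ κ : ℝ, 0 < κ → ∀ p : ℝ, 0 < p → p ≤ 1 → ∃ f : M.X → ℝ, SmF M.E f ∧ (∀ x, f x ≤ 0) ∧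
      (∃ x, f x = 0) ∧ Above b g f fun x => δ * (1 - f x) ^ (-p) - κ := by
  let _ : MeasurableSpace M.X := borel M.X
  have : BorelSpace M.X := ⟨rfl⟩
  let _ : MeasurableSpace M.E := borel M.E
  have : BorelSpace M.E := ⟨rfl⟩
  have : FiniteDimensional ℝ M.E := FiniteDimensional.complexToReal M.E
  obtain ⟨x₀, hx₀⟩ := hb'
  obtain ⟨B, hB, hall, -⟩ := HDG.exists_aff (X := M.X) (Module.finBasis ℂ M.E) x₀ (mem_chart_target M.E x₀)
  have hw := hB.met (a := g) hg.alt hg.j (fun q => (coef_real hg.real q).1) hg.pos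
  have hb1 := hB.isT b.alt b.j b.smooth
  obtain ⟨ν, hν⟩ := HDG.BM.exists_vol (MeasureTheory.Measure.addHaar : MeasureTheory.Measure M.E) B hw
  have hpsi : ∀ i, ∀ z ∈ HDG.qb (Module.finBasis ℂ M.E) 4, ∀ u v : M.E, HDG.psi (tpb g (B.ψ i)) z u v = 0 := by
    intro i z hz u v
    obtain ⟨x, y', r, hr, hxy⟩ := hall i
    rw [psi_aff hg.real hr hxy hz u v, K7_zero hg.real hpc (hxy z hz).1 u v, mul_zero]
  obtain ⟨δ, hδ, h⟩ := B.weighted_pc hw hν hb1 (hB.clT b) (hB.nnT hb) (hB.pos hx₀) hn hpsi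
  refine ⟨δ, hδ, fun κ hκ p hp hp1 => ?_⟩
  obtain ⟨f, hf, hf0, hf1, hN⟩ := h κ hκ p hp hp1
  refine ⟨f, (hB.sm f).2 hf, hf0, hf1, fun x v => ?_⟩
  obtain ⟨i, z, hz, rfl⟩ := B.cov x
  have hz4 : z ∈ HDG.qb (Module.finBasis ℂ M.E) 4 := HDG.BM.qb_mono (by norm_num) (by norm_num) hz
  obtain ⟨u, rfl⟩ := (hB.bij i z hz4).2 v
  exact K7_pt hB ((hB.sm f).2 hf) hf0 hz4 (hN i z hz4) u

end HFC
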