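import Pool.Agent.HDP.P17

/-!
# HDP/K8: metrics with a sign

`dd^c (-γ) = - dd^c γ`, so Theorem D (`thmD`) for `γ` or for `-γ` gives `dd^c γ = 0`.
-/

set_option autoImplicit false

noncomputable section

open scoped Manifold ContDiff Topology

namespace HFC

open Pool.Agent.FBR

universe u

section

variable {E X : Type u} [NormedAddCommGroup E] [NormedSpace ℂ E] [TopologicalSpace X] [ChartedSpace E X]

private theorem K8_cB (γ : X → Bil E) (p : X) (u v : E) :
    cB (fun x => -γ x) p u v = fun y => -cB γ p u v y := by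
  funext y
  rfl

private theorem K8_dR (f : E → ℝ) (y u : E) : dR (fun z => -f z) y u = -dR f y u := by
  unfold dR
  rw [fderiv_fun_neg]
  rfl

private theorem K8_ext (γ : X → Bil E) (p : X) (y u v w : E) :
    ext (fun x => -γ x) p y u v w = -ext γ p y u v w := by
  unfold ext
  rw [K8_cB, K8_cB, K8_cB, K8_dR, K8_dR, K8_dR]
  ring

private theorem K8_dcg (γ : X → Bil E) (p : X) (y u v w : E) :
    dcg (fun x => -γ x) p y u v w = -dcg γ p y u v w := by
  unfold dcg
  rw [K8_ext]
  ring

private theorem K8_ddg (γ : X → Bil E) (p : X) (y u v w t : E) :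
    ddg (fun x => -γ x) p y u v w t = -ddg γ p y u v w t := by
  unfold ddg
  simp only [K8_dcg]
  rw [K8_dR, K8_dR, K8_dR, K8_dR]
  ring

private theorem K8_real {γ : X → Bil E} (hγ : Real11 γ) : Real11 (fun x => -γ x) where
  smooth p u v := by
    rw [K8_cB]
    exact (hγ.smooth p u v).neg
  alt x v := by
    have h := hγ.alt x v
    change -(ev (γ x) v v) = 0
    rw [h, neg_zero]
  j x u v := by
    have h := hγ.j x u v
    change -(ev (γ x) (Complex.I • u) (Complex.I • v)) = -(ev (γ x) u v)
    rw [h]

end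

theorem sign_pc (M : CM.{u}) (hM : SemiPos M) {γ : M.X → Bil M.E} (hγ : Real11 γ)
    (h : Plurisub γ ∨ Plurisub (fun x => -γ x)) : Pluriclosed γ := by
  rcases h with h | h
  · exact thmD M hM hγ h
  · intro p y hy u v w t
    have h1 := thmD M hM (K8_real hγ) h p y hy u v w t
    rw [K8_ddg] at h1
    exact neg_eq_zero.1 h1

end HFC
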