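import Pool.Agent.HDP.P4
import Pool.Agent.HDG.LA6

/-!
# HDP/P5: change of the basis

MODULE P5. PLAN. `c2_basis`: let `P i k := e.repr (e' k) i` (or the inverse), then `Mt e' a = Pᵀ * Mt e a * conj P` for `O11 a`
(from `a u (i v) = Re (∑ u_j (Mt e a) j k conj v_k)`, `a u v = - Im (..)`; see `Mt_form`, LA6 `dt_comp`, `cf_comp` for the same computation with a
linear map), so `cf e' a s = |det P|² cf e a s`, and `mc e' 1 a x y = |det P|² mc e 1 a x y` by the definition of `mc` (`lj_smul`, the forms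
`a + s x` are `O11`). ALTERNATIVELY: let `T` be the complex linear map with `T (e k) = e' k`; `Mt e' a = Mt e (a.bilinearComp T T)` and LA6
`cf_comp` gives the factor `|T.det|`. `rr_basis`: by `c2_basis` it is enough to compare the sums with the same `mc e 1`: expand
`E1 e p q` and `E2 e p q` in the basis `E1 e' p' q'`, `E2 e' p' q'` (`expand e'`, P1), use bilinearity (P2) and `ddc_expand` for `e` (with
`x = e' p'`, `y = i e' q'` or `e' q'`): `∑ p q, (E1 e p q (x, y) • ddc (γ (e p) (i e q)) + E2 e p q (x, y) • ddc (γ (e p) (e q))) = ddc (γ x y)` as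
bilinear forms (ext).
-/

set_option autoImplicit false

noncomputable section

open scoped ContDiff

namespace HDG

open Pool.Agent.FBR

variable {H : Type*} [NormedAddCommGroup H] [NormedSpace ℂ H] [FiniteDimensional ℂ H] {n : ℕ}
  (e : Module.Basis (Fin n) ℂ H)

omit [FiniteDimensional ℂ H] in
private theorem P5_apply {ι : Type*} (s : Finset ι) (f : ι → Bil H) (u v : H) :
    (∑ i ∈ s, f i) u v = ∑ i ∈ s, f i u v := by
  rw [_root_.sum_apply, _root_.sum_apply]

private theorem P5_comm (F : Fin n → Fin n → Fin n → Fin n → ℝ) :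
    ∑ p, ∑ q, ∑ p', ∑ q', F p q p' q' = ∑ p', ∑ q', ∑ p, ∑ q, F p q p' q' := by
  have h1 : ∀ p, ∑ q, ∑ p', ∑ q', F p q p' q' = ∑ p', ∑ q, ∑ q', F p q p' q' := fun p => Finset.sum_comm
  have h2 : ∀ p' p, ∑ q, ∑ q', F p q p' q' = ∑ q', ∑ q, F p q p' q' := fun p' p => Finset.sum_comm
  simp only [h1]
  rw [Finset.sum_comm]
  refine Finset.sum_congr rfl fun p' _ => ?_
  simp only [h2]
  exact Finset.sum_comm

theorem c2_basis (e' : Module.Basis (Fin n) ℂ H) : ∃ c : ℝ, 0 < c ∧ ∀ a x y : Bil H, O11 a → O11 x → O11 y →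
    mc e 1 a x y = c * mc e' 1 a x y := by
  let T : H ≃L[ℝ] H := ((e'.equiv e (Equiv.refl _)).restrictScalars ℝ).toContinuousLinearEquiv
  have hTe : ∀ k, T (e' k) = e k := by
    intro k
    show (e'.equiv e (Equiv.refl _)) (e' k) = e k
    rw [Module.Basis.equiv_apply]
    rfl
  have hTI : ∀ v, T (Complex.I • v) = Complex.I • T v := by
    intro v
    exact (e'.equiv e (Equiv.refl _)).map_smul Complex.I v
  have hMt : ∀ b : Bil H, Mt e b = Mt e' (b.bilinearComp (T : H →L[ℝ] H) (T : H →L[ℝ] H)) := by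
    intro b
    ext j k
    show ((b (e j) (Complex.I • e k) : ℝ) : ℂ) - Complex.I * ((b (e j) (e k) : ℝ) : ℂ) =
      ((b (T (e' j)) (T (Complex.I • e' k)) : ℝ) : ℂ) - Complex.I * ((b (T (e' j)) (T (e' k)) : ℝ) : ℂ)
    rw [hTI, hTe, hTe]
  have hdet : (T : H →L[ℝ] H).det ≠ 0 := by
    have h1 := LinearEquiv.isUnit_det' T.toLinearEquiv
    exact h1.ne_zero
  refine ⟨|(T : H →L[ℝ] H).det|, abs_pos.2 hdet, fun a x y ha hx hy => ?_⟩
  unfold mc
  rw [← lj_smul]
  refine lj_congr n 1 fun k _ => ?_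
  have h2 := cf_comp e' (O11_add ha (O11_smul (k : ℝ) hx)) hy (T := (T : H →L[ℝ] H)) hTI
  rw [← h2]
  unfold cf
  rw [hMt, hMt]

private theorem P5_key {γ : H → Bil H} (hγ : ContDiff ℝ ∞ γ) (hoo : ∀ z, O11 (γ z)) (z x y : H) :
    ddc (fun z => γ z x y) z =
      ∑ p, ∑ q, (E1 e p q x y • ddc (fun z => γ z (e p) (Complex.I • e q)) z +
        E2 e p q x y • ddc (fun z => γ z (e p) (e q)) z) := by
  refine ContinuousLinearMap.ext fun u => ContinuousLinearMap.ext fun v => ?_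
  refine (ddc_expand e hγ hoo z x y u v).symm.trans ?_
  rw [P5_apply]
  refine Finset.sum_congr rfl fun p _ => ?_
  rw [P5_apply]
  refine Finset.sum_congr rfl fun q _ => ?_
  rw [_root_.add_apply, _root_.add_apply, _root_.smul_apply, _root_.smul_apply, _root_.smul_apply,
    _root_.smul_apply, smul_eq_mul, smul_eq_mul, mul_comm (E1 e p q x y), mul_comm (E2 e p q x y)]

private theorem P5_h1 (a X : Bil H) {Z : Bil H} (hZ : O11 Z) : mc e 1 a X Z =
    ∑ p', ∑ q', (Z (e p') (Complex.I • e q') * mc e 1 a X (E1 e p' q') +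
      Z (e p') (e q') * mc e 1 a X (E2 e p' q')) := by
  have h := congrArg (fun W => mc e 1 a X W) (expand e hZ)
  refine h.trans ?_
  show mc e 1 a X (∑ p, ∑ q, (Z (e p) (Complex.I • e q) • E1 e p q + Z (e p) (e q) • E2 e p q)) = _
  rw [c2_sum_right]
  refine Finset.sum_congr rfl fun p' _ => ?_
  rw [c2_sum_right]
  refine Finset.sum_congr rfl fun q' _ => ?_
  rw [mc_add, mc_smul, mc_smul]

private theorem P5_h2 (e' : Module.Basis (Fin n) ℂ H) (a Z : Bil H) (f g : Fin n → Fin n → ℝ)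
    (X1 X2 : Fin n → Fin n → Bil H) : mc e' 1 a (∑ p, ∑ q, (f p q • X1 p q + g p q • X2 p q)) Z =
      ∑ p, ∑ q, (f p q * mc e' 1 a (X1 p q) Z + g p q * mc e' 1 a (X2 p q) Z) := by
  rw [c2_sum_left]
  refine Finset.sum_congr rfl fun p _ => ?_
  rw [c2_sum_left]
  refine Finset.sum_congr rfl fun q _ => ?_
  rw [c2_add_left, c2_smul_left, c2_smul_left]

private theorem P5_alg (F1 F2 G1 G2 b11 b12 b21 b22 : Fin n → Fin n → Fin n → Fin n → ℝ)
    (l r : Fin n → Fin n → ℝ)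
    (hl : ∀ p q, l p q = ∑ p', ∑ q', (F1 p q p' q' * b11 p q p' q' + F2 p q p' q' * b12 p q p' q') +
      ∑ p', ∑ q', (G1 p q p' q' * b21 p q p' q' + G2 p q p' q' * b22 p q p' q'))
    (hr : ∀ p' q', r p' q' = ∑ p, ∑ q, (F1 p q p' q' * b11 p q p' q' + G1 p q p' q' * b21 p q p' q') +
      ∑ p, ∑ q, (F2 p q p' q' * b12 p q p' q' + G2 p q p' q' * b22 p q p' q')) :
    ∑ p, ∑ q, l p q = ∑ p', ∑ q', r p' q' := by
  have h3 : ∀ p q, l p q = ∑ p', ∑ q', (F1 p q p' q' * b11 p q p' q' + F2 p q p' q' * b12 p q p' q' +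
      (G1 p q p' q' * b21 p q p' q' + G2 p q p' q' * b22 p q p' q')) := by
    intro p q
    rw [hl]
    simp only [Finset.sum_add_distrib]
  simp only [h3]
  rw [P5_comm]
  refine Finset.sum_congr rfl fun p' _ => Finset.sum_congr rfl fun q' _ => ?_
  rw [hr]
  simp only [Finset.sum_add_distrib]
  ring

theorem rr_basis (e' : Module.Basis (Fin n) ℂ H) : ∃ c : ℝ, 0 < c ∧ ∀ (a : Bil H) (γ : H → Bil H) (z : H), O11 a →
    ContDiff ℝ ∞ γ → (∀ z, O11 (γ z)) → rr e a γ z = c * rr e' a γ z := by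
  obtain ⟨c, hc, hmc⟩ := c2_basis e e'
  refine ⟨c, hc, fun a γ z ha hγ hoo => ?_⟩
  have hO1 : ∀ p q, O11 (ddc (fun z => γ z (e p) (Complex.I • e q)) z) := fun p q => ddc_eval_O11 hγ z _ _
  have hO2 : ∀ p q, O11 (ddc (fun z => γ z (e p) (e q)) z) := fun p q => ddc_eval_O11 hγ z _ _
  have hl : rr e a γ z = c * ∑ p, ∑ q, (mc e' 1 a (ddc (fun z => γ z (e p) (Complex.I • e q)) z) (E1 e p q) +
      mc e' 1 a (ddc (fun z => γ z (e p) (e q)) z) (E2 e p q)) := by
    unfold rr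
    rw [Finset.mul_sum]
    refine Finset.sum_congr rfl fun p _ => ?_
    rw [Finset.mul_sum]
    refine Finset.sum_congr rfl fun q _ => ?_
    rw [hmc a _ _ ha (hO1 p q) (E1_O11 e p q), hmc a _ _ ha (hO2 p q) (E2_O11 e p q), mul_add]
  rw [hl]
  refine congrArg (fun t => c * t) ?_
  unfold rr
  refine P5_alg (fun p q p' q' => E1 e p q (e' p') (Complex.I • e' q')) (fun p q p' q' => E1 e p q (e' p') (e' q'))
    (fun p q p' q' => E2 e p q (e' p') (Complex.I • e' q')) (fun p q p' q' => E2 e p q (e' p') (e' q'))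
    (fun p q p' q' => mc e' 1 a (ddc (fun z => γ z (e p) (Complex.I • e q)) z) (E1 e' p' q'))
    (fun p q p' q' => mc e' 1 a (ddc (fun z => γ z (e p) (Complex.I • e q)) z) (E2 e' p' q'))
    (fun p q p' q' => mc e' 1 a (ddc (fun z => γ z (e p) (e q)) z) (E1 e' p' q'))
    (fun p q p' q' => mc e' 1 a (ddc (fun z => γ z (e p) (e q)) z) (E2 e' p' q')) _ _ ?_ ?_
  · intro p q
    exact congrArg₂ (fun s t => s + t) (P5_h1 e' a _ (E1_O11 e p q)) (P5_h1 e' a _ (E2_O11 e p q))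
  · intro p' q'
    refine congrArg₂ (fun s t => s + t) ?_ ?_
    · rw [P5_key e hγ hoo z (e' p') (Complex.I • e' q')]
      exact P5_h2 e' a _ _ _ _ _
    · rw [P5_key e hγ hoo z (e' p') (e' q')]
      exact P5_h2 e' a _ _ _ _ _

end HDG
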