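import Pool.Agent.HDP.P3
import Pool.Agent.HDP.P5
import Pool.Agent.HDP.P6
import Pool.Agent.HDW.W4
import Pool.Agent.HDG.SL3

/-!
# HDP/L1: the mixed discriminant of `a > 0`, `x ≥ 0`, `y > 0`

In a basis which diagonalises `a` and `y` simultaneously the mixed discriminant is a sum of the diagonal coefficients of `x` with
positive weights, so it vanishes only if all diagonal coefficients of `x` vanish, that is `cf e' y x = 0`.
-/

set_option autoImplicit false

noncomputable section

open scoped ContDiff Topology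

namespace HDG

open Pool.Agent.FBR

variable {H : Type*} [NormedAddCommGroup H] [NormedSpace ℂ H] [FiniteDimensional ℂ H] {n : ℕ}
  (e : Module.Basis (Fin n) ℂ H)

omit [FiniteDimensional ℂ H] in
private theorem L1_re {e' : Module.Basis (Fin n) ℂ H} {b : Bil H} {l : Fin n → ℝ}
    (h : Mt e' b = Matrix.diagonal fun i => ((l i : ℝ) : ℂ)) (p r : Fin n) :
    b (e' p) (Complex.I • e' r) = (if p = r then l p else 0) ∧ b (e' p) (e' r) = 0 := by
  have h1 := congrFun (congrFun h p) r
  rw [Matrix.diagonal_apply] at h1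
  have h2 : Mt e' b p r = ((b (e' p) (Complex.I • e' r) : ℝ) : ℂ) -
      Complex.I * ((b (e' p) (e' r) : ℝ) : ℂ) := rfl
  rw [h2] at h1
  have hre := congrArg Complex.re h1
  have him := congrArg Complex.im h1
  have h3 : (if p = r then ((l p : ℝ) : ℂ) else 0) = (((if p = r then l p else 0 : ℝ)) : ℂ) := by
    split_ifs
    · rfl
    · exact Complex.ofReal_zero.symm
  rw [h3] at hre him
  simp only [Complex.sub_re, Complex.sub_im, Complex.mul_re, Complex.mul_im, Complex.ofReal_re,
    Complex.ofReal_im, Complex.I_re, Complex.I_im] at hre him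
  constructor
  · linarith
  · linarith

theorem mc_pos (hn : 2 ≤ n) {a x y : Bil H} (ha : O11 a) (hx : O11 x) (hy : O11 y)
    (hpa : ∀ v : H, v ≠ 0 → 0 < a v (Complex.I • v)) (hnx : Nn x) (hpy : ∀ v : H, v ≠ 0 → 0 < y v (Complex.I • v))
    (h : mc e 1 a x y = 0) : x = 0 := by
  obtain ⟨e', l, hl, h1⟩ := exists_diag e ha hy hpy
  obtain ⟨c, hc, hcb⟩ := c2_basis e e'
  have h0 : mc e' 1 a x y = 0 := by
    have h2 := hcb a x y ha hx hy
    rw [h] at h2
    exact (mul_eq_zero.1 h2.symm).resolve_left hc.ne'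
  have hlp : ∀ i, 0 < l i := by
    intro i
    have h2 := (L1_re hl i i).1
    rw [if_pos rfl] at h2
    rw [← h2]
    exact hpa _ (e'.ne_zero i)
  have hterm : ∀ p, ∀ r ∈ Finset.univ.erase p, (∏ i ∈ (Finset.univ.erase p).erase r, l i) *
      (x (e' p) (Complex.I • e' p) * y (e' r) (Complex.I • e' r) -
        x (e' p) (Complex.I • e' r) * y (e' p) (Complex.I • e' r) - x (e' p) (e' r) * y (e' p) (e' r)) =
      (∏ i ∈ (Finset.univ.erase p).erase r, l i) * x (e' p) (Complex.I • e' p) := by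
    intro p r hr
    have hpr : p ≠ r := (Finset.ne_of_mem_erase hr).symm
    rw [(L1_re h1 r r).1, (L1_re h1 p r).1, (L1_re h1 p r).2, if_pos rfl, if_neg hpr]
    ring
  have hsum := c2_diag e' ha hx hy hl
  rw [h0] at hsum
  have hsum' : ∑ p, ∑ r ∈ Finset.univ.erase p,
      (∏ i ∈ (Finset.univ.erase p).erase r, l i) * x (e' p) (Complex.I • e' p) = 0 := by
    rw [hsum]
    exact Finset.sum_congr rfl fun p _ => Finset.sum_congr rfl fun r hr => (hterm p r hr).symm
  have hprod : ∀ p r, 0 < ∏ i ∈ (Finset.univ.erase p).erase r, l i := fun p r =>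
    Finset.prod_pos fun i _ => hlp i
  have hxp : ∀ p, x (e' p) (Complex.I • e' p) = 0 := by
    intro p
    have h2 := (Finset.sum_eq_zero_iff_of_nonneg (fun p _ => Finset.sum_nonneg fun r _ =>
      mul_nonneg (hprod p r).le (hnx (e' p)))).1 hsum' p (Finset.mem_univ p)
    have h3 := (Finset.sum_eq_zero_iff_of_nonneg (fun r _ =>
      mul_nonneg (hprod p r).le (hnx (e' p)))).1 h2
    have : Nontrivial (Fin n) := Fin.nontrivial_iff_two_le.2 hn
    obtain ⟨r, hr⟩ := exists_ne p
    exact (mul_eq_zero.1 (h3 r (Finset.mem_erase.2 ⟨hr, Finset.mem_univ r⟩))).resolve_left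
      (hprod p r).ne'
  refine (cf_pos e' hy hpy hx hnx).2 ?_
  have h4 : Mt e' y = 1 := by
    rw [h1]
    simp
  unfold cf
  rw [h4, Matrix.adjugate_one, one_mul, Matrix.trace, Complex.re_sum]
  refine Finset.sum_eq_zero fun p _ => ?_
  have h5 : (Mt e' x).diag p = ((x (e' p) (Complex.I • e' p) : ℝ) : ℂ) -
      Complex.I * ((x (e' p) (e' p) : ℝ) : ℂ) := rfl
  rw [h5, hxp p, hx.1]
  simp

end HDG
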