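import Pool.Agent.HDP.P5
import Pool.Agent.HDP.P6

/-!
# HDP/P7: `rr` is monotone in the form

Scaling and continuity of `rr` in the form, and monotonicity: for `ε > 0` the forms `a` and `a' + ε w0` are diagonalised
simultaneously, the entries `l i` of `a` are in `[0, 1]`, so `0 ≤ rr e a γ z ≤ rr e (a' + ε w0) γ z`, and `ε → 0`.
-/

set_option autoImplicit false
set_option maxSynthPendingDepth 3

noncomputable section

open scoped ContDiff

namespace HDG

open Pool.Agent.FBR

section

variable {G : Type*} [NormedAddCommGroup G] [NormedSpace ℝ G]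

private theorem P7_cont (x w : Bil G) : Continuous fun c : ℝ => x + c • w := by
  fun_prop

private theorem P7_zero (x w : Bil G) : x + (0 : ℝ) • w = x := by
  rw [zero_smul, add_zero]

end

variable {H : Type*} [NormedAddCommGroup H] [NormedSpace ℂ H] [FiniteDimensional ℂ H] {n : ℕ}
  (e : Module.Basis (Fin n) ℂ H)

theorem rr_scale (hn : 2 ≤ n) (c : ℝ) (a : Bil H) (γ : H → Bil H) (z : H) :
    rr e (c • a) γ z = c ^ (n - 2) * rr e a γ z := by
  unfold rr
  rw [Finset.mul_sum]
  refine Finset.sum_congr rfl fun p _ => ?_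
  rw [Finset.mul_sum]
  refine Finset.sum_congr rfl fun q _ => ?_
  rw [c2_scale e hn, c2_scale e hn, mul_add]

theorem rr_cont (γ : H → Bil H) (z : H) : Continuous fun a : Bil H => rr e a γ z := by
  unfold rr
  have h : ∀ x y : Bil H, Continuous fun a : Bil H => mc e 1 a x y := by
    intro x y
    have h0 : Continuous fun a : Bil H => ((a, x, y) : Bil H × Bil H × Bil H) :=
      Continuous.prodMk continuous_id continuous_const
    have h1 : Continuous ((fun p : Bil H × Bil H × Bil H => mc e 1 p.1 p.2.1 p.2.2) ∘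
      fun a : Bil H => ((a, x, y) : Bil H × Bil H × Bil H)) := (mc_continuous e 1).comp h0
    exact h1
  exact continuous_finsetSum _ fun p _ => continuous_finsetSum _ fun q _ => (h _ _).add (h _ _)

omit [FiniteDimensional ℂ H] in
private theorem P7_entry {a : Bil H} (ha : O11 a) (e' : Module.Basis (Fin n) ℂ H) {l : Fin n → ℝ}
    (hl : Mt e' a = Matrix.diagonal fun i => ((l i : ℝ) : ℂ)) (i : Fin n) :
    a (e' i) (Complex.I • e' i) = l i := by
  have h1 := congrFun (congrFun hl i) i
  rw [Matrix.diagonal_apply_eq] at h1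
  unfold Mt at h1
  rw [ha.1, Complex.ofReal_zero, mul_zero, sub_zero] at h1
  exact Complex.ofReal_injective h1

private theorem P7_diag {a d : Bil H} (ha : O11 a) (hd : O11 d) (h : Nn a) (hda : Nn (d - a))
    (hpos : ∀ v : H, v ≠ 0 → 0 < d v (Complex.I • v)) {γ : H → Bil H}
    (hγ : ContDiff ℝ ∞ γ) (hoo : ∀ z, O11 (γ z)) {z : H} (hp : ∀ u v : H, 0 ≤ psi γ z u v) :
    0 ≤ rr e a γ z ∧ rr e a γ z ≤ rr e d γ z := by
  obtain ⟨e', l, hla, hld⟩ := exists_diag e ha hd hpos
  obtain ⟨c, hc, hce⟩ := rr_basis e e'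
  have hl0 : ∀ i, 0 ≤ l i := fun i => by
    rw [← P7_entry ha e' hla i]
    exact h _
  have hl1 : ∀ i, l i ≤ 1 := fun i => by
    have h1 := P7_entry ha e' hla i
    have h2 := P7_entry hd e' (l := fun _ => 1) hld i
    have h3 : 0 ≤ d (e' i) (Complex.I • e' i) - a (e' i) (Complex.I • e' i) := hda (e' i)
    rw [h1, h2] at h3
    linarith
  rw [hce a γ z ha hγ hoo, hce d γ z hd hγ hoo, rr_diag e' ha hla hγ hoo z,
    rr_diag e' hd (l := fun _ => 1) hld hγ hoo z]
  constructor
  · refine mul_nonneg hc.le (Finset.sum_nonneg fun p _ => Finset.sum_nonneg fun r _ => ?_)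
    exact mul_nonneg (Finset.prod_nonneg fun i _ => hl0 i) (div_nonneg (hp _ _) (by norm_num))
  · refine mul_le_mul_of_nonneg_left (Finset.sum_le_sum fun p _ => Finset.sum_le_sum fun r _ => ?_) hc.le
    refine mul_le_mul_of_nonneg_right ?_ (div_nonneg (hp _ _) (by norm_num))
    exact Finset.prod_le_prod (fun i _ => hl0 i) fun i _ => hl1 i

theorem rr_mono {a a' : Bil H} (ha : O11 a) (ha' : O11 a') (h : Nn a) (h' : Nn (a' - a)) {γ : H → Bil H}
    (hγ : ContDiff ℝ ∞ γ) (hoo : ∀ z, O11 (γ z)) {z : H} (hp : ∀ u v : H, 0 ≤ psi γ z u v) :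
    0 ≤ rr e a γ z ∧ rr e a γ z ≤ rr e a' γ z := by
  have key : ∀ ε : ℝ, 0 < ε → 0 ≤ rr e a γ z ∧ rr e a γ z ≤ rr e (a' + ε • w0 e) γ z := by
    intro ε hε
    have hval : ∀ v : H, (a' + ε • w0 e) v (Complex.I • v) = a' v (Complex.I • v) + ε * qf e v := by
      intro v
      rw [← w0_self e v]
      rfl
    have ha'v : ∀ v : H, 0 ≤ a' v (Complex.I • v) - a v (Complex.I • v) := fun v => h' v
    refine P7_diag e ha (O11_add ha' (O11_smul ε (w0_O11 e))) h ?_ ?_ hγ hoo hp
    · intro v
      change 0 ≤ (a' + ε • w0 e) v (Complex.I • v) - a v (Complex.I • v)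
      rw [hval]
      have h1 := mul_nonneg hε.le (qf_nonneg e v)
      have h2 := ha'v v
      linarith
    · intro v hv
      rw [hval]
      have h1 := mul_pos hε (qf_pos e hv)
      have h2 := ha'v v
      have h3 := h v
      linarith
  refine ⟨(key 1 one_pos).1, ?_⟩
  have hc : Continuous fun ε : ℝ => rr e (a' + ε • w0 e) γ z := (rr_cont e γ z).comp (P7_cont a' (w0 e))
  have ht : Filter.Tendsto (fun ε : ℝ => rr e (a' + ε • w0 e) γ z) (nhdsWithin 0 (Set.Ioi 0))
      (nhds (rr e a' γ z)) := by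
    have h1 := hc.tendsto 0
    rw [P7_zero a' (w0 e)] at h1
    exact h1.mono_left nhdsWithin_le_nhds
  refine ge_of_tendsto ht ?_
  filter_upwards [self_mem_nhdsWithin] with ε hε
  exact (key ε hε).2

end HDG
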