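import Pool.Agent.HDP.P10
import Pool.Agent.HDP.P7
import Pool.Agent.HDG.SL4

/-!
# HDP/L2: the integral over a ball, for a twisted metric with `dd^c (e^{-u} w) ≤ 0`

With `F = c k e^{u k}` and `G = - ζ e^{-u k} w k` (`ζ` a cutoff function) the integrand is `- mc e 1 (T' z) (ddc F z) (G z)`, the integral of
`mc e 1 (T' z) (ddc F z) (G z)` is the one of `F z * rr e (T' z) G z` (`loc_rr`), which is nonnegative (`rr_mono`).
-/

set_option autoImplicit false

noncomputable section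

open scoped ContDiff Topology

open MeasureTheory

namespace HDG

open Pool.Agent.FBR

variable {H : Type*} [NormedAddCommGroup H] [NormedSpace ℂ H] {n : ℕ} {e : Module.Basis (Fin n) ℂ H}
  [FiniteDimensional ℂ H] [MeasurableSpace H] [BorelSpace H] (μ : Measure H) [μ.IsAddHaarMeasure]
  {Y : Type*} [TopologicalSpace Y] (B : BM e Y) {u : B.I → H → ℝ} {w b : B.I → H → Bil H}

omit [MeasurableSpace H] [BorelSpace H] in
private theorem L2_cut {F : Type*} [NormedAddCommGroup F] [NormedSpace ℝ F] {κ : H → ℝ}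
    (hκ : ContDiff ℝ ∞ κ) {t : ℝ} (ht : 0 ≤ t) (ht4 : t < 4) (h0 : ∀ z, t ^ 2 ≤ qf e z → κ z = 0)
    {g : H → F} (hg : ContDiffOn ℝ ∞ g (qb e 4)) : ContDiff ℝ ∞ fun z => κ z • g z := by
  rw [contDiff_iff_contDiffAt]
  intro z
  by_cases hz : z ∈ qb e 4
  · exact hκ.contDiffAt.smul (hg.contDiffAt ((isOpen_qb e 4).mem_nhds hz))
  · have h1 : IsOpen {z : H | t ^ 2 < qf e z} := isOpen_lt continuous_const (qf_smooth e).continuous
    have h2 : z ∈ {z : H | t ^ 2 < qf e z} := by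
      have h3 : ¬ qf e z < 4 ^ 2 := hz
      show t ^ 2 < qf e z
      nlinarith
    refine (contDiffAt_const (c := (0 : F))).congr_of_eventuallyEq ?_
    filter_upwards [h1.mem_nhds h2] with x hx
    have hx' : t ^ 2 < qf e x := hx
    show κ x • g x = 0
    rw [h0 x hx'.le, zero_smul]

private theorem L2_sz {V : Type*} [AddCommGroup V] [Module ℝ V] (c : ℝ) : c • (0 : V) = 0 := smul_zero c

private theorem L2_smul {V W : Type*} [NormedAddCommGroup V] [NormedSpace ℝ V] [NormedAddCommGroup W] [NormedSpace ℝ W]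
    {f : V → ℝ} {g : V → W} {s : Set V} (hf : ContDiffOn ℝ ∞ f s) (hg : ContDiffOn ℝ ∞ g s) :
    ContDiffOn ℝ ∞ (fun z => f z • g z) s := hf.smul hg

omit [MeasurableSpace H] [BorelSpace H] in
private theorem L2_zero (x z : Bil H) : mc e 1 x 0 z = 0 := by
  have h := c2_smul_left e x 0 (0 : Bil H) z
  rw [zero_mul] at h
  have h0 : (0 : ℝ) • (0 : Bil H) = 0 := L2_sz (V := Bil H) 0
  rwa [h0] at h

omit [FiniteDimensional ℂ H] [MeasurableSpace H] [BorelSpace H] in
private theorem L2_ddc_zero {f : H → ℝ} {z : H} (h : ∀ᶠ x in 𝓝 z, f x = 0) : ddc f z = 0 := by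
  have h1 : f =ᶠ[𝓝 z] fun _ => (0 : ℝ) := h
  rw [ddc_congr h1]
  refine ContinuousLinearMap.ext fun u => ContinuousLinearMap.ext fun v => ?_
  rw [ddc_apply]
  have : fderiv ℝ (fun _ : H => (0 : ℝ)) = fun _ => 0 := by
    funext y
    simp
  rw [this]
  simp

omit [FiniteDimensional ℂ H] [MeasurableSpace H] [BorelSpace H] in
private theorem L2_psi {γ γ' : H → Bil H} {z : H} (h : γ =ᶠ[𝓝 z] γ') (u v : H) :
    psi γ z u v = psi γ' z u v := by
  have h1 : ∀ u v : H, ddc (fun z => γ z u v) z = ddc (fun z => γ' z u v) z := fun u v =>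
    ddc_congr (h.mono fun z' hz' => by
      show γ z' u v = γ' z' u v
      rw [hz'])
  unfold psi
  simp only [h1]

omit [FiniteDimensional ℂ H] [MeasurableSpace H] [BorelSpace H] in
private theorem L2_neg {γ : H → Bil H} {z : H} (h : ContDiffAt ℝ ∞ γ z) (x y : H) :
    psi (fun z => (-1 : ℝ) • γ z) z x y = -psi γ z x y := by
  have h1 : ∀ u v : H, ddc (fun z => ((-1 : ℝ) • γ z) u v) z = (-1 : ℝ) • ddc (fun z => γ z u v) z := fun u v => by
    have h2 : ContDiffAt ℝ ∞ (fun z => γ z u v) z :=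
      (h.clm_apply contDiffAt_const).clm_apply contDiffAt_const
    exact ddc_smul (-1) (h2.of_le (by norm_cast))
  have h3 : ∀ (a : Bil H) (p q : H), ((-1 : ℝ) • a) p q = -1 * a p q := fun a p q => rfl
  unfold psi
  simp only [h1]
  simp only [h3]
  ring

theorem loc_tw (hw : B.Met w) (hb : B.IsT b) (hc : B.ClT b) (hnn : B.NnT b) (hu : B.PerR u)
    (hpsi : ∀ i, ∀ z ∈ qb e 4, ∀ x y : H, psi (fun z => Real.exp (-u i z) • w i z) z x y ≤ 0)
    {χ : B.I → Y → ℝ} {c : B.I → H → ℝ} (hχ : B.Pou χ c) (k : B.I) :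
    ∫ z in qb e 4, mc e 1 (b k z) (B.sT 1 u (χ k) k z) (w k z) ∂μ ≤ 0 := by
  obtain ⟨ζ, hζ, -, -, hζ1, hζz⟩ := exists_cut' e (s := 7 / 2) (t := 15 / 4) (by norm_num) (by norm_num)
  obtain ⟨T', hT1, hT2, hT3, hT4⟩ := B.loc_ten hb k
  have hexp : ContDiffOn ℝ ∞ (fun z => Real.exp (1 * u k z)) (qb e 4) :=
    (contDiffOn_const.mul (hu.sm k)).exp
  have hexp' : ContDiffOn ℝ ∞ (fun z => Real.exp (-u k z) • w k z) (qb e 4) :=
    L2_smul (W := Bil H) ((hu.sm k).neg.exp) (hw.t.sm k)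
  have hc0 : ∀ z, (3 / 2 : ℝ) ^ 2 < qf e z → c k z = 0 := by
    intro z hz
    by_contra h
    have h1 : qf e z ≤ (3 / 2) ^ 2 := hχ.cs k (subset_tsupport _ h)
    exact absurd hz (not_lt.2 h1)
  have hF : ContDiff ℝ ∞ fun z => c k z • Real.exp (1 * u k z) :=
    L2_cut (e := e) (hχ.csm k) (t := 7 / 4) (by norm_num) (by norm_num)
      (fun z hz => hc0 z (lt_of_lt_of_le (by norm_num) hz)) hexp
  have hG : ContDiff ℝ ∞ fun z => (-ζ z) • (Real.exp (-u k z) • w k z) :=
    L2_cut (F := Bil H) (e := e) hζ.neg (t := 15 / 4) (by norm_num) (by norm_num)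
      (fun z hz => by rw [hζz z hz, neg_zero]) hexp'
  set F : H → ℝ := fun z => c k z • Real.exp (1 * u k z) with hFdef
  set G : H → Bil H := fun z => (-ζ z) • (Real.exp (-u k z) • w k z) with hGdef
  have hOO : ∀ z, O11 (G z) := by
    intro z
    by_cases hz : z ∈ qb e 4
    · exact O11_smul _ (O11_smul _ (hw.t.oo k z hz))
    · have h1 : ζ z = 0 := by
        have h3 : ¬ qf e z < 4 ^ 2 := hz
        exact hζz z (by nlinarith)
      have h0 : G z = (0 : Bil H) := by
        refine ContinuousLinearMap.ext fun u' => ContinuousLinearMap.ext fun v' => ?_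
        show -ζ z * (Real.exp (-u k z) * w k z u' v') = 0
        rw [h1, neg_zero, zero_mul]
      rw [h0]
      exact O11_zero
  have h74 : ∀ z ∈ qb e (7 / 2), z ∈ qb e 4 := by
    intro z hz
    have hz' : qf e z < (7 / 2) ^ 2 := hz
    show qf e z < 4 ^ 2
    norm_num at hz' ⊢
    linarith
  have h372 : ∀ z, qf e z ≤ (3 / 2) ^ 2 → z ∈ qb e (7 / 2) := fun z hz => lt_of_le_of_lt hz (by norm_num)
  have hsupp : tsupport F ⊆ {z | qf e z ≤ (3 / 2) ^ 2} := by
    refine closure_minimal ?_ (isCompact_qb e (3 / 2)).isClosed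
    intro z hz
    by_contra hz'
    have h1 : ¬ qf e z ≤ (3 / 2) ^ 2 := hz'
    refine hz ?_
    show c k z • Real.exp (1 * u k z) = 0
    rw [hc0 z (not_le.1 h1), zero_smul]
  have hFc : HasCompactSupport F :=
    (isCompact_qb e (3 / 2)).of_isClosed_subset (isClosed_tsupport F) hsupp
  have hFU : tsupport F ⊆ qb e (7 / 2) := fun z hz => h372 z (hsupp hz)
  have hkey := loc_rr e μ (T := T') (U := qb e (7 / 2)) ⟨hT1, hT2, hT4 hc⟩ (isOpen_qb e (7 / 2)) hG hOO hF hFc hFU
  have hF0 : ∀ z, (3 / 2 : ℝ) ^ 2 < qf e z → F z = 0 := by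
    intro z hz
    show c k z • Real.exp (1 * u k z) = 0
    rw [hc0 z hz, zero_smul]
  have hdd0 : ∀ z, (3 / 2 : ℝ) ^ 2 < qf e z → ddc F z = 0 := by
    intro z hz
    refine L2_ddc_zero ?_
    have h1 : IsOpen {z : H | (3 / 2 : ℝ) ^ 2 < qf e z} := isOpen_lt continuous_const (qf_smooth e).continuous
    filter_upwards [h1.mem_nhds hz] with x hx
    exact hF0 x hx
  have hpos : 0 ≤ ∫ z, F z * rr e (T' z) G z ∂μ := by
    refine integral_nonneg fun z => ?_
    show 0 ≤ F z * rr e (T' z) G z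
    by_cases h : qf e z ≤ (3 / 2) ^ 2
    · have hz := h372 z h
      have hz4 := h74 z hz
      have hT : T' z = b k z := hT3 z (le_of_lt hz)
      refine mul_nonneg ?_ ?_
      · show 0 ≤ c k z • Real.exp (1 * u k z)
        rw [← hχ.eq k z hz4, smul_eq_mul]
        exact mul_nonneg (hχ.nn k _) (Real.exp_pos _).le
      · have h0 : Nn (T' z - T' z) := fun v => by
          have h1 : (T' z - T' z) v (Complex.I • v) = T' z v (Complex.I • v) - T' z v (Complex.I • v) := rfl
          rw [h1, sub_self]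
        refine (rr_mono e (hT2 z) (hT2 z) ?_ h0 hG hOO fun x y => ?_).1
        · rw [hT]
          exact hnn k z hz4
        · have h1 : G =ᶠ[𝓝 z] fun z => (-1 : ℝ) • (Real.exp (-u k z) • w k z) := by
            filter_upwards [(isOpen_qb e (7 / 2)).mem_nhds hz] with x hx
            have hx' : qf e x < (7 / 2) ^ 2 := hx
            show (-ζ x) • (Real.exp (-u k x) • w k x) = (-1 : ℝ) • (Real.exp (-u k x) • w k x)
            rw [hζ1 x hx'.le]
          rw [L2_psi h1, L2_neg (hexp'.contDiffAt ((isOpen_qb e 4).mem_nhds hz4))]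
          have h2 := hpsi k z hz4 x y
          linarith
    · rw [hF0 z (not_le.1 h), zero_mul]
  have hsT : ∀ z ∈ qb e 4, B.sT 1 u (χ k) k z = Real.exp (-(1 * u k z)) • ddc F z := by
    intro z hz
    unfold BM.sT
    rw [ddc_congr (ψ := F) ?_]
    filter_upwards [(isOpen_qb e 4).mem_nhds hz] with x hx
    show χ k (B.ψ k x) * Real.exp (1 * u k x) = c k x • Real.exp (1 * u k x)
    rw [hχ.eq k x hx, smul_eq_mul]
  have heq : ∀ z ∈ qb e 4, mc e 1 (b k z) (B.sT 1 u (χ k) k z) (w k z) = -mc e 1 (T' z) (ddc F z) (G z) := by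
    intro z hz
    rw [hsT z hz]
    by_cases h : qf e z ≤ (3 / 2) ^ 2
    · have h1 : ζ z = 1 := hζ1 z (h.trans (by norm_num))
      have h2 : G z = (-1 : ℝ) • (Real.exp (-u k z) • w k z) := by
        show (-ζ z) • (Real.exp (-u k z) • w k z) = (-1 : ℝ) • (Real.exp (-u k z) • w k z)
        rw [h1]
      rw [h2, mc_smul, mc_smul, c2_smul_left, hT3 z (le_of_lt (h372 z h)), one_mul]
      ring
    · have h1 := hdd0 z (not_le.1 h)
      have h2 : Real.exp (-(1 * u k z)) • ddc F z = 0 := by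
        rw [h1]
        exact L2_sz (V := Bil H) _
      rw [h2, h1, L2_zero, L2_zero, neg_zero]
  calc ∫ z in qb e 4, mc e 1 (b k z) (B.sT 1 u (χ k) k z) (w k z) ∂μ
      = ∫ z in qb e 4, -mc e 1 (T' z) (ddc F z) (G z) ∂μ :=
        setIntegral_congr_fun (isOpen_qb e 4).measurableSet heq
    _ = ∫ z, -mc e 1 (T' z) (ddc F z) (G z) ∂μ := by
        refine setIntegral_eq_integral_of_forall_compl_eq_zero fun z hz => ?_
        have h3 : ¬ qf e z < 4 ^ 2 := hz
        rw [hdd0 z (lt_of_lt_of_le (by norm_num) (not_lt.1 h3)), L2_zero, neg_zero]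
    _ = -∫ z, F z * rr e (T' z) G z ∂μ := by rw [integral_neg, hkey]
    _ ≤ 0 := by linarith

end HDG
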