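import Pool.Agent.HDP.L1
import Pool.Agent.HDP.L2

/-!
# HDP/L3: twisted metrics with `dd^c (e^{-u} w) ≤ 0`, on a family of balls

`L3_G χ` is the density of `b ^ (n-2) ∧ e^{-u} dd^c (χ e^u) ∧ w`. For `χ = χ k` it vanishes off the ball `k`, so its integral is the one of
`loc_tw` (L2), which is `≤ 0`. The sum over `k` shows that the density for `χ = 1`, which is nonnegative and continuous, vanishes identically. At a point
where `b > 0` this gives `e^{-u} dd^c (e^u) = 0` (L1), hence `du = 0`.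
-/

set_option autoImplicit false

noncomputable section

open scoped ContDiff Topology

open MeasureTheory

namespace HDG

open Pool.Agent.FBR

variable {H : Type*} [NormedAddCommGroup H] [NormedSpace ℂ H] {n : ℕ} {e : Module.Basis (Fin n) ℂ H}
  [FiniteDimensional ℂ H] [MeasurableSpace H] [BorelSpace H]
  {Y : Type*} [TopologicalSpace Y] [CompactSpace Y] [T2Space Y] [MeasurableSpace Y] [BorelSpace Y]
  (B : BM e Y) {u : B.I → H → ℝ} {w b : B.I → H → Bil H}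

omit [FiniteDimensional ℂ H] [MeasurableSpace H] [BorelSpace H] in
private theorem L3_lj (x y z : Bil H) (c : ℝ) :
    (lj n 1 fun s => cf e (x + s • y) z / c) = mc e 1 x y z / c := by
  have h := lj_smul n 1 c⁻¹ (fun s => cf e (x + s • y) z)
  unfold mc
  rw [div_eq_inv_mul, ← h]
  refine congrArg (lj n 1) ?_
  funext s
  rw [div_eq_inv_mul]

omit [MeasurableSpace H] [BorelSpace H] in
set_option maxSynthPendingDepth 3 in
private theorem L3_zero (x z : Bil H) : mc e 1 x 0 z = 0 := by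
  have h := c2_smul_left e x 0 (0 : Bil H) z
  rwa [smul_zero, zero_mul] at h

omit [MeasurableSpace H] [BorelSpace H] [CompactSpace Y] [MeasurableSpace Y] [BorelSpace Y] in
/-- off the ball `k`, the tensor of `χ k` vanishes -/
private theorem L3_off {χ : B.I → Y → ℝ} {c : B.I → H → ℝ} (hχ : B.Pou χ c) (k : B.I) {i : B.I} {z : H}
    (hz : z ∈ qb e 4) (h0 : ∀ z' ∈ qb e 4, B.ψ k z' ≠ B.ψ i z) : B.sT 1 u (χ k) i z = 0 := by
  apply sT_germ
  have hsub : {z : H | qf e z ≤ (3 / 2) ^ 2} ⊆ qb e 4 := by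
    intro x hx
    have h1 : qf e x ≤ (3 / 2) ^ 2 := hx
    show qf e x < 4 ^ 2
    norm_num at h1 ⊢
    linarith
  have hK : IsClosed (B.ψ k '' {z : H | qf e z ≤ (3 / 2) ^ 2}) :=
    ((isCompact_qb e (3 / 2)).image_of_continuousOn ((B.cont k).mono hsub)).isClosed
  have hmem : B.ψ i z ∈ (B.ψ k '' {z : H | qf e z ≤ (3 / 2) ^ 2})ᶜ := by
    rintro ⟨z', hz', h⟩
    exact h0 z' (hsub hz') h
  have hev : ∀ᶠ z' in 𝓝 z, B.ψ i z' ∈ (B.ψ k '' {z : H | qf e z ≤ (3 / 2) ^ 2})ᶜ :=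
    ((B.cont i).continuousAt ((isOpen_qb e 4).mem_nhds hz)).eventually (hK.isOpen_compl.mem_nhds hmem)
  filter_upwards [hev] with z' hz'
  by_cases h : ∃ x ∈ qb e 4, B.ψ k x = B.ψ i z'
  · obtain ⟨x, hx, hxe⟩ := h
    rw [← hxe, hχ.eq k x hx]
    apply image_eq_zero_of_notMem_tsupport
    intro hx'
    exact hz' ⟨x, hχ.cs k hx', hxe⟩
  · exact hχ.out k _ fun x hx hxe => h ⟨x, hx, hxe⟩

/-- the density of `b ^ (n-2) ∧ e^{-u} dd^c (f e^u) ∧ w` -/
private def L3_G (u : B.I → H → ℝ) (w b : B.I → H → Bil H) (f : Y → ℝ) (y : Y) : ℝ :=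
  lj n 1 fun s => B.dcf w (b + s • B.sT 1 u f) w y

omit [MeasurableSpace H] [BorelSpace H] [CompactSpace Y] [T2Space Y] [MeasurableSpace Y] [BorelSpace Y] in
private theorem L3_eq (f : Y → ℝ) (y : Y) :
    L3_G B u w b f y = mc e 1 (b (B.ix y) (B.cd y)) (B.sT 1 u f (B.ix y) (B.cd y)) (w (B.ix y) (B.cd y)) /
      dt e (w (B.ix y) (B.cd y)) :=
  L3_lj (b (B.ix y) (B.cd y)) (B.sT 1 u f (B.ix y) (B.cd y)) (w (B.ix y) (B.cd y)) (dt e (w (B.ix y) (B.cd y)))

omit [MeasurableSpace H] [BorelSpace H] [CompactSpace Y] [T2Space Y] [MeasurableSpace Y] [BorelSpace Y] in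
private theorem L3_box (hw : B.Met w) (hb : B.IsT b) (hu : B.PerR u) {f : Y → ℝ}
    (hf : B.Sm f) {i : B.I} {z : H} (hz : z ∈ qb e 4) :
    L3_G B u w b f (B.ψ i z) = mc e 1 (b i z) (B.sT 1 u f i z) (w i z) / dt e (w i z) := by
  rw [← L3_lj]
  unfold L3_G
  refine congrArg (lj n 1) ?_
  funext s
  exact B.dcf_box hw (B.IsT_add hb (B.IsT_smul (sT_isT B 1 hu hf) s)) hw.t hz

omit [MeasurableSpace H] [BorelSpace H] [CompactSpace Y] [T2Space Y] [MeasurableSpace Y] [BorelSpace Y] in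
private theorem L3_cont (hw : B.Met w) (hb : B.IsT b) (hu : B.PerR u) {f : Y → ℝ}
    (hf : B.Sm f) : Continuous (L3_G B u w b f) := by
  have h1 : L3_G B u w b f = fun y => ∑ k ∈ Finset.range (n + 1),
      (Lagrange.basis (Finset.range (n + 1)) (fun k : ℕ => (k : ℝ)) k).coeff 1 *
        B.dcf w (b + (k : ℝ) • B.sT 1 u f) w y := rfl
  rw [h1]
  exact continuous_finsetSum _ fun k _ => continuous_const.mul
    (B.dcf_cont hw (B.IsT_add hb (B.IsT_smul (sT_isT B 1 hu hf) (k : ℝ))) hw.t)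

omit [MeasurableSpace H] [BorelSpace H] [CompactSpace Y] [T2Space Y] [MeasurableSpace Y] [BorelSpace Y] in
private theorem L3_sum (hu : B.PerR u) {χ : B.I → Y → ℝ} {c : B.I → H → ℝ} (hχ : B.Pou χ c) (y : Y) :
    L3_G B u w b (fun _ => 1) y = ∑ i, L3_G B u w b (χ i) y := by
  have hz : B.cd y ∈ qb e 4 := BM.qb_mono zero_le_one (by norm_num) (B.cd_mem y)
  have h1 : (fun y => ∑ k, χ k y) = fun _ => (1 : ℝ) := funext hχ.sum
  simp only [L3_eq]
  rw [← Finset.sum_div, ← c2_sum_left, ← sT_sum B 1 hu Finset.univ (fun k _ => hχ.sm k) hz, h1]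

omit [MeasurableSpace H] [BorelSpace H] [CompactSpace Y] [MeasurableSpace Y] [BorelSpace Y] in
private theorem L3_h0 {χ : B.I → Y → ℝ} {c : B.I → H → ℝ} (hχ : B.Pou χ c) (i : B.I) {y : Y}
    (hy : ∀ z ∈ qb e 4, B.ψ i z ≠ y) : L3_G B u w b (χ i) y = 0 := by
  have hz : B.cd y ∈ qb e 4 := BM.qb_mono zero_le_one (by norm_num) (B.cd_mem y)
  have h1 : B.sT 1 u (χ i) (B.ix y) (B.cd y) = 0 := by
    apply L3_off B hχ i hz
    intro z' hz' he
    rw [B.ψ_cd] at he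
    exact hy z' hz' he
  rw [L3_eq, h1, L3_zero, zero_div]

omit [CompactSpace Y] in
/-- the integral over one ball -/
private theorem L3_loc {μ : Measure H} [μ.IsAddHaarMeasure] {ν : Measure Y} (hw : B.Met w) (hν : B.IsVol μ w ν)
    (hb : B.IsT b) (hc : B.ClT b) (hnn : B.NnT b) (hu : B.PerR u)
    (hpsi : ∀ i, ∀ z ∈ qb e 4, ∀ x y : H, psi (fun z => Real.exp (-u i z) • w i z) z x y ≤ 0)
    {χ : B.I → Y → ℝ} {c : B.I → H → ℝ} (hχ : B.Pou χ c) (i : B.I) :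
    ∫ y, L3_G B u w b (χ i) y ∂ν ≤ 0 := by
  have hm : MeasurableSet (qb e 4 : Set H) := (isOpen_qb e 4).measurableSet
  rw [B.box_int hw hν i (L3_cont B hw hb hu (hχ.sm i)).measurable fun y hy => L3_h0 B hχ i hy]
  have h3 : ∫ z in qb e 4, L3_G B u w b (χ i) (B.ψ i z) * dt e (w i z) ∂μ =
      ∫ z in qb e 4, mc e 1 (b i z) (B.sT 1 u (χ i) i z) (w i z) ∂μ := by
    refine setIntegral_congr_fun hm fun z hz => ?_
    show L3_G B u w b (χ i) (B.ψ i z) * dt e (w i z) = mc e 1 (b i z) (B.sT 1 u (χ i) i z) (w i z)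
    rw [L3_box B hw hb hu (hχ.sm i) hz, div_mul_cancel₀ _ (B.dt_w_pos hw hz).ne']
  rw [h3]
  exact loc_tw μ B hw hb hc hnn hu hpsi hχ i

theorem lcn_bm (hn : 2 ≤ n) (hw : B.Met w) (hb : B.IsT b) (hc : B.ClT b) (hnn : B.NnT b) (hu : B.PerR u)
    (hph : ∀ i, ∀ z ∈ qb e 4, ddc (u i) z = 0)
    (hpsi : ∀ i, ∀ z ∈ qb e 4, ∀ x y : H, psi (fun z => Real.exp (-u i z) • w i z) z x y ≤ 0) {i : B.I} {z : H}
    (hz : z ∈ qb e 4) (hp : ∀ v : H, v ≠ 0 → 0 < b i z v (Complex.I • v)) : fderiv ℝ (u i) z = 0 := by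
  have : ProperSpace H := FiniteDimensional.proper ℂ H
  obtain ⟨ν, hν⟩ := BM.exists_vol (Measure.addHaar : Measure H) B hw
  obtain ⟨χ, c, hχ⟩ := B.exists_pou
  have hs1 : B.IsT (B.sT 1 u fun _ => 1) := sT_isT B _ hu (B.Sm_const 1)
  have hcd : ∀ y, B.cd y ∈ qb e 4 := fun y => BM.qb_mono zero_le_one (by norm_num) (B.cd_mem y)
  have hN : ∀ i, ∀ z ∈ qb e 4, Nn (B.sT 1 u (fun _ => 1) i z) := by
    intro i z hz v
    rw [sT_one B _ hu hz (hph i z hz) v]
    positivity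
  have hNw : ∀ i, ∀ z ∈ qb e 4, Nn (w i z) := by
    intro i z hz v
    by_cases hv : v = 0
    · rw [hv]
      simp
    · exact (hw.pos i z hz v hv).le
  have hgc : Continuous (L3_G B u w b fun _ => 1) := L3_cont B hw hb hu (B.Sm_const 1)
  have hg0 : ∀ y, 0 ≤ L3_G B u w b (fun _ => 1) y := fun y => by
    rw [L3_eq]
    exact div_nonneg (mc_nonneg e (hb.oo _ _ (hcd y)) (hs1.oo _ _ (hcd y)) (hw.t.oo _ _ (hcd y))
      (hnn _ _ (hcd y)) (hN _ _ (hcd y)) (hNw _ _ (hcd y)) 1) (B.dt_w_pos hw (hcd y)).le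
  have hbd : ∀ f : Y → ℝ, Continuous f → Integrable f ν := by
    intro f hf
    obtain ⟨C, hC⟩ := isCompact_univ.exists_bound_of_continuousOn hf.continuousOn
    exact B.bd_int hν hf.measurable fun y => hC y trivial
  have hI : ∫ y, L3_G B u w b (fun _ => 1) y ∂ν ≤ 0 := by
    rw [integral_congr_ae (Filter.Eventually.of_forall (L3_sum B hu hχ)),
      integral_finsetSum _ fun k _ => hbd _ (L3_cont B hw hb hu (hχ.sm k))]
    exact Finset.sum_nonpos fun k _ => L3_loc B hw hν hb hc hnn hu hpsi hχ k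
  have hI0 : ∫ y, L3_G B u w b (fun _ => 1) y ∂ν = 0 := le_antisymm hI (integral_nonneg hg0)
  have hz0 : ∀ y, L3_G B u w b (fun _ => 1) y = 0 := by
    intro y
    by_contra hne
    have hpos : 0 < L3_G B u w b (fun _ => 1) y := lt_of_le_of_ne (hg0 y) (Ne.symm hne)
    have h1 : 0 < ν {y | 0 < L3_G B u w b (fun _ => 1) y} :=
      B.vol_open hw hν (isOpen_lt continuous_const hgc) ⟨y, hpos⟩
    have h2 := (integral_eq_zero_iff_of_nonneg hg0 (hbd _ hgc)).1 hI0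
    have h3 : ν {y | ¬ L3_G B u w b (fun _ => 1) y = 0} = 0 := h2
    exact h1.ne' (measure_mono_null (fun y hy => ne_of_gt hy) h3)
  have h1 := hz0 (B.ψ i z)
  rw [L3_box B hw hb hu (B.Sm_const 1) hz, div_eq_zero_iff] at h1
  have h3 := mc_pos e hn (hb.oo i z hz) (hs1.oo i z hz) (hw.t.oo i z hz) hp (hN i z hz) (hw.pos i z hz)
    (h1.resolve_right (B.dt_w_pos hw hz).ne')
  ext v
  have h4 := sT_one B 1 hu hz (hph i z hz) v
  rw [h3] at h4
  have h5 : (0 : ℝ) = (1 : ℝ) ^ 2 / 2 * ((fderiv ℝ (u i) z v) ^ 2 + (fderiv ℝ (u i) z (Complex.I • v)) ^ 2) := h4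
  show fderiv ℝ (u i) z v = 0
  have h8 : (fderiv ℝ (u i) z v) ^ 2 = 0 := by
    have := sq_nonneg (fderiv ℝ (u i) z v)
    have := sq_nonneg (fderiv ℝ (u i) z (Complex.I • v))
    linarith
  exact pow_eq_zero_iff two_ne_zero |>.1 h8

end HDG
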