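import Pool.Agent.HDG.ST5
import Pool.Agent.HDP.P15

/-!
# HDP/L4: affine parametrizations such that primitives of closed 1-forms are multivalued functions

A compact complex manifold has a finite family of parametrized balls, affine in the charts, such that any two balls
that meet lie in a chart ball; so the primitives of a closed 1-form on its members form a multivalued function.
-/

set_option autoImplicit false

noncomputable section

open scoped Manifold ContDiff Topology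

namespace HDG

open Pool.Agent.FBR

variable {E X : Type*} [NormedAddCommGroup E] [NormedSpace ℂ E] [FiniteDimensional ℂ E]
  [TopologicalSpace X] [ChartedSpace E X] [IsManifold 𝓘(ℂ, E) ω X] [CompactSpace X] [T2Space X]
  {n : ℕ} (e : Module.Basis (Fin n) ℂ E)

private def L4_aff (c : E) (r : ℝ) (z : E) : E := c + (r : ℂ) • z

omit [FiniteDimensional ℂ E] in
private theorem L4_aff_smooth (c : E) (r : ℝ) : ContDiff ℂ ∞ (L4_aff c r) := by
  unfold L4_aff
  exact contDiff_const.add (contDiff_const.smul contDiff_id)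

omit [FiniteDimensional ℂ E] in
private theorem L4_aff_cont (c : E) (r : ℝ) : Continuous (L4_aff c r) :=
  (L4_aff_smooth c r).continuous

omit [FiniteDimensional ℂ E] in
private theorem L4_aff_inj (c : E) {r : ℝ} (hr : 0 < r) : Function.Injective (L4_aff c r) := by
  intro z w h
  have hr' : (r : ℂ) ≠ 0 := by exact_mod_cast hr.ne'
  exact smul_right_injective E hr' (add_left_cancel h)

omit [FiniteDimensional ℂ E] in
private theorem L4_aff_open (c : E) {r : ℝ} (hr : 0 < r) {U : Set E} (hU : IsOpen U) :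
    IsOpen (L4_aff c r '' U) := by
  have hr' : (r : ℂ) ≠ 0 := by exact_mod_cast hr.ne'
  have h : L4_aff c r = ((Homeomorph.smulOfNeZero (r : ℂ) hr').trans (Homeomorph.addLeft c) : E → E) := by
    funext z
    rfl
  rw [h]
  exact ((Homeomorph.smulOfNeZero (r : ℂ) hr').trans (Homeomorph.addLeft c)).isOpenMap U hU

omit [FiniteDimensional ℂ E] in
private theorem L4_aff_inv (c : E) {r : ℝ} (hr : 0 < r) (z : E) :
    ((r : ℂ)⁻¹) • (L4_aff c r z - c) = z := by
  have hr' : (r : ℂ) ≠ 0 := by exact_mod_cast hr.ne'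
  unfold L4_aff
  rw [add_sub_cancel_left, smul_smul, inv_mul_cancel₀ hr', one_smul]

omit [FiniteDimensional ℂ E] in
private theorem L4_aff_deriv (c : E) {r : ℝ} (hr : 0 < r) (z : E) :
    DifferentiableAt ℝ (L4_aff c r) z ∧ Function.Bijective (fderiv ℝ (L4_aff c r) z) := by
  have hr' : (r : ℂ) ≠ 0 := by exact_mod_cast hr.ne'
  have h1 : HasFDerivAt (L4_aff c r) ((r : ℂ) • ContinuousLinearMap.id ℂ E) z := by
    unfold L4_aff
    exact ((hasFDerivAt_id z).const_smul (r : ℂ)).const_add c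
  have h2 : HasFDerivAt (L4_aff c r) (((r : ℂ) • ContinuousLinearMap.id ℂ E).restrictScalars ℝ) z :=
    h1.restrictScalars ℝ
  refine ⟨h2.differentiableAt, ?_⟩
  rw [h2.fderiv]
  constructor
  · intro v w h
    exact smul_right_injective E hr' h
  · intro w
    refine ⟨(r : ℂ)⁻¹ • w, ?_⟩
    have h3 : (r : ℂ) • ((r : ℂ)⁻¹ • w) = w := by
      rw [smul_smul, mul_inv_cancel₀ hr', one_smul]
    exact h3

private theorem L4_bound : ∃ M : ℝ, 0 ≤ M ∧ ∀ z ∈ (qb e 4 : Set E), ‖z‖ ≤ M := by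
  obtain ⟨c, C, hc, hC, h⟩ := qf_equiv e
  refine ⟨16 / c + 1, by positivity, fun z hz => ?_⟩
  have h1 : qf e z < 4 ^ 2 := hz
  have h2 := (h z).1
  have h3 : ‖z‖ ^ 2 ≤ 16 / c := by
    rw [le_div_iff₀ hc]
    linarith
  have h4 : 0 ≤ 16 / c := by positivity
  have h5 := norm_nonneg z
  nlinarith [sq_nonneg (‖z‖ - 1)]

omit [IsManifold 𝓘(ℂ, E) ω X] [CompactSpace X] [T2Space X] in
private theorem L4_radius (V : X → Set X) (hV : ∀ x, IsOpen (V x)) (hx : ∀ x, x ∈ V x) (x : X) :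
    ∃ r : ℝ, 0 < r ∧ ∀ z ∈ (qb e 4 : Set E), L4_aff (chartAt E x x) r z ∈ (chartAt E x).target ∧
      (chartAt E x).symm (L4_aff (chartAt E x x) r z) ∈ V x := by
  obtain ⟨M, hM0, hM⟩ := L4_bound e
  have hW : IsOpen ((chartAt E x).target ∩ (chartAt E x).symm ⁻¹' V x) :=
    (chartAt E x).isOpen_inter_preimage_symm (hV x)
  have hc : chartAt E x x ∈ (chartAt E x).target ∩ (chartAt E x).symm ⁻¹' V x := by
    refine ⟨mem_chart_target E x, ?_⟩
    rw [Set.mem_preimage, (chartAt E x).left_inv (mem_chart_source E x)]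
    exact hx x
  obtain ⟨ε, hε, hb⟩ := Metric.isOpen_iff.1 hW _ hc
  refine ⟨ε / (M + 1), by positivity, fun z hz => ?_⟩
  have h1 : L4_aff (chartAt E x x) (ε / (M + 1)) z ∈ Metric.ball (chartAt E x x) ε := by
    rw [Metric.mem_ball, dist_eq_norm]
    unfold L4_aff
    have hpos : 0 < ε / (M + 1) := by positivity
    rw [add_sub_cancel_left, norm_smul, Complex.norm_real, Real.norm_of_nonneg hpos.le]
    calc ε / (M + 1) * ‖z‖ ≤ ε / (M + 1) * M := mul_le_mul_of_nonneg_left (hM z hz) hpos.le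
      _ < ε / (M + 1) * (M + 1) := mul_lt_mul_of_pos_left (by linarith) hpos
      _ = ε := by field_simp
  exact hb h1

/-- the parametrization -/
private def L4_psi (x : X) (r : ℝ) (z : E) : X := (chartAt E x).symm (L4_aff (chartAt E x x) r z)

section

variable {e} {x : X} {r : ℝ}

omit [FiniteDimensional ℂ E] [IsManifold 𝓘(ℂ, E) ω X] [CompactSpace X] [T2Space X] in
private theorem L4_cont (h : ∀ z ∈ (qb e 4 : Set E), L4_aff (chartAt E x x) r z ∈ (chartAt E x).target) :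
    ContinuousOn (L4_psi (E := E) x r) (qb e 4) :=
  (chartAt E x).continuousOn_symm.comp (L4_aff_cont _ _).continuousOn h

omit [FiniteDimensional ℂ E] [IsManifold 𝓘(ℂ, E) ω X] [CompactSpace X] [T2Space X] in
private theorem L4_inj (hr : 0 < r)
    (h : ∀ z ∈ (qb e 4 : Set E), L4_aff (chartAt E x x) r z ∈ (chartAt E x).target) :
    Set.InjOn (L4_psi (E := E) x r) (qb e 4) := by
  intro z hz w hw hzw
  exact L4_aff_inj _ hr ((chartAt E x).symm.injOn (h z hz) (h w hw) hzw)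

omit [FiniteDimensional ℂ E] [IsManifold 𝓘(ℂ, E) ω X] [CompactSpace X] [T2Space X] in
private theorem L4_opn (hr : 0 < r)
    (h : ∀ z ∈ (qb e 4 : Set E), L4_aff (chartAt E x x) r z ∈ (chartAt E x).target)
    {U : Set E} (hU : U ⊆ qb e 4) (hUo : IsOpen U) : IsOpen (L4_psi (E := E) x r '' U) := by
  have h1 : L4_psi (E := E) x r '' U = (chartAt E x).symm '' (L4_aff (chartAt E x x) r '' U) := by
    rw [Set.image_image]
    rfl
  rw [h1]
  refine (chartAt E x).symm.isOpen_image_of_subset_source (L4_aff_open _ hr hUo) ?_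
  rintro _ ⟨z, hz, rfl⟩
  exact h z (hU hz)

omit [FiniteDimensional ℂ E] [CompactSpace X] [T2Space X] in
private theorem L4_hol
    (h : ∀ z ∈ (qb e 4 : Set E), L4_aff (chartAt E x x) r z ∈ (chartAt E x).target) {z : E}
    (hz : z ∈ (qb e 4 : Set E)) : Hol E (L4_psi (E := E) x r) z :=
  Hol.comp (f := (chartAt E x).symm) (k := L4_aff (chartAt E x x) r) (hol_symm (h z hz))
    (L4_aff_smooth _ _).contDiffAt

omit [FiniteDimensional ℂ E] [CompactSpace X] [T2Space X] in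
private theorem L4_bij (hr : 0 < r)
    (h : ∀ z ∈ (qb e 4 : Set E), L4_aff (chartAt E x x) r z ∈ (chartAt E x).target) {z : E}
    (hz : z ∈ (qb e 4 : Set E)) : Function.Bijective (dvec E (L4_psi (E := E) x r) z) := by
  have h1 : dvec E (L4_psi (E := E) x r) z =
      (dvec E (chartAt E x).symm (L4_aff (chartAt E x x) r z)).comp (fderiv ℝ (L4_aff (chartAt E x x) r) z) :=
    dvec_comp (f := (chartAt E x).symm) (k := L4_aff (chartAt E x x) r) (hol_symm (h z hz)).sm
      (L4_aff_deriv _ hr z).1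
  rw [h1]
  exact (dvec_symm_bij (h z hz)).comp (L4_aff_deriv _ hr z).2

omit [FiniteDimensional ℂ E] [IsManifold 𝓘(ℂ, E) ω X] [CompactSpace X] [T2Space X] in
/-- the inverse of the parametrization -/
private theorem L4_inv (hr : 0 < r)
    (h : ∀ z ∈ (qb e 4 : Set E), L4_aff (chartAt E x x) r z ∈ (chartAt E x).target) {y : X}
    (hy : y ∈ L4_psi (E := E) x r '' qb e 4) : y ∈ (chartAt E x).source ∧
      Function.invFunOn (L4_psi (E := E) x r) (qb e 4) y = ((r : ℂ)⁻¹) • (chartAt E x y - chartAt E x x) := by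
  obtain ⟨w, hw, rfl⟩ := hy
  have h1 : L4_psi (E := E) x r w ∈ (chartAt E x).source := (chartAt E x).map_target (h w hw)
  refine ⟨h1, ?_⟩
  rw [(L4_inj hr h).leftInvOn_invFunOn hw]
  have h2 : chartAt E x (L4_psi (E := E) x r w) = L4_aff (chartAt E x x) r w :=
    (chartAt E x).right_inv (h w hw)
  rw [h2, L4_aff_inv _ hr]

end

private theorem L4_bm (V : X → Set X) (hV : ∀ x, IsOpen (V x)) (hx : ∀ x, x ∈ V x) :
    ∃ B : BM e X, Fit B ∧ (∀ i, ∃ x, B.ψ i '' qb e 4 ⊆ V x) ∧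
      ∀ i, ∃ (x : X) (y : E) (r : ℝ), 0 < r ∧ ∀ z ∈ qb e 4, y + (r : ℂ) • z ∈ (chartAt E x).target ∧
        B.ψ i z = (chartAt E x).symm (y + (r : ℂ) • z) := by
  classical
  choose r hr h using L4_radius e V hV hx
  have hT : ∀ x, ∀ z ∈ (qb e 4 : Set E), L4_aff (chartAt E x x) (r x) z ∈ (chartAt E x).target :=
    fun x z hz => (h x z hz).1
  have h14 : (qb e 1 : Set E) ⊆ qb e 4 := by
    intro z hz
    have h1 : qf e z < 1 ^ 2 := hz
    have h2 : qf e z < 4 ^ 2 := by linarith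
    exact h2
  have h0 : (0 : E) ∈ (qb e 1 : Set E) := by
    have h1 : qf e (0 : E) < 1 ^ 2 := by
      unfold qf
      simp
    exact h1
  have hU : ∀ x, L4_psi (E := E) x (r x) '' qb e 1 ∈ 𝓝 x := by
    intro x
    refine (L4_opn (hr x) (hT x) h14 (isOpen_qb e 1)).mem_nhds ⟨0, h0, ?_⟩
    unfold L4_psi L4_aff
    rw [smul_zero, add_zero]
    exact (chartAt E x).left_inv (mem_chart_source E x)
  obtain ⟨t, ht⟩ := CompactSpace.elim_nhds_subcover _ hU
  have htr : ∀ (x x' : X) (z : E), z ∈ (qb e 4 : Set E) →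
      L4_psi (E := E) x (r x) z ∈ L4_psi (E := E) x' (r x') '' qb e 4 →
      ContDiffAt ℂ ∞ (fun z => Function.invFunOn (L4_psi (E := E) x' (r x')) (qb e 4)
        (L4_psi (E := E) x (r x) z)) z := by
    intro x x' z hz hzx
    have hc : ContinuousAt (L4_psi (E := E) x (r x)) z :=
      (L4_cont (hT x)).continuousAt ((isOpen_qb e 4).mem_nhds hz)
    have hop : IsOpen (L4_psi (E := E) x' (r x') '' qb e 4) :=
      L4_opn (hr x') (hT x') subset_rfl (isOpen_qb e 4)
    have h1 : ContDiffAt ℂ ∞ (chartAt E x' ∘ L4_psi (E := E) x (r x)) z :=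
      (hol_iff hc (L4_inv (hr x') (hT x') hzx).1).1 (L4_hol (hT x) hz)
    have h2 : ContDiffAt ℂ ∞ (fun z => (((r x' : ℝ) : ℂ)⁻¹) •
        ((chartAt E x' ∘ L4_psi (E := E) x (r x)) z - chartAt E x' x')) z :=
      contDiffAt_const.smul (h1.sub contDiffAt_const)
    refine h2.congr_of_eventuallyEq ?_
    filter_upwards [hc.eventually (hop.mem_nhds hzx)] with z' hz'
    exact (L4_inv (hr x') (hT x') hz').2
  refine ⟨{
    I := Fin t.card
    fin := inferInstance
    ψ := fun i => L4_psi (E := E) (t.equivFin.symm i).1 (r (t.equivFin.symm i).1)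
    cont := fun i => L4_cont (hT _)
    inj := fun i => L4_inj (hr _) (hT _)
    opn := fun i U hU hUo => L4_opn (hr _) (hT _) hU hUo
    cov := ?_
    tr := fun i j z hz hzx => htr _ _ z hz hzx }, ⟨fun i z hz => L4_hol (hT _) hz,
      fun i z hz => L4_bij (hr _) (hT _) hz⟩, ?_, ?_⟩
  · intro y
    have hy : y ∈ ⋃ x ∈ t, L4_psi (E := E) x (r x) '' qb e 1 := by
      rw [ht]
      exact Set.mem_univ y
    rw [Set.mem_iUnion₂] at hy
    obtain ⟨x, hxt, z, hz, hzy⟩ := hy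
    refine ⟨t.equivFin ⟨x, hxt⟩, z, hz, ?_⟩
    rw [Equiv.symm_apply_apply]
    exact hzy
  · intro i
    refine ⟨(t.equivFin.symm i).1, ?_⟩
    rintro _ ⟨z, hz, rfl⟩
    exact (h _ z hz).2
  · intro i
    exact ⟨(t.equivFin.symm i).1, chartAt E (t.equivFin.symm i).1 (t.equivFin.symm i).1,
      r (t.equivFin.symm i).1, hr _, fun z hz => ⟨hT _ z hz, rfl⟩⟩

section

omit [CompactSpace X] [T2Space X]

/-- a primitive on a ball and one on a ball in the chart -/
private theorem L4_const {θ : X → E →L[ℝ] ℝ} {p : X} {g : E → X} {S : Set E} {s t : E → ℝ}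
    (hS : IsOpen S) (hs : ContDiffOn ℝ ∞ s S) (hs' : ∀ q ∈ S, fderiv ℝ s q = co1 θ p q)
    (hg : ∀ z ∈ (qb e 4 : Set E), Sm E g z)
    (hgS : ∀ z ∈ (qb e 4 : Set E), g z ∈ (chartAt E p).source ∧ chartAt E p (g z) ∈ S)
    (ht : ContDiffOn ℝ ∞ t (qb e 4)) (ht' : ∀ z ∈ (qb e 4 : Set E), fderiv ℝ t z = tp1 θ g z) :
    ∃ c : ℝ, ∀ z ∈ (qb e 4 : Set E), t z = s (chartAt E p (g z)) + c := by
  have hk : ∀ z ∈ (qb e 4 : Set E), DifferentiableAt ℝ (chartAt E p ∘ g) z := fun z hz =>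
    ((sm_iff (hg z hz).1 (hgS z hz).1).1 (hg z hz)).differentiableAt (by simp)
  have hd : ∀ z ∈ (qb e 4 : Set E), DifferentiableAt ℝ s ((chartAt E p ∘ g) z) := fun z hz =>
    (hs.contDiffAt (hS.mem_nhds (hgS z hz).2)).differentiableAt (by simp)
  have hD : ∀ z ∈ (qb e 4 : Set E), HasFDerivAt (s ∘ (chartAt E p ∘ g))
      ((fderiv ℝ s ((chartAt E p ∘ g) z)).comp (fderiv ℝ (chartAt E p ∘ g) z)) z := fun z hz =>
    (hd z hz).hasFDerivAt.comp z (hk z hz).hasFDerivAt
  have ht1 : DifferentiableOn ℝ t (qb e 4) := ht.differentiableOn (by simp)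
  have hs1 : DifferentiableOn ℝ (s ∘ (chartAt E p ∘ g)) (qb e 4) := fun z hz =>
    (hD z hz).differentiableAt.differentiableWithinAt
  have hE : (qb e 4 : Set E).EqOn (fderiv ℝ t) (fderiv ℝ (s ∘ (chartAt E p ∘ g))) := by
    intro z hz
    rw [ht' z hz, (hD z hz).fderiv, tp1_co θ (hg z hz) (hgS z hz).1]
    have h1 : fderiv ℝ s ((chartAt E p ∘ g) z) = co1 θ p (chartAt E p (g z)) := hs' _ (hgS z hz).2
    rw [h1]
  obtain ⟨c, hc⟩ := (isOpen_qb e 4).exists_eq_add_of_fderiv_eq (qb_convex e 4).isPreconnected ht1 hs1 hE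
  exact ⟨c, fun z hz => hc hz⟩

end

theorem exists_ag : ∃ B : BM e X, Fit B ∧
    (∀ i, ∃ (x : X) (y : E) (r : ℝ), 0 < r ∧ ∀ z ∈ qb e 4, y + (r : ℂ) • z ∈ (chartAt E x).target ∧
      B.ψ i z = (chartAt E x).symm (y + (r : ℂ) • z)) ∧
    ∀ θ : X → E →L[ℝ] ℝ, IsCl1 θ → ∀ t : B.I → E → ℝ, (∀ i, ContDiffOn ℝ ∞ (t i) (qb e 4)) →
      (∀ i, ∀ z ∈ qb e 4, fderiv ℝ (t i) z = tp1 θ (B.ψ i) z) → B.PerR t := by
  have h0 : ∀ x : X, ∃ r : ℝ, 0 < r ∧ Metric.ball (chartAt E x x) r ⊆ (chartAt E x).target := fun x =>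
    Metric.isOpen_iff.1 (chartAt E x).open_target _ (mem_chart_target E x)
  choose r hr hrt using h0
  have hK : ∀ x : X, IsOpen ((chartAt E x).symm '' Metric.ball (chartAt E x x) (r x)) := fun x =>
    (chartAt E x).symm.isOpen_image_of_subset_source Metric.isOpen_ball (hrt x)
  have hxK : ∀ x : X, x ∈ (chartAt E x).symm '' Metric.ball (chartAt E x x) (r x) := fun x =>
    ⟨chartAt E x x, Metric.mem_ball_self (hr x), (chartAt E x).left_inv (mem_chart_source E x)⟩
  obtain ⟨V, hVo, hxV, hV⟩ := fine_cover _ hK hxK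
  obtain ⟨B, hB, hBV, hBa⟩ := L4_bm e V hVo hxV
  refine ⟨B, hB, hBa, fun θ hθ t ht ht' => ⟨ht, fun i j => ?_⟩⟩
  by_cases hD : (B.D i j).Nonempty
  · obtain ⟨z₀, hz₀⟩ := hD
    obtain ⟨x, hx⟩ := hBV i
    obtain ⟨y, hy⟩ := hBV j
    obtain ⟨p, hp⟩ := hV x y ⟨B.ψ i z₀, hx ⟨z₀, hz₀.1, rfl⟩, hy hz₀.2⟩
    obtain ⟨s, hs, hs'⟩ := exists_prim hθ (g := (chartAt E p).symm) Metric.isOpen_ball
      (convex_ball (chartAt E p p) (r p)) (fun q hq => (hol_symm (hrt p hq)).sm)
    have hc : ∀ k : B.I, B.ψ k '' qb e 4 ⊆ (chartAt E p).symm '' Metric.ball (chartAt E p p) (r p) →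
        ∃ c : ℝ, ∀ z ∈ (qb e 4 : Set E), t k z = s (chartAt E p (B.ψ k z)) + c := by
      intro k hk
      refine L4_const e Metric.isOpen_ball hs hs' (fun z hz => (hB.hol k z hz).sm) (fun z hz => ?_) (ht k) (ht' k)
      obtain ⟨w, hw, hwz⟩ := hk ⟨z, hz, rfl⟩
      rw [← hwz]
      refine ⟨(chartAt E p).map_target (hrt p hw), ?_⟩
      rw [(chartAt E p).right_inv (hrt p hw)]
      exact hw
    obtain ⟨c, hci⟩ := hc i (hx.trans (Set.subset_union_left.trans hp))
    obtain ⟨c', hcj⟩ := hc j (hy.trans (Set.subset_union_right.trans hp))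
    refine ⟨c - c', fun z hz => ?_⟩
    rw [hci z hz.1, hcj _ (B.T_mem hz), B.ψ_T hz]
    ring
  · exact ⟨0, fun z hz => absurd ⟨z, hz⟩ hD⟩

end HDG
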