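import Pool.Agent.HDG.SP2
import Pool.Agent.HDG.RB

/-!
# HDP/L5: a closed holomorphic 1-form which vanishes on a nonempty open set is zero

The interior `S` of the zero set of `α` is open, nonempty and closed: in a ball of a chart which meets `S`, the coefficients
of `α` vanish by the identity theorem for holomorphic functions of one variable, on complex lines through a point of `S`.
-/

set_option autoImplicit false

noncomputable section

open scoped Manifold ContDiff Topology

namespace HFC

open Pool.Agent.FBR

universe u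

/-- the identity theorem on a ball -/
private theorem L5_ball {E : Type*} [NormedAddCommGroup E] [NormedSpace ℂ E] {f : E → ℂ} {c : E} {r : ℝ}
    (hf : ContDiffOn ℂ ∞ f (Metric.ball c r)) {y0 : E} (hy0 : y0 ∈ Metric.ball c r) (h0 : ∀ᶠ y in 𝓝 y0, f y = 0) {y : E}
    (hy : y ∈ Metric.ball c r) : f y = 0 := by
  let L : ℂ → E := fun t => y0 + t • (y - y0)
  have hL : Differentiable ℂ L := (differentiable_const y0).add (differentiable_id.smul_const (y - y0))
  let T : Set ℂ := L ⁻¹' Metric.ball c r
  have hT : IsOpen T := Metric.isOpen_ball.preimage hL.continuous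
  have hconv : Convex ℝ T := by
    intro s hs t ht a b ha hb hab
    have h1 : L (a • s + b • t) = a • L s + b • L t := by
      have h2 : y0 = a • y0 + b • y0 := by rw [← add_smul, hab, one_smul]
      have h3 : (a • s + b • t) • (y - y0) = a • (s • (y - y0)) + b • (t • (y - y0)) := by
        rw [add_smul, smul_assoc, smul_assoc]
      change y0 + (a • s + b • t) • (y - y0) = a • (y0 + s • (y - y0)) + b • (y0 + t • (y - y0))
      rw [h3, smul_add, smul_add]
      nth_rewrite 1 [h2]
      abel
    change L (a • s + b • t) ∈ Metric.ball c r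
    rw [h1]
    exact convex_ball c r hs ht ha hb hab
  have hd : DifferentiableOn ℂ (f ∘ L) T := by
    intro t ht
    have h1 : DifferentiableAt ℂ f (L t) :=
      (hf.contDiffAt (Metric.isOpen_ball.mem_nhds ht)).differentiableAt (by simp)
    exact (h1.comp t (hL t)).differentiableWithinAt
  have ha : AnalyticOnNhd ℂ (f ∘ L) T := hd.analyticOnNhd hT
  have hL0 : L 0 = y0 := by simp [L]
  have hL1 : L 1 = y := by simp [L]
  have h0T : (0 : ℂ) ∈ T := by
    change L 0 ∈ Metric.ball c r
    rw [hL0]
    exact hy0
  have h1T : (1 : ℂ) ∈ T := by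
    change L 1 ∈ Metric.ball c r
    rw [hL1]
    exact hy
  have hev : (f ∘ L) =ᶠ[𝓝 0] 0 := by
    have h2 : Filter.Tendsto L (𝓝 0) (𝓝 y0) := by
      have := hL.continuous.tendsto 0
      rwa [hL0] at this
    exact h2.eventually h0
  have h3 := ha.eqOn_zero_of_preconnected_of_eventuallyEq_zero hconv.isPreconnected h0T hev h1T
  have h4 : f (L 1) = 0 := h3
  rwa [hL1] at h4

theorem hol1_zero (M : CM.{u}) {α : M.X → M.E →L[ℂ] ℂ} (hα : Hol1 α) {U : Set M.X} (hU : IsOpen U)
    (hne : U.Nonempty) (h : ∀ x ∈ U, α x = 0) (x : M.X) : α x = 0 := by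
  let S : Set M.X := interior {x | α x = 0}
  have hUS : U ⊆ S := hU.subset_interior_iff.2 fun x hx => h x hx
  have hS0 : S.Nonempty := hne.mono hUS
  have hSs : ∀ x ∈ S, α x = 0 := fun x hx => (interior_subset hx : x ∈ {x | α x = 0})
  have hcl : IsClosed S := by
    refine isClosed_of_closure_subset fun p hp => ?_
    set c := chartAt M.E p with hc
    obtain ⟨r, hr, hball⟩ := Metric.isOpen_iff.1 c.open_target (c p) (mem_chart_target M.E p)
    let W : Set M.X := c.source ∩ c ⁻¹' Metric.ball (c p) r
    have hW : IsOpen W := c.isOpen_inter_preimage Metric.isOpen_ball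
    have hpW : p ∈ W := ⟨mem_chart_source M.E p, Metric.mem_ball_self hr⟩
    obtain ⟨z, hzW, hzS⟩ := mem_closure_iff.1 hp W hW hpW
    have hz0 : c z ∈ Metric.ball (c p) r := hzW.2
    have hzt : c z ∈ c.target := hball hz0
    have hev : ∀ᶠ y in 𝓝 (c z), c.symm y ∈ S := by
      have h1 := c.continuousAt_symm hzt
      have h2 : c.symm (c z) ∈ S := by
        rw [c.left_inv hzW.1]
        exact hzS
      exact h1 (isOpen_interior.mem_nhds h2)
    have hzero : ∀ y ∈ Metric.ball (c p) r, ∀ v, cC α p v y = 0 := by
      intro y hy v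
      refine L5_ball (((hα p).1 v).mono hball) hz0 ?_ hy
      filter_upwards [hev] with y' hy'
      have h3 : α (c.symm y') = 0 := hSs _ hy'
      change α (c.symm y') _ = 0
      rw [h3]
      rfl
    have hWz : ∀ x ∈ W, α x = 0 := by
      intro x hx
      have hxt : c x ∈ c.target := hball hx.2
      have h4 : HDG.coC α p (c x) = 0 := by
        ext v
        exact hzero (c x) hx.2 v
      have h5 := HDG.coC_re α hxt
      rw [h4] at h5
      have hxx : c.symm (c x) = x := c.left_inv hx.1
      refine HDG.reF_ext ?_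
      ext w
      obtain ⟨v, rfl⟩ := (dvec_symm_bij (E := M.E) (X := M.X) hxt).2 w
      have h6 : HDG.co1 (fun x => HDG.reF (α x)) p (c x) v = 0 := by
        rw [← h5]
        rfl
      have h7 : HDG.co1 (fun x => HDG.reF (α x)) p (c x) v =
          HDG.reF (α (c.symm (c x))) (dvec M.E c.symm (c x) v) := rfl
      rw [h7, hxx] at h6
      rw [h6]
      rfl
    exact (hW.subset_interior_iff.2 hWz) hpW
  have hop : IsOpen S := isOpen_interior
  have huniv : S = Set.univ := IsClopen.eq_univ ⟨hcl, hop⟩ hS0
  have hx : x ∈ S := by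
    rw [huniv]
    exact Set.mem_univ x
  exact hSs x hx

end HFC
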