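import Pool.Agent.HDG.RDefs

/-!
# HDP: definitions for the statement of Theorem D

`M` is a compact connected complex manifold (`CM`), modelled on `E = M.E`; the tangent space at `x` is `E` by means of the
chart `chartAt E x`. A real 2-form is given by its values `γ x : Bil E`; `ext γ p y u v w` is `dγ (u, v, w)` at the point `y`
of the chart at `p` (RDefs).
-/

set_option autoImplicit false

noncomputable section

open scoped Manifold ContDiff

namespace HFC

open Pool.Agent.FBR

universe u

section Forms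

variable {E X : Type u} [NormedAddCommGroup E] [NormedSpace ℂ E] [TopologicalSpace X] [ChartedSpace E X]

/-- `γ` is a smooth real form of type `(1,1)`. -/
structure Real11 (γ : X → Bil E) : Prop where
  smooth : ∀ p u v, ContDiffOn ℝ ∞ (cB γ p u v) (chartAt E p).target
  alt : ∀ x v, ev (γ x) v v = 0
  j : ∀ x u v, ev (γ x) (Complex.I • u) (Complex.I • v) = ev (γ x) u v

/-- `d^c γ (u, v, w) = - dγ (iu, iv, iw) / 2`, for a form `γ` of type `(1,1)`, in the chart at `p` -/
def dcg (γ : X → Bil E) (p : X) (y u v w : E) : ℝ :=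
  -(ext γ p y (Complex.I • u) (Complex.I • v) (Complex.I • w)) / 2

/-- the 4-form `dd^c γ`, in the chart at `p` -/
def ddg (γ : X → Bil E) (p : X) (y u v w t : E) : ℝ :=
  dR (fun y => dcg γ p y v w t) y u - dR (fun y => dcg γ p y u w t) y v +
    dR (fun y => dcg γ p y u v t) y w - dR (fun y => dcg γ p y u v w) y t

/-- `dd^c γ ≥ 0`: `dd^c γ (u, iu, v, iv) ≥ 0` for all tangent vectors `u`, `v` -/
def Plurisub (γ : X → Bil E) : Prop :=
  ∀ p, ∀ y ∈ (chartAt E p).target, ∀ u v, 0 ≤ ddg γ p y u (Complex.I • u) v (Complex.I • v)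

/-- `dd^c γ = 0` -/
def Pluriclosed (γ : X → Bil E) : Prop :=
  ∀ p, ∀ y ∈ (chartAt E p).target, ∀ u v w t, ddg γ p y u v w t = 0

/-- `α` is a holomorphic 1-form on `X`. -/
def HolF (α : X → E →L[ℂ] ℂ) : Prop :=
  ∀ p : X, ∀ v, ContDiffOn ℂ ∞ (cC α p v) (chartAt E p).target

end Forms

/-- the complex vector space (spanned by) the holomorphic 1-forms -/
def OmF (M : CM.{u}) : Submodule ℂ (M.X → M.E →L[ℂ] ℂ) := Submodule.span ℂ {α | HolF α}

/-- the dimension of the space of the holomorphic 1-forms -/
def h10F (M : CM.{u}) : ℕ := dimC (OmF M)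

end HFC
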