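import Pool.Agent.HDP.P14a
import Pool.Agent.HDP.QDefs
import Pool.Agent.HDG.ST3
import Pool.Agent.HDG.RB

/-!
# HDP/P14: `dd^c γ` in a chart

The coefficients of a smooth real `(1,1)`-form in a chart are smooth and of type `(1,1)`, and the 4-form `ddg` is given by
`psi4` of the coefficients: both sides are the sum of the same twelve second derivatives.
-/

set_option autoImplicit false

noncomputable section

open scoped Manifold ContDiff

namespace HFC

open Pool.Agent.FBR

universe u

variable {E X : Type u} [NormedAddCommGroup E] [NormedSpace ℂ E] [FiniteDimensional ℂ E] [TopologicalSpace X]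
  [ChartedSpace E X] [IsManifold 𝓘(ℂ, E) ω X]

theorem coef_real {γ : X → Bil E} (hγ : Real11 γ) (p : X) : ContDiffOn ℝ ∞ (coef γ p) (chartAt E p).target ∧
    ∀ y ∈ (chartAt E p).target, HDG.O11 (coef γ p y) := by
  have : FiniteDimensional ℝ E := FiniteDimensional.complexToReal E
  refine ⟨contDiffOn_clm_apply.2 fun u => contDiffOn_clm_apply.2 fun v => hγ.smooth p u v, fun y hy =>
    ⟨fun v => hγ.alt _ _, fun u v => ?_⟩⟩
  show tpb γ (chartAt E p).symm y (Complex.I • u) (Complex.I • v) = tpb γ (chartAt E p).symm y u v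
  rw [tpb_apply, tpb_apply, (hol_symm hy).smul_I, (hol_symm hy).smul_I]
  exact hγ.j _ _ _

private theorem P14_cd {G : Type*} [NormedAddCommGroup G] [NormedSpace ℝ G] {f : G → ℝ} {y : G}
    (hf : ContDiffAt ℝ ∞ f y) : ContDiffAt ℝ ∞ (fderiv ℝ f) y := hf.fderiv_right (by norm_num)

private theorem P14_d {G : Type*} [NormedAddCommGroup G] [NormedSpace ℝ G] {f : G → ℝ} {y : G}
    (hf : ContDiffAt ℝ ∞ f y) (x : G) :
    HasFDerivAt (fun y' => fderiv ℝ f y' x) ((fderiv ℝ (fderiv ℝ f) y).flip x) y := by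
  have h2 := ((P14_cd hf).differentiableAt (by simp)).hasFDerivAt
  have h3 := h2.clm_apply (hasFDerivAt_const x y)
  refine h3.congr_fderiv ?_
  ext v
  simp

private theorem P14_sym {G : Type*} [NormedAddCommGroup G] [NormedSpace ℝ G] {f : G → ℝ} {y : G}
    (hf : ContDiffAt ℝ ∞ f y) (a b : G) :
    fderiv ℝ (fderiv ℝ f) y a b = fderiv ℝ (fderiv ℝ f) y b a := by
  have h0 : (2 : WithTop ℕ∞) ≤ ∞ := by exact WithTop.coe_le_coe.2 le_top
  have h1 : ContDiffAt ℝ 2 f y := hf.of_le h0
  have h : IsSymmSndFDerivAt ℝ f y := h1.isSymmSndFDerivAt (by simp)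
  exact h a b

private theorem P14_congr {G : Type*} [NormedAddCommGroup G] [NormedSpace ℝ G] {f g : G → ℝ} {y : G}
    (h : f =ᶠ[nhds y] g) : fderiv ℝ (fderiv ℝ f) y = fderiv ℝ (fderiv ℝ g) y := h.fderiv.fderiv_eq

private theorem P14_neg {G : Type*} [NormedAddCommGroup G] [NormedSpace ℝ G] (g : G → ℝ) (y : G) :
    fderiv ℝ (fderiv ℝ (fun z => - g z)) y = - fderiv ℝ (fderiv ℝ g) y := by
  have h1 : fderiv ℝ (fun z => - g z) = fun z => - fderiv ℝ g z := by
    funext z
    exact fderiv_fun_neg
  rw [h1]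
  exact fderiv_fun_neg

theorem ddg_eq {γ : X → Bil E} (hγ : Real11 γ) {p : X} {y : E} (hy : y ∈ (chartAt E p).target) (u v w t : E) :
    ddg γ p y u v w t = HDG.psi4 (coef γ p) y u v w t := by
  have hT : (chartAt E p).target ∈ nhds y := (chartAt E p).open_target.mem_nhds hy
  have hO := (coef_real hγ p).2
  have hf : ∀ a b, ContDiffAt ℝ ∞ (cB γ p a b) y := fun a b => (hγ.smooth p a b).contDiffAt hT
  obtain ⟨S, hS⟩ : ∃ S : E → E → E → E → ℝ, ∀ a b x z, fderiv ℝ (fderiv ℝ (cB γ p a b)) y x z = S a b x z :=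
    ⟨_, fun _ _ _ _ => rfl⟩
  have hII : ∀ a b x z, S (Complex.I • a) (Complex.I • b) x z = S a b x z := fun a b x z => by
    rw [← hS, ← hS]
    have h1 : cB γ p (Complex.I • a) (Complex.I • b) =ᶠ[nhds y] cB γ p a b := by
      filter_upwards [hT] with y' hy'
      exact (hO y' hy').2 a b
    rw [P14_congr h1]
  have hA : ∀ a b x z, S b a x z = - S a b x z := fun a b x z => by
    rw [← hS, ← hS]
    have h1 : cB γ p b a =ᶠ[nhds y] fun y' => - cB γ p a b y' := by
      filter_upwards [hT] with y' hy'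
      have h2 := (hO y' hy').1 (a + b)
      have h3 := (hO y' hy').1 a
      have h4 := (hO y' hy').1 b
      simp only [map_add, add_apply] at h2
      show coef γ p y' b a = - coef γ p y' a b
      linarith
    rw [P14_congr h1, P14_neg]
    rfl
  have hY : ∀ a b x z, S a b x z = S a b z x := fun a b x z => by
    rw [← hS, ← hS]
    exact P14_sym (hf a b) x z
  have hD : ∀ a b c x, dR (fun y' => dcg γ p y' a b c) y x = -(1 / 2) *
      (S b c x (Complex.I • a) + S c a x (Complex.I • b) + S a b x (Complex.I • c)) := by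
    intro a b c x
    have e : (fun y' => dcg γ p y' a b c) = fun y' => (-(1 / 2) : ℝ) *
        (fderiv ℝ (cB γ p (Complex.I • b) (Complex.I • c)) y' (Complex.I • a) +
          fderiv ℝ (cB γ p (Complex.I • c) (Complex.I • a)) y' (Complex.I • b) +
          fderiv ℝ (cB γ p (Complex.I • a) (Complex.I • b)) y' (Complex.I • c)) := by
      funext y'
      unfold dcg ext dR
      ring
    have h := (((P14_d (hf (Complex.I • b) (Complex.I • c)) (Complex.I • a)).add
      (P14_d (hf (Complex.I • c) (Complex.I • a)) (Complex.I • b))).add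
      (P14_d (hf (Complex.I • a) (Complex.I • b)) (Complex.I • c))).const_mul (-(1 / 2) : ℝ)
    rw [← hII b c, ← hII c a, ← hII a b, ← hS, ← hS, ← hS]
    unfold dR
    rw [e]
    have h2 := congrArg (fun L : E →L[ℝ] ℝ => L x) h.fderiv
    refine Eq.trans ?_ (h2.trans ?_)
    · rfl
    · simp only [smul_apply, add_apply, ContinuousLinearMap.flip_apply, smul_eq_mul]
  have hC : ∀ a b x z, ddc (fun y' => coef γ p y' a b) y x z =
      (1 / 2) * (S a b (Complex.I • x) z - S a b (Complex.I • z) x) := fun a b x z => by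
    rw [← hS, ← hS]
    exact ddc_apply _ _ _ _
  unfold ddg HDG.psi4
  rw [hD, hD, hD, hD, hC, hC, hC, hC, hC, hC, hA v t u, hA u t v, hA u t w, hA u w t, hY w t (Complex.I • u),
    hY w t (Complex.I • v), hY v t (Complex.I • u), hY v t (Complex.I • w), hY v w (Complex.I • u),
    hY v w (Complex.I • t), hY u t (Complex.I • v), hY u t (Complex.I • w), hY u w (Complex.I • v),
    hY u w (Complex.I • t), hY u v (Complex.I • w), hY u v (Complex.I • t)]
  ring

end HFC
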