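import Pool.Agent.HDP.LD
import Pool.Agent.HDP.P14
import Pool.Agent.HDP.P16
import Pool.Agent.HDP.K7
import Pool.Agent.HDG.ST5

/-!
# HDP/L6: `dd^c (e^{-t} g) ≤ 0` in an affine parametrization

`psi_lcn`, `psi_glob`: near each point the functions `t` and `u ∘ ψ` (a local primitive) have the same derivative, so they
differ by a constant, and the form is a positive multiple of the form `e^{-u} g`, which satisfies the inequality.
-/

set_option autoImplicit false

noncomputable section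

open scoped Manifold ContDiff Topology

namespace HFC

open Pool.Agent.FBR

universe u

variable {E X : Type u} [NormedAddCommGroup E] [NormedSpace ℂ E] [FiniteDimensional ℂ E] [TopologicalSpace X]
  [ChartedSpace E X] [IsManifold 𝓘(ℂ, E) ω X]

private theorem L6_const {G : Type*} [NormedAddCommGroup G] [NormedSpace ℝ G] {O : Set G} (hO : IsOpen O)
    {s : G → ℝ} (hs : ∀ w ∈ O, HasFDerivAt s (0 : G →L[ℝ] ℝ) w) {z : G} (hz : z ∈ O) :
    ∀ᶠ w in nhds z, s w = s z := by
  obtain ⟨ε, hε, hball⟩ := Metric.isOpen_iff.1 hO z hz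
  filter_upwards [Metric.ball_mem_nhds z hε] with w hw
  exact Metric.isOpen_ball.is_const_of_fderiv_eq_zero (convex_ball z ε).isPreconnected
    (fun v hv => (hs v (hball hv)).differentiableAt.differentiableWithinAt)
    (fun v hv => (hs v (hball hv)).fderiv) hw (Metric.mem_ball_self hε)

private theorem L6_psi_congr {H : Type*} [NormedAddCommGroup H] [NormedSpace ℂ H] {γ γ' : H → Bil H} {z : H}
    (h : γ =ᶠ[nhds z] γ') (u v : H) : HDG.psi γ z u v = HDG.psi γ' z u v := by
  have hc : ∀ a b : H, (fun w => γ w a b) =ᶠ[nhds z] fun w => γ' w a b := by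
    intro a b
    filter_upwards [h] with w hw
    rw [hw]
  unfold HDG.psi
  rw [ddc_congr (hc v (Complex.I • v)), ddc_congr (hc u (Complex.I • u)), ddc_congr (hc u v),
    ddc_congr (hc u (Complex.I • v))]

private theorem L6_ev {G : Type*} [NormedAddCommGroup G] [NormedSpace ℝ G] {γ : G → Bil G} {y : G}
    (h : ContDiffAt ℝ ∞ γ y) (a b : G) : ContDiffAt ℝ 2 (fun y => γ y a b) y :=
  ((h.clm_apply contDiffAt_const).clm_apply contDiffAt_const).of_le (by norm_cast)

private theorem L6_psi_smul {H : Type*} [NormedAddCommGroup H] [NormedSpace ℂ H] {γ : H → Bil H} {z : H}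
    (h : ContDiffAt ℝ ∞ γ z) (c : ℝ) (u v : H) : HDG.psi (fun w => c • γ w) z u v = c * HDG.psi γ z u v := by
  have hc : ∀ a b : H, ddc (fun w => (c • γ w) a b) z = c • ddc (fun w => γ w a b) z := by
    intro a b
    exact ddc_smul c (L6_ev h a b)
  unfold HDG.psi
  rw [hc, hc, hc, hc]
  simp only [_root_.smul_apply, smul_eq_mul]
  ring

theorem exp_real {g : X → Bil E} (hg : Real11 g) {u : X → ℝ} (hu : SmF E u) :
    Real11 fun x => Real.exp (-u x) • g x := by
  refine ⟨fun p a b => ?_, fun x v => ?_, fun x a b => ?_⟩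
  · have h1 : cB (fun x => Real.exp (-u x) • g x) p a b =
        fun y => Real.exp (-(u ∘ (chartAt E p).symm) y) * cB g p a b y := by
      funext y
      rfl
    rw [h1]
    intro y hy
    have h2 : ContDiffAt ℝ ∞ (u ∘ (chartAt E p).symm) y := hu.at (hol_symm hy).sm
    exact (h2.neg.exp.contDiffWithinAt).mul (hg.smooth p a b y hy)
  · show Real.exp (-u x) * ev (g x) v v = 0
    rw [hg.alt x v, mul_zero]
  · show Real.exp (-u x) * ev (g x) (Complex.I • a) (Complex.I • b) = Real.exp (-u x) * ev (g x) a b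
    rw [hg.j x a b]

theorem exp_herm {g : X → Bil E} (hg : Herm g) {u : X → ℝ} (hu : SmF E u) :
    Herm fun x => Real.exp (-u x) • g x := by
  obtain ⟨h1, h2, h3⟩ := exp_real hg.real hu
  refine ⟨h1, h2, h3, fun x v hv => ?_⟩
  show 0 < Real.exp (-u x) * ev (g x) v (Complex.I • v)
  exact mul_pos (Real.exp_pos _) (hg.pos x v hv)

private theorem L6_coef {g : X → Bil E} (hg : Real11 g) {p : X} {y : E} (hy : y ∈ (chartAt E p).target) :
    ContDiffAt ℝ ∞ (coef g p) y :=
  (coef_real hg p).1.contDiffAt ((chartAt E p).open_target.mem_nhds hy)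

private theorem L6_neg {U : Set X} {g : X → Bil E} (hg : Real11 g) {u : X → ℝ} (hu : SmF E u)
    (hn : NegOn U fun x' => Real.exp (-u x') • g x') {p : X} {y : E} (hy : y ∈ (chartAt E p).target)
    (hU : (chartAt E p).symm y ∈ U) (x' y' : E) :
    HDG.psi (coef (fun x' => Real.exp (-u x') • g x') p) y x' y' ≤ 0 := by
  have h1 := hn p y hy hU x' y'
  rwa [ddg_eq (exp_real hg hu) hy, HDG.psi4_self (chartAt E p).open_target (coef_real (exp_real hg hu) p).1
    (coef_real (exp_real hg hu) p).2 hy] at h1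

private theorem L6_hol {n : ℕ} {e : Module.Basis (Fin n) ℂ E} {x : X} {y : E} {r : ℝ} {ψ : E → X}
    (h : ∀ z ∈ HDG.qb e 4, y + (r : ℂ) • z ∈ (chartAt E x).target ∧ ψ z = (chartAt E x).symm (y + (r : ℂ) • z)) {z : E}
    (hz : z ∈ HDG.qb e 4) : Hol E ψ z := by
  have hk : ContDiffAt ℂ ∞ (fun w : E => y + (r : ℂ) • w) z :=
    contDiffAt_const.add (contDiffAt_id.const_smul (r : ℂ))
  have h1 : Hol E ((chartAt E x).symm ∘ fun w : E => y + (r : ℂ) • w) z :=
    Hol.comp (f := (chartAt E x).symm) (k := fun w : E => y + (r : ℂ) • w) (hol_symm (h z hz).1) hk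
  have hev : ψ =ᶠ[nhds z] (chartAt E x).symm ∘ fun w : E => y + (r : ℂ) • w := by
    filter_upwards [(HDG.isOpen_qb e 4).mem_nhds hz] with w hw
    exact (h w hw).2
  refine ⟨h1.1.congr hev.symm, ?_⟩
  have h2 : chartAt E (ψ z) ∘ ψ =ᶠ[nhds z]
      chartAt E (ψ z) ∘ ((chartAt E x).symm ∘ fun w : E => y + (r : ℂ) • w) := by
    filter_upwards [hev] with w hw
    show chartAt E (ψ z) (ψ w) = chartAt E (ψ z) _
    rw [hw]
  refine ContDiffAt.congr_of_eventuallyEq ?_ h2
  rw [hev.eq_of_nhds]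
  exact h1.2

theorem psi_lcn {n : ℕ} {e : Module.Basis (Fin n) ℂ E} {g : X → Bil E} (hg : Real11 g) {θ : X → E →L[ℝ] ℝ}
    (hloc : LocNeg θ g) {x : X} {y : E} {r : ℝ} (hr : 0 < r) {ψ : E → X}
    (h : ∀ z ∈ HDG.qb e 4, y + (r : ℂ) • z ∈ (chartAt E x).target ∧ ψ z = (chartAt E x).symm (y + (r : ℂ) • z))
    {t : E → ℝ} (ht : ContDiffOn ℝ ∞ t (HDG.qb e 4)) (ht' : ∀ z ∈ HDG.qb e 4, fderiv ℝ t z = HDG.tp1 θ ψ z) {z : E}
    (hz : z ∈ HDG.qb e 4) (x' y' : E) : HDG.psi (fun z => Real.exp (-t z) • tpb g ψ z) z x' y' ≤ 0 := by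
  obtain ⟨U, u, hUo, hxU, hu, hdu, hneg⟩ := hloc (ψ z)
  have hq := HDG.isOpen_qb e 4
  have hψ : ∀ w ∈ HDG.qb e 4, Hol E ψ w := fun w hw => L6_hol h hw
  have hcont : ContinuousOn ψ (HDG.qb e 4) := fun w hw => (hψ w hw).1.continuousWithinAt
  have hO : IsOpen (HDG.qb e 4 ∩ ψ ⁻¹' U) := hcont.isOpen_inter_preimage hq hUo
  have hs : ∀ w ∈ HDG.qb e 4 ∩ ψ ⁻¹' U, HasFDerivAt (fun w => t w - (u ∘ ψ) w) (0 : E →L[ℝ] ℝ) w := by
    intro w hw
    have h1 : HasFDerivAt t (HDG.tp1 θ ψ w) w := by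
      rw [← ht' w hw.1]
      exact ((ht.contDiffAt (hq.mem_nhds hw.1)).differentiableAt (by simp)).hasFDerivAt
    have h2 : HasFDerivAt (u ∘ ψ) (HDG.tp1 θ ψ w) w := by
      have h3 : HDG.tp1 θ ψ w = fderiv ℝ (u ∘ ψ) w := by
        rw [← HDG.tp1_dF hu (hψ w hw.1).sm]
        unfold HDG.tp1
        rw [hdu (ψ w) hw.2]
      rw [h3]
      exact ((hu.at (hψ w hw.1).sm).differentiableAt (by simp)).hasFDerivAt
    have h4 := h1.sub h2
    rw [sub_self] at h4
    exact h4
  have hev := L6_const hO hs (z := z) ⟨hz, hxU⟩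
  -- the constant
  have hu' : SmF E fun x => u x + (t z - u (ψ z)) := fun x => (hu x).add contDiffAt_const
  have hc : (fun w => Real.exp (-t w) • tpb g ψ w) =ᶠ[nhds z]
      tpb (fun x => Real.exp (-(u x + (t z - u (ψ z)))) • g x) ψ := by
    filter_upwards [hev] with w hw
    have h5 : t w - u (ψ w) = t z - u (ψ z) := hw
    have h6 : t w = u (ψ w) + (t z - u (ψ z)) := by linarith
    show Real.exp (-t w) • tpb g ψ w = Real.exp (-(u (ψ w) + (t z - u (ψ z)))) • tpb g ψ w
    rw [h6]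
  rw [L6_psi_congr hc, psi_aff (exp_real hg hu') hr h hz]
  have h7 : coef (fun x => Real.exp (-(u x + (t z - u (ψ z)))) • g x) x = fun w =>
      Real.exp (-(t z - u (ψ z))) • coef (fun x => Real.exp (-u x) • g x) x w := by
    funext w
    show Real.exp (-(u _ + (t z - u (ψ z)))) • coef g x w =
      Real.exp (-(t z - u (ψ z))) • (Real.exp (-u _) • coef g x w)
    rw [smul_smul, ← Real.exp_add]
    congr 2
    ring
  rw [h7, L6_psi_smul (L6_coef (exp_real hg hu) (h z hz).1)]
  have h8 := L6_neg hg hu hneg (h z hz).1 (by rw [← (h z hz).2]; exact hxU) x' y'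
  have h9 : 0 < r ^ 4 := by positivity
  have h10 := mul_nonneg_of_nonpos_of_nonpos (neg_nonpos.2 (Real.exp_pos (-(t z - u (ψ z)))).le) h8
  nlinarith

theorem psi_glob {g : X → Bil E} (hg : Real11 g) {φ : X → ℝ} (hφ : SmF E φ) (hloc : LocNeg (dF E φ) g) :
    Plurisub fun x => -(Real.exp (-φ x) • g x) := by
  intro p y hy x' y'
  obtain ⟨U, u, hUo, hxU, hu, hdu, hneg⟩ := hloc ((chartAt E p).symm y)
  have hT := (chartAt E p).open_target
  have hr := exp_real hg hφ
  have hneg' : Real11 fun x => -(Real.exp (-φ x) • g x) := by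
    refine ⟨fun q a b => ?_, fun x v => ?_, fun x a b => ?_⟩
    · exact (hr.smooth q a b).neg
    · show -ev (Real.exp (-φ x) • g x) v v = 0
      rw [hr.alt x v, neg_zero]
    · show -ev (Real.exp (-φ x) • g x) (Complex.I • a) (Complex.I • b) = -ev (Real.exp (-φ x) • g x) a b
      rw [hr.j x a b]
  rw [ddg_eq hneg' hy, HDG.psi4_self hT (coef_real hneg' p).1 (coef_real hneg' p).2 hy]
  have hcont : ContinuousOn (chartAt E p).symm (chartAt E p).target := (chartAt E p).continuousOn_symm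
  have hO : IsOpen ((chartAt E p).target ∩ (chartAt E p).symm ⁻¹' U) := hcont.isOpen_inter_preimage hT hUo
  have hs : ∀ w ∈ (chartAt E p).target ∩ (chartAt E p).symm ⁻¹' U,
      HasFDerivAt (fun w => (φ ∘ (chartAt E p).symm) w - (u ∘ (chartAt E p).symm) w) (0 : E →L[ℝ] ℝ) w := by
    intro w hw
    have hsm := (hol_symm (E := E) (X := X) hw.1).sm
    have h1 : HasFDerivAt (φ ∘ (chartAt E p).symm) (fderiv ℝ (φ ∘ (chartAt E p).symm) w) w :=
      ((hφ.at hsm).differentiableAt (by simp)).hasFDerivAt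
    have h2 : HasFDerivAt (u ∘ (chartAt E p).symm) (fderiv ℝ (φ ∘ (chartAt E p).symm) w) w := by
      have h3 : fderiv ℝ (φ ∘ (chartAt E p).symm) w = fderiv ℝ (u ∘ (chartAt E p).symm) w := by
        rw [← HDG.tp1_dF hu hsm, ← HDG.tp1_dF hφ hsm]
        unfold HDG.tp1
        rw [hdu _ hw.2]
      rw [h3]
      exact ((hu.at hsm).differentiableAt (by simp)).hasFDerivAt
    have h4 := h1.sub h2
    rw [sub_self] at h4
    exact h4
  have hev := L6_const hO hs (z := y) ⟨hy, hxU⟩
  have hc : coef (fun x => -(Real.exp (-φ x) • g x)) p =ᶠ[nhds y] fun w =>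
      (-Real.exp (-(φ ((chartAt E p).symm y) - u ((chartAt E p).symm y)))) •
        coef (fun x => Real.exp (-u x) • g x) p w := by
    filter_upwards [hev] with w hw
    have h5 : φ ((chartAt E p).symm w) - u ((chartAt E p).symm w) =
      φ ((chartAt E p).symm y) - u ((chartAt E p).symm y) := hw
    ext a b
    show -(Real.exp (-φ ((chartAt E p).symm w)) * coef g p w a b) =
      (-Real.exp (-(φ ((chartAt E p).symm y) - u ((chartAt E p).symm y)))) *
        (Real.exp (-u ((chartAt E p).symm w)) * coef g p w a b)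
    rw [← h5, neg_mul, ← mul_assoc, ← Real.exp_add]
    congr 3
    ring
  rw [L6_psi_congr hc, L6_psi_smul (L6_coef (exp_real hg hu) hy)]
  have h8 := L6_neg hg hu hneg hy hxU x' y'
  exact mul_nonneg_of_nonpos_of_nonpos (neg_nonpos.2 (Real.exp_pos _).le) h8

end HFC
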