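import Pool.Agent.HDP.L3
import Pool.Agent.HDP.L4
import Pool.Agent.HDP.L5
import Pool.Agent.HDP.L6
import Pool.Agent.HDG.SC2
import Pool.Agent.HDG.F6
import Pool.Agent.HDG.SL5

/-!
# HDP/L7: the 1-form of a locally conformally plurinegative metric is exact

As `lck_kaehler` (HDG/SL5), with the affine parametrizations of `exists_ag` (L4): `t i` is a primitive of `θ` on the ball
with index `i`, `f` a smooth function such that all `u i = t i + f ∘ ψ i` are pluriharmonic; `θ + df` is the real part of a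
closed holomorphic 1-form `α` (`exists_hol1`), which vanishes where the semi-positive form `b` is positive (`lcn_bm`), so it is
zero (`hol1_zero`) and `θ = d(-f)`.
-/

set_option autoImplicit false

noncomputable section

open scoped Manifold ContDiff Topology

namespace HFC

open Pool.Agent.FBR

universe u

private theorem L7_neg {E X : Type*} [NormedAddCommGroup E] [NormedSpace ℂ E] [TopologicalSpace X]
    [ChartedSpace E X] {f : X → ℝ} (hf : SmF E f) :
    SmF E (fun x => -f x) ∧ ∀ x, dF E (fun x => -f x) x = -dF E f x := by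
  refine ⟨fun x => (hf x).neg, fun x => ?_⟩
  exact ((hf x).differentiableAt (by simp)).hasFDerivAt.neg.fderiv

private theorem L7_bil {E X : Type u} [NormedAddCommGroup E] [NormedSpace ℂ E] [FiniteDimensional ℂ E]
    [TopologicalSpace X] [ChartedSpace E X] {g : X → Bil E} (hg : Herm g) (p : X) :
    ContDiffOn ℝ ∞ (coef g p) (chartAt E p).target := by
  have : FiniteDimensional ℝ E := FiniteDimensional.complexToReal E
  exact contDiffOn_clm_apply.2 fun u => contDiffOn_clm_apply.2 fun v => hg.smooth p u v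

/-- positivity of a continuous field of forms is an open condition -/
private theorem L7_open {E : Type*} [NormedAddCommGroup E] [NormedSpace ℂ E] [FiniteDimensional ℂ E]
    {A : E → Bil E} {z₀ : E} (hA : ∀ᶠ z in 𝓝 z₀, ContinuousAt A z)
    (h : ∀ v : E, v ≠ 0 → 0 < A z₀ v (Complex.I • v)) :
    ∀ᶠ z in 𝓝 z₀, ∀ v : E, v ≠ 0 → 0 < A z v (Complex.I • v) := by
  have : FiniteDimensional ℝ E := FiniteDimensional.complexToReal E
  have : ProperSpace E := FiniteDimensional.proper ℝ E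
  have h0 : ContinuousAt A z₀ := hA.self_of_nhds
  have h1 : ∀ᶠ z in 𝓝 z₀, ∀ v ∈ Metric.sphere (0 : E) 1, 0 < A z v (Complex.I • v) := by
    refine (isCompact_sphere (0 : E) 1).eventually_forall_of_forall_eventually fun v hv => ?_
    have hv0 : v ≠ 0 := by
      rintro rfl
      simp at hv
    have hc : ContinuousAt (fun p : E × E => A p.1 p.2 (Complex.I • p.2)) (z₀, v) := by
      have c1 : ContinuousAt (fun p : E × E => A p.1) (z₀, v) :=
        ContinuousAt.comp (x := (z₀, v)) (f := fun p : E × E => p.1) h0 continuousAt_fst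
      exact (c1.clm_apply continuousAt_snd).clm_apply (continuousAt_snd.const_smul Complex.I)
    exact hc.eventually (lt_mem_nhds (h v hv0))
  filter_upwards [h1] with z hz v hv
  have hn : 0 < ‖v‖ := norm_pos_iff.2 hv
  have h2 : ((‖v‖⁻¹ : ℝ) • v) ∈ Metric.sphere (0 : E) 1 := by
    rw [mem_sphere_zero_iff_norm, norm_smul, norm_inv, norm_norm, inv_mul_cancel₀ hn.ne']
  have h3 := hz _ h2
  have h4 : A z ((‖v‖⁻¹ : ℝ) • v) (Complex.I • ((‖v‖⁻¹ : ℝ) • v)) = ‖v‖⁻¹ * (‖v‖⁻¹ * A z v (Complex.I • v)) := by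
    rw [smul_comm Complex.I (‖v‖⁻¹ : ℝ) v]
    have e1 : A z ((‖v‖⁻¹ : ℝ) • v) = (‖v‖⁻¹ : ℝ) • A z v := (A z).map_smul _ _
    have e2 : A z v ((‖v‖⁻¹ : ℝ) • (Complex.I • v)) = (‖v‖⁻¹ : ℝ) • A z v (Complex.I • v) := (A z v).map_smul _ _
    rw [e1]
    show ‖v‖⁻¹ * A z v ((‖v‖⁻¹ : ℝ) • (Complex.I • v)) = _
    rw [e2]
    rfl
  rw [h4] at h3
  have h5 : 0 < ‖v‖⁻¹ := inv_pos.2 hn
  exact (mul_pos_iff_of_pos_left h5).1 ((mul_pos_iff_of_pos_left h5).1 h3)

theorem lcn_exact (M : CM.{u}) (hM : SemiPos M) (hn : 2 ≤ Module.finrank ℂ M.E) {g : M.X → Bil M.E} (hg : Herm g)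
    {θ : M.X → M.E →L[ℝ] ℝ} (hθ : Closed1 θ) (hloc : LocNeg θ g) :
    ∃ φ : M.X → ℝ, SmF M.E φ ∧ ∀ x, θ x = dF M.E φ x := by
  let _ : MeasurableSpace M.E := borel M.E
  have : BorelSpace M.E := ⟨rfl⟩
  let _ : MeasurableSpace M.X := borel M.X
  have : BorelSpace M.X := ⟨rfl⟩
  have : FiniteDimensional ℝ M.E := FiniteDimensional.complexToReal M.E
  have hθ' : HDG.IsCl1 θ := (closed1_iff θ).1 hθ
  obtain ⟨B, hB, haff, hgood⟩ := HDG.exists_ag (X := M.X) (Module.finBasis ℂ M.E)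
  obtain ⟨b, hb, x0, hx0⟩ := hM
  have hO : IsOpen (HDG.qb (Module.finBasis ℂ M.E) 4) := HDG.isOpen_qb _ 4
  have hsm : ∀ i, ∀ z ∈ HDG.qb (Module.finBasis ℂ M.E) 4, Sm M.E (B.ψ i) z := fun i z hz => (hB.hol i z hz).sm
  choose t ht1 ht2 using fun i => HDG.exists_prim hθ' hO (HDG.qb_convex _ 4) (hsm i)
  have hbT := hB.isT b.alt b.j b.smooth
  have hbC := hB.clT b
  have hbN := hB.nnT hb
  obtain ⟨f, hf, hph⟩ := HDG.main_real B
    (fun t ht => B.main_bm hbT hbC hbN (hB.pos hx0) ht) (hgood θ hθ' t ht1 ht2)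
  have hfs : SmF M.E f := (hB.sm f).2 hf
  obtain ⟨u, hu⟩ : ∃ u : B.I → M.E → ℝ, u = fun i z => t i z + f (B.ψ i z) := ⟨_, rfl⟩
  have hper : B.PerR u := by
    refine ⟨fun i => ?_, fun i j => ?_⟩
    · rw [hu]
      exact (ht1 i).add (hf i)
    · obtain ⟨c, hc⟩ := (hgood θ hθ' t ht1 ht2).tr i j
      refine ⟨c, fun z hz => ?_⟩
      rw [hu]
      show t i z + f (B.ψ i z) - (t j (B.T i j z) + f (B.ψ j (B.T i j z))) = c
      rw [B.ψ_T hz, ← hc z hz]
      ring
  have hneg := L7_neg hfs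
  have hH := exp_herm hg hneg.1
  have hmet : B.Met fun i => tpb (fun x => Real.exp (-(-f x)) • g x) (B.ψ i) :=
    hB.met hH.alt hH.j (L7_bil hH) hH.pos
  have hw : ∀ i, (fun z => Real.exp (-u i z) • tpb (fun x => Real.exp (-(-f x)) • g x) (B.ψ i) z) =
      fun z => Real.exp (-t i z) • tpb g (B.ψ i) z := by
    intro i
    funext z
    have h1 : tpb (fun x => Real.exp (-(-f x)) • g x) (B.ψ i) z =
      Real.exp (-(-f (B.ψ i z))) • tpb g (B.ψ i) z := rfl
    rw [h1, hu, smul_smul, ← Real.exp_add]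
    congr 2
    show -(t i z + f (B.ψ i z)) + -(-f (B.ψ i z)) = -t i z
    ring
  have hpsi : ∀ i, ∀ z ∈ HDG.qb (Module.finBasis ℂ M.E) 4, ∀ x y : M.E,
      HDG.psi (fun z => Real.exp (-u i z) • tpb (fun x => Real.exp (-(-f x)) • g x) (B.ψ i) z) z x y ≤ 0 := by
    intro i z hz x' y'
    rw [hw]
    obtain ⟨x, y, r, hr, h⟩ := haff i
    exact psi_lcn ⟨hg.smooth, hg.alt, hg.j⟩ hloc hr h (ht1 i) (ht2 i) hz x' y'
  have hzero : ∀ i, ∀ z ∈ HDG.qb (Module.finBasis ℂ M.E) 4,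
      (∀ v : M.E, v ≠ 0 → 0 < tpb b.val (B.ψ i) z v (Complex.I • v)) → fderiv ℝ (u i) z = 0 := fun i z hz hp =>
    HDG.lcn_bm B hn hmet hbT hbC hbN hper (fun i z hz => by rw [hu]; exact hph i z hz) hpsi hz hp
  have hd : ∀ i, ∀ z ∈ HDG.qb (Module.finBasis ℂ M.E) 4,
      fderiv ℝ (u i) z = HDG.tp1 (fun x => θ x + dF M.E f x) (B.ψ i) z := by
    intro i z hz
    have h1 : DifferentiableAt ℝ (t i) z := ((ht1 i).contDiffAt (hO.mem_nhds hz)).differentiableAt (by simp)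
    have h2 : DifferentiableAt ℝ (fun z => f (B.ψ i z)) z :=
      ((hf i).contDiffAt (hO.mem_nhds hz)).differentiableAt (by simp)
    have h3 : fderiv ℝ (u i) z = fderiv ℝ (t i) z + fderiv ℝ (fun z => f (B.ψ i z)) z := by
      rw [hu]
      exact (h1.hasFDerivAt.add h2.hasFDerivAt).fderiv
    have h4 : fderiv ℝ (fun z => f (B.ψ i z)) z = HDG.tp1 (dF M.E f) (B.ψ i) z :=
      (HDG.tp1_dF hfs (hsm i z hz)).symm
    have h5 : HDG.tp1 (fun x => θ x + dF M.E f x) (B.ψ i) z =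
      HDG.tp1 θ (B.ψ i) z + HDG.tp1 (dF M.E f) (B.ψ i) z := rfl
    rw [h3, ht2 i z hz, h4, h5]
  obtain ⟨α, hα, hα2⟩ := HDG.exists_hol1 hB (η := fun x => θ x + dF M.E f x) (h := u) hper.sm hd
    (fun i z hz => by rw [hu]; exact hph i z hz)
  have hα' : Hol1 α := (hol1_iff α).2 hα
  -- `α` vanishes at the points where `b` is positive
  have hvan : ∀ i, ∀ z ∈ HDG.qb (Module.finBasis ℂ M.E) 4,
      (∀ v : M.E, v ≠ 0 → 0 < tpb b.val (B.ψ i) z v (Complex.I • v)) → α (B.ψ i z) = 0 := by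
    intro i z hz hp
    have h1 : HDG.tp1 (fun x => θ x + dF M.E f x) (B.ψ i) z = 0 := (hd i z hz).symm.trans (hzero i z hz hp)
    refine HDG.reF_ext ?_
    rw [hα2]
    refine ContinuousLinearMap.ext fun v => ?_
    obtain ⟨v', rfl⟩ := (hB.bij i z hz).2 v
    have h2 : HDG.tp1 (fun x => θ x + dF M.E f x) (B.ψ i) z v' = 0 := by rw [h1]; rfl
    exact h2
  have hzeroset : {x | α x = 0} ∈ 𝓝 x0 := by
    obtain ⟨i, z0, hz0, hz⟩ := B.cov x0
    have hz4 : z0 ∈ HDG.qb (Module.finBasis ℂ M.E) 4 := HDG.BM.qb_mono (by norm_num) (by norm_num) hz0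
    have hpos : ∀ v : M.E, v ≠ 0 → 0 < tpb b.val (B.ψ i) z0 v (Complex.I • v) :=
      (posAt_iff b (hB.hol i z0 hz4) (hB.bij i z0 hz4)).1 (by rw [hz]; exact hx0)
    have hcont : ∀ᶠ z in 𝓝 z0, ContinuousAt (tpb b.val (B.ψ i)) z := by
      filter_upwards [hO.mem_nhds hz4] with z hz
      exact ((hbT.sm i).contDiffAt (hO.mem_nhds hz)).continuousAt
    have h1 := (L7_open hcont hpos).and (hO.mem_nhds hz4)
    obtain ⟨W, hW, hWo, hWz⟩ := mem_nhds_iff.1 h1
    have h2 : IsOpen (B.ψ i '' W) := B.opn i W (fun z hz => (hW hz).2) hWo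
    refine Filter.mem_of_superset (h2.mem_nhds ⟨z0, hWz, hz⟩) ?_
    rintro _ ⟨z, hz, rfl⟩
    exact hvan i z (hW hz).2 (hW hz).1
  have hall : ∀ x, α x = 0 := fun x => hol1_zero M hα' isOpen_interior
    ⟨x0, mem_interior_iff_mem_nhds.2 hzeroset⟩ (fun x hx => by simpa using interior_subset (s := {x | α x = 0}) hx) x
  refine ⟨fun x => -f x, hneg.1, fun x => ?_⟩
  have h1 : θ x + dF M.E f x = 0 := by
    have h2 := hα2 x
    rw [hall x] at h2
    rw [← h2]
    rfl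
  rw [hneg.2 x]
  exact eq_neg_of_add_eq_zero_left h1

end HFC
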