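import Mathlib

/-!
# HDP/N3a: the upper limit of a sequence of functions `≤ 0`, bounded in `L^1`

The functions `F m z = ⨆ k, f (m + k) z` decrease to `limsup (fun k => f k z) atTop` where the lower limit of the `|f k z|` is
finite (`N3a_pt`), which is the case almost everywhere by Fatou's lemma; the last statement of `lim_ae` is the Borel-Cantelli
lemma on balls.
-/

set_option autoImplicit false

noncomputable section

open scoped Topology

open MeasureTheory Filter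

namespace HDG

/-- the functions `f k` are bounded in `L^1`, locally on `U` -/
def L1b {H : Type*} [NormedAddCommGroup H] [MeasurableSpace H] (μ : Measure H) (U : Set H) (f : ℕ → H → ℝ) : Prop :=
  ∀ z ∈ U, ∃ r : ℝ, 0 < r ∧ Metric.ball z r ⊆ U ∧ ∃ C : ℝ, ∀ k, IntegrableOn (f k) (Metric.ball z r) μ ∧
    ∫ z' in Metric.ball z r, |f k z'| ∂μ ≤ C

variable {H : Type*} [NormedAddCommGroup H] [NormedSpace ℝ H] [FiniteDimensional ℝ H] [MeasurableSpace H] [BorelSpace H]
  (μ : Measure H) [μ.IsAddHaarMeasure]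

/-- the pointwise statement on the upper limit of a sequence `≤ 0` which does not tend to `-∞` -/
private theorem N3a_pt {x : ℕ → ℝ} (h0 : ∀ k, x k ≤ 0) (hx : liminf (fun k => ‖x k‖ₑ) atTop < ⊤) :
    BddBelow (Set.range fun m => ⨆ k, x (m + k)) ∧
      Tendsto (fun m => ⨆ k, x (m + k)) atTop (𝓝 (limsup x atTop)) ∧
      ‖limsup x atTop‖ₑ ≤ liminf (fun k => ‖x k‖ₑ) atTop := by
  have hbdd : ∀ m, BddAbove (Set.range fun k => x (m + k)) := by
    intro m
    refine ⟨0, ?_⟩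
    rintro y ⟨k, rfl⟩
    exact h0 _
  -- frequent bounds
  have hfreq : ∀ b : ENNReal, liminf (fun k => ‖x k‖ₑ) atTop < b → b ≠ ⊤ →
      ∃ᶠ k in atTop, - b.toReal < x k := by
    intro b hb hbt
    refine (frequently_lt_of_liminf_lt (by isBoundedDefault) hb).mono fun k hk => ?_
    have h1 : ENNReal.ofReal |x k| < b := by
      rwa [Real.enorm_eq_ofReal_abs] at hk
    have h2 : |x k| < b.toReal := (ENNReal.ofReal_lt_iff_lt_toReal (abs_nonneg _) hbt).1 h1
    have h3 := neg_abs_le (x k)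
    linarith
  have hle : ∀ b : ENNReal, liminf (fun k => ‖x k‖ₑ) atTop < b → b ≠ ⊤ →
      ∀ a, (∀ᶠ k in atTop, x k ≤ a) → - b.toReal ≤ a := by
    intro b hb hbt a ha
    obtain ⟨k, hk1, hk2⟩ := ((hfreq b hb hbt).and_eventually ha).exists
    linarith
  obtain ⟨b, hb, hbt⟩ := exists_between hx
  have hbb : BddBelow {a : ℝ | ∀ᶠ k in atTop, x k ≤ a} :=
    ⟨- b.toReal, fun a ha => hle b hb hbt.ne a ha⟩
  have hne : ({a : ℝ | ∀ᶠ k in atTop, x k ≤ a}).Nonempty := ⟨0, Eventually.of_forall h0⟩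
  have hmem : ∀ m, (⨆ k, x (m + k)) ∈ {a : ℝ | ∀ᶠ k in atTop, x k ≤ a} := by
    intro m
    refine (eventually_ge_atTop m).mono fun k hk => ?_
    obtain ⟨j, rfl⟩ := Nat.exists_eq_add_of_le hk
    exact le_ciSup (hbdd m) j
  have hL : ∀ m, limsup x atTop ≤ ⨆ k, x (m + k) := by
    intro m
    rw [limsup_eq]
    exact csInf_le hbb (hmem m)
  refine ⟨⟨limsup x atTop, ?_⟩, ?_, ?_⟩
  · rintro y ⟨m, rfl⟩
    exact hL m
  · refine tendsto_order.2 ⟨fun a ha => Eventually.of_forall fun m => ha.trans_le (hL m), ?_⟩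
    intro a ha
    rw [limsup_eq] at ha
    obtain ⟨a', ha', haa⟩ := exists_lt_of_csInf_lt hne ha
    obtain ⟨m, hm⟩ := eventually_atTop.1 ha'
    refine (eventually_ge_atTop m).mono fun j hj => lt_of_le_of_lt ?_ haa
    exact ciSup_le fun k => hm (j + k) (by omega)
  · have hL0 : limsup x atTop ≤ 0 := by
      rw [limsup_eq]
      exact csInf_le hbb (Eventually.of_forall h0)
    refine le_of_forall_gt_imp_ge_of_dense fun c hc => ?_
    by_cases hct : c = ⊤
    · rw [hct]; exact le_top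
    · have h1 : - c.toReal ≤ limsup x atTop := by
        rw [limsup_eq]
        exact le_csInf hne fun a ha => hle c hc hct a ha
      rw [Real.enorm_eq_ofReal_abs, abs_of_nonpos hL0]
      exact ENNReal.ofReal_le_of_le_toReal (by linarith)

/-- the estimates on one ball -/
private theorem N3a_ball {U : Set H} {f : ℕ → H → ℝ} (h0 : ∀ k, ∀ z ∈ U, f k z ≤ 0)
    {B : Set H} (hBm : MeasurableSet B) (hB : B ⊆ U) {C : ℝ} (hi : ∀ k, IntegrableOn (f k) B μ)
    (hC : ∀ k, ∫ z' in B, |f k z'| ∂μ ≤ C) :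
    IntegrableOn (fun z => limsup (fun k => f k z) atTop) B μ ∧
      ∀ᵐ z ∂(μ.restrict B), BddBelow (Set.range fun m => ⨆ k, f (m + k) z) ∧
        Tendsto (fun m => ⨆ k, f (m + k) z) atTop (𝓝 (limsup (fun k => f k z) atTop)) ∧
        ∀ᶠ k : ℕ in atTop, -((k : ℝ) + 1) ^ 2 ≤ f k z := by
  have hm : ∀ k, AEMeasurable (f k) (μ.restrict B) := fun k =>
    (hi k).aestronglyMeasurable.aemeasurable
  have hlint : ∀ k, ∫⁻ z, ‖f k z‖ₑ ∂(μ.restrict B) ≤ ENNReal.ofReal C := by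
    intro k
    rw [← ofReal_integral_norm_eq_lintegral_enorm (hi k)]
    exact ENNReal.ofReal_le_ofReal (hC k)
  have hfat : ∫⁻ z, liminf (fun k => ‖f k z‖ₑ) atTop ∂(μ.restrict B) ≤ ENNReal.ofReal C := by
    refine (lintegral_liminf_le' fun k => (hm k).enorm).trans ?_
    exact liminf_le_of_frequently_le' (Frequently.of_forall hlint)
  have hlm : AEMeasurable (fun z => liminf (fun k => ‖f k z‖ₑ) atTop) (μ.restrict B) := by
    have h1 : ∀ᵐ z ∂(μ.restrict B), ∀ k, f k z = (hm k).mk (f k) z :=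
      ae_all_iff.2 fun k => (hm k).ae_eq_mk
    refine ⟨fun z => liminf (fun k => ‖(hm k).mk (f k) z‖ₑ) atTop, ?_, ?_⟩
    · exact Measurable.liminf fun k => ((hm k).measurable_mk).enorm
    · filter_upwards [h1] with z hz
      simp only [hz]
  have hfin : ∀ᵐ z ∂(μ.restrict B), liminf (fun k => ‖f k z‖ₑ) atTop < ⊤ :=
    ae_lt_top' hlm (ne_of_lt (hfat.trans_lt ENNReal.ofReal_lt_top))
  have hmemB : ∀ᵐ z ∂(μ.restrict B), z ∈ B := ae_restrict_mem hBm
  have hpt : ∀ᵐ z ∂(μ.restrict B), BddBelow (Set.range fun m => ⨆ k, f (m + k) z) ∧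
      Tendsto (fun m => ⨆ k, f (m + k) z) atTop (𝓝 (limsup (fun k => f k z) atTop)) ∧
      ‖limsup (fun k => f k z) atTop‖ₑ ≤ liminf (fun k => ‖f k z‖ₑ) atTop := by
    filter_upwards [hfin, hmemB] with z hz hzB
    exact N3a_pt (x := fun k => f k z) (fun k => h0 k z (hB hzB)) hz
  have hgm : AEMeasurable (fun z => limsup (fun k => f k z) atTop) (μ.restrict B) := by
    have h1 : ∀ᵐ z ∂(μ.restrict B), ∀ k, f k z = (hm k).mk (f k) z :=
      ae_all_iff.2 fun k => (hm k).ae_eq_mk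
    refine ⟨fun z => limsup (fun k => (hm k).mk (f k) z) atTop, ?_, ?_⟩
    · exact Measurable.limsup fun k => (hm k).measurable_mk
    · filter_upwards [h1] with z hz
      simp only [hz]
  have hbc : ∀ᵐ z ∂(μ.restrict B), ∀ᶠ k : ℕ in atTop,
      z ∉ {z | ENNReal.ofReal (((k : ℝ) + 1) ^ 2) ≤ ‖f k z‖ₑ} := by
    refine ae_eventually_notMem (μ := μ.restrict B) ?_
    have h1 : ∀ k : ℕ, (μ.restrict B) {z | ENNReal.ofReal (((k : ℝ) + 1) ^ 2) ≤ ‖f k z‖ₑ} ≤
        ENNReal.ofReal (|C| * (1 / ((k : ℝ) + 1) ^ 2)) := by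
      intro k
      have hk : (0 : ℝ) < ((k : ℝ) + 1) ^ 2 := by positivity
      have h2 := meas_ge_le_lintegral_div (μ := μ.restrict B) (hm k).enorm
        (ε := ENNReal.ofReal (((k : ℝ) + 1) ^ 2))
        (by rw [Ne, ENNReal.ofReal_eq_zero, not_le]; exact hk) ENNReal.ofReal_ne_top
      refine h2.trans ?_
      rw [mul_one_div, ENNReal.ofReal_div_of_pos hk]
      exact ENNReal.div_le_div_right ((hlint k).trans
        (ENNReal.ofReal_le_ofReal (le_abs_self C))) _
    have h2 : Summable fun k : ℕ => |C| * (1 / ((k : ℝ) + 1) ^ 2) := by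
      refine Summable.mul_left _ ?_
      have h3 := (summable_nat_add_iff 1).2 (Real.summable_one_div_nat_pow.2 (one_lt_two))
      refine h3.congr fun k => ?_
      push_cast
      rfl
    exact ne_top_of_le_ne_top h2.tsum_ofReal_ne_top (ENNReal.tsum_le_tsum h1)
  constructor
  · refine ⟨hgm.aestronglyMeasurable, ?_⟩
    show ∫⁻ z, ‖limsup (fun k => f k z) atTop‖ₑ ∂(μ.restrict B) < ⊤
    refine lt_of_le_of_lt (lintegral_mono_ae ?_) (hfat.trans_lt ENNReal.ofReal_lt_top)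
    filter_upwards [hpt] with z hz
    exact hz.2.2
  · filter_upwards [hpt, hbc, hmemB] with z hz hz2 hzB
    refine ⟨hz.1, hz.2.1, hz2.mono fun k hk => ?_⟩
    have h1 : ‖f k z‖ₑ < ENNReal.ofReal (((k : ℝ) + 1) ^ 2) := not_le.1 hk
    rw [Real.enorm_eq_ofReal_abs] at h1
    have h2 : |f k z| < ((k : ℝ) + 1) ^ 2 := by
      refine (ENNReal.ofReal_lt_ofReal_iff ?_).1 h1
      positivity
    have h3 := neg_abs_le (f k z)
    linarith

theorem lim_int {U : Set H} (hU : IsOpen U) {f : ℕ → H → ℝ} (hf : ∀ k, ContinuousOn (f k) U)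
    (h0 : ∀ k, ∀ z ∈ U, f k z ≤ 0) (hL : L1b μ U f) :
    LocallyIntegrableOn (fun z => limsup (fun k => f k z) atTop) U μ := by
  intro z hz
  obtain ⟨r, hr, hB, C, hC⟩ := hL z hz
  refine ⟨Metric.ball z r, mem_nhdsWithin_of_mem_nhds (Metric.ball_mem_nhds z hr), ?_⟩
  exact (N3a_ball μ h0 measurableSet_ball hB (fun k => (hC k).1) fun k => (hC k).2).1

theorem lim_ae {U : Set H} (hU : IsOpen U) {f : ℕ → H → ℝ} (hf : ∀ k, ContinuousOn (f k) U)
    (h0 : ∀ k, ∀ z ∈ U, f k z ≤ 0) (hL : L1b μ U f) : ∀ᵐ z ∂μ, z ∈ U →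
      BddBelow (Set.range fun m => ⨆ k, f (m + k) z) ∧
      Tendsto (fun m => ⨆ k, f (m + k) z) atTop (𝓝 (limsup (fun k => f k z) atTop)) ∧
      ∀ᶠ k : ℕ in atTop, -((k : ℝ) + 1) ^ 2 ≤ f k z := by
  rw [ae_iff]
  refine measure_null_of_locally_null _ fun z hz => ?_
  have hzU : z ∈ U := by
    by_contra h
    exact hz fun h' => absurd h' h
  obtain ⟨r, hr, hB, C, hC⟩ := hL z hzU
  have h1 := (N3a_ball μ h0 measurableSet_ball hB (fun k => (hC k).1) fun k => (hC k).2).2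
  rw [ae_restrict_iff' measurableSet_ball, ae_iff] at h1
  refine ⟨_, ?_, h1⟩
  refine mem_nhdsWithin.2 ⟨Metric.ball z r, Metric.isOpen_ball, Metric.mem_ball_self hr, ?_⟩
  rintro y ⟨hy1, hy2⟩ h3
  exact hy2 fun _ => h3 hy1

end HDG
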