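import Pool.Agent.HDP.N1
import Pool.Agent.HDP.N3a

/-!
# HDP/N3: the limit current in a chart

The inequality `max_ineq` for the functions `f m, ..., f (m + N)`; first `N → ∞` and then `m → ∞` (dominated convergence).
-/

set_option autoImplicit false

noncomputable section

open scoped ContDiff Topology

open MeasureTheory Filter

namespace HDG

open Pool.Agent.FBR

variable {H : Type*} [NormedAddCommGroup H] [NormedSpace ℂ H] [FiniteDimensional ℂ H] [MeasurableSpace H] [BorelSpace H]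
  (μ : Measure H) [μ.IsAddHaarMeasure]

private theorem N3_ne (N : ℕ) : (Finset.range (N + 1)).Nonempty := ⟨0, Finset.mem_range.2 (Nat.succ_pos N)⟩

private theorem N3_sup {x : ℕ → ℝ} (hx : BddAbove (Set.range x)) :
    Tendsto (fun N : ℕ => (Finset.range (N + 1)).sup' (N3_ne N) x) atTop (𝓝 (⨆ k, x k)) := by
  refine tendsto_order.2 ⟨fun a ha => ?_, fun a ha => ?_⟩
  · obtain ⟨k, hk⟩ := exists_lt_of_lt_ciSup ha
    filter_upwards [eventually_ge_atTop k] with N hN
    exact hk.trans_le (Finset.le_sup' x (Finset.mem_range.2 (by omega)))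
  · refine Eventually.of_forall fun N => lt_of_le_of_lt ?_ ha
    exact Finset.sup'_le _ _ fun k _ => le_ciSup hx k

private theorem N3_inf {x : ℕ → ℝ} (hx : BddBelow (Set.range x)) :
    Tendsto (fun N : ℕ => (Finset.range (N + 1)).inf' (N3_ne N) x) atTop (𝓝 (⨅ k, x k)) := by
  refine tendsto_order.2 ⟨fun a ha => ?_, fun a ha => ?_⟩
  · refine Eventually.of_forall fun N => lt_of_lt_of_le ha ?_
    exact Finset.le_inf' _ _ fun k _ => ciInf_le hx k
  · obtain ⟨k, hk⟩ := exists_lt_of_ciInf_lt ha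
    filter_upwards [eventually_ge_atTop k] with N hN
    exact (Finset.inf'_le x (Finset.mem_range.2 (by omega))).trans_lt hk

private theorem N3_tail {x : ℕ → ℝ} {δ : ℝ} (hb : BddBelow (Set.range x)) (h : Tendsto x atTop (𝓝 δ)) :
    Tendsto (fun m => ⨅ k, x (m + k)) atTop (𝓝 δ) := by
  have hb' : ∀ m, BddBelow (Set.range fun k => x (m + k)) := fun m =>
    hb.mono (by rintro _ ⟨k, rfl⟩; exact ⟨m + k, rfl⟩)
  refine tendsto_order.2 ⟨fun a ha => ?_, fun a ha => ?_⟩
  · obtain ⟨a', h1, h2⟩ := exists_between ha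
    obtain ⟨m0, hm0⟩ := eventually_atTop.1 ((tendsto_order.1 h).1 a' h2)
    filter_upwards [eventually_ge_atTop m0] with m hm
    exact lt_of_lt_of_le h1 (le_ciInf fun k => (hm0 (m + k) (by omega)).le)
  · filter_upwards [(tendsto_order.1 h).2 a ha] with m hm
    exact lt_of_le_of_lt (ciInf_le (hb' m) 0) hm

private theorem N3_pow {t p : ℝ} (ht : 1 ≤ t) (hp : 0 ≤ p) :
    1 - p * (t - 1) ≤ t ^ (-p) ∧ t ^ (-p) ≤ 1 ∧ 0 ≤ t ^ (-p) := by
  have ht0 : 0 < t := by linarith
  refine ⟨?_, Real.rpow_le_one_of_one_le_of_nonpos ht (by linarith), (Real.rpow_pos_of_pos ht0 _).le⟩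
  rw [Real.rpow_def_of_pos ht0]
  have h1 := Real.add_one_le_exp (Real.log t * -p)
  have h2 := Real.log_le_sub_one_of_pos ht0
  have h3 : Real.log t * p ≤ (t - 1) * p := mul_le_mul_of_nonneg_right h2 hp
  linarith

private theorem N3_th1 {δ y : ℝ} (hδ : 0 < δ) (hy : y ≤ 0) (k : ℕ) :
    -1 ≤ δ * (1 - y) ^ (-(1 / 2 : ℝ) ^ k) - (1 / 2 : ℝ) ^ k ∧
      δ * (1 - y) ^ (-(1 / 2 : ℝ) ^ k) - (1 / 2 : ℝ) ^ k ≤ δ := by
  have hp : (0 : ℝ) ≤ (1 / 2 : ℝ) ^ k := by positivity
  have hp1 : (1 / 2 : ℝ) ^ k ≤ 1 := pow_le_one₀ (by norm_num) (by norm_num)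
  obtain ⟨-, h1, h2⟩ := N3_pow (t := 1 - y) (by linarith) hp
  constructor
  · have := mul_nonneg hδ.le h2
    linarith
  · have := mul_le_mul_of_nonneg_left h1 hδ.le
    linarith

private theorem N3_th2 {δ : ℝ} (hδ : 0 < δ) {y : ℕ → ℝ} (hy : ∀ k, y k ≤ 0)
    (h : ∀ᶠ k : ℕ in atTop, -((k : ℝ) + 1) ^ 2 ≤ y k) :
    Tendsto (fun k : ℕ => δ * (1 - y k) ^ (-(1 / 2 : ℝ) ^ k) - (1 / 2 : ℝ) ^ k) atTop (𝓝 δ) := by
  have h1 : Tendsto (fun k : ℕ => (1 / 2 : ℝ) ^ k) atTop (𝓝 0) :=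
    tendsto_pow_atTop_nhds_zero_of_lt_one (by norm_num) (by norm_num)
  have h2 : Tendsto (fun k : ℕ => (1 / 2 : ℝ) ^ k * ((k : ℝ) + 1) ^ 2) atTop (𝓝 0) := by
    have h3 := tendsto_pow_const_mul_const_pow_of_abs_lt_one 2 (r := (1 / 2 : ℝ))
      (by rw [abs_of_pos] <;> norm_num)
    have h4 := (h3.comp (tendsto_add_atTop_nat 1)).const_mul 2
    rw [mul_zero] at h4
    refine h4.congr fun k => ?_
    show 2 * (((k + 1 : ℕ) : ℝ) ^ 2 * (1 / 2 : ℝ) ^ (k + 1)) = (1 / 2 : ℝ) ^ k * ((k : ℝ) + 1) ^ 2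
    push_cast
    ring
  have h3 : Tendsto (fun k : ℕ => δ * (1 - (1 / 2 : ℝ) ^ k * ((k : ℝ) + 1) ^ 2) - (1 / 2 : ℝ) ^ k) atTop
      (𝓝 δ) := by
    have h4 := ((h2.const_sub 1).const_mul δ).sub h1
    simpa using h4
  refine tendsto_of_tendsto_of_tendsto_of_le_of_le' h3 tendsto_const_nhds ?_
    (Eventually.of_forall fun k => (N3_th1 hδ (hy k) k).2)
  filter_upwards [h] with k hk
  have hp : (0 : ℝ) ≤ (1 / 2 : ℝ) ^ k := by positivity
  obtain ⟨h5, -, -⟩ := N3_pow (t := 1 - y k) (by linarith [hy k]) hp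
  have h6 : (1 / 2 : ℝ) ^ k * (1 - y k - 1) ≤ (1 / 2 : ℝ) ^ k * ((k : ℝ) + 1) ^ 2 :=
    mul_le_mul_of_nonneg_left (by linarith) hp
  have h7 : δ * (1 - (1 / 2 : ℝ) ^ k * ((k : ℝ) + 1) ^ 2) ≤ δ * (1 - y k) ^ (-(1 / 2 : ℝ) ^ k) :=
    mul_le_mul_of_nonneg_left (by linarith) hδ.le
  linarith

omit [NormedSpace ℂ H] [FiniteDimensional ℂ H] [BorelSpace H] [μ.IsAddHaarMeasure] in
private theorem N3_dc {K : Set H} {φ : ℕ → H → ℝ} {φ' b D : H → ℝ}
    (hm : ∀ n, AEStronglyMeasurable (fun z => φ n z * D z) μ)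
    (hb : Integrable (fun z => b z * D z) μ)
    (h1 : ∀ n, ∀ᵐ z ∂μ, z ∈ K → |φ n z| ≤ |b z|) (hD : ∀ z, z ∉ K → D z = 0)
    (h2 : ∀ᵐ z ∂μ, z ∈ K → Tendsto (fun n => φ n z) atTop (𝓝 (φ' z))) :
    AEStronglyMeasurable (fun z => φ' z * D z) μ ∧
      Tendsto (fun n => ∫ z, φ n z * D z ∂μ) atTop (𝓝 (∫ z, φ' z * D z ∂μ)) := by
  have h3 : ∀ᵐ z ∂μ, Tendsto (fun n => φ n z * D z) atTop (𝓝 (φ' z * D z)) := by
    filter_upwards [h2] with z hz
    by_cases h : z ∈ K
    · exact (hz h).mul_const _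
    · simp only [hD z h, mul_zero]
      exact tendsto_const_nhds
  refine ⟨aestronglyMeasurable_of_tendsto_ae atTop hm h3, ?_⟩
  refine tendsto_integral_of_dominated_convergence (fun z => ‖b z * D z‖) hm hb.norm (fun n => ?_) h3
  filter_upwards [h1 n] with z hz
  rw [Real.norm_eq_abs, Real.norm_eq_abs, abs_mul, abs_mul]
  by_cases h : z ∈ K
  · exact mul_le_mul_of_nonneg_right (hz h) (abs_nonneg _)
  · rw [hD z h, abs_zero, mul_zero, mul_zero]

omit [NormedSpace ℂ H] [FiniteDimensional ℂ H] in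
private theorem N3_int [IsFiniteMeasureOnCompacts μ] {U : Set H} (hU : IsOpen U)
    {g k : H → ℝ} (hg : ContinuousOn g U) (hk : Continuous k) {K : Set H} (hK : IsCompact K)
    (hKU : K ⊆ U) (h0 : ∀ z ∉ K, k z = 0) : Integrable (fun z => g z * k z) μ := by
  have hcs : HasCompactSupport fun z => g z * k z :=
    HasCompactSupport.intro hK fun z hz => by rw [h0 z hz, mul_zero]
  refine Continuous.integrable_of_hasCompactSupport ?_ hcs
  rw [continuous_iff_continuousAt]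
  intro z
  by_cases hz : z ∈ U
  · exact (hg.continuousAt (hU.mem_nhds hz)).mul hk.continuousAt
  · have h1 : (fun z => g z * k z) =ᶠ[nhds z] fun _ => 0 := by
      have h2 : Kᶜ ∈ nhds z := hK.isClosed.isOpen_compl.mem_nhds fun h => hz (hKU h)
      filter_upwards [h2] with y hy
      rw [h0 y hy, mul_zero]
    exact continuousAt_const.congr h1.symm

omit [FiniteDimensional ℂ H] [MeasurableSpace H] [BorelSpace H] in
private theorem N3_off {χ : H → ℝ} {z : H} (hz : z ∉ tsupport χ) (ξ : H) :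
    ddc χ z ξ (Complex.I • ξ) = 0 := by
  rw [notMem_tsupport_iff_eventuallyEq] at hz
  rw [ddc_congr hz, ddc_self]
  have h1 : fderiv ℝ (0 : H → ℝ) = 0 := by
    funext x
    exact fderiv_const_apply (0 : ℝ)
  have h2 : fderiv ℝ (fderiv ℝ (0 : H → ℝ)) z = 0 := by
    rw [h1]
    exact fderiv_const_apply (0 : H →L[ℝ] ℝ)
  rw [h2]
  simp

omit [FiniteDimensional ℂ H] [MeasurableSpace H] [BorelSpace H] in
private theorem N3_gc {χ : H → ℝ} (hχ : ContDiff ℝ ∞ χ) (ξ : H) :
    Continuous fun z => ddc χ z ξ (Complex.I • ξ) := by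
  have h1 : Continuous (ddc χ) :=
    continuous_iff_continuousAt.2 fun z => (ddc_smooth hχ.contDiffAt).continuousAt
  exact (h1.clm_apply continuous_const).clm_apply continuous_const

set_option maxSynthPendingDepth 3 in
theorem lim_ineq {U : Set H} (hU : IsOpen U) {f : ℕ → H → ℝ} (hf : ∀ k, ContDiffOn ℝ ∞ (f k) U)
    (h0 : ∀ k, ∀ z ∈ U, f k z ≤ 0) (hL : L1b μ U f) {c g : H → Bil H} (hc : ContinuousOn c U) (hg : ContinuousOn g U)
    (hgn : ∀ z ∈ U, Nn (g z)) {δ : ℝ} (hδ : 0 < δ)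
    (h : ∀ k, ∀ z ∈ U, Nn (c z + ddc (f k) z - (δ * (1 - f k z) ^ (-(1 / 2 : ℝ) ^ k) - (1 / 2 : ℝ) ^ k) • g z))
    {χ : H → ℝ} (hχ : ContDiff ℝ ∞ χ) (hcs : HasCompactSupport χ) (hsp : tsupport χ ⊆ U) (hχ0 : ∀ z, 0 ≤ χ z) (v : H) :
    ∫ z, χ z * (δ * g z v (Complex.I • v) - c z v (Complex.I • v)) ∂μ ≤
      ∫ z, limsup (fun k => f k z) atTop * ddc χ z v (Complex.I • v) ∂μ := by
  obtain ⟨K, hK⟩ : ∃ K, K = tsupport χ := ⟨_, rfl⟩
  have hKc : IsCompact K := by rw [hK]; exact hcs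
  have hKU : K ⊆ U := by rw [hK]; exact hsp
  obtain ⟨D, hD⟩ : ∃ D : H → ℝ, ∀ z, D z = ddc χ z v (Complex.I • v) := ⟨_, fun _ => rfl⟩
  obtain ⟨G, hG⟩ : ∃ G : H → ℝ, ∀ z, G z = g z v (Complex.I • v) := ⟨_, fun _ => rfl⟩
  obtain ⟨A, hA⟩ : ∃ A : H → ℝ, ∀ z, A z = c z v (Complex.I • v) := ⟨_, fun _ => rfl⟩
  obtain ⟨θ, hθ⟩ : ∃ θ : ℕ → H → ℝ, ∀ k z, θ k z =
      δ * (1 - f k z) ^ (-(1 / 2 : ℝ) ^ k) - (1 / 2 : ℝ) ^ k := ⟨_, fun _ _ => rfl⟩
  have hDe : D = fun z => ddc χ z v (Complex.I • v) := funext hD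
  have hGe : G = fun z => g z v (Complex.I • v) := funext hG
  have hAe : A = fun z => c z v (Complex.I • v) := funext hA
  have hDc : Continuous D := by rw [hDe]; exact N3_gc hχ v
  have hD0 : ∀ z, z ∉ K → D z = 0 := fun z hz => by
    rw [hD]
    exact N3_off (by rwa [hK] at hz) v
  have hχ1 : ∀ z, z ∉ K → χ z = 0 := fun z hz =>
    image_eq_zero_of_notMem_tsupport (by rwa [hK] at hz)
  have hGc : ContinuousOn G U := by
    rw [hGe]; exact (hg.clm_apply continuousOn_const).clm_apply continuousOn_const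
  have hAc : ContinuousOn A U := by
    rw [hAe]; exact (hc.clm_apply continuousOn_const).clm_apply continuousOn_const
  have hG0 : ∀ z ∈ U, 0 ≤ G z := fun z hz => by
    rw [hG]; exact hgn z hz v
  have hfc : ∀ k, ContinuousOn (f k) U := fun k => (hf k).continuousOn
  have hθc : ∀ k, ContinuousOn (θ k) U := by
    intro k
    have h1 : θ k = fun z => δ * (1 - f k z) ^ (-(1 / 2 : ℝ) ^ k) - (1 / 2 : ℝ) ^ k := funext (hθ k)
    rw [h1]
    refine (continuousOn_const.mul ((continuousOn_const.sub (hfc k)).rpow_const fun z hz => Or.inl ?_)).sub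
      continuousOn_const
    have := h0 k z hz
    show (1 : ℝ) - f k z ≠ 0
    linarith
  have hθ1 : ∀ k, ∀ z ∈ U, -1 ≤ θ k z := fun k z hz => by
    rw [hθ]; exact (N3_th1 hδ (h0 k z hz) k).1
  have hθ2 : ∀ k, ∀ z ∈ U, θ k z ≤ δ := fun k z hz => by
    rw [hθ]; exact (N3_th1 hδ (h0 k z hz) k).2
  obtain ⟨S, hS⟩ : ∃ S : ℕ → ℕ → H → ℝ, S = fun m N z =>
      (Finset.range (N + 1)).sup' (N3_ne N) fun k => f (m + k) z := ⟨_, rfl⟩
  obtain ⟨Θ, hΘ⟩ : ∃ Θ : ℕ → ℕ → H → ℝ, Θ = fun m N z =>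
      (Finset.range (N + 1)).inf' (N3_ne N) fun k => θ (m + k) z := ⟨_, rfl⟩
  have hSc : ∀ m N, ContinuousOn (S m N) U := by
    intro m N
    rw [hS]
    exact ContinuousOn.finset_sup'_apply _ fun k _ => hfc (m + k)
  have hΘc : ∀ m N, ContinuousOn (Θ m N) U := by
    intro m N
    rw [hΘ]
    exact ContinuousOn.finset_inf'_apply _ fun k _ => hθc (m + k)
  -- integrability
  have iS : ∀ m N, Integrable (fun z => S m N z * D z) μ := fun m N =>
    N3_int μ hU (hSc m N) hDc hKc hKU hD0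
  have iA : Integrable (fun z => A z * χ z) μ := N3_int μ hU hAc hχ.continuous hKc hKU hχ1
  have iG : ∀ b : H → ℝ, ContinuousOn b U → Integrable (fun z => b z * (G z * χ z)) μ := by
    intro b hb
    refine (N3_int μ hU (hb.mul hGc) hχ.continuous hKc hKU hχ1).congr (Eventually.of_forall fun z => ?_)
    show b z * G z * χ z = b z * (G z * χ z)
    ring
  have hE0 : ∀ z, z ∉ K → G z * χ z = 0 := fun z hz => by rw [hχ1 z hz, mul_zero]
  -- the inequality for finitely many functions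
  have key : ∀ m N, ∫ z, Θ m N z * (G z * χ z) ∂μ ≤
      ∫ z, A z * χ z ∂μ + ∫ z, S m N z * D z ∂μ := by
    intro m N
    have h1 := max_ineq μ hU (N3_ne N) (f := fun k => f (m + k)) (fun k _ => hf (m + k))
      (c := fun z => c z - Θ m N z • g z) (hc.sub ((hΘc m N).smul hg)) (fun k hk z hz => ?_) hχ hcs hsp hχ0 v
    · have h2 : (fun z => χ z * (c z - Θ m N z • g z) v (Complex.I • v)) =
          fun z => A z * χ z - Θ m N z * (G z * χ z) := by
        funext z
        rw [hA, hG]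
        show χ z * (c z v (Complex.I • v) - Θ m N z * g z v (Complex.I • v)) = _
        ring
      have h3 : (fun z => ((Finset.range (N + 1)).sup' (N3_ne N) fun k => f (m + k) z) *
          ddc χ z v (Complex.I • v)) = fun z => S m N z * D z := by
        funext z
        rw [hD, hS]
      rw [h2, h3, integral_sub iA (iG _ (hΘc m N))] at h1
      linarith
    · intro u
      have h2 := h (m + k) z hz u
      have h3 : Θ m N z ≤ θ (m + k) z := by
        rw [hΘ]
        exact Finset.inf'_le (fun k => θ (m + k) z) hk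
      have h4 := mul_le_mul_of_nonneg_right h3 (hgn z hz u)
      rw [← hθ] at h2
      change 0 ≤ c z u (Complex.I • u) + ddc (f (m + k)) z u (Complex.I • u) -
        θ (m + k) z * g z u (Complex.I • u) at h2
      show 0 ≤ c z u (Complex.I • u) - Θ m N z * g z u (Complex.I • u) +
        ddc (f (m + k)) z u (Complex.I • u)
      linarith
  -- `N → ∞`
  have hba : ∀ m, ∀ z ∈ U, BddAbove (Set.range fun k => f (m + k) z) := by
    intro m z hz
    refine ⟨0, ?_⟩
    rintro _ ⟨k, rfl⟩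
    exact h0 _ z hz
  have hbb : ∀ m, ∀ z ∈ U, BddBelow (Set.range fun k => θ (m + k) z) := by
    intro m z hz
    refine ⟨-1, ?_⟩
    rintro _ ⟨k, rfl⟩
    exact hθ1 _ z hz
  have hb1 : ∀ x : ℝ, -1 ≤ x → x ≤ δ → |x| ≤ |1 + δ| := by
    intro x h1 h2
    rw [abs_of_pos (by linarith : 0 < 1 + δ), abs_le]
    constructor <;> linarith
  have s1 : ∀ m, AEStronglyMeasurable (fun z => (⨆ k, f (m + k) z) * D z) μ ∧
      Tendsto (fun N => ∫ z, S m N z * D z ∂μ) atTop (𝓝 (∫ z, (⨆ k, f (m + k) z) * D z ∂μ)) := by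
    intro m
    refine N3_dc μ (K := K) (φ := S m) (φ' := fun z => ⨆ k, f (m + k) z) (b := f m) (D := D)
      (fun N => (iS m N).1) (N3_int μ hU (hfc m) hDc hKc hKU hD0) (fun N => ?_) hD0 ?_
    · refine Eventually.of_forall fun z hz => ?_
      have h1 : f m z ≤ S m N z := by
        rw [hS]
        exact Finset.le_sup' (fun k => f (m + k) z) (Finset.mem_range.2 (Nat.succ_pos N))
      have h2 : S m N z ≤ 0 := by
        rw [hS]
        exact Finset.sup'_le _ _ fun k _ => h0 _ z (hKU hz)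
      rw [abs_of_nonpos h2, abs_of_nonpos (h1.trans h2)]
      linarith
    · refine Eventually.of_forall fun z hz => ?_
      rw [hS]
      exact N3_sup (hba m z (hKU hz))
  have s2 : ∀ m, AEStronglyMeasurable (fun z => (⨅ k, θ (m + k) z) * (G z * χ z)) μ ∧
      Tendsto (fun N => ∫ z, Θ m N z * (G z * χ z) ∂μ) atTop
        (𝓝 (∫ z, (⨅ k, θ (m + k) z) * (G z * χ z) ∂μ)) := by
    intro m
    refine N3_dc μ (K := K) (φ := Θ m) (φ' := fun z => ⨅ k, θ (m + k) z) (b := fun _ => 1 + δ)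
      (D := fun z => G z * χ z) (fun N => (iG _ (hΘc m N)).1) (iG _ continuousOn_const)
      (fun N => ?_) hE0 ?_
    · refine Eventually.of_forall fun z hz => hb1 _ ?_ ?_
      · rw [hΘ]
        exact Finset.le_inf' _ _ fun k _ => hθ1 _ z (hKU hz)
      · rw [hΘ]
        exact (Finset.inf'_le (fun k => θ (m + k) z) (Finset.mem_range.2 (Nat.succ_pos N))).trans
          (hθ2 _ z (hKU hz))
    · refine Eventually.of_forall fun z hz => ?_
      rw [hΘ]
      exact N3_inf (hbb m z (hKU hz))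
  have key2 : ∀ m, ∫ z, (⨅ k, θ (m + k) z) * (G z * χ z) ∂μ ≤
      ∫ z, A z * χ z ∂μ + ∫ z, (⨆ k, f (m + k) z) * D z ∂μ := fun m =>
    le_of_tendsto_of_tendsto' (s2 m).2 ((s1 m).2.const_add _) fun N => key m N
  -- `m → ∞`
  have hae := lim_ae μ hU hfc h0 hL
  have iφ : Integrable (fun z => limsup (fun k => f k z) atTop * D z) μ := by
    have h1 : IntegrableOn (fun z => limsup (fun k => f k z) atTop) K μ :=
      (lim_int μ hU hfc h0 hL).integrableOn_compact_subset hKU hKc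
    have h2 := h1.mul_continuousOn hDc.continuousOn hKc
    refine (integrableOn_iff_integrable_of_support_subset ?_).1 h2
    intro z hz
    by_contra h3
    exact hz (by
      show limsup (fun k => f k z) atTop * D z = 0
      rw [hD0 z h3, mul_zero])
  have t1 : Tendsto (fun m => ∫ z, (⨆ k, f (m + k) z) * D z ∂μ) atTop
      (𝓝 (∫ z, limsup (fun k => f k z) atTop * D z ∂μ)) := by
    refine (N3_dc μ (K := K) (φ := fun m z => ⨆ k, f (m + k) z)
      (φ' := fun z => limsup (fun k => f k z) atTop) (b := fun z => limsup (fun k => f k z) atTop) (D := D)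
      (fun m => (s1 m).1) iφ (fun m => ?_) hD0 ?_).2
    · filter_upwards [hae] with z hz hzK
      obtain ⟨-, h1, -⟩ := hz (hKU hzK)
      have h2 : (⨆ k, f (m + k) z) ≤ 0 := ciSup_le fun k => h0 _ z (hKU hzK)
      have h3 : limsup (fun k => f k z) atTop ≤ ⨆ k, f (m + k) z := by
        refine le_of_tendsto h1 ?_
        filter_upwards [eventually_ge_atTop m] with m' hm'
        refine ciSup_le fun k => ?_
        have h4 := le_ciSup (hba m z (hKU hzK)) (m' - m + k)
        have h5 : m + (m' - m + k) = m' + k := by omega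
        simp only [h5] at h4
        exact h4
      rw [abs_of_nonpos h2, abs_of_nonpos (h3.trans h2)]
      linarith
    · filter_upwards [hae] with z hz hzK
      exact (hz (hKU hzK)).2.1
  have t2 : Tendsto (fun m => ∫ z, (⨅ k, θ (m + k) z) * (G z * χ z) ∂μ) atTop
      (𝓝 (∫ z, δ * (G z * χ z) ∂μ)) := by
    refine (N3_dc μ (K := K) (φ := fun m z => ⨅ k, θ (m + k) z)
      (φ' := fun _ => δ) (b := fun _ => 1 + δ) (D := fun z => G z * χ z)
      (fun m => (s2 m).1) (iG _ continuousOn_const) (fun m => ?_) hE0 ?_).2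
    · refine Eventually.of_forall fun z hz => hb1 _ ?_ ?_
      · exact le_ciInf fun k => hθ1 _ z (hKU hz)
      · exact (ciInf_le (hbb m z (hKU hz)) 0).trans (hθ2 _ z (hKU hz))
    · filter_upwards [hae] with z hz hzK
      have h1 := N3_th2 hδ (y := fun k => f k z) (fun k => h0 k z (hKU hzK)) (hz (hKU hzK)).2.2
      have h2 : Tendsto (fun k => θ k z) atTop (𝓝 δ) := by
        simp only [hθ]
        exact h1
      refine N3_tail ?_ h2
      refine ⟨-1, ?_⟩
      rintro _ ⟨k, rfl⟩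
      exact hθ1 _ z (hKU hzK)
  have fin := le_of_tendsto_of_tendsto' t2 (t1.const_add _) key2
  have e1 : (fun z => χ z * (δ * g z v (Complex.I • v) - c z v (Complex.I • v))) =
      fun z => δ * (G z * χ z) - A z * χ z := by
    funext z
    rw [hA, hG]
    ring
  have e2 : (fun z => limsup (fun k => f k z) atTop * ddc χ z v (Complex.I • v)) =
      fun z => limsup (fun k => f k z) atTop * D z := by
    funext z
    rw [hD]
  rw [e1, e2, integral_sub (iG _ continuousOn_const) iA]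
  linarith

end HDG
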