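import Pool.Agent.HDP.N2
import Pool.Agent.HDP.N3
import Pool.Agent.HDP.K7

/-!
# HDP/N4: a Kähler current

For `k : ℕ` let `f k` be the function of the hypothesis for `κ = p = (1/2)^k`; the potential is `φ x = limsup (fun k => f k x) atTop`.
In the chart at `p` the statements are `lim_int` (N3a) and `lim_ineq` (N3) for the functions `inCh (f k) p`, with the `L^1` bound
`l1_chart` (N2).
-/

set_option autoImplicit false

noncomputable section

open scoped Manifold ContDiff Topology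

open MeasureTheory Filter

namespace HFC

open Pool.Agent.FBR

universe u

private theorem N4_d2 {E : Type*} [NormedAddCommGroup E] [NormedSpace ℂ E] {h : E → ℝ} {y : E}
    (hh : ContDiffAt ℝ ∞ h y) (v : E) : d2 h y v = fderiv ℝ (fderiv ℝ h) y v v := by
  have h1 : DifferentiableAt ℝ (fderiv ℝ h) y :=
    ((hh.fderiv_right (m := 1) (by norm_cast)).differentiableAt (by norm_num))
  have h2 := h1.hasFDerivAt.clm_apply (hasFDerivAt_const v y)
  show fderiv ℝ (fun z => fderiv ℝ h z v) y v = fderiv ℝ (fderiv ℝ h) y v v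
  rw [h2.fderiv]
  simp

private theorem N4_lv {E : Type u} [NormedAddCommGroup E] [NormedSpace ℂ E] {h : E → ℝ} (hh : ContDiff ℝ ∞ h) (v y : E) :
    lv h v y = ddc h y v (Complex.I • v) := by
  unfold lv
  rw [N4_d2 hh.contDiffAt, N4_d2 hh.contDiffAt, ddc_self]
  ring

private theorem N4_limsup {u : ℕ → ℝ} (h : ∀ k, u k ≤ 0) : limsup u atTop ≤ 0 := by
  rw [Filter.limsup_eq]
  by_cases hb : BddBelow {a : ℝ | ∀ᶠ n in atTop, u n ≤ a}
  · exact csInf_le hb (Eventually.of_forall h)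
  · rw [Real.sInf_of_not_bddBelow hb]

private theorem N4_nonneg {E X : Type u} [NormedAddCommGroup E] [NormedSpace ℂ E] [TopologicalSpace X] [ChartedSpace E X]
    {g : X → Bil E} (hg : Herm g) (x : X) (v : E) : 0 ≤ ev (g x) v (Complex.I • v) := by
  by_cases hv : v = 0
  · subst hv
    show 0 ≤ g x 0 (Complex.I • (0 : E))
    rw [map_zero, zero_apply]
  · exact (hg.pos x v hv).le

private theorem N4_val {E X : Type u} [NormedAddCommGroup E] [NormedSpace ℂ E] [TopologicalSpace X] [ChartedSpace E X]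
    (a : X → Bil E) (p : X) {z v : E}
    (h : dvec E (chartAt E p).symm z (Complex.I • v) = Complex.I • dvec E (chartAt E p).symm z v) :
    coef a p z v (Complex.I • v) = ev (a ((chartAt E p).symm z)) (dvec E (chartAt E p).symm z v)
      (Complex.I • dvec E (chartAt E p).symm z v) := by
  show tpb a (chartAt E p).symm z v (Complex.I • v) = _
  rw [tpb_apply, h]
  rfl

theorem kcur_of (M : CM.{u}) (b : Form M.E M.X) (g : M.X → Bil M.E) (hg : Herm g) {δ : ℝ} (hδ : 0 < δ)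
    (h : ∀ κ : ℝ, 0 < κ → ∀ p : ℝ, 0 < p → p ≤ 1 → ∃ f : M.X → ℝ, SmF M.E f ∧ (∀ x, f x ≤ 0) ∧
      (∃ x, f x = 0) ∧ Above b g f fun x => δ * (1 - f x) ^ (-p) - κ) :
    ∃ φ : M.X → ℝ, (∀ x, φ x ≤ 0) ∧ KCur b g δ φ := by
  have hk0 : ∀ k : ℕ, 0 < (1 / 2 : ℝ) ^ k := fun k => by positivity
  have hk1 : ∀ k : ℕ, (1 / 2 : ℝ) ^ k ≤ 1 := fun k => pow_le_one₀ (by norm_num) (by norm_num)
  choose F hF using fun k : ℕ => h ((1 / 2 : ℝ) ^ k) (hk0 k) ((1 / 2 : ℝ) ^ k) (hk0 k) (hk1 k)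
  refine ⟨fun x => limsup (fun k => F k x) atTop, fun x => N4_limsup fun k => (hF k).2.1 x, ?_⟩
  intro _ _ μ _ p
  have : FiniteDimensional ℝ M.E := FiniteDimensional.complexToReal M.E
  have hU : IsOpen (chartAt M.E p).target := (chartAt M.E p).open_target
  have hsm : ∀ k, ContDiffOn ℝ ∞ (inCh (F k) p) (chartAt M.E p).target := fun k y hy =>
    ((hF k).1.at (hol_symm hy).sm).contDiffWithinAt
  have h0 : ∀ k, ∀ z ∈ (chartAt M.E p).target, inCh (F k) p z ≤ 0 := fun k z _ => (hF k).2.1 _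
  have hL : HDG.L1b μ (chartAt M.E p).target fun k => inCh (F k) p := by
    intro z hz
    obtain ⟨r, hr, hrU, C, hC⟩ := l1_chart M b g hg μ p hz
    refine ⟨r, hr, hrU, C, fun k => hC (F k) (hF k).1 (hF k).2.1 (hF k).2.2.1 fun x v => ?_⟩
    refine le_trans ?_ ((hF k).2.2.2 x v)
    refine mul_le_mul_of_nonneg_right ?_ (N4_nonneg hg x v)
    have h1 : 0 ≤ δ * (1 - F k x) ^ (-(1 / 2 : ℝ) ^ k) :=
      mul_nonneg hδ.le (Real.rpow_nonneg (by linarith [(hF k).2.1 x]) _)
    have h2 := hk1 k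
    show -1 ≤ δ * (1 - F k x) ^ (-(1 / 2 : ℝ) ^ k) - (1 / 2 : ℝ) ^ k
    linarith
  refine ⟨HDG.lim_int μ hU (fun k => (hsm k).continuousOn) h0 hL, fun χ v hχ => ?_⟩
  have h1 := HDG.lim_ineq μ hU hsm h0 hL (b.smooth p).continuousOn (coef_real hg.real p).1.continuousOn
    (fun z hz w => by
      rw [N4_val g p ((hol_symm hz).smul_I w)]
      exact N4_nonneg hg _ _) hδ
    (fun k z hz w => by
      obtain ⟨h2, h3⟩ := lev_comp (hF k).1 (hol_symm hz) w
      have h4 := (hF k).2.2.2 ((chartAt M.E p).symm z) (dvec M.E (chartAt M.E p).symm z w)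
      have h5 : (coef b.val p z + ddc (inCh (F k) p) z -
          (δ * (1 - inCh (F k) p z) ^ (-(1 / 2 : ℝ) ^ k) - (1 / 2 : ℝ) ^ k) • coef g p z) w (Complex.I • w) =
          coef b.val p z w (Complex.I • w) + ddc (fun z => F k ((chartAt M.E p).symm z)) z w (Complex.I • w) -
          (δ * (1 - F k ((chartAt M.E p).symm z)) ^ (-(1 / 2 : ℝ) ^ k) - (1 / 2 : ℝ) ^ k) *
            coef g p z w (Complex.I • w) := rfl
      rw [h5, N4_val g p h3, N4_val b.val p h3, h2]
      linarith) hχ.smooth hχ.comp hχ.supp hχ.nonneg v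
  have h2 : ∀ y, lv χ v y = ddc χ y v (Complex.I • v) := N4_lv hχ.smooth v
  simp only [h2]
  exact h1

end HFC
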