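import Pool.Agent.HDP.L7
import Pool.Agent.HDP.K8
import Pool.Agent.HDP.N4

/-!
# HDP/L8: locally conformally plurinegative metrics on a manifold with a semi-positive form of positive volume

`lcn_pc`: a locally conformally plurinegative metric becomes pluriclosed after multiplication by a function. `kcur_pc`: the
Kähler current of a pluriclosed metric. `kcur_mono`: the inequality of `KCur` for the metric `e^{-u} g` gives the inequality
for `g` with a smaller constant. `kcur_sign`: both kinds of metrics.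
-/

set_option autoImplicit false

noncomputable section

open scoped Manifold ContDiff Topology

namespace HFC

open Pool.Agent.FBR

universe u

section

variable {E X : Type u} [NormedAddCommGroup E] [NormedSpace ℂ E] [TopologicalSpace X] [ChartedSpace E X]

private theorem L8_exp (g : X → Bil E) (f : X → ℝ) (p : X) (v w y : E) :
    cB (fun x => Real.exp (-f x) • g x) p v w y = Real.exp (-f ((chartAt E p).symm y)) * cB g p v w y := rfl

private theorem L8_pos [IsManifold 𝓘(ℂ, E) ω X] {g : X → Bil E} (hg : Herm g) (p : X) {y : E}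
    (hy : y ∈ (chartAt E p).target) (v : E) : 0 ≤ cB g p v (Complex.I • v) y := by
  have h3 : dvec E (chartAt E p).symm y (Complex.I • v) = Complex.I • dvec E (chartAt E p).symm y v :=
    (hol_symm hy).smul_I v
  have h4 : cB g p v (Complex.I • v) y =
      ev (g ((chartAt E p).symm y)) (dvec E (chartAt E p).symm y v) (Complex.I • dvec E (chartAt E p).symm y v) := by
    rw [← h3]
    rfl
  rw [h4]
  by_cases h0 : dvec E (chartAt E p).symm y v = 0
  · rw [h0, smul_zero]
    exact (hg.alt _ 0).ge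
  · exact (hg.pos _ _ h0).le

private theorem L8_int [FiniteDimensional ℂ E] [MeasurableSpace E] [BorelSpace E] (μ : MeasureTheory.Measure E)
    [μ.IsAddHaarMeasure] {U : Set E} (hU : IsOpen U) {χ F : E → ℝ} (hχ : Test U χ) (hF : ContinuousOn F U) :
    MeasureTheory.Integrable (fun y => χ y * F y) μ := by
  have hc : Continuous fun y => χ y * F y := by
    rw [continuous_iff_continuousAt]
    intro y
    by_cases hy : y ∈ tsupport χ
    · exact hχ.smooth.continuous.continuousAt.mul (hF.continuousAt (hU.mem_nhds (hχ.supp hy)))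
    · have h1 : (fun y => χ y * F y) =ᶠ[nhds y] fun _ => 0 := by
        filter_upwards [notMem_tsupport_iff_eventuallyEq.1 hy] with z hz
        rw [hz]
        exact zero_mul _
      exact continuousAt_const.congr h1.symm
  exact hc.integrable_of_hasCompactSupport hχ.comp.mul_right

end

theorem lcn_pc (M : CM.{u}) (hM : SemiPos M) {g : M.X → Bil M.E} (hg : Herm g) (h : LCN g) :
    ∃ φ : M.X → ℝ, SmF M.E φ ∧ Pluriclosed fun x => Real.exp (-φ x) • g x := by
  by_cases hn : Module.finrank ℂ M.E ≤ 1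
  · refine ⟨fun _ => 0, SmF.const 0, ?_⟩
    have hγ : Real11 fun x => Real.exp (-(fun _ : M.X => (0 : ℝ)) x) • g x := exp_real hg.real (SmF.const 0)
    intro p y hy u v w t
    rw [ddg_eq hγ hy]
    exact HDG.psi4_zero (chartAt M.E p).open_target (coef_real hγ p).1 (coef_real hγ p).2 hy
      (fun u v => psi_one hn (chartAt M.E p).open_target (coef_real hγ p).1 (coef_real hγ p).2 hy u v) u v w t
  obtain ⟨θ, hθ, hloc⟩ := h
  obtain ⟨φ, hφ, hφθ⟩ := lcn_exact M hM (by omega) hg hθ hloc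
  have h1 : θ = dF M.E φ := funext hφθ
  rw [h1] at hloc
  exact ⟨φ, hφ, sign_pc M hM (exp_real hg.real hφ) (Or.inr (psi_glob hg.real hφ hloc))⟩

theorem kcur_pc (M : CM.{u}) (hn : 2 ≤ Module.finrank ℂ M.E) (b : Form M.E M.X) (hb : b.Semi) (hb' : ∃ x, b.PosAt x)
    (g : M.X → Bil M.E) (hg : Herm g) (hpc : Pluriclosed g) :
    ∃ (δ : ℝ) (φ : M.X → ℝ), 0 < δ ∧ (∀ x, φ x ≤ 0) ∧ KCur b g δ φ := by
  obtain ⟨δ, hδ, hk⟩ := kc_of M hn b hb hb' g hg hpc
  obtain ⟨φ, hφ, h⟩ := kcur_of M b g hg hδ hk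
  exact ⟨δ, φ, hδ, hφ, h⟩

theorem kcur_mono (M : CM.{u}) (b : Form M.E M.X) (g : M.X → Bil M.E) (hg : Herm g) {u : M.X → ℝ} (hu : SmF M.E u)
    {δ : ℝ} (hδ : 0 < δ) {φ : M.X → ℝ} (h : KCur b (fun x => Real.exp (-u x) • g x) δ φ) :
    ∃ δ' : ℝ, 0 < δ' ∧ KCur b g δ' φ := by
  obtain ⟨C, hC⟩ := (isCompact_range hu.continuous).bddAbove
  have hC' : ∀ x, u x ≤ C := fun x => hC (Set.mem_range_self x)
  refine ⟨δ * Real.exp (-C), mul_pos hδ (Real.exp_pos _), ?_⟩
  intro _ _ μ _ p
  obtain ⟨h1, h2⟩ := h μ p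
  refine ⟨h1, fun χ v hχ => le_trans ?_ (h2 χ v hχ)⟩
  have hg' := exp_real hg.real hu
  have hb : ContinuousOn (cB b.val p v (Complex.I • v)) (chartAt M.E p).target :=
    ((b.smooth p).continuousOn.clm_apply continuousOn_const).clm_apply continuousOn_const
  refine MeasureTheory.integral_mono (L8_int μ (chartAt M.E p).open_target hχ ?_)
    (L8_int μ (chartAt M.E p).open_target hχ ?_) fun y => ?_
  · exact (continuousOn_const.mul (hg.smooth p v _).continuousOn).sub hb
  · exact (continuousOn_const.mul (hg'.smooth p v _).continuousOn).sub hb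
  by_cases hy : y ∈ (chartAt M.E p).target
  · refine mul_le_mul_of_nonneg_left (sub_le_sub_right ?_ _) (hχ.nonneg y)
    rw [L8_exp, mul_assoc]
    exact mul_le_mul_of_nonneg_left (mul_le_mul_of_nonneg_right (Real.exp_le_exp.2 (neg_le_neg (hC' _)))
      (L8_pos hg p hy v)) hδ.le
  · have h0 : χ y = 0 := image_eq_zero_of_notMem_tsupport fun h => hy (hχ.supp h)
    refine le_of_eq ?_
    simp only [h0, zero_mul]

theorem kcur_sign (M : CM.{u}) (hn : 2 ≤ Module.finrank ℂ M.E) (b : Form M.E M.X) (hb : b.Semi) (hb' : ∃ x, b.PosAt x)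
    (g : M.X → Bil M.E) (hg : Herm g) (h : Plurisub g ∨ LCN g) :
    ∃ (δ : ℝ) (φ : M.X → ℝ), 0 < δ ∧ (∀ x, φ x ≤ 0) ∧ KCur b g δ φ := by
  have hM : SemiPos M := ⟨b, hb, hb'⟩
  rcases h with h | h
  · exact kcur_pc M hn b hb hb' g hg (thmD M hM hg.real h)
  · obtain ⟨f, hf, hpc⟩ := lcn_pc M hM hg h
    obtain ⟨δ, φ, hδ, hφ, hk⟩ := kcur_pc M hn b hb hb' _ (exp_herm hg hf) hpc
    obtain ⟨δ', hδ', hk'⟩ := kcur_mono M b g hg hf hδ hk
    exact ⟨δ', φ, hδ', hφ, hk'⟩

end HFC
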