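import Pool.Agent.HDP.QDefs

/-!
# HDP: definition of locally conformally plurinegative metrics

`X` is a complex manifold modelled on `E`; `ddg γ p y u v w t` is the 4-form `dd^c γ` in the chart at `p`.
-/

set_option autoImplicit false

noncomputable section

open scoped Manifold ContDiff

namespace HFC

open Pool.Agent.FBR

universe u

variable {E X : Type u} [NormedAddCommGroup E] [NormedSpace ℂ E] [TopologicalSpace X] [ChartedSpace E X]

/-- `dd^c γ ≤ 0` on `U`: `dd^c γ (u, iu, v, iv) ≤ 0` for all tangent vectors `u`, `v` at the points of `U` -/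
def NegOn (U : Set X) (γ : X → Bil E) : Prop :=
  ∀ p, ∀ y ∈ (chartAt E p).target, (chartAt E p).symm y ∈ U →
    ∀ u v, ddg γ p y u (Complex.I • u) v (Complex.I • v) ≤ 0

/-- `dd^c (e^{-u} g) ≤ 0` near each point, for a smooth function `u` with `du = θ` near this point -/
def LocNeg (θ : X → E →L[ℝ] ℝ) (g : X → Bil E) : Prop :=
  ∀ x, ∃ (U : Set X) (u : X → ℝ), IsOpen U ∧ x ∈ U ∧ SmF E u ∧ (∀ x' ∈ U, dF E u x' = θ x') ∧
    NegOn U fun x' => Real.exp (-u x') • g x'

/-- `g` is locally conformally plurinegative: `dd^c (e^{-u} g) ≤ 0` near each point, for a closed real 1-form `θ` and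
local primitives `u` of `θ` -/
def LCN (g : X → Bil E) : Prop := ∃ θ : X → E →L[ℝ] ℝ, Closed1 θ ∧ LocNeg θ g

end HFC
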