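import Pool.Agent.HDG.RMd
import Pool.Agent.HDG.F4

/-!
# HDP/N1: the maximum of finitely many functions

If `c + dd^c f` is semi-positive for finitely many smooth functions `f`, then so is `c + dd^c` of their maximum in the sense
of distributions: regularised maxima, a cut-off function, and integration by parts.
-/

set_option autoImplicit false

noncomputable section

open scoped ContDiff Topology Manifold

open MeasureTheory

namespace HDG

open Pool.Agent.FBR

variable {H : Type*} [NormedAddCommGroup H] [NormedSpace ℂ H] [FiniteDimensional ℂ H] [MeasurableSpace H] [BorelSpace H]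
  (μ : Measure H) [μ.IsAddHaarMeasure]

/-! ### Integration by parts -/

private theorem N1_smd {Φ : H → ℝ} (hΦ : ContDiff ℝ ∞ Φ) (v : H) :
    ContDiff ℝ ∞ fun z => fderiv ℝ Φ z v :=
  (hΦ.fderiv_right (m := ∞) (by norm_num)).clm_apply contDiff_const

private theorem N1_d2 {Φ : H → ℝ} (hΦ : ContDiff ℝ ∞ Φ) (v z : H) :
    fderiv ℝ (fun z => fderiv ℝ Φ z v) z v = fderiv ℝ (fderiv ℝ Φ) z v v := by
  have h1 : DifferentiableAt ℝ (fderiv ℝ Φ) z :=
    ((hΦ.fderiv_right (m := ∞) (by norm_num)).differentiable (by norm_num)) z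
  rw [fderiv_clm_apply h1 (differentiableAt_const v)]
  simp

private theorem N1_ibp1 {Φ χ : H → ℝ} (hΦ : ContDiff ℝ ∞ Φ) (hχ : ContDiff ℝ ∞ χ)
    (hc : HasCompactSupport χ) (v : H) :
    ∫ z, Φ z * fderiv ℝ (fderiv ℝ χ) z v v ∂μ = ∫ z, χ z * fderiv ℝ (fderiv ℝ Φ) z v v ∂μ := by
  have hχ' := N1_smd hχ v
  have hΦ' := N1_smd hΦ v
  have hc' : HasCompactSupport fun z => fderiv ℝ χ z v := hc.fderiv_apply (𝕜 := ℝ) v
  have hc'' : HasCompactSupport fun z => fderiv ℝ (fun z => fderiv ℝ χ z v) z v :=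
    hc'.fderiv_apply (𝕜 := ℝ) v
  have c1 : Continuous fun z => fderiv ℝ (fun z => fderiv ℝ χ z v) z v := (N1_smd hχ' v).continuous
  have c2 : Continuous fun z => fderiv ℝ (fun z => fderiv ℝ Φ z v) z v := (N1_smd hΦ' v).continuous
  have e1 : ∫ z, Φ z * fderiv ℝ (fun z => fderiv ℝ χ z v) z v ∂μ =
      - ∫ z, fderiv ℝ Φ z v * fderiv ℝ χ z v ∂μ := by
    refine integral_mul_fderiv_eq_neg_fderiv_mul_of_integrable ?_ ?_ ?_ ?_ ?_
    · exact (hΦ'.continuous.mul hχ'.continuous).integrable_of_hasCompactSupport hc'.mul_left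
    · exact (hΦ.continuous.mul c1).integrable_of_hasCompactSupport hc''.mul_left
    · exact (hΦ.continuous.mul hχ'.continuous).integrable_of_hasCompactSupport hc'.mul_left
    · exact fun x _ => (hΦ.differentiable (by norm_num)) x
    · exact fun x _ => (hχ'.differentiable (by norm_num)) x
  have e2 : ∫ z, fderiv ℝ Φ z v * fderiv ℝ χ z v ∂μ =
      - ∫ z, fderiv ℝ (fun z => fderiv ℝ Φ z v) z v * χ z ∂μ := by
    refine integral_mul_fderiv_eq_neg_fderiv_mul_of_integrable ?_ ?_ ?_ ?_ ?_
    · exact (c2.mul hχ.continuous).integrable_of_hasCompactSupport hc.mul_left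
    · exact (hΦ'.continuous.mul hχ'.continuous).integrable_of_hasCompactSupport hc'.mul_left
    · exact (hΦ'.continuous.mul hχ.continuous).integrable_of_hasCompactSupport hc.mul_left
    · exact fun x _ => (hΦ'.differentiable (by norm_num)) x
    · exact fun x _ => (hχ.differentiable (by norm_num)) x
  rw [e2, neg_neg] at e1
  simp only [N1_d2 hχ, N1_d2 hΦ] at e1
  rw [e1]
  exact integral_congr_ae (Filter.Eventually.of_forall fun z => mul_comm _ _)

private theorem N1_ibp {Φ χ : H → ℝ} (hΦ : ContDiff ℝ ∞ Φ) (hχ : ContDiff ℝ ∞ χ)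
    (hc : HasCompactSupport χ) (ξ : H) :
    ∫ z, Φ z * ddc χ z ξ (Complex.I • ξ) ∂μ = ∫ z, χ z * ddc Φ z ξ (Complex.I • ξ) ∂μ := by
  have cc : ∀ (F : H → ℝ) (v : H), ContDiff ℝ ∞ F → Continuous fun z => fderiv ℝ (fderiv ℝ F) z v v := by
    intro F v hF
    have := (N1_smd (N1_smd hF v) v).continuous
    simp only [N1_d2 hF] at this
    exact this
  have cs : ∀ v : H, HasCompactSupport fun z => fderiv ℝ (fderiv ℝ χ) z v v := by
    intro v
    have h1 : HasCompactSupport fun z => fderiv ℝ χ z v := hc.fderiv_apply (𝕜 := ℝ) v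
    have := h1.fderiv_apply (𝕜 := ℝ) v
    simp only [N1_d2 hχ] at this
    exact this
  have i1 : ∀ v : H, Integrable (fun z => Φ z * fderiv ℝ (fderiv ℝ χ) z v v) μ := fun v =>
    (hΦ.continuous.mul (cc χ v hχ)).integrable_of_hasCompactSupport (cs v).mul_left
  have i2 : ∀ v : H, Integrable (fun z => χ z * fderiv ℝ (fderiv ℝ Φ) z v v) μ := fun v =>
    (hχ.continuous.mul (cc Φ v hΦ)).integrable_of_hasCompactSupport hc.mul_right
  have e1 : ∀ z, Φ z * ddc χ z ξ (Complex.I • ξ) = (1 / 2) * (Φ z * fderiv ℝ (fderiv ℝ χ) z ξ ξ +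
      Φ z * fderiv ℝ (fderiv ℝ χ) z (Complex.I • ξ) (Complex.I • ξ)) := by
    intro z
    rw [ddc_self]
    ring
  have e2 : ∀ z, χ z * ddc Φ z ξ (Complex.I • ξ) = (1 / 2) * (χ z * fderiv ℝ (fderiv ℝ Φ) z ξ ξ +
      χ z * fderiv ℝ (fderiv ℝ Φ) z (Complex.I • ξ) (Complex.I • ξ)) := by
    intro z
    rw [ddc_self]
    ring
  simp only [e1, e2]
  rw [integral_const_mul, integral_const_mul, integral_add (i1 _) (i1 _), integral_add (i2 _) (i2 _),
    N1_ibp1 μ hΦ hχ hc, N1_ibp1 μ hΦ hχ hc]

omit [FiniteDimensional ℂ H] [MeasurableSpace H] [BorelSpace H] in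
private theorem N1_off {χ : H → ℝ} {z : H} (hz : z ∉ tsupport χ) (ξ : H) :
    ddc χ z ξ (Complex.I • ξ) = 0 := by
  rw [notMem_tsupport_iff_eventuallyEq] at hz
  rw [ddc_congr hz, ddc_self]
  have h1 : fderiv ℝ (0 : H → ℝ) = 0 := by
    funext x
    exact fderiv_const_apply (0 : ℝ)
  have h2 : fderiv ℝ (fderiv ℝ (0 : H → ℝ)) z = 0 := by
    rw [h1]
    exact fderiv_const_apply (0 : H →L[ℝ] ℝ)
  rw [h2]
  simp

omit [FiniteDimensional ℂ H] [MeasurableSpace H] [BorelSpace H] in
private theorem N1_gc {χ : H → ℝ} (hχ : ContDiff ℝ ∞ χ) (ξ : H) :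
    Continuous fun z => ddc χ z ξ (Complex.I • ξ) := by
  have h1 : Continuous (ddc χ) :=
    continuous_iff_continuousAt.2 fun z => (ddc_smooth hχ.contDiffAt).continuousAt
  exact (h1.clm_apply continuous_const).clm_apply continuous_const

omit [FiniteDimensional ℂ H] [MeasurableSpace H] [BorelSpace H] in
private theorem N1_gs {χ : H → ℝ} (hc : HasCompactSupport χ) (ξ : H) :
    HasCompactSupport fun z => ddc χ z ξ (Complex.I • ξ) :=
  HasCompactSupport.intro hc fun _ hz => N1_off hz ξ

/-! ### Cut-off functions -/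

omit [MeasurableSpace H] [BorelSpace H] in
private theorem N1_cut {U K : Set H} (hU : IsOpen U) (hK : IsCompact K) (hKU : K ⊆ U) :
    ∃ η : H → ℝ, ContDiff ℝ ∞ η ∧ tsupport η ⊆ U ∧ ∀ z ∈ K, ∀ᶠ y in nhds z, η y = 1 := by
  have : ProperSpace H := FiniteDimensional.proper ℂ H
  obtain ⟨r, hr, h1⟩ := hK.exists_cthickening_subset_open hU hKU
  obtain ⟨f, hf0, hf1, hf2⟩ := exists_contMDiffMap_zero_one_of_isClosed 𝓘(ℝ, H) (n := ⊤) (M := H)
    (s := (Metric.thickening r K)ᶜ) (t := Metric.cthickening (r / 2) K)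
    Metric.isOpen_thickening.isClosed_compl Metric.isClosed_cthickening
    (Set.disjoint_left.2 fun y hy hyK => hy (Metric.cthickening_subset_thickening' hr (by linarith) K hyK))
  refine ⟨f, f.contMDiff.contDiff, ?_, fun z hz => ?_⟩
  · refine (closure_minimal ?_ Metric.isClosed_cthickening).trans h1
    intro y hy
    by_contra hyC
    exact hy (hf0 fun h => hyC (Metric.thickening_subset_cthickening r K h))
  · have h2 : Metric.thickening (r / 2) K ∈ nhds z :=
      Metric.isOpen_thickening.mem_nhds (Metric.self_subset_thickening (by linarith) K hz)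
    filter_upwards [h2] with y hy
    exact hf1 (Metric.thickening_subset_cthickening _ K hy)

omit [FiniteDimensional ℂ H] [MeasurableSpace H] [BorelSpace H] in
private theorem N1_mulsmooth {U : Set H} {η F : H → ℝ} (hη : ContDiff ℝ ∞ η) (hs : tsupport η ⊆ U)
    (hF : ∀ z ∈ U, ContDiffAt ℝ ∞ F z) : ContDiff ℝ ∞ fun z => η z * F z := by
  rw [contDiff_iff_contDiffAt]
  intro z
  by_cases hz : z ∈ tsupport η
  · exact hη.contDiffAt.mul (hF z (hs hz))
  · rw [notMem_tsupport_iff_eventuallyEq] at hz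
    have h1 : (fun z => η z * F z) =ᶠ[nhds z] fun _ => 0 := by
      filter_upwards [hz] with y hy
      rw [hy]
      exact zero_mul _
    exact contDiffAt_const.congr_of_eventuallyEq h1

omit [NormedSpace ℂ H] [FiniteDimensional ℂ H] in
private theorem N1_int [ProperSpace H] [IsFiniteMeasureOnCompacts μ] {U : Set H} (hU : IsOpen U)
    {g k : H → ℝ} (hg : ContinuousOn g U) (hk : Continuous k) {K : Set H} (hK : IsCompact K)
    (hKU : K ⊆ U) (h0 : ∀ z ∉ K, k z = 0) : Integrable (fun z => k z * g z) μ := by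
  have hcs : HasCompactSupport fun z => k z * g z :=
    HasCompactSupport.intro hK fun z hz => by rw [h0 z hz, zero_mul]
  refine Continuous.integrable_of_hasCompactSupport ?_ hcs
  rw [continuous_iff_continuousAt]
  intro z
  by_cases hz : z ∈ U
  · exact hk.continuousAt.mul (hg.continuousAt (hU.mem_nhds hz))
  · have h1 : (fun z => k z * g z) =ᶠ[nhds z] fun _ => 0 := by
      have h2 : Kᶜ ∈ nhds z := hK.isClosed.isOpen_compl.mem_nhds fun h => hz (hKU h)
      filter_upwards [h2] with y hy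
      rw [h0 y hy, zero_mul]
    exact continuousAt_const.congr h1.symm

theorem max_ineq {U : Set H} (hU : IsOpen U) {f : ℕ → H → ℝ} {s : Finset ℕ} (hs : s.Nonempty)
    (hf : ∀ k ∈ s, ContDiffOn ℝ ∞ (f k) U) {c : H → Bil H} (hc : ContinuousOn c U)
    (h : ∀ k ∈ s, ∀ z ∈ U, Nn (c z + ddc (f k) z)) {χ : H → ℝ} (hχ : ContDiff ℝ ∞ χ) (hcs : HasCompactSupport χ)
    (hsp : tsupport χ ⊆ U) (h0 : ∀ z, 0 ≤ χ z) (v : H) :
    0 ≤ ∫ z, χ z * c z v (Complex.I • v) ∂μ + ∫ z, (s.sup' hs fun k => f k z) * ddc χ z v (Complex.I • v) ∂μ := by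
  have : ProperSpace H := FiniteDimensional.proper ℂ H
  obtain ⟨k0, hk0⟩ := hs
  have hs : s.Nonempty := ⟨k0, hk0⟩
  obtain ⟨η, hη, hηU, hη1⟩ := N1_cut hU hcs hsp
  have hfA : ∀ k ∈ s, ∀ z ∈ U, ContDiffAt ℝ ∞ (f k) z := fun k hk z hz =>
    (hf k hk).contDiffAt (hU.mem_nhds hz)
  -- continuity of the maximum
  have hM : ContinuousOn (fun z => s.sup' hs fun k => f k z) U :=
    ContinuousOn.finset_sup'_apply hs fun k hk => (hf k hk).continuousOn
  have hcv : ContinuousOn (fun z => c z v (Complex.I • v)) U :=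
    (hc.clm_apply continuousOn_const).clm_apply continuousOn_const
  have hdc := N1_gc hχ v
  have iA : Integrable (fun z => χ z * c z v (Complex.I • v)) μ :=
    N1_int μ hU hcv hχ.continuous hcs hsp fun z hz => image_eq_zero_of_notMem_tsupport hz
  have iM : Integrable (fun z => (s.sup' hs fun k => f k z) * ddc χ z v (Complex.I • v)) μ := by
    have h1 := N1_int μ hU hM hdc hcs hsp fun z hz => N1_off hz v
    refine h1.congr (Filter.Eventually.of_forall fun z => ?_)
    exact mul_comm _ _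
  have iC : Integrable (fun z => |ddc χ z v (Complex.I • v)|) μ :=
    (hdc.integrable_of_hasCompactSupport (N1_gs hcs v)).abs
  -- the inequality for the regularised maximum
  have key : ∀ δ : ℝ, 0 < δ → 0 ≤ ∫ z, χ z * c z v (Complex.I • v) ∂μ +
      ∫ z, (s.sup' hs fun k => f k z) * ddc χ z v (Complex.I • v) ∂μ +
      s.toList.length * δ * ∫ z, |ddc χ z v (Complex.I • v)| ∂μ := by
    intro δ hδ
    obtain ⟨F, hF⟩ : ∃ F : H → ℝ, F = fun z => rml δ (f k0 z) (s.toList.map fun k => f k z) := ⟨_, rfl⟩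
    have hFs : ∀ z ∈ U, ContDiffAt ℝ ∞ F z := by
      intro z hz
      rw [hF]
      exact rml_cd s.toList (hfA k0 hk0 z hz) fun k hk => hfA k (Finset.mem_toList.1 hk) z hz
    have hFn : ∀ z ∈ U, Nn (c z + ddc F z) := by
      intro z hz
      rw [hF]
      exact nn_rml hδ s.toList (hfA k0 hk0 z hz) (fun k hk => hfA k (Finset.mem_toList.1 hk) z hz)
        (h k0 hk0 z hz) fun k hk => h k (Finset.mem_toList.1 hk) z hz
    have hF1 : ∀ z, (s.sup' hs fun k => f k z) ≤ F z := by
      intro z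
      rw [hF]
      refine Finset.sup'_le hs _ fun k hk => ?_
      exact le_rml hδ _ (List.mem_map.2 ⟨k, Finset.mem_toList.2 hk, rfl⟩)
    have hF2 : ∀ z, F z ≤ (s.sup' hs fun k => f k z) + s.toList.length * δ := by
      intro z
      rw [hF]
      have h1 := rml_le (l := s.toList.map fun k => f k z) hδ
        (Finset.le_sup' (fun k => f k z) hk0) (fun b hb => by
          obtain ⟨k, hk, rfl⟩ := List.mem_map.1 hb
          exact Finset.le_sup' (fun k => f k z) (Finset.mem_toList.1 hk))
      rw [List.length_map] at h1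
      exact h1
    have hG := N1_mulsmooth hη hηU hFs
    have hGe : ∀ z ∈ tsupport χ, (fun z => η z * F z) =ᶠ[nhds z] F := by
      intro z hz
      filter_upwards [hη1 z hz] with y hy
      rw [hy, one_mul]
    have e1 := N1_ibp μ hG hχ hcs v
    have iG : Integrable (fun z => χ z * ddc (fun z => η z * F z) z v (Complex.I • v)) μ :=
      (hχ.continuous.mul (N1_gc hG v)).integrable_of_hasCompactSupport hcs.mul_right
    have iGM : Integrable (fun z => (η z * F z) * ddc χ z v (Complex.I • v)) μ :=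
      (hG.continuous.mul hdc).integrable_of_hasCompactSupport (N1_gs hcs v).mul_left
    have h1 : 0 ≤ ∫ z, χ z * c z v (Complex.I • v) ∂μ +
        ∫ z, χ z * ddc (fun z => η z * F z) z v (Complex.I • v) ∂μ := by
      rw [← integral_add iA iG]
      refine integral_nonneg fun z => ?_
      show 0 ≤ χ z * c z v (Complex.I • v) + χ z * ddc (fun z => η z * F z) z v (Complex.I • v)
      by_cases hz : z ∈ tsupport χ
      · rw [ddc_congr (hGe z hz), ← mul_add]
        exact mul_nonneg (h0 z) (hFn z (hsp hz) v)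
      · rw [image_eq_zero_of_notMem_tsupport hz, zero_mul, zero_mul, add_zero]
    have h2 : ∫ z, (η z * F z) * ddc χ z v (Complex.I • v) ∂μ ≤
        ∫ z, (s.sup' hs fun k => f k z) * ddc χ z v (Complex.I • v) ∂μ +
          s.toList.length * δ * ∫ z, |ddc χ z v (Complex.I • v)| ∂μ := by
      rw [← integral_const_mul, ← integral_add iM (iC.const_mul _)]
      refine integral_mono iGM (iM.add (iC.const_mul _)) fun z => ?_
      show (η z * F z) * ddc χ z v (Complex.I • v) ≤
        (s.sup' hs fun k => f k z) * ddc χ z v (Complex.I • v) +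
          s.toList.length * δ * |ddc χ z v (Complex.I • v)|
      by_cases hz : z ∈ tsupport χ
      · rw [(hη1 z hz).self_of_nhds, one_mul]
        have h3 : (F z - s.sup' hs fun k => f k z) * ddc χ z v (Complex.I • v) ≤
            s.toList.length * δ * |ddc χ z v (Complex.I • v)| := by
          have h4 : 0 ≤ F z - s.sup' hs fun k => f k z := sub_nonneg.2 (hF1 z)
          have h5 : (F z - s.sup' hs fun k => f k z) ≤ s.toList.length * δ := by
            linarith [hF2 z]
          calc (F z - s.sup' hs fun k => f k z) * ddc χ z v (Complex.I • v) ≤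
              (F z - s.sup' hs fun k => f k z) * |ddc χ z v (Complex.I • v)| :=
                mul_le_mul_of_nonneg_left (le_abs_self _) h4
            _ ≤ s.toList.length * δ * |ddc χ z v (Complex.I • v)| :=
                mul_le_mul_of_nonneg_right h5 (abs_nonneg _)
        linarith
      · rw [N1_off hz v, mul_zero, mul_zero, abs_zero, mul_zero, add_zero]
    rw [e1] at h2
    linarith
  by_contra hlt
  rw [not_le] at hlt
  obtain ⟨S, hS⟩ : ∃ S : ℝ, S = ∫ z, χ z * c z v (Complex.I • v) ∂μ +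
      ∫ z, (s.sup' hs fun k => f k z) * ddc χ z v (Complex.I • v) ∂μ := ⟨_, rfl⟩
  obtain ⟨C, hC⟩ : ∃ C : ℝ, C = ∫ z, |ddc χ z v (Complex.I • v)| ∂μ := ⟨_, rfl⟩
  rw [← hS] at hlt
  have hC0 : 0 ≤ C := by
    rw [hC]
    exact integral_nonneg fun z => abs_nonneg _
  have hN : (0 : ℝ) ≤ s.toList.length := Nat.cast_nonneg _
  have hNC : 0 ≤ s.toList.length * C := mul_nonneg hN hC0
  have h1 := key (-S / (s.toList.length * C + 1)) (div_pos (neg_pos.2 hlt) (by linarith))
  rw [← hS, ← hC] at h1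
  have h2 : s.toList.length * (-S / (s.toList.length * C + 1)) * C =
      -S * ((s.toList.length * C) / (s.toList.length * C + 1)) := by ring
  rw [h2] at h1
  have h3 : (s.toList.length * C) / (s.toList.length * C + 1) < 1 := by
    rw [div_lt_one (by linarith)]
    linarith
  nlinarith

end HDG
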