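import Pool.Agent.HDP.QDefs
import Pool.Agent.HDW.WDefs

/-!
# HDP: definitions for Kähler currents

`M` is a compact connected complex manifold (`CM`), modelled on `E = M.E`; the tangent space at `x` is `E` by means of the
chart `chartAt E x`. `inCh f x` is the function `f` in the chart at `x`, `cB g p u v y` is the coefficient `g (u, v)` of the
2-form `g` at the point `y` of the chart at `p`, `d2 h y v` is the second derivative of `h` at `y` in the directions `v, v`.
-/

set_option autoImplicit false

noncomputable section

open scoped Manifold ContDiff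

open MeasureTheory

namespace HFC

open Pool.Agent.FBR

universe u

variable {E X : Type u} [NormedAddCommGroup E] [NormedSpace ℂ E] [TopologicalSpace X] [ChartedSpace E X]

/-- `χ` is a test function on `U`: smooth, `≥ 0`, with compact support in `U` -/
structure Test (U : Set E) (χ : E → ℝ) : Prop where
  smooth : ContDiff ℝ ∞ χ
  comp : HasCompactSupport χ
  supp : tsupport χ ⊆ U
  nonneg : ∀ y, 0 ≤ χ y

/-- `dd^c h (v, iv) = (D²h(v, v) + D²h(iv, iv)) / 2` at the point `y`, for a function `h` on `E` -/
def lv (h : E → ℝ) (v y : E) : ℝ := (d2 h y v + d2 h y (Complex.I • v)) / 2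

/-- `β + dd^c φ ≥ δ g` in the sense of currents: in each chart `φ` is locally integrable and
`∫ χ (δ g - β)(v, iv) ≤ ∫ φ dd^c χ (v, iv)` for all test functions `χ` and all vectors `v` -/
def KCur (b : Form E X) (g : X → Bil E) (δ : ℝ) (φ : X → ℝ) : Prop :=
  ∀ [MeasurableSpace E] [BorelSpace E] (μ : Measure E) [μ.IsAddHaarMeasure] (p : X),
    LocallyIntegrableOn (inCh φ p) (chartAt E p).target μ ∧
    ∀ (χ : E → ℝ) (v : E), Test (chartAt E p).target χ →
      ∫ y, χ y * (δ * cB g p v (Complex.I • v) y - cB b.val p v (Complex.I • v) y) ∂μ ≤ ∫ y, inCh φ p y * lv χ v y ∂μ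

end HFC
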