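import Pool.Agent.HDP.P15
import Pool.Agent.HDP.ND
import Pool.Agent.HDW.W16

/-!
# HDP/N2: the integral of `|f|` near a point of a chart

A family of parametrized balls with one ball around the given point (`exists_aff`), the Harnack inequality for the integral of
`|f|` over the manifold (`N2_har`), its integrals over the balls (`N2_box`) and an affine change of variables.
-/

set_option autoImplicit false

noncomputable section

open scoped Manifold ContDiff Topology

open MeasureTheory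

namespace HDG

open Pool.Agent.FBR

section

variable {H : Type*} [NormedAddCommGroup H] [NormedSpace ℂ H] {n : ℕ} {e : Module.Basis (Fin n) ℂ H}
  [FiniteDimensional ℂ H] [MeasurableSpace H] [BorelSpace H] {μ : Measure H} [μ.IsAddHaarMeasure]
  {Y : Type*} [TopologicalSpace Y] [CompactSpace Y] [T2Space Y] [MeasurableSpace Y] [BorelSpace Y]
  (B : BM e Y) {w b : B.I → H → Bil H} {ν : Measure Y}

namespace BM

/-- integrals over the ball of radius `2` -/
private theorem N2_box (hw : B.Met w) (hν : B.IsVol μ w ν) : ∃ K : ℝ, 0 ≤ K ∧ ∀ f : Y → ℝ, B.Sm f →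
    ∀ i, ∫ z in qb e 2, |f (B.ψ i z)| ∂μ ≤ K * ∫ y, |f y| ∂ν := by
  obtain ⟨c, hc0, hc⟩ := B.Met_ge hw (r := 2) (by norm_num) (by norm_num)
  have h24 : (qb e 2 : Set H) ⊆ qb e 4 := qb_mono (by norm_num) (by norm_num)
  have hdt : ∀ i, ∀ z ∈ (qb e 2 : Set H), c ^ n ≤ dt e (w i z) := by
    intro i z hz
    have h1 : dt e (c • (w0 e : Bil H)) ≤ dt e (w i z) := by
      refine dt_mono e (O11_smul c (w0_O11 e)) (hw.t.oo i z (h24 hz)) ?_
        (hc i z (show qf e z < 2 ^ 2 from hz).le)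
      intro v
      have h2 : (c • (w0 e : Bil H)) v (Complex.I • v) = c * w0 e v (Complex.I • v) := rfl
      rw [h2, w0_self]
      exact mul_nonneg hc0.le (qf_nonneg e v)
    rwa [dt_zero_smul, dt_w0, mul_one] at h1
  refine ⟨(c ^ n)⁻¹, by positivity, ?_⟩
  intro f hf i
  have hfin := hν.fin
  have hV : MeasurableSet (B.ψ i '' qb e 2) := (B.opn i _ h24 (isOpen_qb e 2)).measurableSet
  have hq : MeasurableSet (qb e 2 : Set H) := (isOpen_qb e 2).measurableSet
  have hq4 : MeasurableSet (qb e 4 : Set H) := (isOpen_qb e 4).measurableSet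
  have hint : Integrable (fun x => |f x|) ν :=
    (B.Sm_cont hf).abs.integrable_of_hasCompactSupport (HasCompactSupport.of_compactSpace _)
  have h1 : ∫ y, (B.ψ i '' qb e 2).indicator (fun x => |f x|) y ∂ν ≤ ∫ y, |f y| ∂ν := by
    refine integral_mono (hint.indicator hV) hint fun y => ?_
    exact Set.indicator_le_self' (fun _ _ => abs_nonneg _) y
  have h2 : ∫ y, (B.ψ i '' qb e 2).indicator (fun x => |f x|) y ∂ν =
      ∫ z in qb e 2, |f (B.ψ i z)| * dt e (w i z) ∂μ := by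
    rw [B.box_int hw hν i (((B.Sm_cont hf).abs.measurable).indicator hV)]
    · have h3 : ∫ z in qb e 4, (B.ψ i '' qb e 2).indicator (fun x => |f x|) (B.ψ i z) * dt e (w i z) ∂μ =
          ∫ z in qb e 4, (qb e 2 : Set H).indicator (fun z => |f (B.ψ i z)| * dt e (w i z)) z ∂μ := by
        refine setIntegral_congr_fun hq4 fun z hz => ?_
        show (B.ψ i '' qb e 2).indicator (fun x => |f x|) (B.ψ i z) * dt e (w i z) =
          (qb e 2 : Set H).indicator (fun z => |f (B.ψ i z)| * dt e (w i z)) z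
        by_cases hz1 : z ∈ (qb e 2 : Set H)
        · have h3 : B.ψ i z ∈ B.ψ i '' qb e 2 := ⟨z, hz1, rfl⟩
          rw [Set.indicator_of_mem h3, Set.indicator_of_mem hz1]
        · have h3 : B.ψ i z ∉ B.ψ i '' qb e 2 := by
            rintro ⟨z', hz', he⟩
            rw [B.inj i (h24 hz') hz he] at hz'
            exact hz1 hz'
          rw [Set.indicator_of_notMem h3, Set.indicator_of_notMem hz1, zero_mul]
      rw [h3, setIntegral_indicator hq, Set.inter_eq_self_of_subset_right h24]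
    · intro x hx
      refine Set.indicator_of_notMem ?_ _
      rintro ⟨z, hz, he⟩
      exact hx z (h24 hz) he
  obtain ⟨φ, hφ, hφf, -⟩ := B.loc_fun hf i
  have hφ2 : ∀ z ∈ (qb e 2 : Set H), φ z = f (B.ψ i z) := fun z hz => hφf z (by
    have h5 : qf e z < 2 ^ 2 := hz
    linarith)
  have hI : IntegrableOn (fun z => |φ z|) (qb e 2) μ := by
    have hcn : ContinuousOn (fun z => |φ z|) {z : H | qf e z ≤ 2 ^ 2} := hφ.continuous.abs.continuousOn
    refine (hcn.integrableOn_compact (isCompact_qb e 2)).mono_set fun z hz => ?_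
    exact (show qf e z < 2 ^ 2 from hz).le
  have hI2 : IntegrableOn (fun z => |f (B.ψ i z)|) (qb e 2) μ :=
    hI.congr_fun (fun z hz => by
      show |φ z| = |f (B.ψ i z)|
      rw [hφ2 z hz]) hq
  obtain ⟨C', hC', hM'⟩ : ∃ C' : ℝ, 0 ≤ C' ∧ ∀ z ∈ (qb e 2 : Set H), dt e (w i z) ≤ C' := by
    obtain ⟨D, hD0, hD⟩ := B.Met_le hw (r := 2) (by norm_num) (by norm_num)
    refine ⟨D ^ n, by positivity, fun z hz => ?_⟩
    have hz4 := h24 hz
    have h1 : dt e (w i z) ≤ dt e (D • (w0 e : Bil H)) := by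
      refine dt_mono e (hw.t.oo i z hz4) (O11_smul D (w0_O11 e)) ?_
        (hD i z (show qf e z < 2 ^ 2 from hz).le)
      intro v
      by_cases hv : v = 0
      · rw [hv, smul_zero, map_zero]
      · exact (hw.pos _ _ hz4 v hv).le
    rwa [dt_zero_smul, dt_w0, mul_one] at h1
  have hI3 : IntegrableOn (fun z => |f (B.ψ i z)| * dt e (w i z)) (qb e 2) μ := by
    refine (hI2.const_mul C').mono' ?_ ?_
    · refine hI2.aestronglyMeasurable.mul ?_
      exact (((dt_smooth e).continuous.comp_continuousOn ((hw.t.sm i).continuousOn.mono h24)).aestronglyMeasurable hq)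
    · refine ae_restrict_of_forall_mem hq fun z hz => ?_
      show ‖|f (B.ψ i z)| * dt e (w i z)‖ ≤ C' * |f (B.ψ i z)|
      rw [Real.norm_eq_abs, abs_mul, abs_abs, abs_of_pos (B.dt_w_pos hw (h24 hz)), mul_comm]
      exact mul_le_mul_of_nonneg_right (hM' z hz) (abs_nonneg _)
  have h4 : c ^ n * ∫ z in qb e 2, |f (B.ψ i z)| ∂μ ≤ ∫ z in qb e 2, |f (B.ψ i z)| * dt e (w i z) ∂μ := by
    rw [← integral_const_mul]
    refine setIntegral_mono_on (hI2.const_mul _) hI3 hq fun z hz => ?_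
    rw [mul_comm]
    exact mul_le_mul_of_nonneg_left (hdt i z hz) (abs_nonneg _)
  have hcn : 0 < c ^ n := by positivity
  rw [inv_mul_eq_div, le_div_iff₀ hcn, mul_comm]
  linarith

/-- the Harnack inequality for `F - max F` -/
private theorem N2_har [ConnectedSpace Y] (hw : B.Met w) (hν : B.IsVol μ w ν) (hb : B.IsT b) (E0 : ℝ)
    (hE : 0 ≤ E0) : ∃ C : ℝ, 0 ≤ C ∧ ∀ (F : Y → ℝ) (ε : ℝ), B.Sm F → 0 ≤ ε → ε ≤ E0 →
      B.NnT (b + B.dd F + ε • w) → (∀ y, F y ≤ 0) → (∃ y, F y = 0) → ∫ y, |F y| ∂ν ≤ C := by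
  obtain ⟨C1, hC1, hd⟩ := B.NnT_dom (B.IsT_smul hb (-1)) hw
  obtain ⟨C2, hC2, hh⟩ := B.harnack hw hν
  set L : ℝ := C1 + E0 + 1 with hL
  have hL0 : 0 < L := by positivity
  refine ⟨L * C2, by positivity, ?_⟩
  intro F ε hF hε hεE hn hF0 hF1
  have hs : B.Sm fun y => L⁻¹ * F y := B.Sm_mul (B.Sm_const _) hF
  have h1 : B.NnT (B.dd (fun y => L⁻¹ * F y) + w) := by
    intro i z hz v
    have hdd : B.dd (fun y => L⁻¹ * F y) i z = L⁻¹ • B.dd F i z := B.dd_smul hF _ hz
    have h2 : 0 ≤ b i z v (Complex.I • v) + B.dd F i z v (Complex.I • v) + ε * w i z v (Complex.I • v) := hn i z hz v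
    have h3 : 0 ≤ C1 * w i z v (Complex.I • v) + (-1) * b i z v (Complex.I • v) := hd i z hz v
    have h4 : 0 ≤ w i z v (Complex.I • v) := by
      by_cases hv : v = 0
      · rw [hv, smul_zero, map_zero]
      · exact (hw.pos _ _ hz v hv).le
    show 0 ≤ B.dd (fun y => L⁻¹ * F y) i z v (Complex.I • v) + w i z v (Complex.I • v)
    rw [hdd]
    show 0 ≤ L⁻¹ * B.dd F i z v (Complex.I • v) + w i z v (Complex.I • v)
    have h5 : ε * w i z v (Complex.I • v) ≤ E0 * w i z v (Complex.I • v) := mul_le_mul_of_nonneg_right hεE h4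
    have h6 : 0 ≤ B.dd F i z v (Complex.I • v) + L * w i z v (Complex.I • v) := by
      rw [hL]
      nlinarith
    have h7 : L⁻¹ * B.dd F i z v (Complex.I • v) + w i z v (Complex.I • v) =
        L⁻¹ * (B.dd F i z v (Complex.I • v) + L * w i z v (Complex.I • v)) := by
      field_simp
    rw [h7]
    exact mul_nonneg (inv_nonneg.2 hL0.le) h6
  obtain ⟨y0, hy0⟩ := hF1
  have h2 := hh (fun y => L⁻¹ * F y) hs h1 (fun y => mul_nonpos_of_nonneg_of_nonpos (inv_nonneg.2 hL0.le) (hF0 y))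
    ⟨y0, by rw [hy0, mul_zero]; norm_num⟩
  have h3 : ∀ y, |L⁻¹ * F y| = L⁻¹ * |F y| := fun y => by
    rw [abs_mul, abs_of_nonneg (inv_nonneg.2 hL0.le)]
  simp only [h3] at h2
  rw [integral_const_mul, inv_mul_eq_div, div_le_iff₀ hL0] at h2
  linarith

end BM

end

end HDG

namespace HFC

open Pool.Agent.FBR

universe u

private theorem N2_smooth {E X : Type u} [NormedAddCommGroup E] [NormedSpace ℂ E] [FiniteDimensional ℂ E]
    [TopologicalSpace X] [ChartedSpace E X] {g : X → Bil E} (hg : Herm g) (p : X) :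
    ContDiffOn ℝ ∞ (coef g p) (chartAt E p).target := by
  have : FiniteDimensional ℝ E := FiniteDimensional.complexToReal E
  exact contDiffOn_clm_apply.2 fun u => contDiffOn_clm_apply.2 fun v => hg.smooth p u v

private theorem N2_pt {E X : Type u} [NormedAddCommGroup E] [NormedSpace ℂ E] [FiniteDimensional ℂ E]
    [TopologicalSpace X] [ChartedSpace E X] {n : ℕ} {e : Module.Basis (Fin n) ℂ E} {B : HDG.BM e X} (hB : HDG.Fit B)
    {f : X → ℝ} (hf : SmF E f) {b : Form E X} {g : X → Bil E} (h : Above b g f fun _ => -1) {i : B.I} {z : E}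
    (hz : z ∈ HDG.qb e 4) :
    HDG.Nn (((fun i => tpb b.val (B.ψ i)) + B.dd f + (1 : ℝ) • fun i => tpb g (B.ψ i)) i z) := by
  intro u
  have h1 := h (B.ψ i z) (dvec E (B.ψ i) z u)
  obtain ⟨h2, h3⟩ := lev_comp hf (hB.hol i z hz) u
  have h4 : ∀ a : X → Bil E, tpb a (B.ψ i) z u (Complex.I • u) =
      ev (a (B.ψ i z)) (dvec E (B.ψ i) z u) (Complex.I • dvec E (B.ψ i) z u) := fun a => by
    rw [tpb_apply, h3]
    rfl
  have h5 : ((fun i => tpb b.val (B.ψ i)) + B.dd f + (1 : ℝ) • fun i => tpb g (B.ψ i)) i z u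
      (Complex.I • u) = tpb b.val (B.ψ i) z u (Complex.I • u) + ddc (fun z => f (B.ψ i z)) z u (Complex.I • u) +
        1 * tpb g (B.ψ i) z u (Complex.I • u) := rfl
  rw [h5, h4, h4, h2]
  linarith

open scoped Pointwise in
/-- the affine change of variables -/
private theorem N2_cv {E : Type u} [NormedAddCommGroup E] [NormedSpace ℝ E] [FiniteDimensional ℝ E] [MeasurableSpace E]
    [BorelSpace E] (μ : Measure E) [μ.IsAddHaarMeasure] (F : E → ℝ) (y0 : E) {r ρ : ℝ} (hr : 0 < r) :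
    ∫ y in Metric.ball y0 (r * ρ), F y ∂μ =
      r ^ Module.finrank ℝ E * ∫ z in Metric.ball 0 ρ, F (y0 + r • z) ∂μ := by
  have h1 := Measure.setIntegral_comp_smul_of_pos μ (fun x => F (y0 + x)) (Metric.ball 0 ρ) hr
  have h2 : r • Metric.ball (0 : E) ρ = Metric.ball 0 (r * ρ) := by
    rw [smul_ball hr.ne', smul_zero, Real.norm_of_nonneg hr.le]
  have h3 : ∫ x in Metric.ball 0 (r * ρ), F (y0 + x) ∂μ = ∫ y in Metric.ball y0 (r * ρ), F y ∂μ := by
    have h4 := (measurePreserving_add_left μ y0).setIntegral_preimage_emb (measurableEmbedding_addLeft y0) F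
      (Metric.ball y0 (r * ρ))
    have h5 : (fun x => y0 + x) ⁻¹' Metric.ball y0 (r * ρ) = Metric.ball 0 (r * ρ) := by
      ext x
      rw [Set.mem_preimage, Metric.mem_ball, Metric.mem_ball, dist_eq_norm, dist_eq_norm, add_sub_cancel_left, sub_zero]
    rw [h5] at h4
    exact h4
  rw [h2, h3] at h1
  rw [h1, smul_eq_mul, ← mul_assoc, mul_inv_cancel₀ (pow_pos hr _).ne', one_mul]

theorem l1_chart (M : CM.{u}) (b : Form M.E M.X) (g : M.X → Bil M.E) (hg : Herm g) [MeasurableSpace M.E] [BorelSpace M.E]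
    (μ : Measure M.E) [μ.IsAddHaarMeasure] (p : M.X) {y0 : M.E} (hy0 : y0 ∈ (chartAt M.E p).target) :
    ∃ r : ℝ, 0 < r ∧ Metric.ball y0 r ⊆ (chartAt M.E p).target ∧ ∃ C : ℝ, ∀ f : M.X → ℝ, SmF M.E f → (∀ x, f x ≤ 0) →
      (∃ x, f x = 0) → (Above b g f fun _ => -1) →
      IntegrableOn (inCh f p) (Metric.ball y0 r) μ ∧ ∫ y in Metric.ball y0 r, |inCh f p y| ∂μ ≤ C := by
  let _ : MeasurableSpace M.X := borel M.X
  have : BorelSpace M.X := ⟨rfl⟩
  have : FiniteDimensional ℝ M.E := FiniteDimensional.complexToReal M.E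
  have : ProperSpace M.E := FiniteDimensional.proper ℂ M.E
  obtain ⟨e, he⟩ : ∃ e, e = Module.finBasis ℂ M.E := ⟨_, rfl⟩
  obtain ⟨B, hB, -, i, r, hr, hi⟩ := HDG.exists_aff (X := M.X) e p hy0
  have hw := hB.met (a := g) hg.alt hg.j (N2_smooth hg) hg.pos
  have hb1 := hB.isT b.alt b.j b.smooth
  obtain ⟨ν, hν⟩ := HDG.BM.exists_vol μ B hw
  obtain ⟨K, hK, hbox⟩ := B.N2_box hw hν
  obtain ⟨C, hC, hhar⟩ := B.N2_har hw hν hb1 1 zero_le_one
  have h24 : (HDG.qb e 2 : Set M.E) ⊆ HDG.qb e 4 := HDG.BM.qb_mono (by norm_num) (by norm_num)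
  have h02 : (0 : M.E) ∈ (HDG.qb e 2 : Set M.E) := by
    have h1 : HDG.qf e (0 : M.E) < 2 ^ 2 := by
      unfold HDG.qf
      simp
    exact h1
  obtain ⟨ρ, hρ, hρ2⟩ := Metric.isOpen_iff.1 (HDG.isOpen_qb e 2) _ h02
  have hρ' : Metric.closedBall (0 : M.E) (ρ / 2) ⊆ HDG.qb e 2 :=
    (Metric.closedBall_subset_ball (by linarith)).trans hρ2
  have hcs : ∀ z : M.E, (r : ℂ) • z = r • z := fun z => Complex.coe_smul r z
  have hcb : Metric.closedBall y0 (r * (ρ / 2)) ⊆ (chartAt M.E p).target := by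
    intro y hy
    obtain ⟨z, hz⟩ : ∃ z : M.E, z = r⁻¹ • (y - y0) := ⟨_, rfl⟩
    have hzy : y0 + (r : ℂ) • z = y := by
      rw [hcs, hz, smul_smul, mul_inv_cancel₀ hr.ne', one_smul]
      abel
    have hz1 : z ∈ Metric.closedBall (0 : M.E) (ρ / 2) := by
      rw [Metric.mem_closedBall, dist_eq_norm] at hy
      rw [Metric.mem_closedBall, dist_eq_norm, sub_zero, hz, norm_smul, norm_inv, Real.norm_of_nonneg hr.le,
        inv_mul_le_iff₀ hr]
      exact hy
    have h1 := (hi z (h24 (hρ' hz1))).1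
    rwa [hzy] at h1
  refine ⟨r * (ρ / 2), by positivity, Metric.ball_subset_closedBall.trans hcb,
    r ^ Module.finrank ℝ M.E * (K * C), ?_⟩
  intro f hf hf0 hf1 hab
  have hs : B.Sm f := (hB.sm f).1 hf
  have hI1 : ContinuousOn (inCh f p) (chartAt M.E p).target :=
    (B.Sm_cont hs).comp_continuousOn (chartAt M.E p).continuousOn_symm
  have hI2 : IntegrableOn (inCh f p) (Metric.closedBall y0 (r * (ρ / 2))) μ :=
    (hI1.mono hcb).integrableOn_compact (isCompact_closedBall _ _)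
  refine ⟨hI2.mono_set Metric.ball_subset_closedBall, ?_⟩
  have h1 : ∫ y, |f y| ∂ν ≤ C := hhar f 1 hs zero_le_one le_rfl
    (fun i z hz => N2_pt hB hf hab hz) hf0 hf1
  have h2 : ∫ z in HDG.qb e 2, |f (B.ψ i z)| ∂μ ≤ K * C :=
    (hbox f hs i).trans (mul_le_mul_of_nonneg_left h1 hK)
  have h3 : ∫ y in Metric.ball y0 (r * (ρ / 2)), |inCh f p y| ∂μ =
      r ^ Module.finrank ℝ M.E * ∫ z in Metric.ball 0 (ρ / 2), |inCh f p (y0 + r • z)| ∂μ :=
    N2_cv μ (fun y => |inCh f p y|) y0 hr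
  have hsub : Metric.ball (0 : M.E) (ρ / 2) ⊆ HDG.qb e 2 := Metric.ball_subset_closedBall.trans hρ'
  have h4 : ∫ z in Metric.ball 0 (ρ / 2), |inCh f p (y0 + r • z)| ∂μ =
      ∫ z in Metric.ball 0 (ρ / 2), |f (B.ψ i z)| ∂μ := by
    refine setIntegral_congr_fun measurableSet_ball fun z hz => ?_
    show |inCh f p (y0 + r • z)| = |f (B.ψ i z)|
    rw [(hi z (h24 (hsub hz))).2, hcs]
    rfl
  have hI3 : IntegrableOn (fun z => |f (B.ψ i z)|) (HDG.qb e 2) μ := by
    have hcp := HDG.isCompact_qb e 2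
    have hc4 : {z : M.E | HDG.qf e z ≤ 2 ^ 2} ⊆ HDG.qb e 4 := by
      intro z hz
      have h5 : HDG.qf e z ≤ 2 ^ 2 := hz
      show HDG.qf e z < 4 ^ 2
      linarith
    have h5 : ContinuousOn (fun z => |f (B.ψ i z)|) {z : M.E | HDG.qf e z ≤ 2 ^ 2} :=
      (continuous_abs.comp (B.Sm_cont hs)).comp_continuousOn ((B.cont i).mono hc4)
    refine (h5.integrableOn_compact hcp).mono_set fun z hz => ?_
    exact (show HDG.qf e z < 2 ^ 2 from hz).le
  have h5 : ∫ z in Metric.ball 0 (ρ / 2), |f (B.ψ i z)| ∂μ ≤ ∫ z in HDG.qb e 2, |f (B.ψ i z)| ∂μ :=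
    setIntegral_mono_set hI3 (Filter.Eventually.of_forall fun z => abs_nonneg _) hsub.eventuallyLE
  rw [h3, h4]
  exact mul_le_mul_of_nonneg_left (h5.trans h2) (by positivity)

end HFC
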