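import Pool.Agent.HDP.PD

/-!
# HDP/P1: the basis `E1`, `E2` of the real `(1,1)`-forms

`E1 e p q` and `E2 e p q` are real `(1,1)`-forms, and every real `(1,1)`-form is a linear combination of them (`expand`):
both sides are compared at `(v, i v)`, where `E1 e p q v (i v) = Re (v_p conj v_q)`, `E2 e p q v (i v) = Im (v_p conj v_q)`
(`Mt_form`).
-/

set_option autoImplicit false

noncomputable section

open scoped ContDiff

namespace HDG

open Pool.Agent.FBR

variable {H : Type*} [NormedAddCommGroup H] [NormedSpace ℂ H] [FiniteDimensional ℂ H] {n : ℕ}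
  (e : Module.Basis (Fin n) ℂ H)

private theorem P1_cx (p : Fin n) (u : H) : cx e p u = (e.repr u p).re := rfl

private theorem P1_cy (p : Fin n) (u : H) : cy e p u = (e.repr u p).im := rfl

private theorem P1_cxI (p : Fin n) (u : H) : cx e p (Complex.I • u) = -cy e p u := by
  rw [P1_cx, P1_cy, map_smul, Finsupp.smul_apply, smul_eq_mul, Complex.mul_re, Complex.I_re, Complex.I_im]
  ring

private theorem P1_cyI (p : Fin n) (u : H) : cy e p (Complex.I • u) = cx e p u := by
  rw [P1_cx, P1_cy, map_smul, Finsupp.smul_apply, smul_eq_mul, Complex.mul_im, Complex.I_re, Complex.I_im]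
  ring

private theorem P1_E1 (p q : Fin n) (u v : H) : E1 e p q u v = 1 / 2 * (cx e p u * cy e q v - cy e p u * cx e q v +
    cx e q u * cy e p v - cy e q u * cx e p v) := rfl

private theorem P1_E2 (p q : Fin n) (u v : H) : E2 e p q u v = 1 / 2 * (cx e p u * cx e q v + cy e p u * cy e q v -
    cx e q u * cx e p v - cy e q u * cy e p v) := rfl

theorem E1_O11 (p q : Fin n) : O11 (E1 e p q) := by
  constructor
  · intro v
    rw [P1_E1]
    ring
  · intro u v
    rw [P1_E1, P1_E1, P1_cxI, P1_cxI, P1_cyI, P1_cyI, P1_cxI, P1_cxI, P1_cyI, P1_cyI]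
    ring

theorem E2_O11 (p q : Fin n) : O11 (E2 e p q) := by
  constructor
  · intro v
    rw [P1_E2]
    ring
  · intro u v
    rw [P1_E2, P1_E2, P1_cxI, P1_cxI, P1_cyI, P1_cyI, P1_cxI, P1_cxI, P1_cyI, P1_cyI]
    ring

omit [FiniteDimensional ℂ H] in
private theorem P1_sum {ι : Type*} (s : Finset ι) {f : ι → Bil H} (hf : ∀ i ∈ s, O11 (f i)) :
    O11 (∑ i ∈ s, f i) := by
  classical
  induction s using Finset.induction_on with
  | empty =>
    rw [Finset.sum_empty]
    exact ⟨fun _ => rfl, fun _ _ => rfl⟩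
  | insert i s hi ih =>
    rw [Finset.sum_insert hi]
    exact O11_add (hf i (Finset.mem_insert_self i s)) (ih fun j hj => hf j (Finset.mem_insert_of_mem hj))

omit [FiniteDimensional ℂ H] in
private theorem P1_apply {ι : Type*} (s : Finset ι) (f : ι → Bil H) (u v : H) :
    (∑ i ∈ s, f i) u v = ∑ i ∈ s, f i u v := by
  rw [_root_.sum_apply, _root_.sum_apply]

theorem expand {a : Bil H} (ha : O11 a) :
    a = ∑ p, ∑ q, (a (e p) (Complex.I • e q) • E1 e p q + a (e p) (e q) • E2 e p q) := by
  refine O11_ext ha (P1_sum _ fun p _ => P1_sum _ fun q _ =>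
    O11_add (O11_smul _ (E1_O11 e p q)) (O11_smul _ (E2_O11 e p q))) fun v => ?_
  rw [P1_apply]
  have h := Mt_form e ha (fun j => e.repr v j)
  rw [e.sum_repr] at h
  have h2 := congrArg Complex.re h
  rw [Complex.ofReal_re, Complex.re_sum] at h2
  rw [← h2]
  refine Finset.sum_congr rfl fun p _ => ?_
  rw [Complex.re_sum, P1_apply]
  refine Finset.sum_congr rfl fun q _ => ?_
  rw [_root_.add_apply, _root_.add_apply, _root_.smul_apply, _root_.smul_apply, _root_.smul_apply,
    _root_.smul_apply, P1_E1, P1_E2, P1_cxI, P1_cxI, P1_cyI, P1_cyI, P1_cx, P1_cx, P1_cy, P1_cy]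
  simp only [Mt, smul_eq_mul, Complex.mul_re, Complex.mul_im, Complex.sub_re, Complex.sub_im, Complex.ofReal_re,
    Complex.ofReal_im, Complex.I_re, Complex.I_im, Complex.conj_re, Complex.conj_im]
  ring

end HDG
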