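import Pool.Agent.HDW.W10
import Pool.Agent.HDW.W14
import Pool.Agent.HDW.W15a
import Pool.Agent.HDG.G12

/-!
# HDP/P11: the weighted inequality with a bound for the function

`weighted2` is `weighted` (HDW/W15) with `κ = 2 δ gp p (-M)` and the additional bound `- (M + 1) ≤ f`; the same proof.
-/

set_option autoImplicit false

noncomputable section

open scoped ContDiff Topology

open MeasureTheory

namespace HDG

open Pool.Agent.FBR

variable {H : Type*} [NormedAddCommGroup H] [NormedSpace ℂ H] {n : ℕ} {e : Module.Basis (Fin n) ℂ H}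
  [FiniteDimensional ℂ H] [MeasurableSpace H] [BorelSpace H] {μ : Measure H} [μ.IsAddHaarMeasure]
  {Y : Type*} [TopologicalSpace Y] [CompactSpace Y] [T2Space Y] [MeasurableSpace Y] [BorelSpace Y]
  (B : BM e Y) {w b : B.I → H → Bil H} {ν : Measure Y}

namespace BM

theorem weighted2 [ConnectedSpace Y] (hw : B.Met w) (hν : B.IsVol μ w ν) (hb : B.IsT b) (hc : B.ClT b) (hn : B.NnT b)
    (hpos : ∃ i, ∃ z ∈ qb e 4, ∀ v : H, v ≠ 0 → 0 < b i z v (Complex.I • v)) (hn2 : 2 ≤ n) {p : ℝ} (hp : 0 < p)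
    (hpn : (n : ℝ) - 2 < p) : ∃ δ : ℝ, 0 < δ ∧ ∀ M : ℝ, 1 ≤ M → ∃ f : Y → ℝ, B.Sm f ∧ (∀ y, f y ≤ 0) ∧ (∃ y, f y = 0) ∧
      (∀ y, -(M + 1) ≤ f y) ∧ B.NnT (b + B.dd f + B.wt (fun y => 2 * (δ * gp p (-M)) - δ * gp p (f y)) w) := by
  have := hν.fin
  obtain ⟨V, hVd⟩ : ∃ V : ℝ, V = ∫ y, B.den w b y ∂ν := ⟨_, rfl⟩
  have hV : 0 < V := by
    rw [hVd]
    exact B.mass_pos hw hν hb hn hpos
  obtain ⟨CM, hCM, hmass⟩ := B.mass_w hw hν hb hc hn2 hp hpn
  obtain ⟨χ, c, hχ⟩ := B.exists_pou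
  obtain ⟨L, hL, hst⟩ := B.step_w hw hν hb hc hn hχ hp hmass
  obtain ⟨N, hN⟩ : ∃ N : ℝ, N = (Fintype.card B.I : ℝ) := ⟨_, rfl⟩
  have hN0 : 0 ≤ N := by
    rw [hN]
    positivity
  have hQ : 0 < N * (L * V + CM) + 1 := by positivity
  obtain ⟨δ, hδd⟩ : ∃ δ : ℝ, δ = min (min (min L⁻¹ p⁻¹) 1) (V / (2 * (N * (L * V + CM) + 1))) := ⟨_, rfl⟩
  have hδ : 0 < δ := by
    rw [hδd]
    exact lt_min (lt_min (lt_min (inv_pos.2 hL) (inv_pos.2 hp)) one_pos) (by positivity)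
  have hδ1 : δ ≤ 1 := hδd ▸ (min_le_left _ _).trans (min_le_right _ _)
  have hδL : δ * L ≤ 1 := by
    have h1 : δ ≤ L⁻¹ := hδd ▸ ((min_le_left _ _).trans (min_le_left _ _)).trans (min_le_left _ _)
    calc δ * L ≤ L⁻¹ * L := mul_le_mul_of_nonneg_right h1 hL.le
      _ = 1 := inv_mul_cancel₀ hL.ne'
  have hδp : δ * p ≤ 1 := by
    have h1 : δ ≤ p⁻¹ := hδd ▸ ((min_le_left _ _).trans (min_le_left _ _)).trans (min_le_right _ _)
    calc δ * p ≤ p⁻¹ * p := mul_le_mul_of_nonneg_right h1 hp.le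
      _ = 1 := inv_mul_cancel₀ hp.ne'
  have hδV : N * (δ * (L * V + CM)) ≤ V / 2 := by
    have h1 : δ ≤ V / (2 * (N * (L * V + CM) + 1)) := hδd ▸ min_le_right _ _
    have h2 : (N * (L * V + CM)) * δ ≤ (N * (L * V + CM) + 1) * (V / (2 * (N * (L * V + CM) + 1))) :=
      mul_le_mul (by linarith) h1 hδ.le hQ.le
    have h3 : (N * (L * V + CM) + 1) * (V / (2 * (N * (L * V + CM) + 1))) = V / 2 := by field_simp
    have h4 : N * (δ * (L * V + CM)) = (N * (L * V + CM)) * δ := by ring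
    linarith
  refine ⟨δ, hδ, fun M hM1 => ?_⟩
  have hk00 : 0 < δ * gp p (-M) := mul_pos hδ (gp_pos p _)
  have hk0 : 0 ≤ δ * gp p (-M) := hk00.le
  have hk1 : δ * gp p (-M) ≤ 1 := by
    have h1 : gp p (-M) ≤ 1 := gp_le_one hp.le (by linarith)
    nlinarith [gp_pos p (-M)]
  obtain ⟨κ, hκd0⟩ : ∃ κ : ℝ, κ = 2 * (δ * gp p (-M)) := ⟨_, rfl⟩
  have hκ : 0 < κ := by linarith
  obtain ⟨C, ε0, K, hC, hε0, hK, hst'⟩ := hst (M + 1)
  have hNC : 0 ≤ N * C := mul_nonneg hN0 hC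
  have hNC1 : 0 < N * C + 1 := by linarith
  obtain ⟨τ, hτd⟩ : ∃ τ : ℝ, τ = min (min 1 (κ / 8)) (V / (16 * (N * C + 1))) := ⟨_, rfl⟩
  have hτ : 0 < τ := by
    rw [hτd]
    exact lt_min (lt_min one_pos (by linarith)) (by positivity)
  have hτ1 : τ ≤ 1 := hτd ▸ (min_le_left _ _).trans (min_le_left _ _)
  have hτκ : τ ≤ κ / 8 := hτd ▸ (min_le_left _ _).trans (min_le_right _ _)
  have hτV : τ ≤ V / (16 * (N * C + 1)) := hτd ▸ min_le_right _ _
  obtain ⟨κ', hκd⟩ : ∃ κ' : ℝ, κ' = V * τ / (64 * (N * C + 1)) := ⟨_, rfl⟩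
  have hκ' : 0 < κ' := by
    rw [hκd]
    positivity
  obtain ⟨ε, φ, hε, hεε, hφs, hφA, hφ0, hr, hcls, hmax⟩ := B.near_max hw hν hb hc hn hp hδ hδp
    (M := M) (by linarith) hK hκ' (ε1 := min (min ε0 κ') (min (κ / 4) (τ / 2)))
    (lt_min (lt_min hε0 hκ') (lt_min (by linarith) (by linarith)))
  have hεε0 : ε ≤ ε0 := hεε.trans ((min_le_left _ _).trans (min_le_left _ _))
  have hεκ' : ε ≤ κ' := hεε.trans ((min_le_left _ _).trans (min_le_right _ _))
  have hεκ : ε ≤ κ / 4 := hεε.trans ((min_le_right _ _).trans (min_le_left _ _))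
  have hετ : ε ≤ τ / 2 := hεε.trans ((min_le_right _ _).trans (min_le_right _ _))
  have hbφ : B.IsT (b + B.dd φ) := B.IsT_add hb (B.IsT_dd hφs)
  -- the maximum is not far below zero
  have hbig : ∃ y, -(2 * τ) < φ y := by
    by_contra hcon
    push Not at hcon
    have hchi : ∀ i y, |χ i y| ≤ 1 := by
      intro i y
      rw [abs_of_nonneg (hχ.nn i y), ← hχ.sum y]
      exact Finset.single_le_sum (f := fun i => χ i y) (fun j _ => hχ.nn j y) (Finset.mem_univ i)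
    have hsum := Finset.sum_le_sum (s := Finset.univ) fun i (_ : i ∈ Finset.univ) =>
      hst' i φ δ (δ * gp p (-M)) τ ε κ' hφs hφA hδ hδL hk0 hk1 hcon hr hτ hτ1 hε hεε0 hετ hκ'.le hcls hmax
    obtain ⟨C1, hC1⟩ := isCompact_univ.exists_bound_of_continuousOn (B.den_cont hw hbφ).continuousOn
    have hLs : ∑ i, ∫ y, χ i y * B.den w (b + B.dd φ) y ∂ν = V := by
      rw [← integral_finsetSum]
      · rw [hVd, ← B.mass_dd hw hν hb hc hφs]
        refine integral_congr_ae (Filter.Eventually.of_forall fun y => ?_)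
        dsimp only
        rw [← Finset.sum_mul, hχ.sum, one_mul]
      · intro i _
        refine B.bd_int hν (C := C1) ((B.Sm_cont (hχ.sm i)).measurable.mul (B.den_cont hw hbφ).measurable) fun y => ?_
        rw [abs_mul]
        have h1 := hC1 y (Set.mem_univ y)
        rw [Real.norm_eq_abs] at h1
        nlinarith [hchi i y, abs_nonneg (χ i y), abs_nonneg (B.den w (b + B.dd φ) y)]
    rw [hLs, Finset.sum_const, nsmul_eq_mul, Finset.card_univ, ← hN, ← hVd] at hsum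
    have h1 : N * C * τ ≤ V / 16 := by
      have h11 : N * C * τ ≤ (N * C + 1) * (V / (16 * (N * C + 1))) :=
        mul_le_mul (by linarith) hτV hτ.le hNC1.le
      have h12 : (N * C + 1) * (V / (16 * (N * C + 1))) = V / 16 := by field_simp
      linarith
    have hk : (N * C + 1) * κ' = V * τ / 64 := by
      rw [hκd]
      field_simp
    have h2 : N * C * ε ≤ V / 64 := by
      have h21 : N * C * ε ≤ (N * C + 1) * κ' := mul_le_mul (by linarith) hεκ' hε.le hNC1.le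
      have h22 : V * τ ≤ V * 1 := mul_le_mul_of_nonneg_left hτ1 hV.le
      linarith
    have h3 : N * C * ((ε + κ') / τ) ≤ V / 32 := by
      have h31 : N * C * (ε + κ') ≤ (N * C + 1) * (κ' + κ') :=
        mul_le_mul (by linarith) (by linarith) (by linarith) hNC1.le
      have h32 : (N * C + 1) * (κ' + κ') = V * τ / 32 := by linarith
      have h33 : N * C * ((ε + κ') / τ) = N * C * (ε + κ') / τ := by ring
      rw [h33, div_le_iff₀ hτ]
      linarith
    have h4 : N * (δ * (L * V + CM) + C * (τ + ε + (ε + κ') / τ)) = N * (δ * (L * V + CM)) + (N * C * τ +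
        N * C * ε + N * C * ((ε + κ') / τ)) := by ring
    linarith
  obtain ⟨y1, hy1⟩ := hbig
  obtain ⟨y0, -, hy0⟩ := isCompact_univ.exists_isMaxOn (⟨y1, Set.mem_univ y1⟩ : (Set.univ : Set Y).Nonempty)
    (B.Sm_cont hφs).continuousOn
  have hle : ∀ y, φ y ≤ φ y0 := fun y => hy0 (Set.mem_univ y)
  have hm : -φ y0 ≤ 2 * τ := by linarith [hle y1]
  rw [← hκd0]
  refine ⟨fun y => φ y + -φ y0, B.Sm_add hφs (B.Sm_const _), fun y => by linarith [hle y], ⟨y0, by ring⟩, fun y => ?_, ?_⟩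
  · have h1 := (abs_le.1 (hφA y)).1
    linarith [hφ0 y0]
  intro i z hz v
  have h1 := hcls i z hz v
  have h2 : 0 ≤ w i z v (Complex.I • v) := by
    by_cases hv : v = 0
    · subst hv
      simp
    · exact (hw.pos i z hz v hv).le
  have h3 : B.dd (fun y => φ y + -φ y0) i z = B.dd φ i z := by
    rw [B.dd_add hφs (B.Sm_const (-φ y0)) hz, B.dd_const _ hz]
    exact ContinuousLinearMap.ext fun u => ContinuousLinearMap.ext fun v => add_zero (B.dd φ i z u v)
  have h4 : (b + B.dd φ + B.wt (fun y => δ * gp p (-M) - δ * gp p (φ y) + ε) w) i z v (Complex.I • v) =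
      b i z v (Complex.I • v) + B.dd φ i z v (Complex.I • v) +
        (δ * gp p (-M) - δ * gp p (φ (B.ψ i z)) + ε) * w i z v (Complex.I • v) := rfl
  have h5 : (b + B.dd (fun y => φ y + -φ y0) + B.wt (fun y => κ - δ * gp p (φ y + -φ y0)) w) i z v (Complex.I • v) =
      b i z v (Complex.I • v) + B.dd (fun y => φ y + -φ y0) i z v (Complex.I • v) +
        (κ - δ * gp p (φ (B.ψ i z) + -φ y0)) * w i z v (Complex.I • v) := rfl
  rw [h4] at h1
  rw [h5, h3]
  have h6 : gp p (φ (B.ψ i z) + -φ y0) - gp p (φ (B.ψ i z)) ≤ p * (φ (B.ψ i z) + -φ y0 - φ (B.ψ i z)) :=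
    gp_lip hp.le (by linarith [hφ0 y0]) (by linarith [hle (B.ψ i z)])
  have h7 : δ * (gp p (φ (B.ψ i z) + -φ y0) - gp p (φ (B.ψ i z))) ≤ κ / 4 := by
    have h71 : δ * (gp p (φ (B.ψ i z) + -φ y0) - gp p (φ (B.ψ i z))) ≤ δ * (p * (2 * τ)) :=
      mul_le_mul_of_nonneg_left (h6.trans (mul_le_mul_of_nonneg_left (by linarith) hp.le)) hδ.le
    have h72 : δ * (p * (2 * τ)) = δ * p * (2 * τ) := by ring
    have h73 : δ * p * (2 * τ) ≤ 1 * (2 * τ) := mul_le_mul_of_nonneg_right hδp (by linarith)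
    linarith
  have h8 : (δ * gp p (-M) - δ * gp p (φ (B.ψ i z)) + ε) * w i z v (Complex.I • v) ≤
      (κ - δ * gp p (φ (B.ψ i z) + -φ y0)) * w i z v (Complex.I • v) := by
    refine mul_le_mul_of_nonneg_right ?_ h2
    linarith
  linarith

end BM

end HDG
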