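import Pool.Agent.HDG.G3

/-!
# HDP/P12: a partition of unity which is positive on the unit balls

The partition of unity of HDG/G3 (`exists_pou`) has `c i z = ρ z / S (ψ i z)` with `ρ = 1` on `qb e 1` and `1 ≤ S`, so its
functions are positive on the unit balls.
-/

set_option autoImplicit false

noncomputable section

open scoped ContDiff Topology

namespace HDG

open Pool.Agent.FBR

variable {H : Type*} [NormedAddCommGroup H] [NormedSpace ℂ H] {n : ℕ} {e : Module.Basis (Fin n) ℂ H}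
  [FiniteDimensional ℂ H] {Y : Type*} [TopologicalSpace Y] (B : BM e Y)

omit [FiniteDimensional ℂ H] in
private theorem P12_qb {z : H} {t : ℝ} (ht : 0 ≤ t) (ht4 : t < 4) (hz : z ∉ qb e 4) : t ^ 2 < qf e z := by
  have h1 : ¬ qf e z < 4 ^ 2 := hz
  nlinarith

private theorem P12_cut {F : Type*} [NormedAddCommGroup F] [NormedSpace ℝ F] {κ : H → ℝ}
    (hκ : ContDiff ℝ ∞ κ) {t : ℝ} (ht : 0 ≤ t) (ht4 : t < 4) (h0 : ∀ z, t ^ 2 ≤ qf e z → κ z = 0)
    {g : H → F} (hg : ContDiffOn ℝ ∞ g (qb e 4)) : ContDiff ℝ ∞ fun z => κ z • g z := by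
  rw [contDiff_iff_contDiffAt]
  intro z
  by_cases hz : z ∈ qb e 4
  · exact hκ.contDiffAt.smul (hg.contDiffAt ((isOpen_qb e 4).mem_nhds hz))
  · have h1 : IsOpen {z : H | t ^ 2 < qf e z} := isOpen_lt continuous_const (qf_smooth e).continuous
    have h2 : z ∈ {z : H | t ^ 2 < qf e z} := P12_qb ht ht4 hz
    refine (contDiffAt_const (c := (0 : F))).congr_of_eventuallyEq ?_
    filter_upwards [h1.mem_nhds h2] with x hx
    have hx' : t ^ 2 < qf e x := hx
    show κ x • g x = 0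
    rw [h0 x hx'.le, zero_smul]

private theorem P12_supp {κ : H → ℝ} {t : ℝ} (h0 : ∀ z, t ^ 2 ≤ qf e z → κ z = 0) :
    tsupport κ ⊆ {z | qf e z ≤ t ^ 2} := by
  refine closure_minimal ?_ (isCompact_qb e t).isClosed
  intro z hz
  by_contra hz'
  have h1 : ¬ qf e z ≤ t ^ 2 := hz'
  exact hz (h0 z (le_of_lt (not_le.mp h1)))

omit [FiniteDimensional ℂ H] in
private theorem P12_sub {t : ℝ} (ht : 0 ≤ t) (ht4 : t < 4) : {z : H | qf e z ≤ t ^ 2} ⊆ qb e 4 := by
  intro z hz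
  have hz' : qf e z ≤ t ^ 2 := hz
  show qf e z < 4 ^ 2
  nlinarith

namespace BM

theorem exists_pou2 [T2Space Y] : ∃ χ c, B.Pou χ c ∧ ∀ i, ∀ z ∈ qb e 1, 0 < c i z := by
  obtain ⟨ρ, hρ, hρ0, -, hρ1, hρz⟩ := exists_cut' e (s := 1) (t := 3 / 2) one_pos (by norm_num)
  have hsup : tsupport ρ ⊆ {z | qf e z ≤ (3 / 2) ^ 2} := P12_supp hρz
  have hsup4 : tsupport ρ ⊆ qb e 4 := hsup.trans (P12_sub (by norm_num) (by norm_num))
  have hR : ∀ i, B.Sm (B.ext i ρ) := fun i => B.Sm_ext i hρ hsup4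
  have hRn : ∀ i y, 0 ≤ B.ext i ρ y := by
    intro i y
    by_cases h : y ∈ B.ψ i '' qb e 4
    · obtain ⟨z, hz, rfl⟩ := h
      rw [B.ext_apply hz]
      exact hρ0 z
    · exact (B.ext_zero fun z hz hzy => absurd ⟨z, hz, hzy⟩ h).ge
  obtain ⟨S, hS⟩ : ∃ S : Y → ℝ, ∀ y, S y = ∑ i, B.ext i ρ y := ⟨_, fun _ => rfl⟩
  have hSs : B.Sm S := by
    have h1 := B.Sm_sum Finset.univ (f := fun i => B.ext i ρ) fun i _ => hR i
    have h2 : S = fun y => ∑ i, B.ext i ρ y := funext hS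
    rw [h2]
    exact h1
  have hS1 : ∀ y, 1 ≤ S y := by
    intro y
    obtain ⟨i, z, hz, rfl⟩ := B.cov y
    have hz1 : qf e z < 1 ^ 2 := hz
    have hz4 : z ∈ qb e 4 := by
      show qf e z < 4 ^ 2
      norm_num at hz1 ⊢
      linarith
    have h1 : B.ext i ρ (B.ψ i z) = 1 := by
      rw [B.ext_apply hz4]
      exact hρ1 z hz1.le
    rw [hS, ← h1]
    exact Finset.single_le_sum (f := fun k => B.ext k ρ (B.ψ i z)) (fun k _ => hRn k _)
      (Finset.mem_univ i)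
  have hS0 : ∀ y, S y ≠ 0 := fun y => (zero_lt_one.trans_le (hS1 y)).ne'
  refine ⟨fun i y => B.ext i ρ y / S y, fun i z => ρ z / S (B.ψ i z), ?_, ?_⟩
  swap
  · intro i z hz
    have hz1 : qf e z < 1 ^ 2 := hz
    show 0 < ρ z / S (B.ψ i z)
    rw [hρ1 z hz1.le]
    exact div_pos one_pos (zero_lt_one.trans_le (hS1 _))
  have hsupc : ∀ i : B.I, ∀ z, (3 / 2 : ℝ) ^ 2 ≤ qf e z → ρ z / S (B.ψ i z) = 0 := by
    intro i z hz
    rw [hρz z hz, zero_div]
  refine ⟨?_, ?_, ?_, ?_, ?_, ?_, ?_⟩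
  · exact fun i => B.Sm_div (hR i) hSs hS0
  · exact fun i y => div_nonneg (hRn i y) (by linarith [hS1 y])
  · intro y
    rw [← Finset.sum_div, ← hS, div_self (hS0 y)]
  · intro i
    have h1 : ContDiffOn ℝ ∞ (fun z => (S (B.ψ i z))⁻¹) (qb e 4) :=
      ContDiffOn.inv (hSs i) fun z _ => hS0 _
    have h2 := P12_cut hρ (t := 3 / 2) (by norm_num) (by norm_num) hρz h1
    have h3 : (fun z => ρ z / S (B.ψ i z)) = fun z => ρ z • (S (B.ψ i z))⁻¹ := by
      funext z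
      rw [smul_eq_mul, div_eq_mul_inv]
    rw [h3]
    exact h2
  · intro i
    exact P12_supp (hsupc i)
  · intro i z hz
    show B.ext i ρ (B.ψ i z) / S (B.ψ i z) = ρ z / S (B.ψ i z)
    rw [B.ext_apply hz]
  · intro i y hy
    show B.ext i ρ y / S y = 0
    rw [B.ext_zero (f := ρ) fun z hz hzy => absurd hzy (hy z hz), zero_div]

end BM

end HDG
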