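import Pool.Agent.HDP.P2

/-!
# HDP/P8a: bounds for the mixed discriminants of forms which need not be nonnegative

For `‖X‖ ≤ R` the forms `(K w0 ± X) / 2` are nonnegative (`K = C1 R`), so the bilinear form `mc e 1 b` is bounded at `(X, Y)` by
`K ^ 2 mc e 1 b w0 w0` (`c2_abs`). In terms of the eigenvalues of `b` the number `2 mj e 2 (b + K w0) w0` is the derivative of
`c ↦ ∑ i, ∏ j ≠ i, (l j + c)` at `K`, which is compared termwise with the value at `c1` (`mj2_le`).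
-/

set_option autoImplicit false

noncomputable section

open scoped ContDiff

namespace HDG

open Pool.Agent.FBR

variable {H : Type*} [NormedAddCommGroup H] [NormedSpace ℂ H] [FiniteDimensional ℂ H] {n : ℕ}
  (e : Module.Basis (Fin n) ℂ H)

private theorem P8a_Nn {X : Bil H} {K s : ℝ} (h : ∀ v : H, |X v (Complex.I • v)| ≤ K * qf e v) (hs : |s| = 1) :
    Nn (K • w0 e + s • X) := by
  intro v
  have h1 : (K • w0 e + s • X) v (Complex.I • v) = K * w0 e v (Complex.I • v) + s * X v (Complex.I • v) := rfl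
  rw [h1, w0_self]
  have h2 := h v
  have h3 : |s * X v (Complex.I • v)| ≤ K * qf e v := by
    rw [abs_mul, hs, one_mul]
    exact h2
  have h4 := (abs_le.1 h3).1
  linarith

private theorem P8a_O {X : Bil H} (h : O11 X) (K s : ℝ) : O11 (K • w0 e + s • X) :=
  O11_add (O11_smul _ (w0_O11 e)) (O11_smul _ h)

theorem c2_abs {R : ℝ} (hR : 0 ≤ R) : ∃ C : ℝ, 0 ≤ C ∧ ∀ b X Y : Bil H, O11 b → O11 X → O11 Y → Nn b → ‖X‖ ≤ R → ‖Y‖ ≤ R →
    |mc e 1 b X Y| ≤ C * mj e 2 b (w0 e) := by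
  obtain ⟨C1, hC1, hF⟩ := form_le e
  refine ⟨(C1 * R) ^ 2 * 2, by positivity, fun b X Y hb hX hY hbn hXR hYR => ?_⟩
  obtain ⟨K, hK⟩ : ∃ K : ℝ, K = C1 * R := ⟨_, rfl⟩
  have hq : ∀ v : H, 0 ≤ qf e v := fun v => Finset.sum_nonneg fun i _ => by positivity
  have hbd : ∀ Z : Bil H, ‖Z‖ ≤ R → ∀ v : H, |Z v (Complex.I • v)| ≤ K * qf e v := by
    intro Z hZ v
    refine (hF Z v).trans ?_
    rw [hK]
    exact mul_le_mul_of_nonneg_right (mul_le_mul_of_nonneg_left hZ hC1.le) (hq v)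
  have hp : |(1 : ℝ)| = 1 := abs_one
  have hm : |(-1 : ℝ)| = 1 := by rw [abs_neg, abs_one]
  have key : ∀ s t : ℝ, |s| = 1 → |t| = 1 →
      0 ≤ K * (K * mc e 1 b (w0 e) (w0 e)) + K * (t * mc e 1 b (w0 e) Y) + (s * (K * mc e 1 b X (w0 e)) +
        s * (t * mc e 1 b X Y)) := by
    intro s t hs ht
    have h1 := mc_nonneg e hb (P8a_O e hX K s) (P8a_O e hY K t) hbn (P8a_Nn e (hbd X hXR) hs) (P8a_Nn e (hbd Y hYR) ht) 1
    rw [c2_add_left, c2_smul_left, c2_smul_left, mc_add, mc_add, mc_smul, mc_smul, mc_smul, mc_smul] at h1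
    linarith
  have h1 := key 1 1 hp hp
  have h2 := key 1 (-1) hp hm
  have h3 := key (-1) 1 hm hp
  have h4 := key (-1) (-1) hm hm
  have h5 := mc_self e 1 b (w0 e)
  have h6 : mc e 1 b (w0 e) (w0 e) = 2 * mj e 2 b (w0 e) := by
    rw [h5]
    norm_num
  rw [h6] at h1 h2 h3 h4
  rw [← hK, abs_le]
  constructor <;> nlinarith [h1, h2, h3, h4]

private theorem P8a_der (l : Fin n → ℝ) (t : ℝ) :
    HasDerivAt (fun t : ℝ => ∑ i, ∏ j ∈ Finset.univ.erase i, (l j + t))
      (∑ i, ∑ k ∈ Finset.univ.erase i, ∏ j ∈ (Finset.univ.erase i).erase k, (l j + t)) t := by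
  refine HasDerivAt.fun_sum fun i _ => ?_
  have h1 := HasDerivAt.fun_finsetProd (u := Finset.univ.erase i) (f := fun (j : Fin n) (t : ℝ) => l j + t)
    (f' := fun _ => (1 : ℝ)) (x := t) fun j _ => (hasDerivAt_id t).const_add (l j)
  simpa using h1

private theorem P8a_le {K c1 : ℝ} (hK : 0 ≤ K) (hc : 0 < c1) (l : Fin n → ℝ) (hl : ∀ i, 0 ≤ l i) :
    ∑ i, ∑ k ∈ Finset.univ.erase i, ∏ j ∈ (Finset.univ.erase i).erase k, (l j + K) ≤
      n * (1 + K / c1) ^ n / c1 * ∑ i, ∏ j ∈ Finset.univ.erase i, (l j + c1) := by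
  obtain ⟨D, hD⟩ : ∃ D : ℝ, D = 1 + K / c1 := ⟨_, rfl⟩
  have hD1 : 1 ≤ D := by
    rw [hD]
    have : 0 ≤ K / c1 := by positivity
    linarith
  rw [← hD, Finset.mul_sum]
  refine Finset.sum_le_sum fun i _ => ?_
  have hterm : ∀ k ∈ Finset.univ.erase i, ∏ j ∈ (Finset.univ.erase i).erase k, (l j + K) ≤
      D ^ n / c1 * ∏ j ∈ Finset.univ.erase i, (l j + c1) := by
    intro k hk
    have h1 : ∏ j ∈ (Finset.univ.erase i).erase k, (l j + K) ≤ ∏ j ∈ (Finset.univ.erase i).erase k, (D * (l j + c1)) := by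
      refine Finset.prod_le_prod (fun j _ => by linarith [hl j]) fun j _ => ?_
      have h2 : D * (l j + c1) = l j + c1 + K * (l j / c1) + K := by
        rw [hD]
        field_simp
        ring
      have h3 : 0 ≤ K * (l j / c1) := mul_nonneg hK (div_nonneg (hl j) hc.le)
      linarith
    rw [Finset.prod_mul_distrib, Finset.prod_const] at h1
    have hP : 0 ≤ ∏ j ∈ (Finset.univ.erase i).erase k, (l j + c1) :=
      Finset.prod_nonneg fun j _ => by linarith [hl j]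
    have hcard : ((Finset.univ.erase i).erase k).card ≤ n := by
      refine (Finset.card_le_univ _).trans ?_
      rw [Fintype.card_fin]
    have h4 : D ^ ((Finset.univ.erase i).erase k).card ≤ D ^ n := pow_le_pow_right₀ hD1 hcard
    have h5 : ∏ j ∈ Finset.univ.erase i, (l j + c1) = (l k + c1) * ∏ j ∈ (Finset.univ.erase i).erase k, (l j + c1) :=
      (Finset.mul_prod_erase _ _ hk).symm
    have h6 : 1 ≤ (l k + c1) / c1 := by
      rw [le_div_iff₀ hc]
      linarith [hl k]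
    rw [h5]
    calc ∏ j ∈ (Finset.univ.erase i).erase k, (l j + K)
        ≤ D ^ ((Finset.univ.erase i).erase k).card * ∏ j ∈ (Finset.univ.erase i).erase k, (l j + c1) := h1
      _ ≤ D ^ n * ∏ j ∈ (Finset.univ.erase i).erase k, (l j + c1) := mul_le_mul_of_nonneg_right h4 hP
      _ = D ^ n * (∏ j ∈ (Finset.univ.erase i).erase k, (l j + c1)) * 1 := by ring
      _ ≤ D ^ n * (∏ j ∈ (Finset.univ.erase i).erase k, (l j + c1)) * ((l k + c1) / c1) :=
          mul_le_mul_of_nonneg_left h6 (by positivity)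
      _ = D ^ n / c1 * ((l k + c1) * ∏ j ∈ (Finset.univ.erase i).erase k, (l j + c1)) := by ring
  have hQ : 0 ≤ D ^ n / c1 * ∏ j ∈ Finset.univ.erase i, (l j + c1) :=
    mul_nonneg (by positivity) (Finset.prod_nonneg fun j _ => by linarith [hl j])
  refine (Finset.sum_le_sum hterm).trans ?_
  rw [Finset.sum_const, nsmul_eq_mul]
  have hcard : ((Finset.univ.erase i).card : ℝ) ≤ n := by
    have : (Finset.univ.erase i).card ≤ n := by
      refine (Finset.card_le_univ _).trans ?_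
      rw [Fintype.card_fin]
    exact_mod_cast this
  calc ((Finset.univ.erase i).card : ℝ) * (D ^ n / c1 * ∏ j ∈ Finset.univ.erase i, (l j + c1))
      ≤ n * (D ^ n / c1 * ∏ j ∈ Finset.univ.erase i, (l j + c1)) := mul_le_mul_of_nonneg_right hcard hQ
    _ = n * D ^ n / c1 * ∏ j ∈ Finset.univ.erase i, (l j + c1) := by ring

theorem mj2_le {K c1 : ℝ} (hK : 0 ≤ K) (hc : 0 < c1) : ∃ C : ℝ, 0 ≤ C ∧ ∀ b : Bil H, O11 b → Nn b →
    mj e 2 (b + K • w0 e) (w0 e) ≤ C * cf e (b + c1 • w0 e) (w0 e) := by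
  refine ⟨n * (1 + K / c1) ^ n / c1, by positivity, fun b hb hbn => ?_⟩
  obtain ⟨l, -, h2, h3⟩ := exists_eig e hb
  have hl : ∀ i, 0 ≤ l i := by
    have h4 := (h3 0).1
    have h5 : b + (0 : ℝ) • w0 e = b := by
      refine ContinuousLinearMap.ext fun u => ContinuousLinearMap.ext fun v => ?_
      have h : (b + (0 : ℝ) • w0 e) u v = b u v + 0 * w0 e u v := rfl
      rw [h, zero_mul, add_zero]
    rw [h5] at h4
    intro i
    have h6 := h4 hbn i
    linarith
  have h4 := mj_deriv e 1 b (w0 e) (w0 e) K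
  have h5 : (fun t : ℝ => mj e 1 (b + t • w0 e) (w0 e)) = fun t : ℝ => ∑ i, ∏ j ∈ Finset.univ.erase i, (l j + t) :=
    funext fun t => by rw [mj_one, h2 t]
  rw [h5] at h4
  have h6 := h4.unique (P8a_der l K)
  rw [mc_self] at h6
  have h7 := P8a_le hK hc l hl
  rw [← h6] at h7
  rw [h2 c1]
  have h8 : 0 ≤ ∑ i, ∏ j ∈ Finset.univ.erase i, (l j + c1) :=
    Finset.sum_nonneg fun i _ => Finset.prod_nonneg fun j _ => by linarith [hl j]
  have h9 : 0 ≤ n * (1 + K / c1) ^ n / c1 * ∑ i, ∏ j ∈ Finset.univ.erase i, (l j + c1) := mul_nonneg (by positivity) h8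
  norm_num at h7
  linarith

end HDG
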