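import Pool.Agent.HDP.P1
import Pool.Agent.HDP.P8a

/-!
# HDP/P8: perturbation of `mc e 1` and of `rr`

`c2_err`: the function `t ↦ mc e 1 (a + s x + t x) X Y` is a polynomial of degree at most `n`, its coefficients are bounded by its values at
`0, .., n` (Lagrange interpolation), which are bounded by `c2_abs` and `mj2_le`. `rr_err`: `c2_err` in every term of `rr`.
-/

set_option autoImplicit false

noncomputable section

open scoped ContDiff

namespace HDG

open Pool.Agent.FBR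

variable {H : Type*} [NormedAddCommGroup H] [NormedSpace ℂ H] [FiniteDimensional ℂ H] {n : ℕ}
  (e : Module.Basis (Fin n) ℂ H)

omit [FiniteDimensional ℂ H] in
private theorem P8_z (a x : Bil H) : a + (0 : ℝ) • x = a := by
  refine ContinuousLinearMap.ext fun u => ContinuousLinearMap.ext fun v => ?_
  have h : (a + (0 : ℝ) • x) u v = a u v + 0 * x u v := rfl
  rw [h, zero_mul, add_zero]

omit [FiniteDimensional ℂ H] in
private theorem P8_back (a x : Bil H) (s : ℝ) : a + s • x + (-s) • x = a := by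
  refine ContinuousLinearMap.ext fun u => ContinuousLinearMap.ext fun v => ?_
  have h : (a + s • x + (-s) • x) u v = a u v + s * x u v + (-s) * x u v := rfl
  rw [h]
  ring

omit [FiniteDimensional ℂ H] in
private theorem P8_swap (b x X : Bil H) (t k : ℝ) : b + t • x + k • X = b + k • X + t • x := by
  refine ContinuousLinearMap.ext fun u => ContinuousLinearMap.ext fun v => ?_
  have h : (b + t • x + k • X) u v = b u v + t * x u v + k * X u v := rfl
  have h' : (b + k • X + t • x) u v = b u v + k * X u v + t * x u v := rfl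
  rw [h, h']
  ring

omit [FiniteDimensional ℂ H] in
private theorem P8_nn (a : Bil H) : 0 ≤ ‖a‖ := norm_nonneg a

private theorem P8_w0 : Nn (w0 e : Bil H) := by
  intro v
  rw [w0_self]
  exact qf_nonneg e v

/-- the mixed discriminant is a polynomial on lines -/
private theorem P8_poly (b x X Y : Bil H) : ∃ P : Polynomial ℝ, P.natDegree ≤ n ∧
    ∀ t : ℝ, mc e 1 (b + t • x) X Y = P.eval t := by
  have h := fun k : ℕ => cf_poly e (b + (k : ℝ) • X) x Y
  choose P hP hP2 using h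
  refine ⟨∑ k ∈ Finset.range (n + 1), Polynomial.C
    ((Lagrange.basis (Finset.range (n + 1)) (fun k : ℕ => (k : ℝ)) k).coeff 1) * P k, ?_, ?_⟩
  · refine Polynomial.natDegree_sum_le_of_forall_le _ _ fun k _ => ?_
    exact (Polynomial.natDegree_C_mul_le _ _).trans (Polynomial.natDegree_le_of_degree_le (hP k).le)
  · intro t
    rw [Polynomial.eval_finsetSum]
    unfold mc lj
    refine Finset.sum_congr rfl fun k _ => ?_
    rw [Polynomial.eval_mul, Polynomial.eval_C, ← hP2 k t, P8_swap]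

/-- a polynomial of degree at most `n` which is bounded by `B` at `0, .., n` -/
private theorem P8_lag (n : ℕ) : ∃ L : ℝ, 0 ≤ L ∧ ∀ (P : Polynomial ℝ) (B s : ℝ), P.natDegree ≤ n →
    (∀ k : ℕ, k ≤ n → |P.eval (k : ℝ)| ≤ B) → 0 ≤ s → s ≤ 1 → |P.eval (-s) - P.eval 0| ≤ L * s * B := by
  refine ⟨∑ j ∈ Finset.range n, ∑ k ∈ Finset.range (n + 1),
    |(Lagrange.basis (Finset.range (n + 1)) (fun k : ℕ => (k : ℝ)) k).coeff (j + 1)|,
    Finset.sum_nonneg fun _ _ => Finset.sum_nonneg fun _ _ => abs_nonneg _, ?_⟩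
  intro P B s hP hB hs hs1
  have h1 : ∀ t : ℝ, P.eval t = ∑ j ∈ Finset.range n, P.coeff (j + 1) * t ^ (j + 1) + P.coeff 0 := by
    intro t
    rw [Polynomial.eval_eq_sum_range' (Nat.lt_succ_iff.2 hP) t, Finset.sum_range_succ']
    rw [pow_zero, mul_one]
  have h2 : P.eval (-s) - P.eval 0 = ∑ j ∈ Finset.range n, P.coeff (j + 1) * (-s) ^ (j + 1) := by
    rw [h1 (-s), h1 0]
    have h3 : ∑ j ∈ Finset.range n, P.coeff (j + 1) * (0 : ℝ) ^ (j + 1) = 0 :=
      Finset.sum_eq_zero fun j _ => by rw [zero_pow (Nat.succ_ne_zero j), mul_zero]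
    rw [h3]
    ring
  rw [h2, mul_assoc, Finset.sum_mul]
  refine (Finset.abs_sum_le_sum_abs _ _).trans (Finset.sum_le_sum fun j _ => ?_)
  have h4 : |P.coeff (j + 1)| ≤ (∑ k ∈ Finset.range (n + 1),
      |(Lagrange.basis (Finset.range (n + 1)) (fun k : ℕ => (k : ℝ)) k).coeff (j + 1)|) * B := by
    rw [← lj_poly (j + 1) hP (f := fun t => P.eval t) fun k _ => rfl]
    unfold lj
    rw [Finset.sum_mul]
    refine (Finset.abs_sum_le_sum_abs _ _).trans (Finset.sum_le_sum fun k hk => ?_)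
    rw [abs_mul]
    exact mul_le_mul_of_nonneg_left (hB k (Nat.lt_succ_iff.1 (Finset.mem_range.1 hk))) (abs_nonneg _)
  have h5 : |(-s) ^ (j + 1)| ≤ s := by
    rw [abs_pow, abs_neg, abs_of_nonneg hs, pow_succ]
    have h6 : s ^ j ≤ 1 := pow_le_one₀ hs hs1
    exact mul_le_of_le_one_left hs h6
  rw [abs_mul]
  calc |P.coeff (j + 1)| * |(-s) ^ (j + 1)| ≤ ((∑ k ∈ Finset.range (n + 1),
      |(Lagrange.basis (Finset.range (n + 1)) (fun k : ℕ => (k : ℝ)) k).coeff (j + 1)|) * B) * s :=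
        mul_le_mul h4 h5 (abs_nonneg _) ((abs_nonneg _).trans h4)
    _ = _ := by ring

theorem c2_err {R C0 c1 : ℝ} (hR : 0 ≤ R) (hC0 : 0 ≤ C0) (hc : 0 < c1) : ∃ C : ℝ, 0 ≤ C ∧ ∀ (a x X Y : Bil H) (s : ℝ),
    O11 a → O11 x → O11 X → O11 Y → Nn x → Nn (C0 • w0 e - x) → 0 ≤ s → s ≤ 1 → Nn (a + s • x) → ‖X‖ ≤ R → ‖Y‖ ≤ R →
    |mc e 1 a X Y - mc e 1 (a + s • x) X Y| ≤ C * s * cf e (a + s • x + c1 • w0 e) (w0 e) := by
  obtain ⟨L, hL, hL2⟩ := P8_lag n
  obtain ⟨C1, hC1, h1⟩ := c2_abs e hR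
  have hK : 0 ≤ (n : ℝ) * C0 := mul_nonneg (Nat.cast_nonneg n) hC0
  obtain ⟨C2, hC2, h2⟩ := mj2_le e hK hc
  refine ⟨L * (C1 * C2), mul_nonneg hL (mul_nonneg hC1 hC2), ?_⟩
  intro a x X Y s ha hx hX hY hnx hnx' hs hs1 hn hXR hYR
  obtain ⟨b, hb⟩ : ∃ b : Bil H, b = a + s • x := ⟨_, rfl⟩
  have hb11 : O11 b := by
    rw [hb]
    exact O11_add ha (O11_smul s hx)
  have hab : a = b + (-s) • x := by rw [hb, P8_back]
  rw [← hb] at hn ⊢
  obtain ⟨P, hP, hP2⟩ := P8_poly e b x X Y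
  have hB : ∀ k : ℕ, k ≤ n → |P.eval (k : ℝ)| ≤ C1 * C2 * cf e (b + c1 • w0 e) (w0 e) := by
    intro k hk
    rw [← hP2]
    have hk0 : (0 : ℝ) ≤ k := Nat.cast_nonneg k
    have hkn : (k : ℝ) ≤ n := Nat.cast_le.2 hk
    have g1 : O11 (b + (k : ℝ) • x) := O11_add hb11 (O11_smul _ hx)
    have g2 : Nn (b + (k : ℝ) • x) := by
      intro v
      have h : (b + (k : ℝ) • x) v (Complex.I • v) = b v (Complex.I • v) + k * x v (Complex.I • v) := rfl
      rw [h]
      exact add_nonneg (hn v) (mul_nonneg hk0 (hnx v))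
    have g3 : O11 (b + ((n : ℝ) * C0) • w0 e) := O11_add hb11 (O11_smul _ (w0_O11 e))
    have g4 : Nn (b + ((n : ℝ) * C0) • w0 e - (b + (k : ℝ) • x)) := by
      intro v
      have h : (b + ((n : ℝ) * C0) • w0 e - (b + (k : ℝ) • x)) v (Complex.I • v) =
        b v (Complex.I • v) + ((n : ℝ) * C0) * w0 e v (Complex.I • v) -
          (b v (Complex.I • v) + k * x v (Complex.I • v)) := rfl
      have h' := hnx' v
      have h'' : (C0 • w0 e - x) v (Complex.I • v) = C0 * w0 e v (Complex.I • v) - x v (Complex.I • v) := rfl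
      rw [h''] at h'
      rw [h]
      have i1 := mul_nonneg hk0 h'
      have i2 := mul_nonneg (sub_nonneg.2 hkn) (mul_nonneg hC0 (P8_w0 e v))
      nlinarith
    have g5 : Nn (w0 e - w0 e : Bil H) := by
      intro v
      have h : (w0 e - w0 e : Bil H) v (Complex.I • v) = w0 e v (Complex.I • v) - w0 e v (Complex.I • v) := rfl
      rw [h, sub_self]
    have i1 := h1 (b + (k : ℝ) • x) X Y g1 hX hY g2 hXR hYR
    have i2 := mj_mono e g1 g3 (w0_O11 e) (w0_O11 e) g2 g4 (P8_w0 e) g5 2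
    have i3 := h2 b hb11 hn
    calc |mc e 1 (b + (k : ℝ) • x) X Y| ≤ C1 * mj e 2 (b + (k : ℝ) • x) (w0 e) := i1
      _ ≤ C1 * (C2 * cf e (b + c1 • w0 e) (w0 e)) := mul_le_mul_of_nonneg_left (i2.trans i3) hC1
      _ = _ := by ring
  have h3 := hL2 P _ s hP hB hs hs1
  rw [← hP2, ← hP2, P8_z, ← hab] at h3
  refine h3.trans (le_of_eq ?_)
  ring

theorem rr_err {R C0 c1 : ℝ} (hR : 0 ≤ R) (hC0 : 0 ≤ C0) (hc : 0 < c1) : ∃ C : ℝ, 0 ≤ C ∧
    ∀ (a x : Bil H) (γ : H → Bil H) (z : H) (s : ℝ),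
    O11 a → O11 x → Nn x → Nn (C0 • w0 e - x) → 0 ≤ s → s ≤ 1 → Nn (a + s • x) →
    (∀ u v : H, O11 (ddc (fun z => γ z u v) z)) →
    (∀ p q, ‖ddc (fun z => γ z (e p) (Complex.I • e q)) z‖ ≤ R) → (∀ p q, ‖ddc (fun z => γ z (e p) (e q)) z‖ ≤ R) →
    |rr e a γ z - rr e (a + s • x) γ z| ≤ C * s * cf e (a + s • x + c1 • w0 e) (w0 e) := by
  obtain ⟨R', hR'⟩ : ∃ R' : ℝ, R' = R + ∑ p, ∑ q, (‖E1 e p q‖ + ‖E2 e p q‖) := ⟨_, rfl⟩
  have hsum : 0 ≤ ∑ p, ∑ q, (‖E1 e p q‖ + ‖E2 e p q‖) :=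
    Finset.sum_nonneg fun _ _ => Finset.sum_nonneg fun _ _ => add_nonneg (P8_nn _) (P8_nn _)
  have hRR : R ≤ R' := by rw [hR']; linarith
  have hE : ∀ p q, ‖E1 e p q‖ + ‖E2 e p q‖ ≤ R' := by
    intro p q
    have h1 : ‖E1 e p q‖ + ‖E2 e p q‖ ≤ ∑ q, (‖E1 e p q‖ + ‖E2 e p q‖) :=
      Finset.single_le_sum (f := fun q => ‖E1 e p q‖ + ‖E2 e p q‖)
        (fun _ _ => add_nonneg (P8_nn _) (P8_nn _)) (Finset.mem_univ q)
    have h2 : ∑ q, (‖E1 e p q‖ + ‖E2 e p q‖) ≤ ∑ p, ∑ q, (‖E1 e p q‖ + ‖E2 e p q‖) :=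
      Finset.single_le_sum (f := fun p => ∑ q, (‖E1 e p q‖ + ‖E2 e p q‖))
        (fun _ _ => Finset.sum_nonneg fun _ _ => add_nonneg (P8_nn _) (P8_nn _)) (Finset.mem_univ p)
    rw [hR']
    linarith
  obtain ⟨C, hC, h⟩ := c2_err e (hR.trans hRR) hC0 hc
  refine ⟨(n : ℝ) * ((n : ℝ) * (C + C)), by positivity, ?_⟩
  intro a x γ z s ha hx hnx hnx' hs hs1 hn hD hD1 hD2
  unfold rr
  rw [← Finset.sum_sub_distrib]
  have key : ∀ p q : Fin n,
      |(mc e 1 a (ddc (fun z => γ z (e p) (Complex.I • e q)) z) (E1 e p q) +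
        mc e 1 a (ddc (fun z => γ z (e p) (e q)) z) (E2 e p q)) -
        (mc e 1 (a + s • x) (ddc (fun z => γ z (e p) (Complex.I • e q)) z) (E1 e p q) +
        mc e 1 (a + s • x) (ddc (fun z => γ z (e p) (e q)) z) (E2 e p q))| ≤
        (C + C) * (s * cf e (a + s • x + c1 • w0 e) (w0 e)) := by
    intro p q
    have h1 := h a x (ddc (fun z => γ z (e p) (Complex.I • e q)) z) (E1 e p q) s ha hx (hD _ _) (E1_O11 e p q)
      hnx hnx' hs hs1 hn ((hD1 p q).trans hRR) (by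
        have := hE p q
        have := norm_nonneg (E2 e p q)
        linarith)
    have h2 := h a x (ddc (fun z => γ z (e p) (e q)) z) (E2 e p q) s ha hx (hD _ _) (E2_O11 e p q)
      hnx hnx' hs hs1 hn ((hD2 p q).trans hRR) (by
        have := hE p q
        have := norm_nonneg (E1 e p q)
        linarith)
    rw [add_sub_add_comm]
    refine (abs_add_le _ _).trans ?_
    linarith
  refine (Finset.abs_sum_le_sum_abs _ _).trans ?_
  have h3 : ∀ p : Fin n, |∑ q, (mc e 1 a (ddc (fun z => γ z (e p) (Complex.I • e q)) z) (E1 e p q) +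
        mc e 1 a (ddc (fun z => γ z (e p) (e q)) z) (E2 e p q)) -
        ∑ q, (mc e 1 (a + s • x) (ddc (fun z => γ z (e p) (Complex.I • e q)) z) (E1 e p q) +
        mc e 1 (a + s • x) (ddc (fun z => γ z (e p) (e q)) z) (E2 e p q))| ≤
        (n : ℝ) * ((C + C) * (s * cf e (a + s • x + c1 • w0 e) (w0 e))) := by
    intro p
    rw [← Finset.sum_sub_distrib]
    refine (Finset.abs_sum_le_sum_abs _ _).trans ?_
    refine (Finset.sum_le_sum fun q _ => key p q).trans (le_of_eq ?_)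
    rw [Finset.sum_const, Finset.card_univ, Fintype.card_fin, nsmul_eq_mul]
  refine (Finset.sum_le_sum fun p _ => h3 p).trans (le_of_eq ?_)
  rw [Finset.sum_const, Finset.card_univ, Fintype.card_fin, nsmul_eq_mul]
  ring

end HDG
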