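import Pool.Agent.HDP.P10
import Pool.Agent.HDP.P8
import Pool.Agent.HDW.W10

/-!
# HDP/P13a: the error term

Fix `q` and `Cq` from `mass_w` (W10). Let `T = b + dd f`, `T' = T + κ • w`. By `glob_rr` (P10) `∑ ∫ c i rr (T i z) (γ i) z = 0`.
On the support of `c i` the metric `w` is comparable with `w0` (`Met_le`, `Met_ge`) and the second derivatives of `γ i` are
bounded, so `rr_err` (P8) and `cf_mono` (W4) bound the difference by a multiple of `κ cf e (T' + (1/2) w) w`. The integrals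
of these terms are `∫ dcf w (b + dd f + (κ + 1/2) • w) w dν` (`int_dcf`), which is bounded with `mass_w`.
-/

set_option autoImplicit false

noncomputable section

open scoped ContDiff Topology

open MeasureTheory

namespace HDG

open Pool.Agent.FBR

variable {H : Type*} [NormedAddCommGroup H] [NormedSpace ℂ H] {n : ℕ} {e : Module.Basis (Fin n) ℂ H}
  [FiniteDimensional ℂ H] [MeasurableSpace H] [BorelSpace H] {μ : Measure H} [μ.IsAddHaarMeasure]
  {Y : Type*} [TopologicalSpace Y] [CompactSpace Y] [T2Space Y] [MeasurableSpace Y] [BorelSpace Y]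
  (B : BM e Y) {w b : B.I → H → Bil H} {ν : Measure Y}

namespace BM

omit [FiniteDimensional ℂ H] [MeasurableSpace H] [BorelSpace H] in
private theorem P13a_sub {z : H} (hz : qf e z ≤ (3 / 2) ^ 2) : z ∈ (qb e 4 : Set H) := by
  show qf e z < 4 ^ 2
  exact lt_of_le_of_lt hz (by norm_num)

omit [MeasurableSpace H] [BorelSpace H] [CompactSpace Y] [T2Space Y] [MeasurableSpace Y] [BorelSpace Y] in
private theorem P13a_cd {γ : B.I → H → Bil H} (hγ : B.IsT γ) {i : B.I} {z : H} (hz : z ∈ qb e 4) (u v : H) :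
    ContDiffAt ℝ ∞ (fun z => γ i z u v) z := by
  have h1 : ContDiffAt ℝ ∞ (γ i) z := (hγ.sm i).contDiffAt ((isOpen_qb e 4).mem_nhds hz)
  exact (h1.clm_apply contDiffAt_const).clm_apply contDiffAt_const

omit [MeasurableSpace H] [BorelSpace H] [CompactSpace Y] [T2Space Y] [MeasurableSpace Y] [BorelSpace Y] in
private theorem P13a_ddc {γ : B.I → H → Bil H} (hγ : B.IsT γ) (i : B.I) (u v : H) :
    ContinuousOn (fun z => ddc (fun z => γ i z u v) z) (qb e 4) := fun z hz =>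
  (ddc_smooth (P13a_cd B hγ hz u v)).continuousAt.continuousWithinAt

omit [MeasurableSpace H] [BorelSpace H] [CompactSpace Y] [T2Space Y] [MeasurableSpace Y] [BorelSpace Y] in
private theorem P13a_bd1 {γ : B.I → H → Bil H} (hγ : B.IsT γ) (u v : H) :
    ∃ R : ℝ, 0 ≤ R ∧ ∀ i z, qf e z ≤ (3 / 2) ^ 2 → ‖ddc (fun z => γ i z u v) z‖ ≤ R := by
  have h1 : ∀ i, ∃ C : ℝ, ∀ z ∈ {z : H | qf e z ≤ (3 / 2) ^ 2}, ‖ddc (fun z => γ i z u v) z‖ ≤ C := fun i =>
    IsCompact.exists_bound_of_continuousOn (E := Bil H) (f := fun z => ddc (fun z => γ i z u v) z)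
      (isCompact_qb e (3 / 2)) ((P13a_ddc B hγ i u v).mono fun z hz => P13a_sub hz)
  choose C hC using h1
  refine ⟨∑ i, |C i|, Finset.sum_nonneg fun i _ => abs_nonneg _, fun i z hz => ?_⟩
  calc ‖ddc (fun z => γ i z u v) z‖ ≤ C i := hC i z hz
    _ ≤ |C i| := le_abs_self _
    _ ≤ ∑ i, |C i| := Finset.single_le_sum (f := fun i => |C i|) (fun i _ => abs_nonneg _)
        (Finset.mem_univ i)

omit [MeasurableSpace H] [BorelSpace H] [CompactSpace Y] [T2Space Y] [MeasurableSpace Y] [BorelSpace Y] in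
private theorem P13a_bd2 {γ : B.I → H → Bil H} (hγ : B.IsT γ) (U V : Fin n → H) :
    ∃ R : ℝ, 0 ≤ R ∧ ∀ i z, qf e z ≤ (3 / 2) ^ 2 → ∀ p q, ‖ddc (fun z => γ i z (U p) (V q)) z‖ ≤ R := by
  have h1 := fun p q : Fin n => P13a_bd1 B hγ (U p) (V q)
  choose C hC0 hC using h1
  refine ⟨∑ p, ∑ q, C p q, Finset.sum_nonneg fun p _ => Finset.sum_nonneg fun q _ => hC0 p q,
    fun i z hz p q => ?_⟩
  refine (hC p q i z hz).trans ?_
  refine (Finset.single_le_sum (f := fun q => C p q) (fun q _ => hC0 p q) (Finset.mem_univ q)).trans ?_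
  exact Finset.single_le_sum (f := fun p => ∑ q, C p q)
    (fun p _ => Finset.sum_nonneg fun q _ => hC0 p q) (Finset.mem_univ p)

omit [MeasurableSpace H] [BorelSpace H] [CompactSpace Y] [T2Space Y] [MeasurableSpace Y] [BorelSpace Y] in
private theorem P13a_bd {γ : B.I → H → Bil H} (hγ : B.IsT γ) :
    ∃ R : ℝ, 0 ≤ R ∧ ∀ i z, qf e z ≤ (3 / 2) ^ 2 →
      (∀ p q, ‖ddc (fun z => γ i z (e p) (Complex.I • e q)) z‖ ≤ R) ∧
      (∀ p q, ‖ddc (fun z => γ i z (e p) (e q)) z‖ ≤ R) := by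
  obtain ⟨R1, h1, h1'⟩ := P13a_bd2 B hγ (fun p => e p) (fun q => Complex.I • e q)
  obtain ⟨R2, h2, h2'⟩ := P13a_bd2 B hγ (fun p => e p) (fun q => e q)
  refine ⟨R1 + R2, add_nonneg h1 h2, fun i z hz => ⟨fun p q => ?_, fun p q => ?_⟩⟩
  · exact (h1' i z hz p q).trans (by linarith)
  · exact (h2' i z hz p q).trans (by linarith)

omit [FiniteDimensional ℂ H] [MeasurableSpace H] [BorelSpace H] in
private theorem P13a_z {c : H → ℝ} (hs : tsupport c ⊆ {z | qf e z ≤ (3 / 2) ^ 2}) {z : H}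
    (hz : ¬ qf e z ≤ (3 / 2) ^ 2) : c z = 0 :=
  image_eq_zero_of_notMem_tsupport fun h => hz (hs h)

private theorem P13a_int {c g : H → ℝ} (hc : ContDiff ℝ ∞ c) (hs : tsupport c ⊆ {z | qf e z ≤ (3 / 2) ^ 2})
    (hg : ContinuousOn g (qb e 4)) : Integrable (fun z => c z * g z) μ := by
  have h1 : tsupport (fun z => c z * g z) ⊆ tsupport c := tsupport_mul_subset_left
  have h2 : Continuous fun z => c z * g z :=
    (hc.continuous.continuousOn.mul hg).continuous_of_tsupport_subset (isOpen_qb e 4)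
      fun z hz => P13a_sub (hs (h1 hz))
  exact h2.integrable_of_hasCompactSupport
    ((isCompact_qb e (3 / 2)).of_isClosed_subset (isClosed_tsupport _) (h1.trans hs))

omit [MeasurableSpace H] [BorelSpace H] in
private theorem P13a_cmc {T S : H → Bil H} {s : Set H} (hT : ContinuousOn T s) (hS : ContinuousOn S s) (E : Bil H) :
    ContinuousOn (fun z => mc e 1 (T z) (S z) E) s := by
  have h1 := mc_continuous e 1
  have h2 : ContinuousOn (fun z => (T z, S z, E)) s := hT.prodMk (hS.prodMk continuousOn_const)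
  exact Continuous.comp_continuousOn (g := fun p : Bil H × Bil H × Bil H => mc e 1 p.1 p.2.1 p.2.2)
    (f := fun z => (T z, S z, E)) h1 h2

omit [MeasurableSpace H] [BorelSpace H] in
private theorem P13a_ccf {P Q : H → Bil H} {s : Set H} (hP : ContinuousOn P s) (hQ : ContinuousOn Q s) :
    ContinuousOn (fun z => cf e (P z) (Q z)) s := by
  have h1 : Continuous fun p : Bil H × Bil H => cf e p.1 p.2 := (cf_smooth e).continuous
  have h2 : ContinuousOn (fun z => (P z, Q z)) s := hP.prodMk hQ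
  exact Continuous.comp_continuousOn (g := fun p : Bil H × Bil H => cf e p.1 p.2) (f := fun z => (P z, Q z)) h1 h2

omit [MeasurableSpace H] [BorelSpace H] [CompactSpace Y] [T2Space Y] [MeasurableSpace Y] [BorelSpace Y] in
private theorem P13a_rr {T γ : B.I → H → Bil H} (hT : B.IsT T) (hγ : B.IsT γ) (i : B.I) :
    ContinuousOn (fun z => rr e (T i z) (γ i) z) (qb e 4) := by
  unfold rr
  refine continuousOn_finset_sum _ fun p _ => continuousOn_finset_sum _ fun q _ => ?_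
  have h1 : ContinuousOn (T i) (qb e 4) := (hT.sm i).continuousOn
  have h2 := P13a_cmc (e := e) (S := fun z => ddc (fun z => γ i z (e p) (Complex.I • e q)) z) h1
    (P13a_ddc B hγ i (e p) (Complex.I • e q)) (E1 e p q)
  have h3 := P13a_cmc (e := e) (S := fun z => ddc (fun z => γ i z (e p) (e q)) z) h1
    (P13a_ddc B hγ i (e p) (e q)) (E2 e p q)
  exact h2.add h3

omit [MeasurableSpace H] [BorelSpace H] [CompactSpace Y] [T2Space Y] [MeasurableSpace Y] [BorelSpace Y] in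
private theorem P13a_cf {T S : B.I → H → Bil H} (hT : B.IsT T) (hS : B.IsT S) (i : B.I) :
    ContinuousOn (fun z => cf e (T i z) (S i z)) (qb e 4) :=
  P13a_ccf (e := e) (P := T i) (Q := S i) (hT.sm i).continuousOn (hS.sm i).continuousOn

omit [FiniteDimensional ℂ H] [MeasurableSpace H] [BorelSpace H] [CompactSpace Y] [T2Space Y]
  [MeasurableSpace Y] [BorelSpace Y] in
private theorem P13a_nn (hw : B.Met w) {i : B.I} {z : H} (hz : z ∈ qb e 4) : Nn (w i z) := by
  intro v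
  by_cases hv : v = 0
  · rw [hv, map_zero]
    exact le_rfl
  · exact (hw.pos i z hz v hv).le

/-- the comparison on the support -/
private theorem P13a_key (hw : B.Met w) (hb : B.IsT b) {γ : B.I → H → Bil H} (hγ : B.IsT γ) :
    ∃ K : ℝ, 0 ≤ K ∧ ∀ (f : Y → ℝ) (κ : ℝ), B.Sm f → 0 ≤ κ → κ ≤ 1 / 2 → B.NnT (b + B.dd f + κ • w) →
      ∀ i z, qf e z ≤ (3 / 2) ^ 2 → rr e ((b + B.dd f + κ • w) i z) (γ i) z ≤
        rr e ((b + B.dd f) i z) (γ i) z + K * κ * cf e ((b + B.dd f + (κ + 1 / 2) • w) i z) (w i z) := by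
  obtain ⟨C0, hC0, hle⟩ := B.Met_le hw (r := 3 / 2) (by norm_num) (by norm_num)
  obtain ⟨c0, hc0, hge⟩ := B.Met_ge hw (r := 3 / 2) (by norm_num) (by norm_num)
  obtain ⟨R, hR, hRb⟩ := P13a_bd B hγ
  obtain ⟨C, hC, herr⟩ := rr_err e hR hC0.le (half_pos hc0)
  refine ⟨C * c0⁻¹, mul_nonneg hC (inv_pos.2 hc0).le, ?_⟩
  intro f κ hf hκ hκ2 hnn i z hz
  have hz4 : z ∈ qb e 4 := P13a_sub hz
  have hT : B.IsT (b + B.dd f) := B.IsT_add hb (B.IsT_dd hf)
  have o1 : O11 ((b + B.dd f) i z) := hT.oo i z hz4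
  have o2 : O11 (w i z) := hw.t.oo i z hz4
  have nw : Nn (w i z) := P13a_nn B hw hz4
  have n1 : Nn ((b + B.dd f) i z + κ • w i z) := hnn i z hz4
  have hd : ∀ u v : H, O11 (ddc (fun z => γ i z u v) z) := fun u v =>
    O11_ddc ((P13a_cd B hγ hz4 u v).of_le (by norm_cast))
  have h1 := herr ((b + B.dd f) i z) (w i z) (γ i) z κ o1 o2 nw (hle i z hz) hκ (by linarith) n1 hd
    (hRb i z hz).1 (hRb i z hz).2
  have ge := hge i z hz
  have o3 : O11 ((b + B.dd f) i z + κ • w i z) := O11_add o1 (O11_smul κ o2)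
  have o4 : O11 ((b + B.dd f) i z + κ • w i z + (c0 / 2) • w0 e) :=
    O11_add o3 (O11_smul _ (w0_O11 e))
  have o5 : O11 ((b + B.dd f) i z + (κ + 1 / 2) • w i z) := O11_add o1 (O11_smul _ o2)
  have n2 : Nn ((b + B.dd f) i z + κ • w i z + (c0 / 2) • w0 e) := by
    intro v
    have h : ((b + B.dd f) i z + κ • w i z + (c0 / 2) • w0 e) v (Complex.I • v) =
      ((b + B.dd f) i z + κ • w i z) v (Complex.I • v) + (c0 / 2) * w0 e v (Complex.I • v) := rfl
    rw [h, w0_self]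
    exact add_nonneg (n1 v) (mul_nonneg (half_pos hc0).le (qf_nonneg e v))
  have n3 : Nn ((b + B.dd f) i z + (κ + 1 / 2) • w i z -
      ((b + B.dd f) i z + κ • w i z + (c0 / 2) • w0 e)) := by
    intro v
    have h : ((b + B.dd f) i z + (κ + 1 / 2) • w i z -
        ((b + B.dd f) i z + κ • w i z + (c0 / 2) • w0 e)) v (Complex.I • v) =
      (b + B.dd f) i z v (Complex.I • v) + (κ + 1 / 2) * w i z v (Complex.I • v) -
        ((b + B.dd f) i z v (Complex.I • v) + κ * w i z v (Complex.I • v) +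
          (c0 / 2) * w0 e v (Complex.I • v)) := rfl
    have h2 := ge v
    have h3 : (w i z - c0 • w0 e) v (Complex.I • v) = w i z v (Complex.I • v) - c0 * w0 e v (Complex.I • v) := rfl
    rw [h3] at h2
    rw [h]
    linarith
  have n4 : Nn (w0 e : Bil H) := by
    intro v
    rw [w0_self]
    exact qf_nonneg e v
  have n5 : Nn (c0⁻¹ • w i z - w0 e) := by
    intro v
    have h : (c0⁻¹ • w i z - w0 e) v (Complex.I • v) =
      c0⁻¹ * w i z v (Complex.I • v) - w0 e v (Complex.I • v) := rfl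
    have h2 := ge v
    have h3 : (w i z - c0 • w0 e) v (Complex.I • v) = w i z v (Complex.I • v) - c0 * w0 e v (Complex.I • v) := rfl
    rw [h3] at h2
    rw [h]
    have h4 := mul_nonneg (inv_pos.2 hc0).le h2
    have h5 : c0⁻¹ * (w i z v (Complex.I • v) - c0 * w0 e v (Complex.I • v)) =
        c0⁻¹ * w i z v (Complex.I • v) - w0 e v (Complex.I • v) := by
      field_simp
    rwa [h5] at h4
  have h2 := cf_mono e o4 o5 (w0_O11 e) (O11_smul c0⁻¹ o2) n2 n3 n4 n5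
  rw [cf_smul] at h2
  have h3 := (abs_le.1 h1).1
  have hCk : 0 ≤ C * κ := mul_nonneg hC hκ
  have h4 := mul_le_mul_of_nonneg_left h2 hCk
  show rr e ((b + B.dd f) i z + κ • w i z) (γ i) z ≤ rr e ((b + B.dd f) i z) (γ i) z +
    C * c0⁻¹ * κ * cf e ((b + B.dd f) i z + (κ + 1 / 2) • w i z) (w i z)
  have h5 : C * κ * (c0⁻¹ * cf e ((b + B.dd f) i z + (κ + 1 / 2) • w i z) (w i z)) =
    C * c0⁻¹ * κ * cf e ((b + B.dd f) i z + (κ + 1 / 2) • w i z) (w i z) := by ring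
  rw [h5] at h4
  linarith

/-- the integral of the local term -/
private theorem P13a_loc (hw : B.Met w) (hν : B.IsVol μ w ν) {S : B.I → H → Bil H} (hS : B.IsT S)
    {χ : B.I → Y → ℝ} {c : B.I → H → ℝ} (hχ : B.Pou χ c) (i : B.I) :
    ∫ z, c i z * cf e (S i z) (w i z) ∂μ = ∫ y, χ i y * B.dcf w S w y ∂ν := by
  have hm : Measurable (χ i) := (B.Sm_cont (hχ.sm i)).measurable
  rw [B.int_dcf hw hν hS hw.t i hm (hχ.out i)]
  have hz0 : ∀ z ∉ (qb e 4 : Set H), c i z * cf e (S i z) (w i z) = 0 := by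
    intro z hz
    rw [P13a_z (hχ.cs i) fun h => hz (P13a_sub h), zero_mul]
  rw [← setIntegral_eq_integral_of_forall_compl_eq_zero hz0]
  refine setIntegral_congr_fun (isOpen_qb e 4).measurableSet fun z hz => ?_
  show c i z * cf e (S i z) (w i z) = χ i (B.ψ i z) * cf e (S i z) (w i z)
  rw [hχ.eq i z hz]

omit [T2Space Y] in
private theorem P13a_ci {ν : Measure Y} (hν : IsFiniteMeasure ν) {f : Y → ℝ} (hf : Continuous f) : Integrable f ν := by
  have := hν
  exact hf.integrable_of_hasCompactSupport (HasCompactSupport.of_compactSpace f)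

private theorem P13a_gp {q M t : ℝ} (hq : 0 < q) (hM : 0 ≤ M) (ht : t ≤ 0) (htM : -(M + 1) ≤ t) :
    1 ≤ (M + 2) ^ q * gp q t := by
  rw [gp_eq q ht]
  have h1 : (M + 2) ^ (-q) ≤ (1 - t) ^ (-q) :=
    Real.rpow_le_rpow_of_nonpos (by linarith) (by linarith) (by linarith)
  have h2 : 0 < (M + 2) ^ q := Real.rpow_pos_of_pos (by linarith) q
  have h3 : (M + 2) ^ q * (M + 2) ^ (-q) = 1 := by
    rw [← Real.rpow_add (by linarith), add_neg_cancel, Real.rpow_zero]
  calc (1 : ℝ) = (M + 2) ^ q * (M + 2) ^ (-q) := h3.symm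
    _ ≤ (M + 2) ^ q * (1 - t) ^ (-q) := mul_le_mul_of_nonneg_left h1 h2.le

theorem err_D [ConnectedSpace Y] (hw : B.Met w) (hν : B.IsVol μ w ν) (hb : B.IsT b) (hc : B.ClT b) (hn2 : 2 ≤ n) {q : ℝ}
    (hq : 0 < q) (hqn : (n : ℝ) - 2 < q) {γ : B.I → H → Bil H} (hγ : B.IsT γ) {χ : B.I → Y → ℝ} {c : B.I → H → ℝ}
    (hχ : B.Pou χ c) : ∃ C : ℝ, 0 ≤ C ∧ ∀ (f : Y → ℝ) (κ M : ℝ), B.Sm f → (∀ y, f y ≤ 0) → (∀ y, -(M + 1) ≤ f y) → 0 ≤ M →
      0 ≤ κ → κ ≤ 1 / 2 → B.NnT (b + B.dd f + κ • w) →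
      ∑ i, ∫ z, c i z * rr e ((b + B.dd f + κ • w) i z) (γ i) z ∂μ ≤ C * (κ * (M + 2) ^ q) := by
  obtain ⟨Cq, hCq0, hCq⟩ := B.mass_w hw hν hb hc hn2 hq hqn
  obtain ⟨K, hK, hkey⟩ := P13a_key B hw hb hγ
  refine ⟨K * Cq, mul_nonneg hK hCq0, ?_⟩
  intro f κ M hf hf0 hfM hM hκ hκ2 hnn
  have hT : B.IsT (b + B.dd f) := B.IsT_add hb (B.IsT_dd hf)
  have hTc : B.ClT (b + B.dd f) := B.ClT_add hb (B.IsT_dd hf) hc (B.ClT_dd hf)
  have hT1 : B.IsT (b + B.dd f + κ • w) := B.IsT_add hT (B.IsT_smul hw.t κ)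
  have hT2 : B.IsT (b + B.dd f + (κ + 1 / 2) • w) := B.IsT_add hT (B.IsT_smul hw.t _)
  have hnn2 : B.NnT (b + B.dd f + (κ + 1 / 2) • w) := by
    intro i z hz v
    have h : (b + B.dd f + (κ + 1 / 2) • w) i z v (Complex.I • v) =
      (b + B.dd f) i z v (Complex.I • v) + (κ + 1 / 2) * w i z v (Complex.I • v) := rfl
    have h2 : (b + B.dd f + κ • w) i z v (Complex.I • v) =
      (b + B.dd f) i z v (Complex.I • v) + κ * w i z v (Complex.I • v) := rfl
    have h3 := hnn i z hz v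
    have h4 := P13a_nn B hw (i := i) hz v
    rw [h2] at h3
    rw [h]
    linarith
  have hcn : ∀ i z, qf e z ≤ (3 / 2) ^ 2 → 0 ≤ c i z := by
    intro i z hz
    rw [← hχ.eq i z (P13a_sub hz)]
    exact hχ.nn i _
  have hloc : ∀ i, ∫ z, c i z * rr e ((b + B.dd f + κ • w) i z) (γ i) z ∂μ ≤
      ∫ z, c i z * rr e ((b + B.dd f) i z) (γ i) z ∂μ +
        K * κ * ∫ y, χ i y * B.dcf w (b + B.dd f + (κ + 1 / 2) • w) w y ∂ν := by
    intro i
    rw [← P13a_loc B hw hν hT2 hχ i, ← integral_const_mul]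
    have i1 : Integrable (fun z => c i z * rr e ((b + B.dd f + κ • w) i z) (γ i) z) μ :=
      P13a_int (hχ.csm i) (hχ.cs i) (P13a_rr B hT1 hγ i)
    have i2 : Integrable (fun z => c i z * rr e ((b + B.dd f) i z) (γ i) z) μ :=
      P13a_int (hχ.csm i) (hχ.cs i) (P13a_rr B hT hγ i)
    have i3 : Integrable (fun z => K * κ * (c i z * cf e ((b + B.dd f + (κ + 1 / 2) • w) i z) (w i z))) μ :=
      (P13a_int (hχ.csm i) (hχ.cs i) (P13a_cf B hT2 hw.t i)).const_mul _
    rw [← integral_add i2 i3]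
    refine integral_mono i1 (i2.add i3) fun z => ?_
    show c i z * rr e ((b + B.dd f + κ • w) i z) (γ i) z ≤ c i z * rr e ((b + B.dd f) i z) (γ i) z +
      K * κ * (c i z * cf e ((b + B.dd f + (κ + 1 / 2) • w) i z) (w i z))
    by_cases hz : qf e z ≤ (3 / 2) ^ 2
    · have h := mul_le_mul_of_nonneg_left (hkey f κ hf hκ hκ2 hnn i z hz) (hcn i z hz)
      refine h.trans (le_of_eq ?_)
      ring
    · rw [P13a_z (hχ.cs i) hz, zero_mul, zero_mul, zero_mul, mul_zero, add_zero]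
  have hD : Continuous (B.dcf w (b + B.dd f + (κ + 1 / 2) • w) w) := B.dcf_cont hw hT2 hw.t
  have hsum : ∑ i, ∫ y, χ i y * B.dcf w (b + B.dd f + (κ + 1 / 2) • w) w y ∂ν =
      ∫ y, B.dcf w (b + B.dd f + (κ + 1 / 2) • w) w y ∂ν := by
    have hi : ∀ i ∈ (Finset.univ : Finset B.I),
        Integrable (fun y => χ i y * B.dcf w (b + B.dd f + (κ + 1 / 2) • w) w y) ν := fun i _ =>
      P13a_ci hν.fin ((B.Sm_cont (hχ.sm i)).mul hD)
    rw [← integral_finsetSum _ hi]
    refine integral_congr_ae (Filter.Eventually.of_forall fun y => ?_)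
    show ∑ i, χ i y * B.dcf w (b + B.dd f + (κ + 1 / 2) • w) w y = _
    rw [← Finset.sum_mul, hχ.sum, one_mul]
  have hmass : ∫ y, B.dcf w (b + B.dd f + (κ + 1 / 2) • w) w y ∂ν ≤ (M + 2) ^ q * Cq := by
    have h1 := hCq f (κ + 1 / 2) hf hf0 (by linarith) (by linarith) hnn2
    have h2 : 0 ≤ (M + 2) ^ q := Real.rpow_nonneg (by linarith) q
    refine le_trans ?_ (mul_le_mul_of_nonneg_left h1 h2)
    rw [← integral_const_mul]
    have hg : Continuous fun y => gp q (f y) := (gp_smooth q).continuous.comp (B.Sm_cont hf)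
    refine integral_mono (P13a_ci hν.fin hD) (P13a_ci hν.fin (continuous_const.mul (hg.mul hD))) fun y => ?_
    show B.dcf w (b + B.dd f + (κ + 1 / 2) • w) w y ≤
      (M + 2) ^ q * (gp q (f y) * B.dcf w (b + B.dd f + (κ + 1 / 2) • w) w y)
    have h3 := P13a_gp hq hM (hf0 y) (hfM y)
    have h4 : 0 ≤ B.dcf w (b + B.dd f + (κ + 1 / 2) • w) w y := by
      rw [← B.mden_one hw hT2]
      exact B.mden_nonneg hw hT2 hnn2 1 y
    have h5 := mul_le_mul_of_nonneg_right h3 h4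
    rw [one_mul, mul_assoc] at h5
    exact h5
  calc ∑ i, ∫ z, c i z * rr e ((b + B.dd f + κ • w) i z) (γ i) z ∂μ
      ≤ ∑ i, (∫ z, c i z * rr e ((b + B.dd f) i z) (γ i) z ∂μ +
        K * κ * ∫ y, χ i y * B.dcf w (b + B.dd f + (κ + 1 / 2) • w) w y ∂ν) :=
        Finset.sum_le_sum fun i _ => hloc i
    _ = K * κ * ∫ y, B.dcf w (b + B.dd f + (κ + 1 / 2) • w) w y ∂ν := by
        rw [Finset.sum_add_distrib, B.glob_rr hw hν hT hTc hγ hχ, zero_add, ← Finset.mul_sum, hsum]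
    _ ≤ K * κ * ((M + 2) ^ q * Cq) := mul_le_mul_of_nonneg_left hmass (mul_nonneg hK hκ)
    _ = K * Cq * (κ * (M + 2) ^ q) := by ring

end BM

end HDG
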