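import Pool.Agent.HDP.P7b
import Pool.Agent.HDG.H4
import Pool.Agent.HDW.W8
import Pool.Agent.HDW.W7

/-!
# HDP/P13b: the lower bound

`rr e (w0 e)` of the field `γ i0` is positive near a point `z0` with `psi ≠ 0` (`rr_zero`); the Harnack inequality bounds the integral of `|f|`, so
`f ≥ - R` on a large part of a neighbourhood of `z0`, with `R` independent of `f`. There the tensor `b + dd f + κ w` is at least a fixed multiple of `w0`, and `rr` is
monotone. All other parts of the integrals are nonnegative.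
-/

set_option autoImplicit false

noncomputable section

open scoped ContDiff Topology

open MeasureTheory

namespace HDG

open Pool.Agent.FBR

section Loc

variable {H : Type*} [NormedAddCommGroup H] [NormedSpace ℂ H] [FiniteDimensional ℂ H] {n : ℕ}
  (e : Module.Basis (Fin n) ℂ H)

omit [FiniteDimensional ℂ H] in
private theorem P13b_psi {γ γ' : H → Bil H} {z : H} (h : γ =ᶠ[𝓝 z] γ') (u v : H) : psi γ z u v = psi γ' z u v := by
  have h1 : ∀ a b : H, ddc (fun z => γ z a b) z = ddc (fun z => γ' z a b) z := fun a b =>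
    ddc_congr (h.mono fun x hx => by
      show γ x a b = γ' x a b
      rw [hx])
  unfold psi
  rw [h1, h1, h1, h1]

private theorem P13b_rr {γ γ' : H → Bil H} {z : H} (h : γ =ᶠ[𝓝 z] γ') (a : Bil H) : rr e a γ z = rr e a γ' z := by
  have h1 : ∀ a b : H, ddc (fun z => γ z a b) z = ddc (fun z => γ' z a b) z := fun a b =>
    ddc_congr (h.mono fun x hx => by
      show γ x a b = γ' x a b
      rw [hx])
  unfold rr
  refine Finset.sum_congr rfl fun p _ => Finset.sum_congr rfl fun q _ => ?_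
  rw [h1, h1]

private theorem P13b_mc {D : H → Bil H} (hD : Continuous D) (E : Bil H) :
    Continuous fun q : Bil H × H => mc e 1 q.1 (D q.2) E := by
  have h2 : Continuous fun q : Bil H × H => D q.2 := hD.comp continuous_snd
  have h0 : Continuous fun q : Bil H × H => ((q.1, D q.2, E) : Bil H × Bil H × Bil H) :=
    Continuous.prodMk continuous_fst (Continuous.prodMk h2 continuous_const)
  have h1 : Continuous ((fun p : Bil H × Bil H × Bil H => mc e 1 p.1 p.2.1 p.2.2) ∘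
    fun q : Bil H × H => ((q.1, D q.2, E) : Bil H × Bil H × Bil H)) := (mc_continuous e 1).comp h0
  exact h1

omit [FiniteDimensional ℂ H] in
private theorem P13b_dc {γ : H → Bil H} (hγ : ContDiff ℝ ∞ γ) (a b : H) : Continuous (ddc (fun z => γ z a b)) := by
  rw [continuous_iff_continuousAt]
  intro z
  have h3 : ContDiff ℝ ∞ (fun z => γ z a) := hγ.clm_apply contDiff_const
  have h2 : ContDiff ℝ ∞ (fun z => γ z a b) := h3.clm_apply contDiff_const
  exact (ddc_smooth h2.contDiffAt).continuousAt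

private theorem P13b_cont {γ : H → Bil H} (hγ : ContDiff ℝ ∞ γ) : Continuous fun q : Bil H × H => rr e q.1 γ q.2 := by
  unfold rr
  exact continuous_finsetSum _ fun p _ => continuous_finsetSum _ fun q _ =>
    (P13b_mc e (P13b_dc hγ _ _) _).add (P13b_mc e (P13b_dc hγ _ _) _)

private theorem P13b_contz {γ : H → Bil H} (hγ : ContDiff ℝ ∞ γ) (a : Bil H) : Continuous fun z : H => rr e a γ z := by
  have h0 : Continuous fun z : H => ((a, z) : Bil H × H) := Continuous.prodMk continuous_const continuous_id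
  have h1 : Continuous ((fun q : Bil H × H => rr e q.1 γ q.2) ∘ fun z : H => ((a, z) : Bil H × H)) :=
    (P13b_cont e hγ).comp h0
  exact h1

omit [FiniteDimensional ℂ H] in
private theorem P13b_sub (a : Bil H) : Nn (a - a) := fun v => by
  show 0 ≤ a v (Complex.I • v) - a v (Complex.I • v)
  rw [sub_self]

end Loc

variable {H : Type*} [NormedAddCommGroup H] [NormedSpace ℂ H] {n : ℕ} {e : Module.Basis (Fin n) ℂ H}
  [FiniteDimensional ℂ H] [MeasurableSpace H] [BorelSpace H] {μ : Measure H} [μ.IsAddHaarMeasure]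
  {Y : Type*} [TopologicalSpace Y] [CompactSpace Y] [T2Space Y] [MeasurableSpace Y] [BorelSpace Y]
  (B : BM e Y) {w b : B.I → H → Bil H} {ν : Measure Y}

namespace BM

omit [MeasurableSpace H] [BorelSpace H] [CompactSpace Y] [T2Space Y] [MeasurableSpace Y] [BorelSpace Y] in
private theorem P13b_loc {γ : B.I → H → Bil H} (hγ : B.IsT γ) (i : B.I) :
    ∃ g : H → Bil H, ContDiff ℝ ∞ g ∧ (∀ z, O11 (g z)) ∧ ∀ z ∈ qb e (7 / 2), (∀ a, rr e a (γ i) z = rr e a g z) ∧
      ∀ u v, psi (γ i) z u v = psi g z u v := by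
  obtain ⟨g, hg, hgo, hge, -⟩ := B.loc_ten hγ i
  refine ⟨g, hg, hgo, fun z hz => ?_⟩
  have h1 : γ i =ᶠ[𝓝 z] g := by
    filter_upwards [(isOpen_qb e (7 / 2)).mem_nhds hz] with x hx
    have hx' : qf e x < (7 / 2) ^ 2 := hx
    exact (hge x hx'.le).symm
  exact ⟨fun a => P13b_rr e h1 a, fun u v => P13b_psi h1 u v⟩

omit [MeasurableSpace H] [BorelSpace H] [CompactSpace Y] [T2Space Y] [MeasurableSpace Y] [BorelSpace Y] in
private theorem P13b_mono {γ : B.I → H → Bil H} (hγ : B.IsT γ)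
    (hpsi : ∀ i, ∀ z ∈ qb e 4, ∀ u v : H, 0 ≤ psi (γ i) z u v) {i : B.I} {z : H} (hz : z ∈ qb e (7 / 2))
    {a a' : Bil H} (ha : O11 a) (ha' : O11 a') (h : Nn a) (h' : Nn (a' - a)) :
    0 ≤ rr e a (γ i) z ∧ rr e a (γ i) z ≤ rr e a' (γ i) z := by
  obtain ⟨g, hg, hgo, hge⟩ := B.P13b_loc hγ i
  have hz4 : z ∈ qb e 4 := qb_mono (by norm_num) (by norm_num) hz
  rw [(hge z hz).1, (hge z hz).1]
  refine rr_mono e ha ha' h h' hg hgo fun u v => ?_
  rw [← (hge z hz).2]
  exact hpsi i z hz4 u v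

omit [CompactSpace Y] [T2Space Y] [MeasurableSpace Y] [BorelSpace Y] in
private theorem P13b_int {γ : B.I → H → Bil H} (hγ : B.IsT γ)
    (hpsi : ∀ i, ∀ z ∈ qb e 4, ∀ u v : H, 0 ≤ psi (γ i) z u v) {χ : B.I → Y → ℝ} {c : B.I → H → ℝ} (hχ : B.Pou χ c)
    {a : B.I → H → Bil H} (ha : B.IsT a) (hn : B.NnT a) (i : B.I) :
    Integrable (fun z => c i z * rr e (a i z) (γ i) z) μ ∧ ∀ z, 0 ≤ c i z * rr e (a i z) (γ i) z := by
  have hsub : tsupport (c i) ⊆ qb e (7 / 2) := by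
    intro z hz
    have h1 : qf e z ≤ (3 / 2) ^ 2 := hχ.cs i hz
    show qf e z < (7 / 2) ^ 2
    linarith
  have h47 : (qb e (7 / 2) : Set H) ⊆ qb e 4 := qb_mono (by norm_num) (by norm_num)
  constructor
  · obtain ⟨g, hg, hgo, hge⟩ := B.P13b_loc hγ i
    have hcs : HasCompactSupport (c i) :=
      (isCompact_qb e (3 / 2)).of_isClosed_subset (isClosed_tsupport _) (hχ.cs i)
    have hcont : Continuous (fun z => c i z * rr e (a i z) (γ i) z) := by
      rw [continuous_iff_continuousAt]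
      intro z
      by_cases hz : z ∈ qb e (7 / 2)
      · refine ContinuousAt.mul (hχ.csm i).continuous.continuousAt ?_
        have h1 : ContinuousAt (fun z => rr e (a i z) g z) z := by
          have h2 : ContinuousAt (a i) z :=
            ((ha.sm i).contDiffAt ((isOpen_qb e 4).mem_nhds (h47 hz))).continuousAt
          exact ContinuousAt.comp (g := fun q : Bil H × H => rr e q.1 g q.2) (f := fun z => (a i z, z))
            (P13b_cont e hg).continuousAt (h2.prodMk continuousAt_id)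
        refine h1.congr ?_
        filter_upwards [(isOpen_qb e (7 / 2)).mem_nhds hz] with x hx
        exact ((hge x hx).1 _).symm
      · have hz' : z ∈ (tsupport (c i))ᶜ := fun h => hz (hsub h)
        have h1 : (fun z => c i z * rr e (a i z) (γ i) z) =ᶠ[𝓝 z] fun _ => 0 := by
          filter_upwards [(isClosed_tsupport (c i)).isOpen_compl.mem_nhds hz'] with x hx
          rw [image_eq_zero_of_notMem_tsupport hx, zero_mul]
        exact continuousAt_const.congr h1.symm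
    exact hcont.integrable_of_hasCompactSupport hcs.mul_right
  · intro z
    by_cases hz : z ∈ tsupport (c i)
    · have hz7 := hsub hz
      have hz4 := h47 hz7
      have h1 : 0 ≤ c i z := by
        rw [← hχ.eq i z hz4]
        exact hχ.nn i _
      refine mul_nonneg h1 (B.P13b_mono hγ hpsi hz7 (ha.oo i z hz4) (ha.oo i z hz4) (hn i z hz4) (P13b_sub _)).1
    · rw [image_eq_zero_of_notMem_tsupport hz, zero_mul]

omit [MeasurableSpace H] [BorelSpace H] [CompactSpace Y] [T2Space Y] [MeasurableSpace Y] [BorelSpace Y] in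
private theorem P13b_dt (hw : B.Met w) (i : B.I) : ∃ c : ℝ, 0 < c ∧ ∀ z ∈ qb e 1, c ≤ dt e (w i z) := by
  have h14 : {z : H | qf e z ≤ 1 ^ 2} ⊆ qb e 4 := by
    intro z hz
    have h1 : qf e z ≤ 1 ^ 2 := hz
    show qf e z < 4 ^ 2
    linarith
  have hcont : ContinuousOn (fun z => dt e (w i z)) {z : H | qf e z ≤ 1 ^ 2} :=
    ((dt_smooth e).continuous.comp_continuousOn (hw.t.sm i).continuousOn).mono h14
  have hne : ({z : H | qf e z ≤ 1 ^ 2}).Nonempty := by
    refine ⟨0, ?_⟩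
    show qf e 0 ≤ 1 ^ 2
    unfold qf
    simp
  obtain ⟨z1, hz1, hmin⟩ := (isCompact_qb e 1).exists_isMinOn hne hcont
  refine ⟨dt e (w i z1), B.dt_w_pos hw (h14 hz1), fun z hz => ?_⟩
  have hz' : qf e z < 1 ^ 2 := hz
  exact hmin (show z ∈ {z : H | qf e z ≤ 1 ^ 2} from hz'.le)

private theorem P13b_mass [ConnectedSpace Y] (hw : B.Met w) (hν : B.IsVol μ w ν) (hb : B.IsT b) {p δ : ℝ}
    (hδ : 0 < δ) (i : B.I) :
    ∃ K : ℝ, 0 ≤ K ∧ ∀ (f : Y → ℝ) (κ : ℝ), B.Sm f → (∀ y, f y ≤ 0) → (∃ y, f y = 0) → κ ≤ 1 →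
      B.NnT (b + B.dd f + B.wt (fun y => κ - δ * gp p (f y)) w) → ∀ R : ℝ, 0 < R →
      μ (qb e 1 ∩ (fun z => f (B.ψ i z)) ⁻¹' Set.Iio (-R)) ≤ ENNReal.ofReal (K / R) := by
  have hfin := hν.fin
  obtain ⟨CH, hCH, hH⟩ := B.harnack hw hν
  obtain ⟨Cb, hCb, hbd⟩ := B.NnT_dom (B.IsT_smul hb (-1)) hw
  obtain ⟨cd, hcd, hcdt⟩ := B.P13b_dt hw i
  have h14 : (qb e 1 : Set H) ⊆ qb e 4 := qb_mono zero_le_one (by norm_num)
  have hL : 0 < Cb + 1 := by linarith
  refine ⟨(Cb + 1) * CH / cd, by positivity, ?_⟩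
  intro f κ hf hf0 hfz hκ hn R hR
  obtain ⟨y0, hy0⟩ := hfz
  -- the integral of |f|
  have hint : ∫ y, |f y| ∂ν ≤ (Cb + 1) * CH := by
    have h1 : B.Sm fun y => (Cb + 1)⁻¹ * f y := B.Sm_mul (B.Sm_const _) hf
    have h2 : B.NnT (B.dd (fun y => (Cb + 1)⁻¹ * f y) + w) := by
      intro i z hz v
      have e1 : (B.dd (fun y => (Cb + 1)⁻¹ * f y) + w) i z = (Cb + 1)⁻¹ • B.dd f i z + w i z := by
        rw [← B.dd_smul hf _ hz]
        rfl
      have e2 : ((Cb + 1)⁻¹ • B.dd f i z + w i z) v (Complex.I • v) =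
          (Cb + 1)⁻¹ * (B.dd f i z v (Complex.I • v) + (Cb + 1) * w i z v (Complex.I • v)) := by
        show (Cb + 1)⁻¹ * B.dd f i z v (Complex.I • v) + w i z v (Complex.I • v) = _
        field_simp
      have hwp : 0 ≤ w i z v (Complex.I • v) := by
        by_cases hv : v = 0
        · rw [hv, smul_zero, map_zero]
        · exact (hw.pos i z hz v hv).le
      have h3 : 0 ≤ b i z v (Complex.I • v) + B.dd f i z v (Complex.I • v) +
          (κ - δ * gp p (f (B.ψ i z))) * w i z v (Complex.I • v) := hn i z hz v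
      have h4 : 0 ≤ Cb * w i z v (Complex.I • v) + (-1) * b i z v (Complex.I • v) := hbd i z hz v
      have h5 : 0 ≤ δ * gp p (f (B.ψ i z)) * w i z v (Complex.I • v) :=
        mul_nonneg (mul_nonneg hδ.le (gp_pos p _).le) hwp
      have h6 : κ * w i z v (Complex.I • v) ≤ 1 * w i z v (Complex.I • v) := mul_le_mul_of_nonneg_right hκ hwp
      rw [e1, e2]
      refine mul_nonneg (inv_nonneg.mpr hL.le) ?_
      nlinarith
    have h3 := hH _ h1 h2 (fun y => mul_nonpos_of_nonneg_of_nonpos (inv_nonneg.mpr hL.le) (hf0 y))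
      ⟨y0, by rw [hy0, mul_zero]; norm_num⟩
    have h4 : (fun y => |(Cb + 1)⁻¹ * f y|) = fun y => (Cb + 1)⁻¹ * |f y| := by
      funext y
      rw [abs_mul, abs_of_nonneg (inv_nonneg.mpr hL.le)]
    rw [h4, integral_const_mul] at h3
    have h5 := mul_le_mul_of_nonneg_left h3 hL.le
    rwa [← mul_assoc, mul_inv_cancel₀ hL.ne', one_mul] at h5
  have hfi : Integrable (fun y => |f y|) ν :=
    (B.Sm_cont hf).abs.integrable_of_hasCompactSupport (HasCompactSupport.of_compactSpace _)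
  have hcheb := mul_meas_ge_le_integral_of_nonneg (μ := ν) (f := fun y => |f y|)
    (Filter.Eventually.of_forall fun y => abs_nonneg _) hfi R
  obtain ⟨A0, hA0⟩ : ∃ A0 : Set Y, A0 = {y | R ≤ |f y|} := ⟨_, rfl⟩
  rw [← hA0] at hcheb
  have hνA : ν A0 ≤ ENNReal.ofReal ((Cb + 1) * CH / R) := by
    rw [← ENNReal.ofReal_toReal (measure_ne_top ν A0)]
    refine ENNReal.ofReal_le_ofReal ?_
    rw [le_div_iff₀ hR]
    have : (ν A0).toReal = ν.real A0 := rfl
    rw [this]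
    linarith
  -- the set in the ball
  obtain ⟨S, hS⟩ : ∃ S : Set H, S = qb e 1 ∩ (fun z => f (B.ψ i z)) ⁻¹' Set.Iio (-R) := ⟨_, rfl⟩
  have hSo : IsOpen S := by
    rw [hS]
    have h1 : ContinuousOn (fun z => f (B.ψ i z)) (qb e 1) :=
      (B.Sm_cont hf).comp_continuousOn ((B.cont i).mono h14)
    exact h1.isOpen_inter_preimage (isOpen_qb e 1) isOpen_Iio
  have hS4 : S ⊆ qb e 4 := by
    rw [hS]
    exact Set.inter_subset_left.trans h14
  obtain ⟨A, hA⟩ : ∃ A : Set Y, A = B.ψ i '' S := ⟨_, rfl⟩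
  have hAo : IsOpen A := by
    rw [hA]
    exact B.opn i S hS4 hSo
  have hAA : A ⊆ A0 := by
    rw [hA, hA0]
    rintro y ⟨z, hz, rfl⟩
    rw [hS] at hz
    have h1 : f (B.ψ i z) < -R := hz.2
    show R ≤ |f (B.ψ i z)|
    have h2 := neg_le_abs (f (B.ψ i z))
    linarith
  have hbox := hν.box i (A.indicator 1) (measurable_one.indicator hAo.measurableSet)
  have h1 : ∫⁻ y in B.ψ i '' qb e 4, A.indicator 1 y ∂ν ≤ ν A := by
    refine (lintegral_mono' Measure.restrict_le_self le_rfl).trans ?_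
    rw [lintegral_indicator_one hAo.measurableSet]
  have h2 : ENNReal.ofReal cd * μ S ≤ ∫⁻ z in qb e 4, A.indicator 1 (B.ψ i z) * ENNReal.ofReal (dt e (w i z)) ∂μ := by
    have h3 : ENNReal.ofReal cd * μ S = ∫⁻ z in qb e 4, S.indicator (fun _ => ENNReal.ofReal cd) z ∂μ := by
      rw [lintegral_indicator_const hSo.measurableSet, Measure.restrict_apply hSo.measurableSet,
        Set.inter_eq_left.mpr hS4]
    rw [h3]
    refine lintegral_mono fun z => ?_
    by_cases hz : z ∈ S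
    · rw [Set.indicator_of_mem hz]
      have hzA : B.ψ i z ∈ A := by
        rw [hA]
        exact ⟨z, hz, rfl⟩
      rw [Set.indicator_of_mem hzA, Pi.one_apply, one_mul]
      refine ENNReal.ofReal_le_ofReal (hcdt z ?_)
      rw [hS] at hz
      exact hz.1
    · rw [Set.indicator_of_notMem hz]
      exact zero_le
  have h3 : ENNReal.ofReal cd * μ S ≤ ENNReal.ofReal ((Cb + 1) * CH / R) :=
    (h2.trans (hbox.symm.le.trans h1)).trans ((measure_mono hAA).trans hνA)
  rw [← hS]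
  have hcd' : ENNReal.ofReal cd ≠ 0 := (ENNReal.ofReal_pos.mpr hcd).ne'
  have h4 : μ S ≤ ENNReal.ofReal ((Cb + 1) * CH / R) / ENNReal.ofReal cd := by
    rw [ENNReal.le_div_iff_mul_le (Or.inl hcd') (Or.inl ENNReal.ofReal_ne_top), mul_comm]
    exact h3
  rw [← ENNReal.ofReal_div_of_pos hcd] at h4
  have h5 : (Cb + 1) * CH / R / cd = (Cb + 1) * CH / cd / R := by
    rw [div_div, div_div, mul_comm R cd]
  rwa [h5] at h4

theorem low_D [ConnectedSpace Y] (hw : B.Met w) (hν : B.IsVol μ w ν) (hb : B.IsT b) (hn2 : 2 ≤ n) {p δ : ℝ}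
    (hp : 0 < p) (hδ : 0 < δ) {γ : B.I → H → Bil H} (hγ : B.IsT γ)
    (hpsi : ∀ i, ∀ z ∈ qb e 4, ∀ u v : H, 0 ≤ psi (γ i) z u v) {χ : B.I → Y → ℝ} {c : B.I → H → ℝ} (hχ : B.Pou χ c)
    (hpos : ∀ i, ∀ z ∈ qb e 1, 0 < c i z) {i0 : B.I} {z0 u v : H} (hz0 : z0 ∈ qb e 1) (h0 : psi (γ i0) z0 u v ≠ 0) :
    ∃ η : ℝ, 0 < η ∧ ∀ (f : Y → ℝ) (κ : ℝ), B.Sm f → (∀ y, f y ≤ 0) → (∃ y, f y = 0) → 0 ≤ κ → κ ≤ 1 →
      B.NnT (b + B.dd f + B.wt (fun y => κ - δ * gp p (f y)) w) →
      η ≤ ∑ i, ∫ z, c i z * rr e ((b + B.dd f + κ • w) i z) (γ i) z ∂μ := by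
  classical
  have h17 : (qb e 1 : Set H) ⊆ qb e (7 / 2) := qb_mono zero_le_one (by norm_num)
  have h14 : (qb e 1 : Set H) ⊆ qb e 4 := qb_mono zero_le_one (by norm_num)
  obtain ⟨g, hg, hgo, hge⟩ := B.P13b_loc hγ i0
  have hw0 : O11 (w0 e : Bil H) := by
    unfold w0
    exact O11_smul _ (O11_ddc ((qf_smooth e).contDiffAt.of_le (by norm_cast)))
  have hNw0 : Nn (w0 e : Bil H) := fun v => by
    rw [w0_self]
    exact qf_nonneg e v
  have hpg : ∀ z ∈ qb e (7 / 2), ∀ u v : H, 0 ≤ psi g z u v := fun z hz u v => by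
    rw [← (hge z hz).2]
    exact hpsi i0 z (qb_mono (by norm_num) (by norm_num) hz) u v
  have hr0 : 0 < rr e (w0 e) g z0 := by
    have h1 : 0 ≤ rr e (w0 e) g z0 :=
      (rr_mono e hw0 hw0 hNw0 (P13b_sub _) hg hgo (hpg z0 (h17 hz0))).1
    refine lt_of_le_of_ne h1 fun h2 => h0 ?_
    rw [(hge z0 (h17 hz0)).2]
    exact rr_zero e hn2 hg hgo (hpg z0 (h17 hz0)) h2.symm u v
  have hF : Continuous fun z => c i0 z * rr e (w0 e) g z :=
    (hχ.csm i0).continuous.mul (P13b_contz e hg (w0 e))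
  obtain ⟨r0, hr0d⟩ : ∃ r0 : ℝ, r0 = c i0 z0 * rr e (w0 e) g z0 / 2 := ⟨_, rfl⟩
  have hr00 : 0 < c i0 z0 * rr e (w0 e) g z0 := mul_pos (hpos i0 z0 hz0) hr0
  have hr0p : 0 < r0 := by
    rw [hr0d]
    exact half_pos hr00
  obtain ⟨U, hU⟩ : ∃ U : Set H, U = qb e 1 ∩ (fun z => c i0 z * rr e (w0 e) g z) ⁻¹' Set.Ioi r0 := ⟨_, rfl⟩
  have hUo : IsOpen U := by
    rw [hU]
    exact (isOpen_qb e 1).inter (isOpen_Ioi.preimage hF)
  have hUz : z0 ∈ U := by
    rw [hU]
    refine ⟨hz0, ?_⟩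
    show r0 < c i0 z0 * rr e (w0 e) g z0
    rw [hr0d]
    exact half_lt_self hr00
  have hU1 : U ⊆ qb e 1 := by
    rw [hU]
    exact Set.inter_subset_left
  have hUfin : μ U ≠ ⊤ := by
    refine ne_top_of_le_ne_top (isCompact_qb e 1).measure_lt_top.ne (measure_mono fun z hz => ?_)
    have h1 : qf e z < 1 ^ 2 := hU1 hz
    exact h1.le
  have hUpos : 0 < μ U := hUo.measure_pos μ ⟨z0, hUz⟩
  have hm : 0 < μ.real U := ENNReal.toReal_pos hUpos.ne' hUfin
  obtain ⟨K, hK, hmass⟩ := B.P13b_mass (μ := μ) (p := p) hw hν hb hδ i0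
  obtain ⟨cm, hcm, hmet⟩ := B.Met_ge hw (r := 1) zero_le_one (by norm_num)
  obtain ⟨R, hRd⟩ : ∃ R : ℝ, R = 2 * K / μ.real U + 1 := ⟨_, rfl⟩
  have hR : 0 < R := by
    rw [hRd]
    positivity
  have hKR : K / R ≤ μ.real U / 2 := by
    rw [div_le_iff₀ hR, hRd]
    have h1 : μ.real U / 2 * (2 * K / μ.real U + 1) = K + μ.real U / 2 := by
      field_simp
    rw [h1]
    linarith
  obtain ⟨s, hsd⟩ : ∃ s : ℝ, s = δ * gp p (-R) * cm := ⟨_, rfl⟩
  have hs : 0 < s := by
    rw [hsd]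
    exact mul_pos (mul_pos hδ (gp_pos p _)) hcm
  refine ⟨s ^ (n - 2) * r0 * (μ.real U / 2), by positivity, ?_⟩
  intro f κ hf hf0 hfz hκ0 hκ1 hn
  have hTt : B.IsT (b + B.dd f + κ • w) := B.IsT_add (B.IsT_add hb (B.IsT_dd hf)) (B.IsT_smul hw.t κ)
  have hwp : ∀ i, ∀ z ∈ qb e 4, ∀ v : H, 0 ≤ w i z v (Complex.I • v) := fun i z hz v => by
    by_cases hv : v = 0
    · rw [hv, smul_zero, map_zero]
    · exact (hw.pos i z hz v hv).le
  have hTn : B.NnT (b + B.dd f + κ • w) := by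
    intro i z hz v
    have h3 : 0 ≤ b i z v (Complex.I • v) + B.dd f i z v (Complex.I • v) +
        (κ - δ * gp p (f (B.ψ i z))) * w i z v (Complex.I • v) := hn i z hz v
    have h5 : 0 ≤ δ * gp p (f (B.ψ i z)) * w i z v (Complex.I • v) :=
      mul_nonneg (mul_nonneg hδ.le (gp_pos p _).le) (hwp i z hz v)
    show 0 ≤ b i z v (Complex.I • v) + B.dd f i z v (Complex.I • v) + κ * w i z v (Complex.I • v)
    linarith
  have hI := fun i => B.P13b_int (μ := μ) hγ hpsi hχ hTt hTn i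
  have hsum : ∫ z, c i0 z * rr e ((b + B.dd f + κ • w) i0 z) (γ i0) z ∂μ ≤
      ∑ i, ∫ z, c i z * rr e ((b + B.dd f + κ • w) i z) (γ i) z ∂μ :=
    Finset.single_le_sum (f := fun i => ∫ z, c i z * rr e ((b + B.dd f + κ • w) i z) (γ i) z ∂μ)
      (fun i _ => integral_nonneg (hI i).2) (Finset.mem_univ i0)
  refine le_trans ?_ hsum
  obtain ⟨S, hS⟩ : ∃ S : Set H, S = qb e 1 ∩ (fun z => f (B.ψ i0 z)) ⁻¹' Set.Iio (-R) := ⟨_, rfl⟩
  have hSo : IsOpen S := by
    rw [hS]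
    have h1 : ContinuousOn (fun z => f (B.ψ i0 z)) (qb e 1) :=
      (B.Sm_cont hf).comp_continuousOn ((B.cont i0).mono h14)
    exact h1.isOpen_inter_preimage (isOpen_qb e 1) isOpen_Iio
  have hSm := hmass f κ hf hf0 hfz hκ1 hn R hR
  rw [← hS] at hSm
  have hUS : MeasurableSet (U \ S) := hUo.measurableSet.diff hSo.measurableSet
  have hUSfin : μ (U \ S) ≠ ⊤ := ne_top_of_le_ne_top hUfin (measure_mono Set.sdiff_subset)
  have hUSm : μ.real U / 2 ≤ μ.real (U \ S) := by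
    have h1 : μ U ≤ μ (U \ S) + μ S := by
      refine (measure_mono ?_).trans (measure_union_le (U \ S) S)
      intro z hz
      by_cases hzS : z ∈ S
      · exact Or.inr hzS
      · exact Or.inl ⟨hz, hzS⟩
    have hSfin : μ S ≠ ⊤ := ne_top_of_le_ne_top ENNReal.ofReal_ne_top hSm
    have h2 : (μ U).toReal ≤ (μ (U \ S)).toReal + (μ S).toReal := by
      rw [← ENNReal.toReal_add hUSfin hSfin]
      exact ENNReal.toReal_mono (ENNReal.add_ne_top.mpr ⟨hUSfin, hSfin⟩) h1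
    have h3 : (μ S).toReal ≤ K / R := by
      refine ENNReal.toReal_le_of_le_ofReal (by positivity) hSm
    have h4 : (μ U).toReal = μ.real U := rfl
    have h5 : (μ (U \ S)).toReal = μ.real (U \ S) := rfl
    rw [h4, h5] at h2
    linarith
  have hlow : ∀ z ∈ U \ S, s ^ (n - 2) * r0 ≤ c i0 z * rr e ((b + B.dd f + κ • w) i0 z) (γ i0) z := by
    intro z hz
    have hz1 : z ∈ qb e 1 := hU1 hz.1
    have hz4 := h14 hz1
    have hfR : -R ≤ f (B.ψ i0 z) := by
      by_contra hcon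
      refine hz.2 ?_
      rw [hS]
      exact ⟨hz1, not_le.mp hcon⟩
    have hgp : gp p (-R) ≤ gp p (f (B.ψ i0 z)) := gp_mono hp.le hfR (hf0 _)
    have hdom : Nn ((b + B.dd f + κ • w) i0 z - s • w0 e) := by
      intro v
      have h3 : 0 ≤ b i0 z v (Complex.I • v) + B.dd f i0 z v (Complex.I • v) +
          (κ - δ * gp p (f (B.ψ i0 z))) * w i0 z v (Complex.I • v) := hn i0 z hz4 v
      have hz1' : qf e z < 1 ^ 2 := hz1
      have h4 : 0 ≤ w i0 z v (Complex.I • v) - cm * w0 e v (Complex.I • v) := hmet i0 z hz1'.le v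
      have h5 : 0 ≤ (gp p (f (B.ψ i0 z)) - gp p (-R)) * w i0 z v (Complex.I • v) :=
        mul_nonneg (sub_nonneg.mpr hgp) (hwp i0 z hz4 v)
      have h6 : 0 ≤ δ * ((gp p (f (B.ψ i0 z)) - gp p (-R)) * w i0 z v (Complex.I • v)) := mul_nonneg hδ.le h5
      have h7 : 0 ≤ δ * gp p (-R) * (w i0 z v (Complex.I • v) - cm * w0 e v (Complex.I • v)) :=
        mul_nonneg (mul_nonneg hδ.le (gp_pos p _).le) h4
      show 0 ≤ b i0 z v (Complex.I • v) + B.dd f i0 z v (Complex.I • v) + κ * w i0 z v (Complex.I • v) -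
        s * w0 e v (Complex.I • v)
      rw [hsd]
      nlinarith
    have hmono := (B.P13b_mono hγ hpsi (i := i0) (h17 hz1) (O11_smul s hw0) (hTt.oo i0 z hz4)
      (fun v => by
        show 0 ≤ s * w0 e v (Complex.I • v)
        exact mul_nonneg hs.le (hNw0 v)) hdom).2
    rw [rr_scale e hn2, (hge z (h17 hz1)).1] at hmono
    have hUz' : r0 < c i0 z * rr e (w0 e) g z := by
      have h1 := hz.1
      rw [hU] at h1
      exact h1.2
    have hc := hpos i0 z hz1
    have h1 : s ^ (n - 2) * r0 ≤ s ^ (n - 2) * (c i0 z * rr e (w0 e) g z) :=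
      mul_le_mul_of_nonneg_left hUz'.le (pow_nonneg hs.le _)
    have h2 := mul_le_mul_of_nonneg_left hmono hc.le
    calc s ^ (n - 2) * r0 ≤ s ^ (n - 2) * (c i0 z * rr e (w0 e) g z) := h1
      _ = c i0 z * (s ^ (n - 2) * rr e (w0 e) g z) := by ring
      _ ≤ _ := h2
  have h1 := setIntegral_ge_of_const_le hUS hUSfin hlow (hI i0).1.integrableOn
  have h2 : ∫ z in U \ S, c i0 z * rr e ((b + B.dd f + κ • w) i0 z) (γ i0) z ∂μ ≤
      ∫ z, c i0 z * rr e ((b + B.dd f + κ • w) i0 z) (γ i0) z ∂μ :=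
    setIntegral_le_integral (hI i0).1 (Filter.Eventually.of_forall (hI i0).2)
  have h3 : s ^ (n - 2) * r0 * (μ.real U / 2) ≤ s ^ (n - 2) * r0 * μ.real (U \ S) :=
    mul_le_mul_of_nonneg_left hUSm (by positivity)
  have h4 : μ.real (U \ S) • (s ^ (n - 2) * r0) = s ^ (n - 2) * r0 * μ.real (U \ S) := by
    rw [smul_eq_mul, mul_comm]
  rw [h4] at h1
  linarith

end BM

end HDG
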