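import Pool.Agent.HDP.P11
import Pool.Agent.HDP.P12
import Pool.Agent.HDP.P13a
import Pool.Agent.HDP.P13b

/-!
# HDP/P13: Theorem D on `BM`

If `psi (γ i) z u v ≠ 0` for some point, then the integral of `rr` for the tensors `b + dd f + κ w` of `weighted2` (P11) is bounded below
(`low_D`) and tends to zero with `κ = 2 δ (1 + M) ^ (-p)`, `M → ∞` (`err_D` for `q < p`).
-/

set_option autoImplicit false

noncomputable section

open scoped ContDiff Topology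

open MeasureTheory

namespace HDG

open Pool.Agent.FBR

private theorem P13_choose {δ C η p q : ℝ} (hδ : 0 < δ) (hC : 0 ≤ C) (hη : 0 < η) (hp : 0 < p) (hq : 0 < q)
    (hqp : q - p = -(1 / 2)) :
    ∃ M : ℝ, 1 ≤ M ∧ 2 * (δ * (1 + M) ^ (-p)) ≤ 1 / 2 ∧ C * (2 * (δ * (1 + M) ^ (-p)) * (M + 2) ^ q) < η := by
  have h1 : Filter.Tendsto (fun t : ℝ => 2 * (δ * t ^ (-p))) Filter.atTop (𝓝 (2 * (δ * 0))) :=
    ((tendsto_rpow_neg_atTop hp).const_mul δ).const_mul 2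
  have h2 : Filter.Tendsto (fun t : ℝ => (C * (2 * δ * 2 ^ q)) * t ^ (-(1 / 2 : ℝ))) Filter.atTop
      (𝓝 ((C * (2 * δ * 2 ^ q)) * 0)) := (tendsto_rpow_neg_atTop (by norm_num)).const_mul _
  rw [mul_zero, mul_zero] at h1
  rw [mul_zero] at h2
  have h3 := h1.eventually (eventually_lt_nhds (show (0 : ℝ) < 1 / 2 by norm_num))
  have h4 := h2.eventually (eventually_lt_nhds hη)
  obtain ⟨t, ht, h5, h6⟩ := ((Filter.eventually_ge_atTop (2 : ℝ)).and (h3.and h4)).exists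
  have ht0 : 0 < t := by linarith
  refine ⟨t - 1, by linarith, ?_, ?_⟩
  · rw [add_sub_cancel]
    exact h5.le
  · rw [add_sub_cancel]
    refine lt_of_le_of_lt ?_ h6
    have h7 : (t - 1 + 2) ^ q ≤ 2 ^ q * t ^ q := by
      rw [← Real.mul_rpow (by norm_num) ht0.le]
      exact Real.rpow_le_rpow (by linarith) (by linarith) hq.le
    have h8 : t ^ (-(1 / 2 : ℝ)) = t ^ (-p) * t ^ q := by
      rw [← Real.rpow_add ht0, ← hqp]
      congr 1
      ring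
    have h9 : 0 ≤ t ^ (-p) := Real.rpow_nonneg ht0.le _
    rw [h8]
    calc C * (2 * (δ * t ^ (-p)) * (t - 1 + 2) ^ q) ≤ C * (2 * (δ * t ^ (-p)) * (2 ^ q * t ^ q)) :=
          mul_le_mul_of_nonneg_left (mul_le_mul_of_nonneg_left h7 (by positivity)) hC
      _ = C * (2 * δ * 2 ^ q) * (t ^ (-p) * t ^ q) := by ring

variable {H : Type*} [NormedAddCommGroup H] [NormedSpace ℂ H] {n : ℕ} {e : Module.Basis (Fin n) ℂ H}
  [FiniteDimensional ℂ H] [MeasurableSpace H] [BorelSpace H] {μ : Measure H} [μ.IsAddHaarMeasure]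
  {Y : Type*} [TopologicalSpace Y] [CompactSpace Y] [T2Space Y] [MeasurableSpace Y] [BorelSpace Y]
  (B : BM e Y) {w b : B.I → H → Bil H} {ν : Measure Y}

namespace BM

theorem main_D [ConnectedSpace Y] (hw : B.Met w) (hν : B.IsVol μ w ν) (hb : B.IsT b) (hc : B.ClT b) (hn : B.NnT b)
    (hpos : ∃ i, ∃ z ∈ qb e 4, ∀ v : H, v ≠ 0 → 0 < b i z v (Complex.I • v)) (hn2 : 2 ≤ n)
    {γ : B.I → H → Bil H} (hγ : B.IsT γ) (hpsi : ∀ i, ∀ z ∈ qb e 4, ∀ u v : H, 0 ≤ psi (γ i) z u v) :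
    ∀ i, ∀ z ∈ qb e 1, ∀ u v : H, psi (γ i) z u v = 0 := by
  by_contra hcon
  push Not at hcon
  obtain ⟨i0, z0, hz0, u, v, h0⟩ := hcon
  have hn3 : (2 : ℝ) ≤ (n : ℝ) := by exact_mod_cast hn2
  obtain ⟨p, hpd⟩ : ∃ p : ℝ, p = (n : ℝ) - 1 := ⟨_, rfl⟩
  obtain ⟨q, hqd⟩ : ∃ q : ℝ, q = (n : ℝ) - 3 / 2 := ⟨_, rfl⟩
  have hp : 0 < p := by linarith
  have hq : 0 < q := by linarith
  obtain ⟨δ, hδ, hW⟩ := B.weighted2 hw hν hb hc hn hpos hn2 hp (by linarith)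
  obtain ⟨χ, c, hχ, hχ1⟩ := B.exists_pou2
  obtain ⟨η, hη, hL⟩ := B.low_D (μ := μ) hw hν hb hn2 hp hδ hγ hpsi hχ hχ1 hz0 h0
  obtain ⟨C, hC, hE⟩ := B.err_D (μ := μ) hw hν hb hc hn2 hq (by linarith) hγ hχ
  obtain ⟨M, hM, hM1, hM2⟩ := P13_choose hδ hC hη hp hq (by rw [hpd, hqd]; ring)
  obtain ⟨f, hf, hf0, hf1, hfM, hN⟩ := hW M hM
  have hg : gp p (-M) = (1 + M) ^ (-p) := by
    rw [gp_eq p (by linarith), sub_neg_eq_add]
  rw [hg] at hN
  have hκ : 0 ≤ 2 * (δ * (1 + M) ^ (-p)) := by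
    have h1 : 0 ≤ (1 + M) ^ (-p) := Real.rpow_nonneg (by linarith) _
    positivity
  have hN2 : B.NnT (b + B.dd f + (2 * (δ * (1 + M) ^ (-p))) • w) := by
    intro i z hz x
    have h1 := hN i z hz x
    have h2 : (b + B.dd f + B.wt (fun y => 2 * (δ * (1 + M) ^ (-p)) - δ * gp p (f y)) w) i z x (Complex.I • x) =
        b i z x (Complex.I • x) + B.dd f i z x (Complex.I • x) +
          (2 * (δ * (1 + M) ^ (-p)) - δ * gp p (f (B.ψ i z))) * w i z x (Complex.I • x) := rfl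
    have h3 : (b + B.dd f + (2 * (δ * (1 + M) ^ (-p))) • w) i z x (Complex.I • x) =
        b i z x (Complex.I • x) + B.dd f i z x (Complex.I • x) +
          (2 * (δ * (1 + M) ^ (-p))) * w i z x (Complex.I • x) := rfl
    rw [h2] at h1
    rw [h3]
    have h4 : 0 ≤ w i z x (Complex.I • x) := by
      by_cases hx : x = 0
      · rw [hx, map_zero]
        exact le_rfl
      · exact (hw.pos i z hz x hx).le
    have h5 : 0 ≤ δ * gp p (f (B.ψ i z)) := mul_nonneg hδ.le (gp_pos p _).le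
    nlinarith [mul_nonneg h5 h4]
  have h1 := hL f _ hf hf0 hf1 hκ (hM1.trans (by norm_num)) hN
  have h2 := hE f _ M hf hf0 hfM (by linarith) hκ hM1 hN2
  linarith

end BM

end HDG
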