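import Pool.Agent.HDP.PD

/-!
# HDP/P14a: the 4-form `dd^c γ` in coordinates

`psi4 γ z u v w t` is `(dd^c γ)(u, v, w, t)` for a field `γ` of `(1,1)`-forms.  `psi4_self`: its values on `(u, i u, v, i v)` are `psi`;
`psi4_zero`: if `psi` vanishes then `psi4` vanishes (polarisation, and the rules of calculation of `(1,1)`-forms in both pairs of arguments).
-/

set_option autoImplicit false

noncomputable section

open scoped ContDiff

namespace HDG

open Pool.Agent.FBR

variable {H : Type*} [NormedAddCommGroup H] [NormedSpace ℂ H]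

/-- `(dd^c γ)(u, v, w, t)` at the point `z` -/
def psi4 (γ : H → Bil H) (z u v w t : H) : ℝ :=
  ddc (fun z => γ z w t) z u v - ddc (fun z => γ z v t) z u w + ddc (fun z => γ z v w) z u t +
    ddc (fun z => γ z u t) z v w - ddc (fun z => γ z u w) z v t + ddc (fun z => γ z u v) z w t

/-- the rules of calculation with the coefficients -/
private structure P14a_Q (q : H → H → H → H → ℝ) : Prop where
  h1 : ∀ u u' v w t, q (u + u') v w t = q u v w t + q u' v w t
  h2 : ∀ u v v' w t, q u (v + v') w t = q u v w t + q u v' w t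
  h3 : ∀ u v w w' t, q u v (w + w') t = q u v w t + q u v w' t
  h4 : ∀ u v w t t', q u v w (t + t') = q u v w t + q u v w t'
  a1 : ∀ u v w t, q v u w t = - q u v w t
  a2 : ∀ u v w t, q u v t w = - q u v w t
  j1 : ∀ u v w t, q (Complex.I • u) (Complex.I • v) w t = q u v w t
  j2 : ∀ u v w t, q u v (Complex.I • w) (Complex.I • t) = q u v w t

private theorem P14a_II (v : H) : Complex.I • Complex.I • v = -v := by
  rw [smul_smul, Complex.I_mul_I, neg_smul, one_smul]

private theorem P14a_neg {f : H → ℝ} (h : ∀ u v, f (u + v) = f u + f v) (u : H) : f (-u) = - f u := by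
  have h1 := h u (-u)
  have h2 := h 0 0
  rw [add_zero] at h2
  rw [add_neg_cancel] at h1
  linarith

section alg

variable {q : H → H → H → H → ℝ}

private theorem P14a_n2 (hq : P14a_Q q) (u v w t : H) : q u (-v) w t = - q u v w t :=
  P14a_neg (f := fun v => q u v w t) (fun a b => hq.h2 u a b w t) v

private theorem P14a_n4 (hq : P14a_Q q) (u v w t : H) : q u v w (-t) = - q u v w t :=
  P14a_neg (f := fun t => q u v w t) (fun a b => hq.h4 u v w a b) t

private theorem P14a_m1 (hq : P14a_Q q) (u v w t : H) :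
    q (Complex.I • u) v w t = - q u (Complex.I • v) w t := by
  rw [← hq.j1 u (Complex.I • v), P14a_II, P14a_n2 hq, neg_neg]

private theorem P14a_m3 (hq : P14a_Q q) (u v w t : H) :
    q u v (Complex.I • w) t = - q u v w (Complex.I • t) := by
  rw [← hq.j2 u v w (Complex.I • t), P14a_II, P14a_n4 hq, neg_neg]

private theorem P14a_c2 (hq : P14a_Q q) (u v w t : H) :
    q u (Complex.I • Complex.I • v) w t = - q u v w t := by
  rw [P14a_II, P14a_n2 hq]

private theorem P14a_c4 (hq : P14a_Q q) (u v w t : H) :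
    q u v w (Complex.I • Complex.I • t) = - q u v w t := by
  rw [P14a_II, P14a_n4 hq]

private theorem P14a_s1 (hq : P14a_Q q) (u v w t : H) :
    q v (Complex.I • u) w t = q u (Complex.I • v) w t := by
  rw [hq.a1, P14a_m1 hq, neg_neg]

private theorem P14a_s3 (hq : P14a_Q q) (u v w t : H) :
    q u v t (Complex.I • w) = q u v w (Complex.I • t) := by
  rw [hq.a2, P14a_m3 hq, neg_neg]

/-- polarisation -/
private theorem P14a_pol (hq : P14a_Q q)
    (hD : ∀ u v, q u (Complex.I • u) v (Complex.I • v) + q v (Complex.I • v) u (Complex.I • u) - 2 * q u v u v -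
      2 * q u (Complex.I • v) u (Complex.I • v) = 0) (u u' v v' : H) :
    q u (Complex.I • u') v (Complex.I • v') + q u' (Complex.I • u) v (Complex.I • v') +
      q u (Complex.I • u') v' (Complex.I • v) + q u' (Complex.I • u) v' (Complex.I • v) +
      q v (Complex.I • v') u (Complex.I • u') + q v' (Complex.I • v) u (Complex.I • u') +
      q v (Complex.I • v') u' (Complex.I • u) + q v' (Complex.I • v) u' (Complex.I • u) -
      2 * (q u v u' v' + q u v' u' v + q u' v u v' + q u' v' u v) -
      2 * (q u (Complex.I • v) u' (Complex.I • v') + q u (Complex.I • v') u' (Complex.I • v) +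
        q u' (Complex.I • v) u (Complex.I • v') + q u' (Complex.I • v') u (Complex.I • v)) = 0 := by
  have e0 := hD (u + u') (v + v')
  have e1 := hD (u + u') v
  have e2 := hD (u + u') v'
  have e3 := hD u (v + v')
  have e4 := hD u' (v + v')
  have e5 := hD u v
  have e6 := hD u v'
  have e7 := hD u' v
  have e8 := hD u' v'
  simp only [smul_add, hq.h1, hq.h2, hq.h3, hq.h4] at e0 e1 e2 e3 e4
  linear_combination e0 - e1 - e2 - e3 - e4 + e5 + e6 + e7 + e8

private theorem P14a_main (hq : P14a_Q q)
    (hD : ∀ u v, q u (Complex.I • u) v (Complex.I • v) + q v (Complex.I • v) u (Complex.I • u) - 2 * q u v u v -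
      2 * q u (Complex.I • v) u (Complex.I • v) = 0) (a b c d : H) :
    q a b c d - q a c b d + q a d b c + q b c a d - q b d a c + q c d a b = 0 := by
  have r1 := P14a_pol hq hD a (Complex.I • c) b (Complex.I • d)
  have r2 := P14a_pol hq hD a (Complex.I • d) b (Complex.I • c)
  have r3 := P14a_pol hq hD a d b c
  have o1 := hq.a1 a b
  have o2 := hq.a1 a c
  have o3 := hq.a1 a d
  have o4 := hq.a1 b c
  have o5 := hq.a1 b d
  have o6 := hq.a1 c d
  have p1 := fun u v => hq.a2 u v a b
  have p2 := fun u v => hq.a2 u v a c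
  have p3 := fun u v => hq.a2 u v a d
  have p4 := fun u v => hq.a2 u v b c
  have p5 := fun u v => hq.a2 u v b d
  have p6 := fun u v => hq.a2 u v c d
  have s1 := P14a_s1 hq a b
  have s2 := P14a_s1 hq a c
  have s3 := P14a_s1 hq a d
  have s4 := P14a_s1 hq b c
  have s5 := P14a_s1 hq b d
  have s6 := P14a_s1 hq c d
  have t1 := fun u v => P14a_s3 hq u v a b
  have t2 := fun u v => P14a_s3 hq u v a c
  have t3 := fun u v => P14a_s3 hq u v a d
  have t4 := fun u v => P14a_s3 hq u v b c
  have t5 := fun u v => P14a_s3 hq u v b d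
  have t6 := fun u v => P14a_s3 hq u v c d
  simp only [P14a_m1 hq, P14a_m3 hq, P14a_c2 hq, P14a_c4 hq, o1, o2, o3, o4, o5, o6, p1, p2, p3, p4, p5, p6,
    s1, s2, s3, s4, s5, s6, t1, t2, t3, t4, t5, t6] at r1 r2 r3
  linear_combination (-1 / 4) * r1 + (1 / 8) * r2 + (1 / 8) * r3

end alg

private theorem P14a_rules {γ : H → Bil H} {O : Set H} (hO : IsOpen O) (hγ : ContDiffOn ℝ ∞ γ O)
    (hoo : ∀ z ∈ O, O11 (γ z)) {z : H} (hz : z ∈ O) :
    P14a_Q (fun u v w t => ddc (fun z => γ z w t) z u v) := by
  have hsm : ∀ w t, ContDiffAt ℝ 2 (fun z => γ z w t) z := by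
    intro w t
    have h1 : ContDiffAt ℝ 2 γ z := (hγ.contDiffAt (hO.mem_nhds hz)).of_le (by norm_cast)
    exact (h1.clm_apply contDiffAt_const).clm_apply contDiffAt_const
  have hev : ∀ᶠ z' in nhds z, O11 (γ z') := by
    filter_upwards [hO.mem_nhds hz] with z' hz'
    exact hoo z' hz'
  refine ⟨?_, ?_, ?_, ?_, ?_, ?_, ?_, ?_⟩
  · intro u u' v w t
    simp only [map_add, _root_.add_apply]
  · intro u v v' w t
    simp only [map_add]
  · intro u v w w' t
    have h1 : (fun z => γ z (w + w') t) = fun z => γ z w t + γ z w' t := by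
      funext z
      simp only [map_add, _root_.add_apply]
    change ddc (fun z => γ z (w + w') t) z u v = _
    rw [h1, ddc_add (hsm w t) (hsm w' t)]
    rfl
  · intro u v w t t'
    have h1 : (fun z => γ z w (t + t')) = fun z => γ z w t + γ z w t' := by
      funext z
      simp only [map_add]
    change ddc (fun z => γ z w (t + t')) z u v = _
    rw [h1, ddc_add (hsm w t) (hsm w t')]
    rfl
  · intro u v w t
    exact antisymm_of_alt (O11_ddc (hsm w t)).1 v u
  · intro u v w t
    have h1 : (fun z => γ z t w) =ᶠ[nhds z] fun z => (-1 : ℝ) * γ z w t := by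
      filter_upwards [hev] with z' hz'
      rw [antisymm_of_alt hz'.1 t w]
      ring
    change ddc (fun z => γ z t w) z u v = - ddc (fun z => γ z w t) z u v
    rw [ddc_congr h1, ddc_smul (-1) (hsm w t)]
    simp
  · intro u v w t
    exact (O11_ddc (hsm w t)).2 u v
  · intro u v w t
    have h1 : (fun z => γ z (Complex.I • w) (Complex.I • t)) =ᶠ[nhds z] fun z => γ z w t := by
      filter_upwards [hev] with z' hz'
      exact hz'.2 w t
    change ddc (fun z => γ z (Complex.I • w) (Complex.I • t)) z u v = ddc (fun z => γ z w t) z u v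
    rw [ddc_congr h1]

theorem psi4_self {γ : H → Bil H} {O : Set H} (hO : IsOpen O) (hγ : ContDiffOn ℝ ∞ γ O) (hoo : ∀ z ∈ O, O11 (γ z))
    {z : H} (hz : z ∈ O) (u v : H) : psi4 γ z u (Complex.I • u) v (Complex.I • v) = psi γ z u v := by
  have hq := P14a_rules hO hγ hoo hz
  have e1 := hq.j2 u v u v
  have e2 := P14a_m3 hq u (Complex.I • v) u v
  have e3 := P14a_m1 hq u v u (Complex.I • v)
  have e4 := hq.j1 u v u v
  unfold psi4 psi
  linear_combination -e1 + e2 + e3 - e4

theorem psi4_zero {γ : H → Bil H} {O : Set H} (hO : IsOpen O) (hγ : ContDiffOn ℝ ∞ γ O) (hoo : ∀ z ∈ O, O11 (γ z))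
    {z : H} (hz : z ∈ O) (h : ∀ u v : H, psi γ z u v = 0) (u v w t : H) : psi4 γ z u v w t = 0 :=
  P14a_main (P14a_rules hO hγ hoo hz) h u v w t

end HDG
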