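import Pool.Agent.HDP.P14a

/-!
# HDP/P18a: the form `(i/2) α ∧ conj α` of a holomorphic 1-form

`gam l u v = Re l(u) Im l(v) - Im l(u) Re l(v) = Im (conj l(u) * l(v))` is a `(1,1)`-form, and for a holomorphic field `a` of
complex linear forms `psi (gam a) z u v = 2 |A'| ^ 2`, `A' = (D_u a)(v) - (D_v a)(u)`.
-/

set_option autoImplicit false

noncomputable section

open scoped ContDiff

namespace HDG

open Pool.Agent.FBR

variable {H : Type*} [NormedAddCommGroup H] [NormedSpace ℂ H]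

/-- the real `(1,1)`-form `(u, v) ↦ Im (conj l(u) * l(v))` -/
def gam (l : H →L[ℂ] ℂ) : Bil H :=
  (Complex.reCLM.comp (l.restrictScalars ℝ)).smulRight (Complex.imCLM.comp (l.restrictScalars ℝ)) -
    (Complex.imCLM.comp (l.restrictScalars ℝ)).smulRight (Complex.reCLM.comp (l.restrictScalars ℝ))

private theorem P18a_gam_apply (l : H →L[ℂ] ℂ) (u v : H) :
    gam l u v = (l u).re * (l v).im - (l u).im * (l v).re := by
  simp [gam, ContinuousLinearMap.smulRight_apply]

theorem gam_O11 (l : H →L[ℂ] ℂ) : O11 (gam l) := by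
  constructor
  · intro v
    rw [P18a_gam_apply]; ring
  · intro u v
    rw [P18a_gam_apply, P18a_gam_apply]
    simp only [map_smul, smul_eq_mul, Complex.mul_re, Complex.mul_im, Complex.I_re, Complex.I_im]
    ring

/-- the real bilinear map `(p, q) ↦ Im (conj p * q)` -/
private def P18a_be : ℂ →L[ℝ] ℂ →L[ℝ] ℝ :=
  Complex.reCLM.smulRight Complex.imCLM - Complex.imCLM.smulRight Complex.reCLM

private theorem P18a_be_apply (p q : ℂ) : P18a_be p q = p.re * q.im - p.im * q.re := by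
  simp [P18a_be]

private theorem P18a_d1 {a : H → H →L[ℂ] ℂ} {z : H} (ha : DifferentiableAt ℂ a z) (w t y : H) :
    fderiv ℝ (fun z => gam (a z) w t) z y =
      P18a_be (a z w) (fderiv ℂ a z y t) + P18a_be (fderiv ℂ a z y w) (a z t) := by
  have h : ∀ w : H, HasFDerivAt (fun z => a z w)
      (((ContinuousLinearMap.apply ℂ ℂ w).comp (fderiv ℂ a z)).restrictScalars ℝ) z := by
    intro w
    exact ((ContinuousLinearMap.apply ℂ ℂ w).hasFDerivAt.comp z ha.hasFDerivAt).restrictScalars ℝ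
  have e : (fun z => gam (a z) w t) = fun z => P18a_be (a z w) (a z t) := by
    funext z; rw [P18a_gam_apply, P18a_be_apply]
  rw [e, (P18a_be.hasFDerivAt_of_bilinear (h w) (h t)).fderiv]
  simp

private theorem P18a_d2 {a : H → H →L[ℂ] ℂ} {O : Set H} (hO : IsOpen O) (ha : ContDiffOn ℂ ∞ a O) {z : H} (hz : z ∈ O)
    (w t x y : H) :
    fderiv ℝ (fderiv ℝ (fun z => gam (a z) w t)) z x y =
      P18a_be (a z w) (fderiv ℂ (fderiv ℂ a) z x y t) + P18a_be (fderiv ℂ a z x w) (fderiv ℂ a z y t) +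
        (P18a_be (fderiv ℂ a z y w) (fderiv ℂ a z x t) + P18a_be (fderiv ℂ (fderiv ℂ a) z x y w) (a z t)) := by
  have haz : ContDiffAt ℂ ∞ a z := ha.contDiffAt (hO.mem_nhds hz)
  have hd1 : DifferentiableAt ℂ a z := haz.differentiableAt (by simp)
  have hd2 : DifferentiableAt ℂ (fderiv ℂ a) z :=
    (haz.fderiv_right (m := ∞) (by norm_num)).differentiableAt (by norm_num)
  have h1 : ∀ w : H, HasFDerivAt (fun z => a z w)
      (((ContinuousLinearMap.apply ℂ ℂ w).comp (fderiv ℂ a z)).restrictScalars ℝ) z := by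
    intro w
    exact ((ContinuousLinearMap.apply ℂ ℂ w).hasFDerivAt.comp z hd1.hasFDerivAt).restrictScalars ℝ
  have h2 : ∀ w : H, HasFDerivAt (fun z => fderiv ℂ a z y w)
      (((ContinuousLinearMap.apply ℂ ℂ w).comp ((ContinuousLinearMap.apply ℂ (H →L[ℂ] ℂ) y).comp
        (fderiv ℂ (fderiv ℂ a) z))).restrictScalars ℝ) z := by
    intro w
    have h3 : HasFDerivAt (fun z => fderiv ℂ a z y) ((ContinuousLinearMap.apply ℂ (H →L[ℂ] ℂ) y).comp
        (fderiv ℂ (fderiv ℂ a) z)) z := by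
      have h4 : HasFDerivAt (fderiv ℂ a) (fderiv ℂ (fderiv ℂ a) z) z := hd2.hasFDerivAt
      have h5 := h4.clm_apply (hasFDerivAt_const y z)
      refine h5.congr_fderiv ?_
      ext v w
      simp
    exact ((ContinuousLinearMap.apply ℂ ℂ w).hasFDerivAt.comp z h3).restrictScalars ℝ
  have hev : (fun z => fderiv ℝ (fun z => gam (a z) w t) z y) =ᶠ[nhds z]
      fun z => P18a_be (a z w) (fderiv ℂ a z y t) + P18a_be (fderiv ℂ a z y w) (a z t) := by
    filter_upwards [hO.mem_nhds hz] with z' hz'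
    exact P18a_d1 ((ha.contDiffAt (hO.mem_nhds hz')).differentiableAt (by simp)) w t y
  have hsm : ContDiffAt ℝ ∞ (fun z => gam (a z) w t) z := by
    have e : (fun z => gam (a z) w t) = fun z => (a z w).re * (a z t).im - (a z w).im * (a z t).re := by
      funext z; rw [P18a_gam_apply]
    rw [e]
    have har : ∀ w : H, ContDiffAt ℝ ∞ (fun z => a z w) z := by
      intro w
      exact ((ContinuousLinearMap.apply ℂ ℂ w).contDiff.contDiffAt.comp z haz).restrict_scalars ℝ
    have hre : ∀ w : H, ContDiffAt ℝ ∞ (fun z => (a z w).re) z := fun w =>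
      Complex.reCLM.contDiff.contDiffAt.comp z (har w)
    have him : ∀ w : H, ContDiffAt ℝ ∞ (fun z => (a z w).im) z := fun w =>
      Complex.imCLM.contDiff.contDiffAt.comp z (har w)
    exact ((hre w).mul (him t)).sub ((him w).mul (hre t))
  have hd3 : DifferentiableAt ℝ (fderiv ℝ (fun z => gam (a z) w t)) z :=
    (hsm.fderiv_right (m := ∞) (by norm_num)).differentiableAt (by norm_num)
  have e1 : fderiv ℝ (fderiv ℝ (fun z => gam (a z) w t)) z x y =
      fderiv ℝ (fun z => fderiv ℝ (fun z => gam (a z) w t) z y) z x := by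
    have h := ((ContinuousLinearMap.apply ℝ ℝ y).hasFDerivAt.comp z hd3.hasFDerivAt).fderiv
    have h' : fderiv ℝ (fun z => fderiv ℝ (fun z => gam (a z) w t) z y) z =
      (ContinuousLinearMap.apply ℝ ℝ y).comp (fderiv ℝ (fderiv ℝ (fun z => gam (a z) w t)) z) := h
    rw [h']; rfl
  have e2 : fderiv ℝ (fun z => P18a_be (a z w) (fderiv ℂ a z y t) + P18a_be (fderiv ℂ a z y w) (a z t)) z = _ :=
    ((P18a_be.hasFDerivAt_of_bilinear (h1 w) (h2 t)).add (P18a_be.hasFDerivAt_of_bilinear (h2 w) (h1 t))).fderiv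
  rw [e1, hev.fderiv_eq, e2]
  simp

private theorem P18a_ddc {a : H → H →L[ℂ] ℂ} {O : Set H} (hO : IsOpen O) (ha : ContDiffOn ℂ ∞ a O) {z : H} (hz : z ∈ O)
    (w t x y : H) :
    ddc (fun z => gam (a z) w t) z x y =
      (fderiv ℂ a z y w).re * (fderiv ℂ a z x t).re + (fderiv ℂ a z y w).im * (fderiv ℂ a z x t).im -
      ((fderiv ℂ a z x w).re * (fderiv ℂ a z y t).re + (fderiv ℂ a z x w).im * (fderiv ℂ a z y t).im) := by
  have haz : ContDiffAt ℂ ∞ a z := ha.contDiffAt (hO.mem_nhds hz)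
  have hsym : fderiv ℂ (fderiv ℂ a) z x y = fderiv ℂ (fderiv ℂ a) z y x :=
    ((haz.of_le (m := 2) (by norm_cast)).isSymmSndFDerivAt (by simp)) x y
  have e : ddc (fun z => gam (a z) w t) z x y = (1 / 2 : ℝ) *
      (fderiv ℝ (fderiv ℝ (fun z => gam (a z) w t)) z (Complex.I • x) y -
        fderiv ℝ (fderiv ℝ (fun z => gam (a z) w t)) z (Complex.I • y) x) := by
    simp [ddc]
  rw [e, P18a_d2 hO ha hz, P18a_d2 hO ha hz]
  simp only [map_smul, smul_apply, P18a_be_apply, hsym, smul_eq_mul, Complex.mul_re, Complex.mul_im,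
    Complex.I_re, Complex.I_im]
  ring

theorem psi_gam {a : H → H →L[ℂ] ℂ} {O : Set H} (hO : IsOpen O) (ha : ContDiffOn ℂ ∞ a O) {z : H} (hz : z ∈ O) (u v : H) :
    psi (fun z => gam (a z)) z u v = 2 * ‖fderiv ℂ a z u v - fderiv ℂ a z v u‖ ^ 2 := by
  unfold psi
  rw [P18a_ddc hO ha hz, P18a_ddc hO ha hz, P18a_ddc hO ha hz, P18a_ddc hO ha hz, Complex.sq_norm, Complex.normSq_apply]
  simp only [map_smul, smul_apply, smul_eq_mul, Complex.mul_re, Complex.mul_im,
    Complex.I_re, Complex.I_im, Complex.sub_re, Complex.sub_im]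
  ring

end HDG
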