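import Pool.Agent.HDP.P14
import Pool.Agent.HDP.P18a

/-!
# HDP/P18: the form of a holomorphic 1-form on the manifold

The coefficients `coC α p` of a holomorphic 1-form `α` are holomorphic and the coefficients of `gam (α x)` in the chart are
`gam (coC α p y)`. So `gam (α x)` is a smooth real form of type `(1,1)`, `dd^c` of it is `≥ 0` by `psi_gam`, and if it is `0`
then `α` is closed.
-/

set_option autoImplicit false

noncomputable section

open scoped Manifold ContDiff

namespace HFC

open Pool.Agent.FBR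

universe u

variable {E X : Type u} [NormedAddCommGroup E] [NormedSpace ℂ E] [FiniteDimensional ℂ E] [TopologicalSpace X]
  [ChartedSpace E X] [IsManifold 𝓘(ℂ, E) ω X]

omit [FiniteDimensional ℂ E] in
private theorem P18_coef (α : X → E →L[ℂ] ℂ) (p : X) {y : E} (hy : y ∈ (chartAt E p).target) :
    coef (fun x => HDG.gam (α x)) p y = HDG.gam (HDG.coC α p y) := by
  have h1 : DifferentiableAt ℂ (chartAt E ((chartAt E p).symm y) ∘ (chartAt E p).symm) y :=
    (hol_symm hy).2.differentiableAt (by simp)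
  have h2 : dvec E (chartAt E p).symm y =
      (fderiv ℂ (chartAt E ((chartAt E p).symm y) ∘ (chartAt E p).symm) y).restrictScalars ℝ :=
    h1.fderiv_restrictScalars ℝ
  ext u v
  show HDG.gam (α ((chartAt E p).symm y)) (dvec E (chartAt E p).symm y u) (dvec E (chartAt E p).symm y v) = _
  rw [h2]
  rfl

private theorem P18_sm {α : X → E →L[ℂ] ℂ} (hα : HolF α) (p : X) :
    ContDiffOn ℂ ∞ (HDG.coC α p) (chartAt E p).target :=
  (contDiffOn_clm_apply (f := HDG.coC α p)).2 (hα p)

private theorem P18_ddc {φ ψ : E → ℝ} {z : E} (h : φ =ᶠ[nhds z] ψ) : ddc φ z = ddc ψ z := by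
  unfold ddc
  rw [h.fderiv.fderiv_eq]

private theorem P18_psi {γ γ' : E → Bil E} {z : E} (h : γ =ᶠ[nhds z] γ') (u v : E) :
    HDG.psi γ z u v = HDG.psi γ' z u v := by
  have h1 : ∀ a b : E, ddc (fun z => γ z a b) z = ddc (fun z => γ' z a b) z := fun a b => by
    refine P18_ddc ?_
    filter_upwards [h] with z' hz'
    rw [hz']
  unfold HDG.psi
  rw [h1, h1, h1, h1]

theorem gam_real {α : X → E →L[ℂ] ℂ} (hα : HolF α) : Real11 (fun x => HDG.gam (α x)) := by
  refine ⟨fun p u v => ?_, fun x v => (HDG.gam_O11 (α x)).1 v, fun x u v => (HDG.gam_O11 (α x)).2 u v⟩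
  have h : ∀ w : E, ContDiffOn ℝ ∞ (fun y => HDG.coC α p y w) (chartAt E p).target := fun w =>
    (hα p w).restrict_scalars ℝ
  have hre : ∀ w : E, ContDiffOn ℝ ∞ (fun y => (HDG.coC α p y w).re) (chartAt E p).target := fun w =>
    Complex.reCLM.contDiff.comp_contDiffOn (h w)
  have him : ∀ w : E, ContDiffOn ℝ ∞ (fun y => (HDG.coC α p y w).im) (chartAt E p).target := fun w =>
    Complex.imCLM.contDiff.comp_contDiffOn (h w)
  refine (((hre u).mul (him v)).sub ((him u).mul (hre v))).congr fun y hy => ?_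
  show coef (fun x => HDG.gam (α x)) p y u v = _
  rw [P18_coef α p hy]
  simp [HDG.gam]

private theorem P18_ddg {α : X → E →L[ℂ] ℂ} (hα : HolF α) {p : X} {y : E} (hy : y ∈ (chartAt E p).target) (u v : E) :
    ddg (fun x => HDG.gam (α x)) p y u (Complex.I • u) v (Complex.I • v) =
      2 * ‖fderiv ℂ (HDG.coC α p) y u v - fderiv ℂ (HDG.coC α p) y v u‖ ^ 2 := by
  have hr := coef_real (gam_real hα) p
  rw [ddg_eq (gam_real hα) hy, HDG.psi4_self (chartAt E p).open_target hr.1 hr.2 hy, ← HDG.psi_gam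
    (chartAt E p).open_target (P18_sm hα p) hy]
  refine P18_psi ?_ u v
  filter_upwards [(chartAt E p).open_target.mem_nhds hy] with z hz
  exact P18_coef α p hz

theorem gam_plurisub {α : X → E →L[ℂ] ℂ} (hα : HolF α) : Plurisub (fun x => HDG.gam (α x)) := by
  intro p y hy u v
  rw [P18_ddg hα hy]
  positivity

theorem gam_closed {α : X → E →L[ℂ] ℂ} (hα : HolF α) (h : Pluriclosed (fun x => HDG.gam (α x))) : Hol1 α := by
  refine (hol1_iff α).2 fun p => ⟨P18_sm hα p, fun y hy u v => ?_⟩
  have h1 := P18_ddg hα hy u v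
  rw [h p y hy] at h1
  have h2 : ‖fderiv ℂ (HDG.coC α p) y u v - fderiv ℂ (HDG.coC α p) y v u‖ ^ 2 = 0 := by linarith
  exact sub_eq_zero.1 (norm_eq_zero.1 (pow_eq_zero_iff (by norm_num) |>.1 h2))

end HFC
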