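import Pool.Agent.HDP.P17
import Pool.Agent.HDP.P18

/-!
# HDP/P19: holomorphic 1-forms are closed

Theorem D for the form `Im (conj α(u) * α(v))` of a holomorphic 1-form `α`.
-/

set_option autoImplicit false

noncomputable section

open scoped Manifold ContDiff

namespace HFC

open Pool.Agent.FBR

universe u

theorem hol1_of (M : CM.{u}) (hM : SemiPos M) {α : M.X → M.E →L[ℂ] ℂ} (hα : HolF α) : Hol1 α :=
  gam_closed hα (thmD M hM (gam_real hα) (gam_plurisub hα))

theorem h10F_eq (M : CM.{u}) (hM : SemiPos M) : h10F M = h10 M := by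
  have h : {α : M.X → M.E →L[ℂ] ℂ | HolF α} = {α | Hol1 α} :=
    Set.ext fun α => ⟨fun h => hol1_of M hM h, fun h p v => (h p).1 v⟩
  unfold h10F h10 OmF Om
  rw [h]

end HFC
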