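import Pool.Agent.HDP.PD

/-!
# HDP/P2: the mixed discriminant `mc e 1 a x y` is symmetric and bilinear in `x`, `y`

`mc e 1 a x y` is the derivative at `0` of `s ↦ cf e (a + s x) y` and also the derivative at `0` of `s ↦ cf e (a + s y) x`.
The homogeneity in `a` follows from the homogeneity of `cf` for `c ≠ 0` and by continuity for `c = 0`.
-/

set_option autoImplicit false

noncomputable section

open scoped ContDiff

namespace HDG

open Pool.Agent.FBR

variable {H : Type*} [NormedAddCommGroup H] [NormedSpace ℂ H] [FiniteDimensional ℂ H] {n : ℕ}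
  (e : Module.Basis (Fin n) ℂ H)

omit [FiniteDimensional ℂ H] in
private theorem P2_z (a x : Bil H) : a + (0 : ℝ) • x = a := by
  refine ContinuousLinearMap.ext fun u => ContinuousLinearMap.ext fun v => ?_
  have h : (a + (0 : ℝ) • x) u v = a u v + 0 * x u v := rfl
  rw [h, zero_mul, add_zero]

omit [FiniteDimensional ℂ H] in
private theorem P2_comm (a b : Bil H) : a + b = b + a := by
  refine ContinuousLinearMap.ext fun u => ContinuousLinearMap.ext fun v => ?_
  have h : (a + b) u v = a u v + b u v := rfl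
  have h' : (b + a) u v = b u v + a u v := rfl
  rw [h, h', add_comm]

omit [FiniteDimensional ℂ H] in
private theorem P2_zz : (0 : ℝ) • (0 : Bil H) = 0 := by
  refine ContinuousLinearMap.ext fun u => ContinuousLinearMap.ext fun v => ?_
  have h : ((0 : ℝ) • (0 : Bil H)) u v = 0 * (0 : Bil H) u v := rfl
  rw [h, zero_mul]
  rfl

omit [FiniteDimensional ℂ H] in
private theorem P2_k (a x : Bil H) {c : ℝ} (hc : c ≠ 0) (s : ℝ) : c • a + s • x = c • (a + (c⁻¹ * s) • x) := by
  refine ContinuousLinearMap.ext fun u => ContinuousLinearMap.ext fun v => ?_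
  have h : (c • a + s • x) u v = c * a u v + s * x u v := rfl
  have h' : (c • (a + (c⁻¹ * s) • x)) u v = c * (a u v + c⁻¹ * s * x u v) := rfl
  rw [h, h']
  field_simp

/-- `mc e 1 a x y` is the derivative at `0` of `s ↦ cf e (a + s x) y` -/
private theorem P2_deriv (a x y : Bil H) : HasDerivAt (fun s : ℝ => cf e (a + s • x) y) (mc e 1 a x y) 0 := by
  obtain ⟨P, h1, h2⟩ := cf_poly e a x y
  have h3 : mc e 1 a x y = P.coeff 1 :=
    lj_poly 1 (Polynomial.natDegree_le_of_degree_le h1.le) fun k _ => h2 k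
  have h4 : (fun s : ℝ => cf e (a + s • x) y) = fun s => P.eval s := funext h2
  have h5 : P.derivative.eval 0 = P.coeff 1 := by
    rw [← Polynomial.coeff_zero_eq_eval_zero, Polynomial.coeff_derivative]
    simp
  rw [h3, h4, ← h5]
  exact P.hasDerivAt 0

omit [FiniteDimensional ℂ H] in
private theorem P2_cf (c : ℝ) (a y : Bil H) : cf e (c • a) y = c ^ (n - 1) * cf e a y := by
  unfold cf
  rw [Mt_smul, Matrix.adjugate_smul, Fintype.card_fin, Matrix.smul_mul, Matrix.trace_smul, smul_eq_mul,
    ← Complex.ofReal_pow, Complex.re_ofReal_mul]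

theorem c2_symm (a x y : Bil H) : mc e 1 a x y = mc e 1 a y x := by
  have h1 := mj_deriv e 1 a x y 0
  rw [P2_z] at h1
  have h2 : (fun t : ℝ => mj e 1 (a + t • y) x) = fun t => cf e (a + t • y) x := funext fun t => mj_one e _ _
  rw [h2] at h1
  exact h1.unique (P2_deriv e a y x)

theorem c2_add_left (a x x' y : Bil H) : mc e 1 a (x + x') y = mc e 1 a x y + mc e 1 a x' y := by
  rw [c2_symm e a (x + x') y, mc_add, c2_symm e a y x, c2_symm e a y x']

theorem c2_smul_left (a : Bil H) (c : ℝ) (x y : Bil H) : mc e 1 a (c • x) y = c * mc e 1 a x y := by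
  rw [c2_symm e a (c • x) y, mc_smul, c2_symm e a y x]

theorem c2_sum_left {ι : Type*} (t : Finset ι) (a : Bil H) (x : ι → Bil H) (y : Bil H) :
    mc e 1 a (∑ i ∈ t, x i) y = ∑ i ∈ t, mc e 1 a (x i) y := by
  classical
  have h0 : mc e 1 a (0 : Bil H) y = 0 := by
    have h := c2_smul_left e a 0 (0 : Bil H) y
    rwa [P2_zz, zero_mul] at h
  induction t using Finset.induction_on with
  | empty => rw [Finset.sum_empty, Finset.sum_empty, h0]
  | insert i t hi ih => rw [Finset.sum_insert hi, Finset.sum_insert hi, c2_add_left, ih]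

theorem c2_sum_right {ι : Type*} (t : Finset ι) (a x : Bil H) (y : ι → Bil H) :
    mc e 1 a x (∑ i ∈ t, y i) = ∑ i ∈ t, mc e 1 a x (y i) := by
  rw [c2_symm, c2_sum_left]
  exact Finset.sum_congr rfl fun i _ => c2_symm e a (y i) x

theorem c2_scale (hn : 2 ≤ n) (c : ℝ) (a x y : Bil H) : mc e 1 (c • a) x y = c ^ (n - 2) * mc e 1 a x y := by
  have hcon1 : Continuous fun c : ℝ => mc e 1 (c • a) x y := by
    unfold mc lj
    refine continuous_finsetSum _ fun k _ => continuous_const.mul ?_
    obtain ⟨P, -, h2⟩ := cf_poly e ((k : ℝ) • x) a y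
    have h3 : (fun c : ℝ => cf e (c • a + (k : ℝ) • x) y) = fun c => P.eval c :=
      funext fun c => by rw [← h2 c, P2_comm (c • a)]
    rw [h3]
    exact P.continuous
  have hcon2 : Continuous fun c : ℝ => c ^ (n - 2) * mc e 1 a x y :=
    (continuous_id.pow (n - 2)).mul continuous_const
  have h : (fun c : ℝ => mc e 1 (c • a) x y) = fun c : ℝ => c ^ (n - 2) * mc e 1 a x y := by
    refine Continuous.ext_on (dense_compl_singleton (0 : ℝ)) hcon1 hcon2 ?_
    intro c hc
    have hc : c ≠ 0 := hc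
    have h1 := P2_deriv e (c • a) x y
    have h2 : (fun s : ℝ => cf e (c • a + s • x) y) = fun s => c ^ (n - 1) * cf e (a + (c⁻¹ * s) • x) y :=
      funext fun s => by rw [P2_k a x hc, P2_cf]
    rw [h2] at h1
    have h3 : HasDerivAt (fun s : ℝ => c⁻¹ * s) c⁻¹ 0 := by
      have h := (hasDerivAt_id (0 : ℝ)).const_mul c⁻¹
      rw [mul_one] at h
      exact h
    have h4 : HasDerivAt (fun s : ℝ => cf e (a + s • x) y) (mc e 1 a x y) (c⁻¹ * 0) := by
      rw [mul_zero]
      exact P2_deriv e a x y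
    have h5 : HasDerivAt (fun s : ℝ => c ^ (n - 1) * cf e (a + (c⁻¹ * s) • x) y)
        (c ^ (n - 1) * (mc e 1 a x y * c⁻¹)) 0 := (h4.comp (0 : ℝ) h3).const_mul _
    have h6 := h1.unique h5
    have h7 : c ^ (n - 1) = c ^ (n - 2) * c := by
      rw [← pow_succ]
      congr 1
      omega
    change mc e 1 (c • a) x y = c ^ (n - 2) * mc e 1 a x y
    rw [h6, h7]
    field_simp
  exact congrFun h c

end HDG
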