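import Pool.Agent.HDP.P2

/-!
# HDP/P3: the mixed discriminant at a diagonal form

`mc e 1 a x y` is the derivative at `s = 0` of `s ↦ cf e (a + s x) y`, which is the real part of the sum of the determinants of the matrices
`Mt e a + s Mt e x` whose column `i` is replaced by the column `i` of `Mt e y`. The derivative of a determinant is the sum over the columns,
and the determinant of a diagonal matrix with two replaced columns has only two terms in the Leibniz formula.
-/

set_option autoImplicit false

noncomputable section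

open scoped ContDiff

namespace HDG

open Pool.Agent.FBR

variable {H : Type*} [NormedAddCommGroup H] [NormedSpace ℂ H] [FiniteDimensional ℂ H] {n : ℕ}
  (e : Module.Basis (Fin n) ℂ H)

/-- the determinant of a diagonal matrix with two replaced columns -/
private theorem P3_two (l x y : Fin n → ℂ) {i k : Fin n} (h : k ≠ i) :
    (((Matrix.diagonal l).updateCol i y).updateCol k x).det =
      (∏ j ∈ (Finset.univ.erase i).erase k, l j) * (y i * x k - y k * x i) := by
  set M := ((Matrix.diagonal l).updateCol i y).updateCol k x with hM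
  have hk : ∀ p, M p k = x p := fun p => by rw [hM, Matrix.updateCol_self]
  have hi : ∀ p, M p i = y p := fun p => by rw [hM, Matrix.updateCol_ne (Ne.symm h), Matrix.updateCol_self]
  have ho : ∀ p q, q ≠ i → q ≠ k → M p q = Matrix.diagonal l p q := fun p q h1 h2 => by
    rw [hM, Matrix.updateCol_ne h2, Matrix.updateCol_ne h1]
  have hprod : ∀ σ : Equiv.Perm (Fin n), ∏ j, M (σ j) j =
      y (σ i) * (x (σ k) * ∏ j ∈ (Finset.univ.erase i).erase k, Matrix.diagonal l (σ j) j) := by
    intro σ
    rw [← Finset.mul_prod_erase Finset.univ _ (Finset.mem_univ i),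
      ← Finset.mul_prod_erase (Finset.univ.erase i) _ (Finset.mem_erase.mpr ⟨h, Finset.mem_univ k⟩), hi, hk]
    congr 2
    refine Finset.prod_congr rfl fun j hj => ?_
    rw [Finset.mem_erase, Finset.mem_erase] at hj
    exact ho _ _ hj.2.1 hj.1
  have hz : ∀ σ : Equiv.Perm (Fin n), σ ∉ ({1, Equiv.swap i k} : Finset (Equiv.Perm (Fin n))) →
      Equiv.Perm.sign σ • ∏ j, M (σ j) j = 0 := by
    intro σ hσ
    have h1 : ∃ j ∈ (Finset.univ.erase i).erase k, σ j ≠ j := by
      by_contra hc
      push Not at hc
      have hc' : ∀ j, j ≠ i → j ≠ k → σ j = j := fun j h1 h2 =>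
        hc j (Finset.mem_erase.mpr ⟨h2, Finset.mem_erase.mpr ⟨h1, Finset.mem_univ j⟩⟩)
      have hik : σ i = i ∨ σ i = k := by
        by_contra hcc
        push Not at hcc
        exact hcc.1 (σ.injective (hc' (σ i) hcc.1 hcc.2))
      have hki : σ k = i ∨ σ k = k := by
        by_contra hcc
        push Not at hcc
        exact hcc.2 (σ.injective (hc' (σ k) hcc.1 hcc.2))
      apply hσ
      rw [Finset.mem_insert, Finset.mem_singleton]
      rcases hik with h1 | h1
      · left
        have h2 : σ k = k := by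
          rcases hki with h2 | h2
          · exact absurd (σ.injective (h2.trans h1.symm)) h
          · exact h2
        ext j
        by_cases h3 : j = i
        · rw [h3, h1]; rfl
        · by_cases h4 : j = k
          · rw [h4, h2]; rfl
          · rw [hc' j h3 h4]; rfl
      · right
        have h2 : σ k = i := by
          rcases hki with h2 | h2
          · exact h2
          · exact absurd (σ.injective (h2.trans h1.symm)) h
        ext j
        by_cases h3 : j = i
        · rw [h3, h1, Equiv.swap_apply_left]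
        · by_cases h4 : j = k
          · rw [h4, h2, Equiv.swap_apply_right]
          · rw [hc' j h3 h4, Equiv.swap_apply_of_ne_of_ne h3 h4]
    obtain ⟨j, hj, hj'⟩ := h1
    have h2 : ∏ j ∈ (Finset.univ.erase i).erase k, Matrix.diagonal l (σ j) j = 0 :=
      Finset.prod_eq_zero hj (Matrix.diagonal_apply_ne l hj')
    rw [hprod, h2, mul_zero, mul_zero, smul_zero]
  have hne : (1 : Equiv.Perm (Fin n)) ≠ Equiv.swap i k := by
    intro hc
    have := Equiv.congr_fun hc i
    rw [Equiv.swap_apply_left] at this
    exact h this.symm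
  rw [Matrix.det_apply, ← Finset.sum_subset (Finset.subset_univ ({1, Equiv.swap i k} : Finset (Equiv.Perm (Fin n))))
    fun σ _ hσ => hz σ hσ, Finset.sum_pair hne, hprod, hprod, Equiv.swap_apply_left, Equiv.swap_apply_right,
    Equiv.Perm.sign_one, Equiv.Perm.sign_swap (Ne.symm h)]
  have h1 : ∏ j ∈ (Finset.univ.erase i).erase k, Matrix.diagonal l ((1 : Equiv.Perm (Fin n)) j) j =
      ∏ j ∈ (Finset.univ.erase i).erase k, l j := Finset.prod_congr rfl fun j _ => Matrix.diagonal_apply_eq _ _
  have h2 : ∏ j ∈ (Finset.univ.erase i).erase k, Matrix.diagonal l (Equiv.swap i k j) j =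
      ∏ j ∈ (Finset.univ.erase i).erase k, l j := by
    refine Finset.prod_congr rfl fun j hj => ?_
    rw [Finset.mem_erase, Finset.mem_erase] at hj
    rw [Equiv.swap_apply_of_ne_of_ne hj.2.1 hj.1, Matrix.diagonal_apply_eq]
  rw [h1, h2]
  simp only [Equiv.Perm.coe_one, id_eq, one_smul, Units.neg_smul]
  ring

/-- the derivative of the determinant of a pencil -/
private theorem P3_det (M : ℝ → Matrix (Fin n) (Fin n) ℂ) (D : Matrix (Fin n) (Fin n) ℂ) (t : ℝ)
    (h : ∀ p q, HasDerivAt (fun s : ℝ => M s p q) (D p q) t) :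
    HasDerivAt (fun s : ℝ => (M s).det) (∑ k, ((M t).updateCol k fun p => D p k).det) t := by
  have h1 : (fun s : ℝ => (M s).det) = fun s => ∑ σ : Equiv.Perm (Fin n), ((Equiv.Perm.sign σ : ℤ) : ℂ) * ∏ j, M s (σ j) j := by
    funext s
    rw [Matrix.det_apply']
  have h2 : ∑ k, ((M t).updateCol k fun p => D p k).det =
      ∑ σ : Equiv.Perm (Fin n), ((Equiv.Perm.sign σ : ℤ) : ℂ) * ∑ k, (∏ j ∈ Finset.univ.erase k, M t (σ j) j) • D (σ k) k := by
    simp only [Matrix.det_apply']
    rw [Finset.sum_comm]
    refine Finset.sum_congr rfl fun σ _ => ?_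
    rw [Finset.mul_sum]
    refine Finset.sum_congr rfl fun k _ => ?_
    rw [← Finset.mul_prod_erase Finset.univ _ (Finset.mem_univ k), Matrix.updateCol_self, smul_eq_mul,
      mul_comm (D (σ k) k)]
    congr 2
    refine Finset.prod_congr rfl fun j hj => ?_
    rw [Matrix.updateCol_ne (Finset.ne_of_mem_erase hj)]
  rw [h1, h2]
  refine HasDerivAt.fun_sum fun σ _ => HasDerivAt.const_mul _ ?_
  exact HasDerivAt.fun_finsetProd fun k _ => h (σ k) k

omit [FiniteDimensional ℂ H] in
private theorem P3_cf (a y : Bil H) : cf e a y = (∑ i, ((Mt e a).updateCol i fun p => Mt e y p i).det).re := by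
  unfold cf
  congr 1
  rw [Matrix.trace]
  refine Finset.sum_congr rfl fun i _ => ?_
  have h := congrFun (Matrix.cramer_eq_adjugate_mulVec (Mt e a) (fun p => Mt e y p i)) i
  rw [Matrix.cramer_apply] at h
  rw [h]
  rfl

private theorem P3_deriv (a x y : Bil H) : HasDerivAt (fun s : ℝ => cf e (a + s • x) y) (mc e 1 a x y) 0 := by
  obtain ⟨P, h1, h2⟩ := cf_poly e a x y
  have h3 : mc e 1 a x y = P.coeff 1 := lj_poly 1 (Polynomial.natDegree_le_of_degree_le h1.le) fun k _ => h2 k
  have h4 : (fun s : ℝ => cf e (a + s • x) y) = fun s => P.eval s := funext h2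
  have h5 := P.hasDerivAt 0
  rw [← Polynomial.coeff_zero_eq_eval_zero, Polynomial.coeff_derivative] at h5
  rw [h3, h4]
  simpa using h5

omit [FiniteDimensional ℂ H] in
private theorem P3_re (x y : Bil H) (hx : O11 x) (hy : O11 y) (l : Fin n → ℝ) (i k : Fin n) :
    ((∏ j ∈ (Finset.univ.erase i).erase k, ((l j : ℝ) : ℂ)) *
      (Mt e y i i * Mt e x k k - Mt e y k i * Mt e x i k)).re =
      (∏ j ∈ (Finset.univ.erase i).erase k, l j) *
      (x (e k) (Complex.I • e k) * y (e i) (Complex.I • e i) -
        x (e k) (Complex.I • e i) * y (e k) (Complex.I • e i) - x (e k) (e i) * y (e k) (e i)) := by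
  rw [← Complex.ofReal_prod, Complex.re_ofReal_mul]
  congr 1
  have h1 : Mt e x i k = (starRingEnd ℂ) (Mt e x k i) := by
    have := congrFun (congrFun (Mt_herm e hx) i) k
    rw [← this]
    rfl
  rw [h1]
  simp only [Mt, hx.1, hy.1]
  simp [Complex.mul_re, Complex.sub_re, Complex.sub_im]
  ring

theorem c2_diag {a x y : Bil H} (ha : O11 a) (hx : O11 x) (hy : O11 y) {l : Fin n → ℝ}
    (hl : Mt e a = Matrix.diagonal fun i => ((l i : ℝ) : ℂ)) :
    mc e 1 a x y = ∑ p, ∑ r ∈ Finset.univ.erase p, (∏ i ∈ (Finset.univ.erase p).erase r, l i) *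
      (x (e p) (Complex.I • e p) * y (e r) (Complex.I • e r) -
        x (e p) (Complex.I • e r) * y (e p) (Complex.I • e r) - x (e p) (e r) * y (e p) (e r)) := by
  have h0 : a + (0 : ℝ) • x = a := by
    refine ContinuousLinearMap.ext fun u => ContinuousLinearMap.ext fun v => ?_
    have h : (a + (0 : ℝ) • x) u v = a u v + 0 * x u v := rfl
    rw [h, zero_mul, add_zero]
  have h1 : ∀ i : Fin n, HasDerivAt (fun s : ℝ => ((Mt e (a + s • x)).updateCol i fun p => Mt e y p i).det)
      (∑ k, (((Mt e (a + (0 : ℝ) • x)).updateCol i fun p => Mt e y p i).updateCol k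
        fun p => (Matrix.updateCol (Mt e x) i fun _ => 0) p k).det) 0 := by
    intro i
    refine P3_det _ _ 0 fun p q => ?_
    by_cases h : q = i
    · rw [h, Matrix.updateCol_self]
      have : (fun s : ℝ => (Matrix.updateCol (Mt e (a + s • x)) i fun p => Mt e y p i) p i) = fun _ => Mt e y p i := by
        funext s
        rw [Matrix.updateCol_self]
      rw [this]
      exact hasDerivAt_const _ _
    · rw [Matrix.updateCol_ne h]
      have : (fun s : ℝ => (Matrix.updateCol (Mt e (a + s • x)) i fun p => Mt e y p i) p q) =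
          fun s : ℝ => Mt e a p q + (s : ℂ) * Mt e x p q := by
        funext s
        rw [Matrix.updateCol_ne h, Mt_add, Mt_smul]
        rfl
      rw [this]
      have h2 : HasDerivAt (fun s : ℝ => (s : ℂ)) 1 0 := Complex.ofRealCLM.hasDerivAt
      have h3 := (h2.mul_const (Mt e x p q)).const_add (Mt e a p q)
      rw [one_mul] at h3
      exact h3
  have h2 := HasDerivAt.fun_sum (u := Finset.univ) fun i _ => h1 i
  have h3 := Complex.reCLM.hasFDerivAt.comp_hasDerivAt (0 : ℝ) h2
  have h4 : (fun s : ℝ => cf e (a + s • x) y) = Complex.reCLM ∘ fun s : ℝ =>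
      ∑ i, ((Mt e (a + s • x)).updateCol i fun p => Mt e y p i).det := by
    funext s
    rw [P3_cf]
    rfl
  have h5 := P3_deriv e a x y
  rw [h4] at h5
  rw [h5.unique h3, Complex.reCLM_apply, Complex.re_sum, h0, hl]
  have h6 : ∀ i : Fin n, (∑ k, (((Matrix.diagonal fun i => ((l i : ℝ) : ℂ)).updateCol i fun p => Mt e y p i).updateCol k
        fun p => (Matrix.updateCol (Mt e x) i fun _ => 0) p k).det).re =
      ∑ k ∈ Finset.univ.erase i, (∏ j ∈ (Finset.univ.erase i).erase k, l j) *
      (x (e k) (Complex.I • e k) * y (e i) (Complex.I • e i) -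
        x (e k) (Complex.I • e i) * y (e k) (Complex.I • e i) - x (e k) (e i) * y (e k) (e i)) := by
    intro i
    rw [← Finset.add_sum_erase Finset.univ _ (Finset.mem_univ i)]
    have h7 : ((((Matrix.diagonal fun i => ((l i : ℝ) : ℂ)).updateCol i fun p => Mt e y p i).updateCol i
        fun p => (Matrix.updateCol (Mt e x) i fun _ => 0) p i).det) = 0 := by
      refine Matrix.det_eq_zero_of_column_eq_zero i fun p => ?_
      rw [Matrix.updateCol_self, Matrix.updateCol_self]
    rw [h7, zero_add, Complex.re_sum]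
    refine Finset.sum_congr rfl fun k hk => ?_
    have hk' := Finset.ne_of_mem_erase hk
    have h8 : (fun p => (Matrix.updateCol (Mt e x) i fun _ => 0) p k) = fun p => Mt e x p k := by
      funext p
      rw [Matrix.updateCol_ne hk']
    rw [h8, P3_two _ _ _ hk', P3_re e x y hx hy l i k]
  rw [Finset.sum_congr rfl fun i _ => h6 i]
  have h9 : ∀ F : Fin n → Fin n → ℝ, ∑ i, ∑ k ∈ Finset.univ.erase i, F i k = ∑ i, ∑ k ∈ Finset.univ.erase i, F k i := by
    intro F
    have h10 : ∀ G : Fin n → Fin n → ℝ, ∑ i, ∑ k ∈ Finset.univ.erase i, G i k = ∑ i, ∑ k, if k ≠ i then G i k else 0 := by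
      intro G
      refine Finset.sum_congr rfl fun i _ => ?_
      rw [← Finset.sum_filter]
      refine Finset.sum_congr ?_ fun _ _ => rfl
      ext k
      simp
    rw [h10 F, h10 fun i k => F k i, Finset.sum_comm]
    refine Finset.sum_congr rfl fun i _ => Finset.sum_congr rfl fun k _ => ?_
    by_cases h : k = i
    · simp [h]
    · simp [h, Ne.symm h]
  rw [h9]
  refine Finset.sum_congr rfl fun i _ => Finset.sum_congr rfl fun k _ => ?_
  rw [Finset.erase_right_comm]

end HDG
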