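import Pool.Agent.HDP.P1
import Pool.Agent.HDP.P3

/-!
# HDP/P4: `rr` in a basis which diagonalises the form

`ddc_expand`: the expansion of `ddc (γ x y)` in the basis `E1`, `E2`; `ddc_eval_O11`: `ddc` of a coefficient is a real `(1,1)`-form;
`rr_diag`: the value of `rr` in a basis in which the matrix of `a` is diagonal.
-/

set_option autoImplicit false

noncomputable section

open scoped ContDiff

namespace HDG

open Pool.Agent.FBR

variable {H : Type*} [NormedAddCommGroup H] [NormedSpace ℂ H] [FiniteDimensional ℂ H] {n : ℕ}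
  (e : Module.Basis (Fin n) ℂ H)

omit [FiniteDimensional ℂ H] in
private theorem P4_ev {γ : H → Bil H} (hγ : ContDiff ℝ ∞ γ) (x y : H) : ContDiff ℝ ∞ (fun z => γ z x y) := by
  have h1 : ContDiff ℝ ∞ (fun z => γ z x) := hγ.clm_apply contDiff_const
  exact h1.clm_apply contDiff_const

omit [FiniteDimensional ℂ H] in
private theorem P4_two {f : H → ℝ} (hf : ContDiff ℝ ∞ f) (z : H) : ContDiffAt ℝ 2 f z :=
  hf.contDiffAt.of_le (WithTop.coe_le_coe.2 (le_top : (2 : ℕ∞) ≤ ⊤))

omit [FiniteDimensional ℂ H] in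
private theorem P4_zero (z : H) : ddc (fun _ : H => (0 : ℝ)) z = 0 := by
  ext u v
  rw [ddc_apply]
  simp

omit [FiniteDimensional ℂ H] in
private theorem P4_sum {ι : Type*} (t : Finset ι) (f : ι → H → ℝ) (hf : ∀ i ∈ t, ContDiff ℝ ∞ (f i)) (z : H) :
    ddc (fun z => ∑ i ∈ t, f i z) z = ∑ i ∈ t, ddc (f i) z := by
  classical
  induction t using Finset.induction_on with
  | empty =>
    simp only [Finset.sum_empty]
    exact P4_zero z
  | insert i t hi ih =>
    have h1 : ContDiff ℝ ∞ (fun z => ∑ j ∈ t, f j z) :=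
      ContDiff.sum fun j hj => hf j (Finset.mem_insert_of_mem hj)
    have h2 := ddc_add (P4_two (hf i (Finset.mem_insert_self i t)) z) (P4_two h1 z)
    rw [Finset.sum_insert hi, ← ih fun j hj => hf j (Finset.mem_insert_of_mem hj), ← h2]
    congr 1
    funext x
    rw [Finset.sum_insert hi]

omit [FiniteDimensional ℂ H] in
private theorem P4_lin {f g : H → ℝ} (hf : ContDiff ℝ ∞ f) (hg : ContDiff ℝ ∞ g) (c d : ℝ) (z u v : H) :
    ddc (fun z => f z * c + g z * d) z u v = ddc f z u v * c + ddc g z u v * d := by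
  have hf1 : ContDiff ℝ ∞ (fun z => c * f z) := contDiff_const.mul hf
  have hg1 : ContDiff ℝ ∞ (fun z => d * g z) := contDiff_const.mul hg
  have e1 : (fun z => f z * c + g z * d) = fun z => c * f z + d * g z := by
    funext x
    ring
  rw [e1, ddc_add (P4_two hf1 z) (P4_two hg1 z), ddc_smul c (P4_two hf z), ddc_smul d (P4_two hg z)]
  simp only [add_apply, smul_apply, smul_eq_mul]
  ring

omit [FiniteDimensional ℂ H] in
private theorem P4_alt {a : Bil H} (ha : O11 a) (u v : H) : a v u = - a u v := by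
  have h := ha.1 (u + v)
  simp only [map_add, add_apply] at h
  rw [ha.1 u, ha.1 v] at h
  linarith

private theorem P4_swap (f : Fin n → Fin n → ℝ) :
    ∑ p, ∑ r ∈ Finset.univ.erase p, f p r = ∑ p, ∑ r ∈ Finset.univ.erase p, f r p := by
  refine Finset.sum_comm' fun x y => ?_
  simp only [Finset.mem_univ, Finset.mem_erase, and_true, true_and]
  exact ne_comm

private theorem P4_half (L K M : Fin n → Fin n → ℝ) (hL : ∀ p r, L r p = L p r)
    (hK : ∀ p r, K p r + K r p = M p r) :
    ∑ p, ∑ r ∈ Finset.univ.erase p, L p r * K p r =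
      ∑ p, ∑ r ∈ Finset.univ.erase p, L p r * (M p r / 2) := by
  have h1 := P4_swap fun p r => L p r * K p r
  have h2 : ∑ p, ∑ r ∈ Finset.univ.erase p, L p r * (M p r / 2) =
      (∑ p, ∑ r ∈ Finset.univ.erase p, L p r * K p r + ∑ p, ∑ r ∈ Finset.univ.erase p, L r p * K r p) / 2 := by
    rw [← Finset.sum_add_distrib, Finset.sum_div]
    refine Finset.sum_congr rfl fun p _ => ?_
    rw [← Finset.sum_add_distrib, Finset.sum_div]
    refine Finset.sum_congr rfl fun r _ => ?_
    rw [hL p r, ← hK p r]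
    ring
  rw [h2, ← h1]
  ring

theorem ddc_expand {γ : H → Bil H} (hγ : ContDiff ℝ ∞ γ) (hoo : ∀ z, O11 (γ z)) (z x y u v : H) :
    ∑ p, ∑ q, (ddc (fun z => γ z (e p) (Complex.I • e q)) z u v * E1 e p q x y +
      ddc (fun z => γ z (e p) (e q)) z u v * E2 e p q x y) = ddc (fun z => γ z x y) z u v := by
  have h1 : ∀ z, γ z x y = ∑ p, ∑ q, (γ z (e p) (Complex.I • e q) * E1 e p q x y + γ z (e p) (e q) * E2 e p q x y) := by
    intro z
    conv_lhs => rw [expand e (hoo z)]
    simp only [sum_apply, add_apply, smul_apply, smul_eq_mul]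
  have h2 : ∀ p q, ContDiff ℝ ∞ (fun z => γ z (e p) (Complex.I • e q) * E1 e p q x y + γ z (e p) (e q) * E2 e p q x y) := by
    intro p q
    exact ((P4_ev hγ _ _).mul contDiff_const).add ((P4_ev hγ _ _).mul contDiff_const)
  have h3 : (fun z => γ z x y) = fun z => ∑ p, ∑ q, (γ z (e p) (Complex.I • e q) * E1 e p q x y +
      γ z (e p) (e q) * E2 e p q x y) := funext h1
  rw [h3, P4_sum _ _ fun p _ => ContDiff.sum fun q _ => h2 p q]
  simp only [sum_apply]
  refine Finset.sum_congr rfl fun p _ => ?_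
  rw [P4_sum _ _ fun q _ => h2 p q]
  simp only [sum_apply]
  refine Finset.sum_congr rfl fun q _ => ?_
  exact (P4_lin (P4_ev hγ _ _) (P4_ev hγ _ _) _ _ z u v).symm

omit [FiniteDimensional ℂ H] in
theorem ddc_eval_O11 {γ : H → Bil H} (hγ : ContDiff ℝ ∞ γ) (z x y : H) : O11 (ddc (fun z => γ z x y) z) := by
  exact O11_ddc (P4_two (P4_ev hγ x y) z)

theorem rr_diag {a : Bil H} (ha : O11 a) {l : Fin n → ℝ} (hl : Mt e a = Matrix.diagonal fun i => ((l i : ℝ) : ℂ))
    {γ : H → Bil H} (hγ : ContDiff ℝ ∞ γ) (hoo : ∀ z, O11 (γ z)) (z : H) :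
    rr e a γ z = ∑ p, ∑ r ∈ Finset.univ.erase p, (∏ i ∈ (Finset.univ.erase p).erase r, l i) *
      (psi γ z (e p) (e r) / 2) := by
  have hx : ∀ x y, O11 (ddc (fun z => γ z x y) z) := fun x y => ddc_eval_O11 hγ z x y
  have h1 : rr e a γ z = ∑ p, ∑ r ∈ Finset.univ.erase p, (∏ i ∈ (Finset.univ.erase p).erase r, l i) *
      (ddc (fun z => γ z (e r) (Complex.I • e r)) z (e p) (Complex.I • e p) -
        ddc (fun z => γ z (e p) (Complex.I • e r)) z (e p) (Complex.I • e r) -
        ddc (fun z => γ z (e p) (e r)) z (e p) (e r)) := by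
    unfold rr
    have h2 : ∀ s t, mc e 1 a (ddc (fun z => γ z (e s) (Complex.I • e t)) z) (E1 e s t) +
        mc e 1 a (ddc (fun z => γ z (e s) (e t)) z) (E2 e s t) =
        ∑ p, ∑ r ∈ Finset.univ.erase p, (∏ i ∈ (Finset.univ.erase p).erase r, l i) *
        ((ddc (fun z => γ z (e s) (Complex.I • e t)) z (e p) (Complex.I • e p) * E1 e s t (e r) (Complex.I • e r) +
          ddc (fun z => γ z (e s) (e t)) z (e p) (Complex.I • e p) * E2 e s t (e r) (Complex.I • e r)) -
        (ddc (fun z => γ z (e s) (Complex.I • e t)) z (e p) (Complex.I • e r) * E1 e s t (e p) (Complex.I • e r) +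
          ddc (fun z => γ z (e s) (e t)) z (e p) (Complex.I • e r) * E2 e s t (e p) (Complex.I • e r)) -
        (ddc (fun z => γ z (e s) (Complex.I • e t)) z (e p) (e r) * E1 e s t (e p) (e r) +
          ddc (fun z => γ z (e s) (e t)) z (e p) (e r) * E2 e s t (e p) (e r))) := by
      intro s t
      rw [c2_diag e ha (hx _ _) (E1_O11 e s t) hl, c2_diag e ha (hx _ _) (E2_O11 e s t) hl,
        ← Finset.sum_add_distrib]
      refine Finset.sum_congr rfl fun p _ => ?_
      rw [← Finset.sum_add_distrib]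
      refine Finset.sum_congr rfl fun r _ => ?_
      ring
    have h3 : ∀ (s : Fin n), ∑ t, (mc e 1 a (ddc (fun z => γ z (e s) (Complex.I • e t)) z) (E1 e s t) +
        mc e 1 a (ddc (fun z => γ z (e s) (e t)) z) (E2 e s t)) = _ :=
      fun s => (Finset.sum_congr rfl fun t _ => h2 s t).trans Finset.sum_comm
    rw [Finset.sum_congr rfl fun s _ => h3 s, Finset.sum_comm]
    refine Finset.sum_congr rfl fun p _ => ?_
    rw [Finset.sum_congr rfl fun s _ => Finset.sum_comm, Finset.sum_comm]
    refine Finset.sum_congr rfl fun r _ => ?_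
    rw [← ddc_expand e hγ hoo z (e r) (Complex.I • e r) (e p) (Complex.I • e p),
      ← ddc_expand e hγ hoo z (e p) (Complex.I • e r) (e p) (Complex.I • e r),
      ← ddc_expand e hγ hoo z (e p) (e r) (e p) (e r), ← Finset.sum_sub_distrib, ← Finset.sum_sub_distrib,
      Finset.mul_sum]
    refine Finset.sum_congr rfl fun s _ => ?_
    rw [← Finset.sum_sub_distrib, ← Finset.sum_sub_distrib, Finset.mul_sum]
  rw [h1]
  refine P4_half (fun p r => ∏ i ∈ (Finset.univ.erase p).erase r, l i)
    (fun p r => ddc (fun z => γ z (e r) (Complex.I • e r)) z (e p) (Complex.I • e p) -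
        ddc (fun z => γ z (e p) (Complex.I • e r)) z (e p) (Complex.I • e r) -
        ddc (fun z => γ z (e p) (e r)) z (e p) (e r)) (fun p r => psi γ z (e p) (e r)) ?_ ?_
  · intro p r
    rw [Finset.erase_right_comm]
  · intro p r
    have k1 : (fun z => γ z (e r) (Complex.I • e p)) = fun z => γ z (e p) (Complex.I • e r) :=
      funext fun z => O11_symm (hoo z) (e r) (e p)
    have k2 : (fun z => γ z (e r) (e p)) = fun z => (-1) * γ z (e p) (e r) := by
      funext z
      rw [P4_alt (hoo z) (e p) (e r)]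
      ring
    have k3 := O11_symm (hx (e p) (Complex.I • e r)) (e r) (e p)
    have k4 := P4_alt (hx (e p) (e r)) (e p) (e r)
    simp only [k1, k2]
    rw [ddc_smul (-1) (P4_two (P4_ev hγ (e p) (e r)) z)]
    simp only [smul_apply, smul_eq_mul]
    rw [k3, k4]
    unfold psi
    ring

end HDG
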