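import Pool.Agent.HDP.P7

/-!
# HDP/P7b: if `rr e (w0 e)` vanishes then `psi` vanishes

If `u`, `v` are linearly dependent over `ℂ`, `psi γ z u v = 0` by the rules for `(1,1)`-forms. Otherwise `u`, `v` are members of a basis
`e'`, and the sum of the nonnegative terms `psi γ z (e' p) (e' r)` vanishes (`rr_mono`, `rr_basis`, `rr_diag`).
-/

set_option autoImplicit false

noncomputable section

open scoped ContDiff

namespace HDG

open Pool.Agent.FBR

variable {H : Type*} [NormedAddCommGroup H] [NormedSpace ℂ H] [FiniteDimensional ℂ H] {n : ℕ}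
  (e : Module.Basis (Fin n) ℂ H)

omit [FiniteDimensional ℂ H] in
private theorem p7b_split (c : ℂ) (u : H) : c • u = c.re • u + c.im • (Complex.I • u) := by
  conv_lhs => rw [← Complex.re_add_im c]
  rw [add_smul, mul_smul, Complex.coe_smul, Complex.coe_smul]

omit [FiniteDimensional ℂ H] in
private theorem p7b_splitI (c : ℂ) (u : H) :
    Complex.I • (c • u) = c.re • (Complex.I • u) + (-c.im) • u := by
  have h1 : Complex.I • (c • u) = (Complex.I * c) • u := (mul_smul _ _ _).symm
  rw [h1, p7b_split (Complex.I * c) u]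
  have h2 : (Complex.I * c).re = -c.im := by simp
  have h3 : (Complex.I * c).im = c.re := by simp
  rw [h2, h3, add_comm]

omit [FiniteDimensional ℂ H] in
private theorem p7b_anti {a : Bil H} (ha : O11 a) (u : H) :
    a (Complex.I • u) u = - a u (Complex.I • u) := by
  have h := ha.1 (u + Complex.I • u)
  rw [map_add, map_add, _root_.add_apply, _root_.add_apply, ha.1, ha.1] at h
  linarith

omit [FiniteDimensional ℂ H] in
private theorem p7b_lin (a : Bil H) (u x y : H) (r s : ℝ) :
    a u (r • x + s • y) = r * a u x + s * a u y := by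
  rw [map_add, map_smul, map_smul, smul_eq_mul, smul_eq_mul]

omit [FiniteDimensional ℂ H] in
private theorem p7b_linL (a : Bil H) (w x y : H) (r s : ℝ) :
    a (r • x + s • y) w = r * a x w + s * a y w := by
  rw [map_add, map_smul, map_smul, _root_.add_apply, _root_.smul_apply, _root_.smul_apply,
    smul_eq_mul, smul_eq_mul]

omit [FiniteDimensional ℂ H] in
private theorem p7b_1 {a : Bil H} (ha : O11 a) (c : ℂ) (u : H) :
    a u (c • u) = c.im * a u (Complex.I • u) := by
  rw [p7b_split c u, p7b_lin, ha.1, mul_zero, zero_add]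

omit [FiniteDimensional ℂ H] in
private theorem p7b_2 {a : Bil H} (ha : O11 a) (c : ℂ) (u : H) :
    a u (Complex.I • (c • u)) = c.re * a u (Complex.I • u) := by
  rw [p7b_splitI c u, p7b_lin, ha.1, mul_zero, add_zero]

omit [FiniteDimensional ℂ H] in
private theorem p7b_3 {a : Bil H} (ha : O11 a) (c : ℂ) (u : H) :
    a (c • u) (Complex.I • (c • u)) = (c.re ^ 2 + c.im ^ 2) * a u (Complex.I • u) := by
  have h1 : a (c • u) (Complex.I • (c • u)) =
      c.re * a u (Complex.I • (c • u)) + c.im * a (Complex.I • u) (Complex.I • (c • u)) := by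
    rw [← p7b_linL, ← p7b_split c u]
  rw [h1, ha.2, p7b_2 ha c u, p7b_1 ha c u]
  ring

omit [FiniteDimensional ℂ H] in
private theorem p7b_diff {γ : H → Bil H} (hγ : ContDiff ℝ ∞ γ) (z x y : H) :
    ContDiffAt ℝ 2 (fun z => γ z x y) z := by
  have h1 : ContDiff ℝ ∞ fun z => γ z x y := (hγ.clm_apply contDiff_const).clm_apply contDiff_const
  exact h1.contDiffAt.of_le (by norm_cast)

/-- the dependent case -/
private theorem p7b_dep {γ : H → Bil H} (hγ : ContDiff ℝ ∞ γ) (hoo : ∀ z, O11 (γ z)) (z : H) (c : ℂ)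
    (u : H) : psi γ z u (c • u) = 0 := by
  have hg := p7b_diff hγ z u (Complex.I • u)
  have hD : O11 (ddc (fun z => γ z u (Complex.I • u)) z) := ddc_eval_O11 hγ z u (Complex.I • u)
  have e1 : (fun z => γ z (c • u) (Complex.I • (c • u))) =
      fun z => (c.re ^ 2 + c.im ^ 2) * (fun z => γ z u (Complex.I • u)) z :=
    funext fun z => p7b_3 (hoo z) c u
  have e2 : (fun z => γ z u (c • u)) = fun z => c.im * (fun z => γ z u (Complex.I • u)) z :=
    funext fun z => p7b_1 (hoo z) c u
  have e3 : (fun z => γ z u (Complex.I • (c • u))) =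
      fun z => c.re * (fun z => γ z u (Complex.I • u)) z :=
    funext fun z => p7b_2 (hoo z) c u
  unfold psi
  rw [e1, e2, e3, ddc_smul _ hg, ddc_smul _ hg, ddc_smul _ hg, p7b_3 hD]
  simp only [_root_.smul_apply, smul_eq_mul]
  rw [p7b_1 hD c u, p7b_2 hD c u]
  ring

omit [FiniteDimensional ℂ H] in
private theorem p7b_zero {γ : H → Bil H} (z : H) (v : H) : psi γ z 0 v = 0 := by
  have e1 : (fun z => γ z 0 (Complex.I • (0 : H))) = fun _ => (0 : ℝ) := by
    funext z
    rw [map_zero, _root_.zero_apply]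
  have e0 : ddc (fun _ : H => (0 : ℝ)) z = 0 := by
    refine ContinuousLinearMap.ext fun x => ContinuousLinearMap.ext fun y => ?_
    rw [ddc_apply]
    simp
  unfold psi
  rw [e1, e0]
  simp only [smul_zero, map_zero, _root_.zero_apply]
  norm_num

omit [FiniteDimensional ℂ H] in
/-- independent vectors are members of a basis -/
private theorem p7b_basis (e : Module.Basis (Fin n) ℂ H) {u v : H} (h : LinearIndependent ℂ ![u, v]) :
    ∃ (e' : Module.Basis (Fin n) ℂ H) (p r : Fin n), p ≠ r ∧ e' p = u ∧ e' r = v := by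
  classical
  have h1 : u ≠ v := by
    intro huv
    have h2 := h.injective (a₁ := 0) (a₂ := 1) (by simpa using huv)
    exact absurd h2 (by decide)
  have hs : LinearIndepOn ℂ id ({u, v} : Set H) := by
    have h2 := h.linearIndepOn_id
    have h3 : Set.range ![u, v] = {u, v} := by
      simp [Set.pair_comm]
    rwa [h3] at h2
  have hu : u ∈ hs.extend (Set.subset_univ _) := hs.subset_extend _ (Set.mem_insert u {v})
  have hv : v ∈ hs.extend (Set.subset_univ _) :=
    hs.subset_extend _ (Set.mem_insert_of_mem u (Set.mem_singleton v))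
  obtain ⟨b, hb⟩ : ∃ b, b = Module.Basis.extend hs := ⟨_, rfl⟩
  have hb1 : ∀ x, b x = (x : H) := fun x => by rw [hb, Module.Basis.extend_apply_self]
  refine ⟨b.reindex (b.indexEquiv e), b.indexEquiv e ⟨u, hu⟩, b.indexEquiv e ⟨v, hv⟩, ?_, ?_, ?_⟩
  · intro h2
    have h3 := (b.indexEquiv e).injective h2
    exact h1 (congrArg Subtype.val h3)
  · rw [Module.Basis.reindex_apply, Equiv.symm_apply_apply, hb1]
  · rw [Module.Basis.reindex_apply, Equiv.symm_apply_apply, hb1]

theorem rr_zero (hn : 2 ≤ n) {γ : H → Bil H} (hγ : ContDiff ℝ ∞ γ) (hoo : ∀ z, O11 (γ z)) {z : H}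
    (hp : ∀ u v : H, 0 ≤ psi γ z u v) (h : rr e (w0 e) γ z = 0) (u v : H) : psi γ z u v = 0 := by
  by_cases hu : u = 0
  · rw [hu]
    exact p7b_zero z v
  by_cases hc : ∃ c : ℂ, c • u = v
  · obtain ⟨c, hc⟩ := hc
    rw [← hc]
    exact p7b_dep hγ hoo z c u
  have hli : LinearIndependent ℂ ![u, v] :=
    (LinearIndependent.pair_iff' hu).2 fun c hc' => hc ⟨c, hc'⟩
  obtain ⟨e', p, r, hpr, hep, her⟩ := p7b_basis e hli
  have hNn : Nn (w0 e' : Bil H) := fun w => by
    rw [w0_self]
    exact qf_nonneg e' w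
  obtain ⟨C, hC, hform⟩ := form_le e
  obtain ⟨C', hC'⟩ : ∃ C', C' = C * ‖(w0 e' : Bil H)‖ := ⟨_, rfl⟩
  have hNn' : Nn (C' • (w0 e : Bil H) - w0 e') := fun w => by
    rw [_root_.sub_apply, _root_.sub_apply, _root_.smul_apply, _root_.smul_apply, w0_self, smul_eq_mul]
    have h1 := hform (w0 e') w
    rw [← hC'] at h1
    have h2 := le_abs_self ((w0 e' : Bil H) w (Complex.I • w))
    linarith
  have h1 := rr_mono e (w0_O11 e') (O11_smul C' (w0_O11 e)) hNn hNn' hγ hoo hp
  rw [rr_scale e hn, h, mul_zero] at h1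
  have h2 : rr e (w0 e') γ z = 0 := le_antisymm h1.2 h1.1
  obtain ⟨c, hc0, hc1⟩ := rr_basis e e'
  rw [hc1 (w0 e') γ z (w0_O11 e') hγ hoo] at h2
  have h3 : rr e' (w0 e') γ z = 0 := (mul_eq_zero.1 h2).resolve_left hc0.ne'
  have hMt : Mt e' (w0 e' : Bil H) = Matrix.diagonal fun i => (((fun _ => (1 : ℝ)) i : ℝ) : ℂ) := by
    rw [Mt_w0]
    simp
  rw [rr_diag e' (w0_O11 e') hMt hγ hoo z] at h3
  have hterm : ∀ p ∈ Finset.univ, ∀ r ∈ Finset.univ.erase p,
      0 ≤ (∏ i ∈ (Finset.univ.erase p).erase r, (fun _ => (1 : ℝ)) i) * (psi γ z (e' p) (e' r) / 2) := by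
    intro p _ r _
    rw [Finset.prod_const_one, one_mul]
    have := hp (e' p) (e' r)
    linarith
  have h4 := (Finset.sum_eq_zero_iff_of_nonneg fun p hp' => Finset.sum_nonneg (hterm p hp')).1 h3 p
    (Finset.mem_univ p)
  have h5 := (Finset.sum_eq_zero_iff_of_nonneg (hterm p (Finset.mem_univ p))).1 h4 r
    (Finset.mem_erase.2 ⟨hpr.symm, Finset.mem_univ r⟩)
  rw [Finset.prod_const_one, one_mul, hep, her] at h5
  linarith

end HDG
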