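import Pool.Agent.HDP.P4
import Pool.Agent.HDG.LC6
import Pool.Agent.HDG.LC3

/-!
# HDP/P9: integration by parts for `rr`

The mixed discriminant `mc e 1 (T z) (ddc g z) E` is a linear combination of the values `cf e (T z + k E) (ddc g z)`,
`k = 0, .., n` (`c2_symm` and the definition of `mc`), and `T + k E` is closed, so `S1` gives `S1_c`. The formula `loc_rr` follows by
bilinearity and `expand`.
-/

set_option autoImplicit false

noncomputable section

open scoped ContDiff Topology

open MeasureTheory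

namespace HDG

open Pool.Agent.FBR

variable {H : Type*} [NormedAddCommGroup H] [NormedSpace ℂ H] [FiniteDimensional ℂ H] {n : ℕ}
  (e : Module.Basis (Fin n) ℂ H) [MeasurableSpace H] [BorelSpace H] (μ : Measure H) [μ.IsAddHaarMeasure]

omit [FiniteDimensional ℂ H] [MeasurableSpace H] [BorelSpace H] in
set_option maxSynthPendingDepth 3 in
private theorem P9_fld {b : H → Bil H} {U : Set H} (hb : Fld b U) {E : Bil H} (hE : O11 E) (s : ℝ) :
    Fld (fun z => b z + s • E) U where
  sm := hb.sm.add contDiff_const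
  oo z := O11_add (hb.oo z) (O11_smul s hE)
  cl z hz u v w := by
    have h1 : fderiv ℝ (fun z => b z + s • E) z = fderiv ℝ b z := by
      rw [fderiv_add_const]
    have h2 := hb.cl z hz u v w
    unfold ext2 at h2 ⊢
    rw [h1]
    exact h2

omit [FiniteDimensional ℂ H] [MeasurableSpace H] [BorelSpace H] in
private theorem P9_dd {f : H → ℝ} (hf : ContDiff ℝ ∞ f) : Continuous (ddc f) :=
  (contDiff_iff_contDiffAt.2 fun _ => ddc_smooth hf.contDiffAt : ContDiff ℝ ∞ (ddc f)).continuous

omit [FiniteDimensional ℂ H] [MeasurableSpace H] [BorelSpace H] in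
private theorem P9_sup {f : H → ℝ} {z : H} (hz : z ∉ tsupport f) : ddc f z = 0 := by
  have h1 : f =ᶠ[𝓝 z] fun _ => (0 : ℝ) := notMem_tsupport_iff_eventuallyEq.1 hz
  rw [ddc_congr h1]
  ext u v
  rw [ddc_apply]
  simp

omit [MeasurableSpace H] [BorelSpace H] in
private theorem P9_cont {P Q R : H → Bil H} (hP : Continuous P) (hQ : Continuous Q) (hR : Continuous R) :
    Continuous fun z => mc e 1 (P z) (Q z) (R z) := by
  have h1 : Continuous fun p : Bil H × Bil H × Bil H => mc e 1 p.1 p.2.1 p.2.2 := mc_continuous e 1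
  have h2 : Continuous fun z => (P z, Q z, R z) := hP.prodMk (hQ.prodMk hR)
  exact Continuous.comp (g := fun p : Bil H × Bil H × Bil H => mc e 1 p.1 p.2.1 p.2.2)
    (f := fun z => (P z, Q z, R z)) h1 h2

omit [MeasurableSpace H] [BorelSpace H] in
set_option maxSynthPendingDepth 3 in
private theorem P9_ccf {P Q : H → Bil H} (hP : Continuous P) (hQ : Continuous Q) :
    Continuous fun z => cf e (P z) (Q z) := by
  have h1 : Continuous fun p : Bil H × Bil H => cf e p.1 p.2 := (cf_smooth e).continuous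
  have h2 : Continuous fun z => (P z, Q z) := hP.prodMk hQ
  exact Continuous.comp (g := fun p : Bil H × Bil H => cf e p.1 p.2) (f := fun z => (P z, Q z)) h1 h2

omit [FiniteDimensional ℂ H] [MeasurableSpace H] [BorelSpace H] in
set_option maxSynthPendingDepth 3 in
private theorem P9_seg {b : H → Bil H} (hb : Continuous b) (E : Bil H) (s : ℝ) :
    Continuous fun z => b z + s • E :=
  hb.add continuous_const

omit [MeasurableSpace H] [BorelSpace H] in
private theorem P9_lj (a x y : Bil H) : mc e 1 a x y =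
    ∑ k ∈ Finset.range (n + 1), (Lagrange.basis (Finset.range (n + 1)) (fun k : ℕ => (k : ℝ)) k).coeff 1 *
      cf e (a + (k : ℝ) • y) x := by
  rw [c2_symm]
  rfl

omit [MeasurableSpace H] [BorelSpace H] in
private theorem P9_cfz (a : Bil H) : cf e a (0 : Bil H) = 0 := by
  have h := cf_smul e a 0 (0 : Bil H)
  rw [zero_mul] at h
  have h2 : (0 : ℝ) • (0 : Bil H) = 0 := by
    ext u v
    simp
  rwa [h2] at h

omit [MeasurableSpace H] [BorelSpace H] in
private theorem P9_z (a y : Bil H) : mc e 1 a (0 : Bil H) y = 0 := by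
  rw [P9_lj]
  refine Finset.sum_eq_zero fun k _ => ?_
  rw [P9_cfz, mul_zero]

theorem S1_c {T : H → Bil H} {U : Set H} (hT : Fld T U) (hU : IsOpen U) {E : Bil H} (hE : O11 E) {f g : H → ℝ}
    (hf : ContDiff ℝ ∞ f) (hg : ContDiff ℝ ∞ g) (hfc : HasCompactSupport f) (hfU : tsupport f ⊆ U) :
    ∫ z, f z * mc e 1 (T z) (ddc g z) E ∂μ = ∫ z, g z * mc e 1 (T z) (ddc f z) E ∂μ := by
  have hTc : Continuous T := hT.sm.continuous
  have e1 : ∀ z, f z * mc e 1 (T z) (ddc g z) E = ∑ k ∈ Finset.range (n + 1),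
      (Lagrange.basis (Finset.range (n + 1)) (fun k : ℕ => (k : ℝ)) k).coeff 1 *
        (f z * cf e (T z + (k : ℝ) • E) (ddc g z)) := fun z => by
    rw [P9_lj, Finset.mul_sum]
    exact Finset.sum_congr rfl fun k _ => by ring
  have e2 : ∀ z, g z * mc e 1 (T z) (ddc f z) E = ∑ k ∈ Finset.range (n + 1),
      (Lagrange.basis (Finset.range (n + 1)) (fun k : ℕ => (k : ℝ)) k).coeff 1 *
        (g z * cf e (T z + (k : ℝ) • E) (ddc f z)) := fun z => by
    rw [P9_lj, Finset.mul_sum]
    exact Finset.sum_congr rfl fun k _ => by ring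
  have i1 : ∀ k : ℕ, Integrable (fun z => f z * cf e (T z + (k : ℝ) • E) (ddc g z)) μ := fun k => by
    have h1 : Continuous fun z => f z * cf e (T z + (k : ℝ) • E) (ddc g z) :=
      hf.continuous.mul (P9_ccf e (P9_seg hTc E k) (P9_dd hg))
    exact h1.integrable_of_hasCompactSupport hfc.mul_right
  have i2 : ∀ k : ℕ, Integrable (fun z => g z * cf e (T z + (k : ℝ) • E) (ddc f z)) μ := fun k => by
    have h1 : Continuous fun z => g z * cf e (T z + (k : ℝ) • E) (ddc f z) :=
      hg.continuous.mul (P9_ccf e (P9_seg hTc E k) (P9_dd hf))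
    refine h1.integrable_of_hasCompactSupport (HasCompactSupport.intro hfc fun z hz => ?_)
    rw [P9_sup hz, P9_cfz, mul_zero]
  simp_rw [e1, e2]
  rw [integral_finsetSum _ fun k _ => (i1 k).const_mul _, integral_finsetSum _ fun k _ => (i2 k).const_mul _]
  refine Finset.sum_congr rfl fun k _ => ?_
  rw [integral_const_mul, integral_const_mul]
  have hb := P9_fld hT hE (k : ℝ)
  rw [S1 e μ hb.sm hb.oo hU hb.cl hf hg hfc hfU]

theorem loc_rr {T : H → Bil H} {U : Set H} (hT : Fld T U) (hU : IsOpen U) {γ : H → Bil H} (hγ : ContDiff ℝ ∞ γ)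
    (hoo : ∀ z, O11 (γ z)) {χ : H → ℝ} (hχ : ContDiff ℝ ∞ χ) (hc : HasCompactSupport χ) (hs : tsupport χ ⊆ U) :
    ∫ z, χ z * rr e (T z) γ z ∂μ = ∫ z, mc e 1 (T z) (ddc χ z) (γ z) ∂μ := by
  have hTc : Continuous T := hT.sm.continuous
  have hap : ∀ x y : H, ContDiff ℝ ∞ fun z => γ z x y := fun x y =>
    (hγ.clm_apply contDiff_const).clm_apply contDiff_const
  have i1 : ∀ (x y : H) (E : Bil H), Integrable (fun z => χ z * mc e 1 (T z) (ddc (fun z => γ z x y) z) E) μ :=
    fun x y E => by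
    have h1 : Continuous fun z => χ z * mc e 1 (T z) (ddc (fun z => γ z x y) z) E :=
      hχ.continuous.mul (P9_cont e hTc (P9_dd (hap x y)) continuous_const)
    exact h1.integrable_of_hasCompactSupport hc.mul_right
  have i2 : ∀ (x y : H) (E : Bil H), Integrable (fun z => γ z x y * mc e 1 (T z) (ddc χ z) E) μ := fun x y E => by
    have h1 : Continuous fun z => γ z x y * mc e 1 (T z) (ddc χ z) E :=
      (hap x y).continuous.mul (P9_cont e hTc (P9_dd hχ) continuous_const)
    refine h1.integrable_of_hasCompactSupport (HasCompactSupport.intro hc fun z hz => ?_)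
    rw [P9_sup hz, P9_z, mul_zero]
  have e1 : ∀ z, χ z * rr e (T z) γ z = ∑ p, ∑ q,
      (χ z * mc e 1 (T z) (ddc (fun z => γ z (e p) (Complex.I • e q)) z) (E1 e p q) +
        χ z * mc e 1 (T z) (ddc (fun z => γ z (e p) (e q)) z) (E2 e p q)) := fun z => by
    unfold rr
    rw [Finset.mul_sum]
    refine Finset.sum_congr rfl fun p _ => ?_
    rw [Finset.mul_sum]
    exact Finset.sum_congr rfl fun q _ => by ring
  have e2 : ∀ z, mc e 1 (T z) (ddc χ z) (γ z) = ∑ p, ∑ q,
      (γ z (e p) (Complex.I • e q) * mc e 1 (T z) (ddc χ z) (E1 e p q) +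
        γ z (e p) (e q) * mc e 1 (T z) (ddc χ z) (E2 e p q)) := fun z => by
    have h1 : mc e 1 (T z) (ddc χ z) (γ z) = mc e 1 (T z) (ddc χ z)
        (∑ p, ∑ q, (γ z (e p) (Complex.I • e q) • E1 e p q + γ z (e p) (e q) • E2 e p q)) := by
      rw [← expand e (hoo z)]
    rw [h1, c2_sum_right]
    refine Finset.sum_congr rfl fun p _ => ?_
    rw [c2_sum_right]
    refine Finset.sum_congr rfl fun q _ => ?_
    rw [mc_add, mc_smul, mc_smul]
  have j1 : ∀ p q, Integrable (fun z => χ z * mc e 1 (T z) (ddc (fun z => γ z (e p) (Complex.I • e q)) z) (E1 e p q) +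
      χ z * mc e 1 (T z) (ddc (fun z => γ z (e p) (e q)) z) (E2 e p q)) μ := fun p q =>
    (i1 (e p) (Complex.I • e q) (E1 e p q)).add (i1 (e p) (e q) (E2 e p q))
  have j2 : ∀ p q, Integrable (fun z => γ z (e p) (Complex.I • e q) * mc e 1 (T z) (ddc χ z) (E1 e p q) +
      γ z (e p) (e q) * mc e 1 (T z) (ddc χ z) (E2 e p q)) μ := fun p q =>
    (i2 (e p) (Complex.I • e q) (E1 e p q)).add (i2 (e p) (e q) (E2 e p q))
  simp_rw [e1, e2]
  rw [integral_finsetSum _ fun p _ => integrable_finsetSum _ fun q _ => j1 p q,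
    integral_finsetSum _ fun p _ => integrable_finsetSum _ fun q _ => j2 p q]
  refine Finset.sum_congr rfl fun p _ => ?_
  rw [integral_finsetSum _ fun q _ => j1 p q, integral_finsetSum _ fun q _ => j2 p q]
  refine Finset.sum_congr rfl fun q _ => ?_
  rw [integral_add (i1 (e p) (Complex.I • e q) (E1 e p q)) (i1 (e p) (e q) (E2 e p q)),
    integral_add (i2 (e p) (Complex.I • e q) (E1 e p q)) (i2 (e p) (e q) (E2 e p q)),
    S1_c e μ hT hU (E1_O11 e p q) hχ (hap (e p) (Complex.I • e q)) hc hs,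
    S1_c e μ hT hU (E2_O11 e p q) hχ (hap (e p) (e q)) hc hs]

end HDG
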