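import Pool.Agent.HDW.W4

/-!
# HDP: definitions for the local part of Theorem D (MP_d9a86d_gt)

`e` is a basis of the complex vector space `H`. `cx e p`, `cy e p` are the real and the imaginary part of the coordinate with
index `p`. `E1 e p q`, `E2 e p q` are the constant real `(1,1)`-forms with the Hermitian matrices `(e_pq + e_qp) / 2` and
`(-i e_pq + i e_qp) / 2`, so that `a = ∑ (a (e p) (i e q) E1 e p q + a (e p) (e q) E2 e p q)` for all `a` with `O11 a` (P1).

`mc e 1 a x y` is the mixed discriminant `n (n - 1) a ^ (n-2) ∧ x ∧ y` (the coefficient of `s` in `cf e (a + s x) y`).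
For a field `γ` of real `(1,1)`-forms, `rr e a γ z` is `n (n - 1) a ^ (n-2) ∧ dd^c γ` at `z`, and `psi γ z u v` is
`(dd^c γ) (u, i u, v, i v)` at `z`.
-/

set_option autoImplicit false

noncomputable section

open scoped ContDiff

namespace HDG

open Pool.Agent.FBR

section

variable {H : Type*} [NormedAddCommGroup H] [NormedSpace ℂ H] [FiniteDimensional ℂ H] {n : ℕ}
  (e : Module.Basis (Fin n) ℂ H)

/-- the real part of the coordinate with index `p` -/
def cx (p : Fin n) : H →L[ℝ] ℝ := Complex.reCLM.comp ((LinearMap.toContinuousLinearMap (e.coord p)).restrictScalars ℝ)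

/-- the imaginary part of the coordinate with index `p` -/
def cy (p : Fin n) : H →L[ℝ] ℝ := Complex.imCLM.comp ((LinearMap.toContinuousLinearMap (e.coord p)).restrictScalars ℝ)

/-- the constant real `(1,1)`-form with the matrix `(e_pq + e_qp) / 2` -/
def E1 (p q : Fin n) : Bil H :=
  (1 / 2 : ℝ) • ((cx e p).smulRight (cy e q) - (cy e p).smulRight (cx e q) + (cx e q).smulRight (cy e p) -
    (cy e q).smulRight (cx e p))

/-- the constant real `(1,1)`-form with the matrix `(- i e_pq + i e_qp) / 2` -/
def E2 (p q : Fin n) : Bil H :=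
  (1 / 2 : ℝ) • ((cx e p).smulRight (cx e q) + (cy e p).smulRight (cy e q) - (cx e q).smulRight (cx e p) -
    (cy e q).smulRight (cy e p))

/-- `n (n - 1) a ^ (n-2) ∧ dd^c γ` at the point `z` -/
def rr (a : Bil H) (γ : H → Bil H) (z : H) : ℝ :=
  ∑ p, ∑ q, (mc e 1 a (ddc (fun z => γ z (e p) (Complex.I • e q)) z) (E1 e p q) +
    mc e 1 a (ddc (fun z => γ z (e p) (e q)) z) (E2 e p q))

end

section

variable {H : Type*} [NormedAddCommGroup H] [NormedSpace ℂ H]

/-- `(dd^c γ) (u, i u, v, i v)` at the point `z` -/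
def psi (γ : H → Bil H) (z u v : H) : ℝ :=
  ddc (fun z => γ z v (Complex.I • v)) z u (Complex.I • u) + ddc (fun z => γ z u (Complex.I • u)) z v (Complex.I • v) -
    2 * ddc (fun z => γ z u v) z u v - 2 * ddc (fun z => γ z u (Complex.I • v)) z u (Complex.I • v)

end

end HDG
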