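import Mathlib

/-!
# HDP/Z1: a smooth convex cut-off function on the line

The primitive of `Real.smoothTransition`, which is smooth and monotone.
-/

set_option autoImplicit false

noncomputable section

open scoped ContDiff

namespace HFC

theorem exists_chi : ∃ χ : ℝ → ℝ, ContDiff ℝ ∞ χ ∧ (∀ t, 0 ≤ deriv χ t) ∧ (∀ t, deriv χ t ≤ 1) ∧
    (∀ t, 0 ≤ deriv (deriv χ) t) ∧ (∀ t, t ≤ 0 → deriv χ t = 0) ∧ ∀ t, 0 < t → 0 < deriv χ t := by
  have hd : deriv (fun t : ℝ => ∫ x in (0 : ℝ)..t, Real.smoothTransition x) = Real.smoothTransition := by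
    funext t
    exact Real.smoothTransition.continuous.deriv_integral _ 0 t
  have hdiff : Differentiable ℝ (fun t : ℝ => ∫ x in (0 : ℝ)..t, Real.smoothTransition x) := fun t =>
    (Real.smoothTransition.continuous.integral_hasStrictDerivAt 0 t).hasDerivAt.differentiableAt
  refine ⟨fun t : ℝ => ∫ x in (0 : ℝ)..t, Real.smoothTransition x, ?_, ?_, ?_, ?_, ?_, ?_⟩
  · rw [contDiff_infty_iff_deriv]
    refine ⟨hdiff, ?_⟩
    rw [hd]
    exact Real.smoothTransition.contDiff
  · intro t
    rw [hd]
    exact Real.smoothTransition.nonneg t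
  · intro t
    rw [hd]
    exact Real.smoothTransition.le_one t
  · intro t
    rw [hd]
    exact Real.smoothTransition.monotone.deriv_nonneg
  · intro t ht
    rw [hd]
    exact Real.smoothTransition.zero_of_nonpos ht
  · intro t ht
    rw [hd]
    exact Real.smoothTransition.pos_of_pos ht

end HFC
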