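import Pool.Agent.HDW.WDefs

/-!
# HDP: definitions for the theorem on the degeneracy set

`M` is a compact connected complex manifold (`CM`), modelled on `E = M.E`.
-/

set_option autoImplicit false

noncomputable section

open scoped Manifold ContDiff Topology
open Filter

namespace HFC

open Pool.Agent.FBR

universe u

variable {E X : Type u} [NormedAddCommGroup E] [NormedSpace ℂ E] [TopologicalSpace X] [ChartedSpace E X]

/-- `β + dd^c f ≥ 0` on `X` -/
def PsF (b : Form E X) (f : X → ℝ) : Prop := ∀ (x : X) (v : E), 0 ≤ ev (b.val x) v (Complex.I • v) + lev f x v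

/-- the set of the points at which `β + dd^c f` is not positive definite -/
def Degen (b : Form E X) (f : X → ℝ) : Set X :=
  {x | ∃ v : E, v ≠ 0 ∧ ev (b.val x) v (Complex.I • v) + lev f x v ≤ 0}

/-- `A` is pluripolar: there are smooth functions `Φ 0 ≥ Φ 1 ≥ ...` with `dd^c (Φ m) ≥ -g` for a Hermitian metric `g`, whose
limit is `-∞` at the points of `A` and finite at some point `y`; the limit is a quasi-plurisubharmonic function -/
def Pluripolar (A : Set X) : Prop :=
  ∃ (g : X → Bil E) (Φ : ℕ → X → ℝ), Herm g ∧ (∀ m, SmF E (Φ m)) ∧ Antitone Φ ∧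
    (∀ (m : ℕ) (x : X) (v : E), -ev (g x) v (Complex.I • v) ≤ lev (Φ m) x v) ∧
    (∀ x ∈ A, Tendsto (fun m => Φ m x) atTop atBot) ∧ ∃ (y : X) (C : ℝ), ∀ m, C ≤ Φ m y

end HFC
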