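import Pool.Agent.HDP.QDefs
import Pool.Agent.HDP.ZDefs
import Pool.Agent.FBR.Ops
import Pool.Agent.FBR.Cpt
import Pool.Agent.HDW.W16a

/-!
# HDP/Z9 (MODULE Z9): comparison of real (1,1)-forms on a compact set; the degeneracy set is closed

`Z9_local`: if `h` is positive definite at `x0` and the coefficients of `h` and `γ` in the chart at `x0` are continuous, then
`|γ(v, iv)| ≤ n h(v, iv)` and `h(v, iv) > 0` for `v ≠ 0` near `x0` (compactness of the unit sphere in the chart at `x0`; the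
derivative of the change of charts is a complex linear bijection). `bd_of` follows with the compactness of `K`; `degen_closed` is
the case `h = γ = β + dd^c f`.
-/

set_option autoImplicit false

noncomputable section

open scoped Manifold ContDiff Topology
open Filter

namespace HFC

open Pool.Agent.FBR

universe u

private theorem Z9_coef {E X : Type u} [NormedAddCommGroup E] [NormedSpace ℂ E] [TopologicalSpace X] [ChartedSpace E X]
    [IsManifold 𝓘(ℂ, E) ω X] (a : X → Bil E) {x0 : X} {y : E} (hy : y ∈ (chartAt E x0).target) (v : E) :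
    coef a x0 y v (Complex.I • v) = ev (a ((chartAt E x0).symm y)) (dvec E (chartAt E x0).symm y v)
      (Complex.I • dvec E (chartAt E x0).symm y v) := by
  unfold coef
  rw [tpb_apply, (hol_symm hy).smul_I]
  rfl

private theorem Z9_smul {E : Type u} [NormedAddCommGroup E] [NormedSpace ℂ E] (A : Bil E) (r : ℝ) (v : E) :
    A (r • v) (Complex.I • (r • v)) = r * (r * A v (Complex.I • v)) := by
  have h1 : Complex.I • (r • v) = r • (Complex.I • v) := by
    rw [← Complex.coe_smul r v, ← Complex.coe_smul r (Complex.I • v), smul_smul, smul_smul, mul_comm]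
  have h2 : A (r • v) = r • A v := A.map_smul r v
  have h3 : A v (r • (Complex.I • v)) = r * A v (Complex.I • v) := (A v).map_smul r _
  rw [h1, h2]
  show r * A v (r • (Complex.I • v)) = _
  rw [h3]

private theorem Z9_local {E X : Type u} [NormedAddCommGroup E] [NormedSpace ℂ E] [FiniteDimensional ℂ E] [TopologicalSpace X]
    [ChartedSpace E X] [IsManifold 𝓘(ℂ, E) ω X] {h γ : X → Bil E} (x0 : X)
    (hh : ContinuousOn (coef h x0) (chartAt E x0).target) (hγ : ContinuousOn (coef γ x0) (chartAt E x0).target)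
    (hpos : ∀ v : E, v ≠ 0 → 0 < ev (h x0) v (Complex.I • v)) :
    ∃ t ∈ nhds x0, ∃ n : ℕ, ∀ x ∈ t, ∀ v : E, v ≠ 0 → 0 < ev (h x) v (Complex.I • v) ∧
      |ev (γ x) v (Complex.I • v)| ≤ n * ev (h x) v (Complex.I • v) := by
  have : ProperSpace E := FiniteDimensional.proper ℂ E
  have hy0 : chartAt E x0 x0 ∈ (chartAt E x0).target := mem_chart_target E x0
  have hat : ∀ a : X → Bil E, ContinuousOn (coef a x0) (chartAt E x0).target → ∀ v : E,
      ContinuousAt (fun q : E × E => coef a x0 q.1 q.2 (Complex.I • q.2)) (chartAt E x0 x0, v) := by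
    intro a ha v
    have h1 : ContinuousAt (coef a x0) (chartAt E x0 x0) := ha.continuousAt ((chartAt E x0).open_target.mem_nhds hy0)
    have h2 : ContinuousAt (fun q : E × E => coef a x0 q.1) (chartAt E x0 x0, v) :=
      ContinuousAt.comp (f := fun q : E × E => q.1) (g := coef a x0) (x := (chartAt E x0 x0, v)) h1 continuousAt_fst
    exact (h2.clm_apply continuousAt_snd).clm_apply (continuousAt_snd.const_smul Complex.I)
  have hc0 : ∀ A : Bil E, ContinuousOn (fun v : E => A v (Complex.I • v)) (Metric.sphere (0 : E) 1) := by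
    intro A
    have h1 : Continuous (fun v : E => A v (Complex.I • v)) :=
      A.continuous.clm_apply (continuous_const_smul Complex.I)
    exact h1.continuousOn
  obtain ⟨n, hn⟩ := compact_add (isCompact_sphere (0 : E) 1) (fun v => -|γ x0 v (Complex.I • v)|)
    (fun v => h x0 v (Complex.I • v)) ((hc0 (γ x0)).abs.neg) (hc0 (h x0))
    (by
      intro v hv
      have h1 : v ≠ 0 := by
        rintro rfl
        rw [mem_sphere_zero_iff_norm, norm_zero] at hv
        exact zero_ne_one hv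
      exact (hpos v h1).le)
    (by
      intro v hv h0
      have h1 : v ≠ 0 := by
        rintro rfl
        rw [mem_sphere_zero_iff_norm, norm_zero] at hv
        exact zero_ne_one hv
      exact absurd h0 (hpos v h1).ne')
  have hev : ∀ᶠ y in nhds (chartAt E x0 x0), ∀ v ∈ Metric.sphere (0 : E) 1,
      0 < -|coef γ x0 y v (Complex.I • v)| + n * coef h x0 y v (Complex.I • v) := by
    refine (isCompact_sphere (0 : E) 1).eventually_forall_of_forall_eventually ?_
    intro v hv
    have h1 : ContinuousAt (fun q : E × E => -|coef γ x0 q.1 q.2 (Complex.I • q.2)| +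
        n * coef h x0 q.1 q.2 (Complex.I • q.2)) (chartAt E x0 x0, v) :=
      ((hat γ hγ v).abs.neg).add ((hat h hh v).const_mul (n : ℝ))
    have h2 : 0 < -|coef γ x0 (chartAt E x0 x0) v (Complex.I • v)| +
        n * coef h x0 (chartAt E x0 x0) v (Complex.I • v) := by
      rw [coef_self, coef_self]
      exact hn v hv n le_rfl
    exact h1.eventually (lt_mem_nhds h2)
  have hx : ∀ᶠ x in nhds x0, (∀ v ∈ Metric.sphere (0 : E) 1,
      0 < -|coef γ x0 (chartAt E x0 x) v (Complex.I • v)| + n * coef h x0 (chartAt E x0 x) v (Complex.I • v)) ∧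
      x ∈ (chartAt E x0).source :=
    (((chartAt E x0).continuousAt (mem_chart_source E x0)).eventually hev).and
      ((chartAt E x0).open_source.mem_nhds (mem_chart_source E x0))
  refine ⟨_, hx, n, ?_⟩
  rintro x ⟨hxv, hxs⟩ v hv
  have hyt : chartAt E x0 x ∈ (chartAt E x0).target := (chartAt E x0).map_source hxs
  obtain ⟨v0, hv0⟩ := (dvec_symm_bij hyt).2 v
  have hv0' : v0 ≠ 0 := by
    rintro rfl
    exact hv (hv0.symm.trans (map_zero _))
  have hr : 0 < ‖v0‖ := norm_pos_iff.2 hv0'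
  have hi := inv_pos.2 hr
  have h2 := hxv ((‖v0‖⁻¹ : ℝ) • v0) (by
    rw [mem_sphere_zero_iff_norm, norm_smul, norm_inv, norm_norm, inv_mul_cancel₀ hr.ne'])
  rw [Z9_smul, Z9_smul, Z9_coef γ hyt, Z9_coef h hyt, hv0, (chartAt E x0).left_inv hxs] at h2
  have h4 : |‖v0‖⁻¹ * (‖v0‖⁻¹ * ev (γ x) v (Complex.I • v))| =
      ‖v0‖⁻¹ * (‖v0‖⁻¹ * |ev (γ x) v (Complex.I • v)|) := by
    rw [abs_mul, abs_mul, abs_of_pos hi]
  have h3 : 0 < ‖v0‖⁻¹ * (‖v0‖⁻¹ * (-|ev (γ x) v (Complex.I • v)| + n * ev (h x) v (Complex.I • v))) := by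
    rw [h4] at h2
    have h5 : -(‖v0‖⁻¹ * (‖v0‖⁻¹ * |ev (γ x) v (Complex.I • v)|)) +
        n * (‖v0‖⁻¹ * (‖v0‖⁻¹ * ev (h x) v (Complex.I • v))) =
        ‖v0‖⁻¹ * (‖v0‖⁻¹ * (-|ev (γ x) v (Complex.I • v)| + n * ev (h x) v (Complex.I • v))) := by ring
    rw [← h5]
    exact h2
  have h6 : 0 < -|ev (γ x) v (Complex.I • v)| + n * ev (h x) v (Complex.I • v) :=
    (mul_pos_iff_of_pos_left hi).1 ((mul_pos_iff_of_pos_left hi).1 h3)
  have h7 : 0 < (n : ℝ) * ev (h x) v (Complex.I • v) := by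
    have := abs_nonneg (ev (γ x) v (Complex.I • v))
    linarith
  refine ⟨?_, by linarith⟩
  by_contra h8
  exact absurd h7 (not_lt.2 (mul_nonpos_of_nonneg_of_nonpos (Nat.cast_nonneg n) (not_lt.1 h8)))

private theorem Z9_co (M : CM.{u}) {γ : M.X → Bil M.E} (hγ : Real11 γ) (p : M.X) :
    ContinuousOn (coef γ p) (chartAt M.E p).target := by
  have : FiniteDimensional ℝ M.E := FiniteDimensional.complexToReal M.E
  rw [continuousOn_clm_apply]
  intro u
  rw [continuousOn_clm_apply]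
  intro v
  exact (hγ.smooth p u v).continuousOn

theorem bd_of (M : CM.{u}) {h γ : M.X → Bil M.E} (hh : Real11 h) (hγ : Real11 γ) {K : Set M.X} (hK : IsClosed K)
    (hpos : ∀ x ∈ K, ∀ v : M.E, v ≠ 0 → 0 < ev (h x) v (Complex.I • v)) :
    ∃ C : ℝ, 0 ≤ C ∧ ∀ x ∈ K, ∀ v : M.E, |ev (γ x) v (Complex.I • v)| ≤ C * ev (h x) v (Complex.I • v) := by
  have hz : ∀ (a : M.X → Bil M.E) (x : M.X), ev (a x) 0 (Complex.I • (0 : M.E)) = 0 := by
    intro a x
    show a x 0 (Complex.I • (0 : M.E)) = 0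
    rw [map_zero]
    rfl
  have hmain : ∃ n : ℕ, ∀ x ∈ K, ∀ v : M.E, 0 ≤ ev (h x) v (Complex.I • v) ∧
      |ev (γ x) v (Complex.I • v)| ≤ n * ev (h x) v (Complex.I • v) := by
    refine hK.isCompact.induction_on (p := fun S => ∃ n : ℕ, ∀ x ∈ S, ∀ v : M.E, 0 ≤ ev (h x) v (Complex.I • v) ∧
      |ev (γ x) v (Complex.I • v)| ≤ n * ev (h x) v (Complex.I • v)) ?_ ?_ ?_ ?_
    · exact ⟨0, fun k hk => absurd hk (Set.notMem_empty k)⟩
    · rintro S S' hS ⟨n, hn⟩
      exact ⟨n, fun k hk => hn k (hS hk)⟩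
    · rintro S S' ⟨n, hn⟩ ⟨m, hm⟩
      refine ⟨max n m, fun k hk v => ?_⟩
      have h2 : (n : ℝ) ≤ ((max n m : ℕ) : ℝ) := by exact_mod_cast le_max_left n m
      have h3 : (m : ℝ) ≤ ((max n m : ℕ) : ℝ) := by exact_mod_cast le_max_right n m
      rcases hk with hk | hk
      · exact ⟨(hn k hk v).1, (hn k hk v).2.trans (mul_le_mul_of_nonneg_right h2 (hn k hk v).1)⟩
      · exact ⟨(hm k hk v).1, (hm k hk v).2.trans (mul_le_mul_of_nonneg_right h3 (hm k hk v).1)⟩
    · intro x hx
      obtain ⟨t, ht, n, hn⟩ := Z9_local x (Z9_co M hh x) (Z9_co M hγ x) (hpos x hx)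
      refine ⟨t, mem_nhdsWithin_of_mem_nhds ht, n, fun y hy v => ?_⟩
      by_cases hv : v = 0
      · rw [hv, hz, hz, abs_zero, mul_zero]
        exact ⟨le_rfl, le_rfl⟩
      · exact ⟨(hn y hy v hv).1.le, (hn y hy v hv).2⟩
  obtain ⟨n, hn⟩ := hmain
  exact ⟨n, Nat.cast_nonneg n, fun x hx v => (hn x hx v).2⟩

theorem degen_closed (M : CM.{u}) (b : Form M.E M.X) {f : M.X → ℝ} (hf : SmF M.E f) :
    IsClosed (Degen b f) := by
  obtain ⟨c1, hc1⟩ := exists_ddcF (E := M.E) (X := M.X) hf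
  obtain ⟨c, hc⟩ := exists_comb b c1 1 1
  have hval : ∀ (x : M.X) (v : M.E), ev (c.val x) v (Complex.I • v) = ev (b.val x) v (Complex.I • v) + lev f x v := by
    intro x v
    rw [hc x, hc1, lev_eq hf, one_smul, one_smul]
    rfl
  rw [← isOpen_compl_iff, isOpen_iff_mem_nhds]
  intro x hx
  have hpos : ∀ v : M.E, v ≠ 0 → 0 < ev (c.val x) v (Complex.I • v) := by
    intro v hv
    rw [hval]
    by_contra h1
    exact hx ⟨v, hv, not_lt.1 h1⟩
  obtain ⟨t, ht, n, hn⟩ := Z9_local x (c.smooth x).continuousOn (c.smooth x).continuousOn hpos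
  refine mem_of_superset ht ?_
  rintro y hy ⟨v, hv, hle⟩
  have h1 := (hn y hy v hv).1
  rw [hval] at h1
  exact absurd hle (not_le.2 h1)

end HFC
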