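import Pool.Agent.HDP.ZE
import Pool.Agent.HDP.Z9
import Pool.Agent.HDW.W16a

/-!
# HDP/Z10: positive pluriclosed currents which kill `β` are supported in the degeneracy set

Let `d` be the closed form with value `ddcF M.E f` (`exists_ddcF`, FBR/Ops) and `h x = b.val x + ddcF M.E f x`; `Real11` for `b.val`,
`d.val` and `h` (a `Form` has smooth `coef`; `cB γ p u v y = ev (coef γ p y) u v`), `ev (h x) v (iv) = ev (b.val x) v (iv) + lev f x v`
(`lev_eq`, HDW/W16a, and the definition of `ddcF`). `T h = T b.val + T d.val = 0 + 0` by `hT.pc`. Let `γ` be `Real11`, zero on the open set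
`U ⊇ Degen b f`. On the closed set `K = Uᶜ` the form `h` is positive definite (`Degen`), so by `bd_of` (Z9) `|γ(v,iv)| ≤ C h(v,iv)` on `K`,
and on `U` as well (`γ = 0`, `h ≥ 0` by `PsF`). So `C • h - γ` and `C • h + γ` are `Real11` and `≥ 0`, hence `T γ ≤ C * T h = 0` and
`-T γ ≤ 0`.
-/

set_option autoImplicit false

noncomputable section

open scoped Manifold ContDiff Topology

namespace HFC

open Pool.Agent.FBR

universe u

private theorem Z10_comb {E X : Type u} [NormedAddCommGroup E] [NormedSpace ℂ E] [TopologicalSpace X]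
    [ChartedSpace E X] {h γ : X → Bil E} (hh : Real11 h) (hγ : Real11 γ) (a c : ℝ) :
    Real11 (fun x => a • h x + c • γ x) where
  smooth := by
    intro p u v
    have h1 : cB (fun x => a • h x + c • γ x) p u v = fun y => a * cB h p u v y + c * cB γ p u v y := by
      funext y
      rfl
    rw [h1]
    exact (contDiffOn_const.mul (hh.smooth p u v)).add (contDiffOn_const.mul (hγ.smooth p u v))
  alt := by
    intro x v
    show a * ev (h x) v v + c * ev (γ x) v v = 0
    rw [hh.alt, hγ.alt]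
    ring
  j := by
    intro x u v
    show a * ev (h x) (Complex.I • u) (Complex.I • v) + c * ev (γ x) (Complex.I • u) (Complex.I • v) =
      a * ev (h x) u v + c * ev (γ x) u v
    rw [hh.j, hγ.j]

private theorem Z10_form {E X : Type u} [NormedAddCommGroup E] [NormedSpace ℂ E] [TopologicalSpace X]
    [ChartedSpace E X] (b : Form E X) : Real11 b.val where
  smooth := by
    intro p u v
    exact ((b.smooth p).clm_apply contDiffOn_const).clm_apply contDiffOn_const
  alt := b.alt
  j := b.j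

private theorem Z10_T {E X : Type u} [NormedAddCommGroup E] [NormedSpace ℂ E] [TopologicalSpace X]
    [ChartedSpace E X] (T : (X → Bil E) →ₗ[ℝ] ℝ) (h γ : X → Bil E) (a c : ℝ) :
    T (fun x => a • h x + c • γ x) = a * T h + c * T γ := by
  have h1 : (fun x => a • h x + c • γ x) = a • h + c • γ := rfl
  rw [h1, map_add, map_smul, map_smul]
  rfl

theorem supp_of (M : CM.{u}) (b : Form M.E M.X) {f : M.X → ℝ} (hf : SmF M.E f) (h0 : PsF b f)
    (T : (M.X → Bil M.E) →ₗ[ℝ] ℝ) (hT : PCur T) (hb : T b.val = 0) : SuppIn T (Degen b f) := by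
  obtain ⟨d, hd⟩ := exists_ddcF hf
  have hdev : ∀ (x : M.X) (v : M.E), ev (d.val x) v (Complex.I • v) = lev f x v := by
    intro x v
    rw [hd, lev_eq hf]
    rfl
  have hR : Real11 (fun x => (1 : ℝ) • b.val x + (1 : ℝ) • d.val x) := Z10_comb (Z10_form b) (Z10_form d) 1 1
  have hev : ∀ (x : M.X) (v : M.E), ev ((fun x => (1 : ℝ) • b.val x + (1 : ℝ) • d.val x) x) v (Complex.I • v) =
      ev (b.val x) v (Complex.I • v) + lev f x v := by
    intro x v
    rw [← hdev x v]
    show 1 * ev (b.val x) v (Complex.I • v) + 1 * ev (d.val x) v (Complex.I • v) = _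
    ring
  have hT0 : T (fun x => (1 : ℝ) • b.val x + (1 : ℝ) • d.val x) = 0 := by
    rw [Z10_T, hb, hT.pc d.val f (Z10_form d) hf hdev]
    ring
  rintro γ hγ ⟨U, hU, hA, hU0⟩
  obtain ⟨C, hC0, hC⟩ := bd_of M hR hγ (K := Uᶜ) hU.isClosed_compl (by
    intro x hx v hv
    rw [hev]
    by_contra hcon
    exact hx (hA ⟨v, hv, not_lt.1 hcon⟩))
  have hall : ∀ (x : M.X) (v : M.E), |ev (γ x) v (Complex.I • v)| ≤
      C * ev ((fun x => (1 : ℝ) • b.val x + (1 : ℝ) • d.val x) x) v (Complex.I • v) := by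
    intro x v
    by_cases hx : x ∈ U
    · rw [hU0 x hx, hev]
      have h1 : ev (0 : Bil M.E) v (Complex.I • v) = 0 := rfl
      rw [h1, abs_zero]
      exact mul_nonneg hC0 (h0 x v)
    · exact hC x hx v
  have h1 : 0 ≤ T (fun x => C • ((1 : ℝ) • b.val x + (1 : ℝ) • d.val x) + (-1 : ℝ) • γ x) :=
    hT.pos _ (Z10_comb hR hγ C (-1)) (by
      intro x v
      have h2 := (abs_le.1 (hall x v)).2
      show 0 ≤ C * ev ((fun x => (1 : ℝ) • b.val x + (1 : ℝ) • d.val x) x) v (Complex.I • v) +
        (-1) * ev (γ x) v (Complex.I • v)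
      linarith)
  have h3 : 0 ≤ T (fun x => C • ((1 : ℝ) • b.val x + (1 : ℝ) • d.val x) + (1 : ℝ) • γ x) :=
    hT.pos _ (Z10_comb hR hγ C 1) (by
      intro x v
      have h2 := (abs_le.1 (hall x v)).1
      show 0 ≤ C * ev ((fun x => (1 : ℝ) • b.val x + (1 : ℝ) • d.val x) x) v (Complex.I • v) +
        1 * ev (γ x) v (Complex.I • v)
      linarith)
  rw [Z10_T T (fun x => (1 : ℝ) • b.val x + (1 : ℝ) • d.val x) γ C (-1), hT0] at h1
  rw [Z10_T T (fun x => (1 : ℝ) • b.val x + (1 : ℝ) • d.val x) γ C 1, hT0] at h3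
  linarith

end HFC
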