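import Pool.Agent.HDW.WDefs
import Pool.Agent.HDG.SDefs
import Pool.Agent.FBR.SmFn

/-!
# HDP/Z2: `χ ∘ f`, sums and multiples

The composition of a smooth function on a complex manifold with a convex smooth function of one variable: smoothness and
the lower bound for `dd^c`; `lev` is linear.
-/

set_option autoImplicit false

noncomputable section

open scoped Manifold ContDiff Topology

namespace HFC

open Pool.Agent.FBR

universe u

variable {E X : Type u} [NormedAddCommGroup E] [NormedSpace ℂ E] [TopologicalSpace X] [ChartedSpace E X]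

theorem smF_real {f : X → ℝ} (hf : SmF E f) {χ : ℝ → ℝ} (hχ : ContDiff ℝ ∞ χ) : SmF E (fun x => χ (f x)) := by
  intro x
  exact hχ.contDiffAt.comp _ (hf x)

private theorem Z2_ev {h : E → ℝ} {y : E} (hh : ContDiffAt ℝ ∞ h y) : ∀ᶠ z in 𝓝 y, DifferentiableAt ℝ h z := by
  have h1 : ContDiffAt ℝ 2 h y := hh.of_le (by norm_cast)
  filter_upwards [h1.eventually (by simp)] with z hz
  exact hz.differentiableAt (by norm_num)

private theorem Z2_diff {h : E → ℝ} {y : E} (hh : ContDiffAt ℝ ∞ h y) (v : E) :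
    DifferentiableAt ℝ (fun z => dR h z v) y := by
  have h1 : DifferentiableAt ℝ (fderiv ℝ h) y :=
    ((hh.fderiv_right (m := 1) (by norm_cast)).differentiableAt (by norm_num))
  exact h1.clm_apply (differentiableAt_const v)

private theorem Z2_comp {h : E → ℝ} {y : E} (hh : ContDiffAt ℝ ∞ h y) {χ : ℝ → ℝ} (hχ : ContDiff ℝ ∞ χ) (v : E) :
    d2 (fun z => χ (h z)) y v = deriv χ (h y) * d2 h y v + deriv (deriv χ) (h y) * dR h y v ^ 2 := by
  have hc1 : ∀ t, DifferentiableAt ℝ χ t := fun t => hχ.contDiffAt.differentiableAt (by simp)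
  have hc2 : ContDiff ℝ ∞ (deriv χ) := by
    have h2 : ContDiff ℝ (∞ + 1) χ := hχ
    exact (contDiff_succ_iff_deriv.1 h2).2.2
  have hc3 : ∀ t, DifferentiableAt ℝ (deriv χ) t := fun t => hc2.contDiffAt.differentiableAt (by simp)
  have h1 : (fun z => dR (fun z => χ (h z)) z v) =ᶠ[𝓝 y] fun z => deriv χ (h z) * dR h z v := by
    filter_upwards [Z2_ev hh] with z hz
    have h2 := (hc1 (h z)).hasDerivAt.comp_hasFDerivAt z hz.hasFDerivAt
    show fderiv ℝ (fun z => χ (h z)) z v = deriv χ (h z) * fderiv ℝ h z v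
    have h3 : fderiv ℝ (fun z => χ (h z)) z = deriv χ (h z) • fderiv ℝ h z := h2.fderiv
    rw [h3]
    rfl
  have h4 : HasFDerivAt (fun z => deriv χ (h z)) (deriv (deriv χ) (h y) • fderiv ℝ h y) y :=
    (hc3 (h y)).hasDerivAt.comp_hasFDerivAt y (Z2_ev hh).self_of_nhds.hasFDerivAt
  have h5 := h4.mul (Z2_diff hh v).hasFDerivAt
  have h6 : fderiv ℝ (fun z => dR (fun z => χ (h z)) z v) y =
      fderiv ℝ (fun z => deriv χ (h z) * dR h z v) y := h1.fderiv_eq
  have h7 : fderiv ℝ (fun z => deriv χ (h z) * dR h z v) y =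
      deriv χ (h y) • fderiv ℝ (fun z => dR h z v) y + dR h y v • deriv (deriv χ) (h y) • fderiv ℝ h y := h5.fderiv
  show fderiv ℝ (fun z => dR (fun z => χ (h z)) z v) y v =
    deriv χ (h y) * fderiv ℝ (fun z => dR h z v) y v + deriv (deriv χ) (h y) * dR h y v ^ 2
  rw [h6, h7]
  show deriv χ (h y) * fderiv ℝ (fun z => dR h z v) y v + dR h y v * (deriv (deriv χ) (h y) * dR h y v) = _
  ring

private theorem Z2_at (f : X → ℝ) (x : X) : inCh (E := E) f x (chartAt E x x) = f x :=
  congrArg f ((chartAt E x).left_inv (mem_chart_source E x))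

theorem lev_real {f : X → ℝ} (hf : SmF E f) {χ : ℝ → ℝ} (hχ : ContDiff ℝ ∞ χ) (h2 : ∀ t, 0 ≤ deriv (deriv χ) t)
    (x : X) (v : E) : deriv χ (f x) * lev f x v ≤ lev (fun x => χ (f x)) x v := by
  have h1 : ContDiffAt ℝ ∞ (inCh f x) (chartAt E x x) := hf x
  have h3 : ∀ u : E, d2 (inCh (fun x => χ (f x)) x) (chartAt E x x) u =
      deriv χ (f x) * d2 (inCh f x) (chartAt E x x) u + deriv (deriv χ) (f x) * dR (inCh f x) (chartAt E x x) u ^ 2 := by
    intro u
    have h4 := Z2_comp h1 hχ u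
    rw [Z2_at] at h4
    exact h4
  unfold lev
  rw [h3, h3]
  have h5 := mul_nonneg (h2 (f x)) (sq_nonneg (dR (inCh f x) (chartAt E x x) v))
  have h6 := mul_nonneg (h2 (f x)) (sq_nonneg (dR (inCh f x) (chartAt E x x) (Complex.I • v)))
  linarith

private theorem Z2_add {h k : E → ℝ} {y : E} (hh : ContDiffAt ℝ ∞ h y) (hk : ContDiffAt ℝ ∞ k y) (v : E) :
    d2 (fun z => h z + k z) y v = d2 h y v + d2 k y v := by
  have h1 : (fun z => dR (fun z => h z + k z) z v) =ᶠ[𝓝 y] fun z => dR h z v + dR k z v := by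
    filter_upwards [Z2_ev hh, Z2_ev hk] with z hz hz'
    show fderiv ℝ (fun z => h z + k z) z v = fderiv ℝ h z v + fderiv ℝ k z v
    rw [fderiv_fun_add hz hz']
    rfl
  show fderiv ℝ (fun z => dR (fun z => h z + k z) z v) y v = fderiv ℝ (fun z => dR h z v) y v + fderiv ℝ (fun z => dR k z v) y v
  rw [h1.fderiv_eq, fderiv_fun_add (Z2_diff hh v) (Z2_diff hk v)]
  rfl

theorem lev_add {f g : X → ℝ} (hf : SmF E f) (hg : SmF E g) (x : X) (v : E) :
    lev (fun x => f x + g x) x v = lev f x v + lev g x v := by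
  have h1 : ContDiffAt ℝ ∞ (inCh f x) (chartAt E x x) := hf x
  have h2 : ContDiffAt ℝ ∞ (inCh g x) (chartAt E x x) := hg x
  have h3 : ∀ u : E, d2 (inCh (fun x => f x + g x) x) (chartAt E x x) u =
      d2 (inCh f x) (chartAt E x x) u + d2 (inCh g x) (chartAt E x x) u := fun u => Z2_add h1 h2 u
  unfold lev
  rw [h3, h3]
  ring

private theorem Z2_cmul {h : E → ℝ} {y : E} (hh : ContDiffAt ℝ ∞ h y) (c : ℝ) (v : E) :
    d2 (fun z => c * h z) y v = c * d2 h y v := by
  have h1 : (fun z => dR (fun z => c * h z) z v) =ᶠ[𝓝 y] fun z => c * dR h z v := by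
    filter_upwards [Z2_ev hh] with z hz
    show fderiv ℝ (fun z => c * h z) z v = c * fderiv ℝ h z v
    rw [fderiv_const_mul hz]
    rfl
  show fderiv ℝ (fun z => dR (fun z => c * h z) z v) y v = c * fderiv ℝ (fun z => dR h z v) y v
  rw [h1.fderiv_eq, fderiv_const_mul (Z2_diff hh v)]
  rfl

theorem lev_cmul {f : X → ℝ} (hf : SmF E f) (c : ℝ) (x : X) (v : E) : lev (fun x => c * f x) x v = c * lev f x v := by
  have h1 : ContDiffAt ℝ ∞ (inCh f x) (chartAt E x x) := hf x
  have h3 : ∀ u : E, d2 (inCh (fun x => c * f x) x) (chartAt E x x) u =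
      c * d2 (inCh f x) (chartAt E x x) u := fun u => Z2_cmul h1 c u
  unfold lev
  rw [h3, h3]
  ring

theorem lev_const (c : ℝ) (x : X) (v : E) : lev (fun _ : X => c) x v = 0 := by
  have h1 : ∀ u : E, d2 (inCh (fun _ : X => c) x) (chartAt E x x) u = 0 := by
    intro u
    have h2 : (fun z => dR (inCh (E := E) (fun _ : X => c) x) z u) = fun _ => (0 : ℝ) := by
      funext z
      show fderiv ℝ (fun _ : E => c) z u = 0
      rw [fderiv_fun_const]
      rfl
    show fderiv ℝ (fun z => dR (inCh (E := E) (fun _ : X => c) x) z u) (chartAt E x x) u = 0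
    rw [h2, fderiv_fun_const]
    rfl
  unfold lev
  rw [h1, h1]
  norm_num

end HFC
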