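import Mathlib

/-!
# HDP/Z4: series of smooth functions with small coefficients, near a compact set

Multiply by a smooth function with compact support in `U` which is `1` near `K`; for functions with compact support all
derivatives are bounded, and `contDiff_tsum` and `fderiv_tsum` apply to the series with small coefficients.
-/

set_option autoImplicit false

noncomputable section

open scoped ContDiff Topology
open Filter

namespace HFC

private theorem z4_bump {H : Type*} [NormedAddCommGroup H] [NormedSpace ℝ H] [FiniteDimensional ℝ H] {U K : Set H}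
    (hU : IsOpen U) (hK : IsCompact K) (hKU : K ⊆ U) :
    ∃ (ρ : H → ℝ) (L : Set H), ContDiff ℝ ∞ ρ ∧ IsCompact L ∧ L ⊆ U ∧ (∀ z ∉ L, ρ z = 0) ∧
      ∀ y ∈ K, ∀ᶠ z in 𝓝 y, ρ z = 1 := by
  obtain ⟨L, hL, hKL, hLU⟩ := exists_compact_between hK hU hKU
  obtain ⟨f, hf1, hf2, -⟩ := exists_contMDiffMap_one_nhds_of_subset_interior (n := ⊤)
    (modelWithCornersSelf ℝ H) hK.isClosed hKL
  refine ⟨f, L, contMDiff_iff_contDiff.1 f.contMDiff, hL, hLU, hf2, ?_⟩
  intro y hy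
  exact hf1.filter_mono (nhds_le_nhdsSet hy)

private theorem z4_mul {H : Type*} [NormedAddCommGroup H] [NormedSpace ℝ H] {U L : Set H} {ρ : H → ℝ} {u : H → ℝ}
    (hU : IsOpen U) (hρ : ContDiff ℝ ∞ ρ) (hL : IsCompact L) (hLU : L ⊆ U) (h0 : ∀ z ∉ L, ρ z = 0)
    (hu : ContDiffOn ℝ ∞ u U) :
    ContDiff ℝ ∞ (fun z => ρ z * u z) ∧ HasCompactSupport (fun z => ρ z * u z) := by
  refine ⟨contDiff_iff_contDiffAt.2 fun z => ?_, HasCompactSupport.intro hL fun z hz => by rw [h0 z hz, zero_mul]⟩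
  by_cases hz : z ∈ U
  · exact hρ.contDiffAt.mul (hu.contDiffAt (hU.mem_nhds hz))
  · have h1 : z ∈ Lᶜ := fun h => hz (hLU h)
    have h2 : (fun z => ρ z * u z) =ᶠ[𝓝 z] fun _ => (0 : ℝ) := by
      filter_upwards [hL.isClosed.isOpen_compl.mem_nhds h1] with y hy
      rw [h0 y hy, zero_mul]
    exact contDiffAt_const.congr_of_eventuallyEq h2

private theorem z4_sum (k : ℕ) (a : ℕ → ℝ) :
    Summable (fun j => if k ≤ j then ((1 : ℝ) / 2) ^ j else a j) := by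
  rw [← summable_nat_add_iff k]
  have h1 : (fun j : ℕ => if k ≤ j + k then ((1 : ℝ) / 2) ^ (j + k) else a (j + k)) =
      fun j : ℕ => ((1 : ℝ) / 2) ^ j * (1 / 2) ^ k := by
    funext j
    rw [if_pos (Nat.le_add_left k j), pow_add]
  rw [h1]
  exact summable_geometric_two.mul_right _

private theorem z4_second {H : Type*} [NormedAddCommGroup H] [NormedSpace ℝ H] {w : H → ℝ}
    (hw : ContDiff ℝ ∞ w) (c : ℝ) (y v : H) :
    fderiv ℝ (fderiv ℝ fun z => c * w z) y v v = c * fderiv ℝ (fderiv ℝ w) y v v := by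
  have h1 : (fderiv ℝ fun z => c * w z) = fun z => c • fderiv ℝ w z := by
    funext z
    exact fderiv_const_mul (hw.differentiable (by simp)).differentiableAt c
  have h2 : ContDiff ℝ ∞ (fderiv ℝ w) := hw.fderiv_right (by simp)
  rw [h1]
  have h3 : fderiv ℝ (fun z => c • fderiv ℝ w z) y = c • fderiv ℝ (fderiv ℝ w) y :=
    fderiv_fun_const_smul (h2.differentiable (by simp)).differentiableAt c
  rw [h3]
  rfl

private theorem z4_core {H : Type*} [NormedAddCommGroup H] [NormedSpace ℝ H]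
    (f : ℕ → H → ℝ) (hf : ∀ j, ContDiff ℝ ∞ (f j)) (v : ℕ → ℕ → ℝ) (hv : ∀ k, Summable (v k))
    (hit : ∀ k j z, ‖iteratedFDeriv ℝ k (f j) z‖ ≤ v k j) :
    (∀ y, Summable fun j => f j y) ∧ ContDiff ℝ ∞ (fun z => ∑' j, f j z) ∧
      ∀ y, HasSum (fun j => fderiv ℝ (fderiv ℝ (f j)) y) (fderiv ℝ (fderiv ℝ fun z => ∑' j, f j z) y) := by
  have hy : ∀ y, Summable fun j => f j y := by
    intro y
    refine Summable.of_norm_bounded (hv 0) fun j => ?_
    have h1 := hit 0 j y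
    rwa [norm_iteratedFDeriv_zero] at h1
  have hb1 : ∀ n x, ‖fderiv ℝ (f n) x‖ ≤ v 1 n := by
    intro n x
    rw [← norm_iteratedFDeriv_one]
    exact hit 1 n x
  have hb2 : ∀ n x, ‖fderiv ℝ (fderiv ℝ (f n)) x‖ ≤ v 2 n := by
    intro n x
    rw [← norm_iteratedFDeriv_one, norm_iteratedFDeriv_fderiv]
    exact hit 2 n x
  have hf1 : ∀ n, ContDiff ℝ ∞ (fderiv ℝ (f n)) := fun n => (hf n).fderiv_right (by simp)
  refine ⟨hy, contDiff_tsum hf (fun k _ => hv k) (fun k j z _ => hit k j z), fun y => ?_⟩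
  have h1 : (fderiv ℝ fun y => ∑' n, f n y) = fun x => ∑' n, fderiv ℝ (f n) x :=
    fderiv_tsum (hv 1) (fun n => (hf n).differentiable (by simp)) hb1 (hy 0)
  have h2 : fderiv ℝ (fun x => ∑' n, fderiv ℝ (f n) x) y = ∑' n, fderiv ℝ (fderiv ℝ (f n)) y :=
    fderiv_tsum_apply (hv 2) (fun n => (hf1 n).differentiable (by simp)) hb2
      (x₀ := 0) (Summable.of_norm_bounded (hv 1) fun n => hb1 n 0) y
  have h3 : Summable (fun n => fderiv ℝ (fderiv ℝ (f n)) y) := by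
    refine Summable.of_norm_bounded (E := H →L[ℝ] H →L[ℝ] ℝ) (g := v 2) (hv 2) ?_
    intro n
    exact hb2 n y
  rw [h1, h2]
  exact h3.hasSum

private theorem z4_bound {H : Type*} [NormedAddCommGroup H] [NormedSpace ℝ H]
    (w : ℕ → H → ℝ) (hw : ∀ j, ContDiff ℝ ∞ (w j)) (hs : ∀ j, HasCompactSupport (w j)) :
    ∃ B : ℕ → ℝ, (∀ j, 0 < B j) ∧ ∀ c : ℕ → ℝ, (∀ j, 0 ≤ c j) → (∀ j, c j * B j ≤ (1 / 2) ^ j) →
      ∃ v : ℕ → ℕ → ℝ, (∀ k, Summable (v k)) ∧ ∀ k j z, ‖iteratedFDeriv ℝ k (fun z => c j * w j z) z‖ ≤ v k j := by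
  have hex : ∀ j k, ∃ C : ℝ, ∀ z, ‖iteratedFDeriv ℝ k (w j) z‖ ≤ C := fun j k =>
    ((hs j).iteratedFDeriv k).exists_bound_of_continuous
      ((hw j).continuous_iteratedFDeriv (by exact_mod_cast le_top))
  choose C hC using hex
  have hC0 : ∀ j k, 0 ≤ C j k := fun j k => (norm_nonneg _).trans (hC j k 0)
  have hB : ∀ j k, k ≤ j → C j k ≤ 1 + ∑ i ∈ Finset.range (j + 1), C j i := by
    intro j k hk
    have h1 := Finset.single_le_sum (f := fun i => C j i) (fun i _ => hC0 j i)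
      (Finset.mem_range.2 (Nat.lt_succ_of_le hk))
    exact h1.trans (by linarith)
  refine ⟨fun j => 1 + ∑ i ∈ Finset.range (j + 1), C j i, fun j => ?_, fun c hc hcB =>
    ⟨fun k j => if k ≤ j then ((1 : ℝ) / 2) ^ j else c j * C j k, fun k => z4_sum k _, ?_⟩⟩
  · have := Finset.sum_nonneg fun i (_ : i ∈ Finset.range (j + 1)) => hC0 j i
    positivity
  intro k j z
  have h1 : iteratedFDeriv ℝ k (fun z => c j • w j z) z = c j • iteratedFDeriv ℝ k (w j) z :=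
    iteratedFDeriv_const_smul_apply' (a := c j) (f := w j) (x := z)
      ((hw j).contDiffAt.of_le (by exact_mod_cast le_top))
  have h1' : iteratedFDeriv ℝ k (fun z => c j * w j z) z = c j • iteratedFDeriv ℝ k (w j) z := h1
  rw [h1', norm_smul, Real.norm_eq_abs, abs_of_nonneg (hc j)]
  have h2 : c j * ‖iteratedFDeriv ℝ k (w j) z‖ ≤ c j * C j k := mul_le_mul_of_nonneg_left (hC j k z) (hc j)
  show _ ≤ if k ≤ j then ((1 : ℝ) / 2) ^ j else c j * C j k
  by_cases hk : k ≤ j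
  · rw [if_pos hk]
    exact h2.trans ((mul_le_mul_of_nonneg_left (hB j k hk) (hc j)).trans (hcB j))
  · rw [if_neg hk]
    exact h2

private theorem z4_series {H : Type*} [NormedAddCommGroup H] [NormedSpace ℝ H]
    (w : ℕ → H → ℝ) (hw : ∀ j, ContDiff ℝ ∞ (w j)) (hs : ∀ j, HasCompactSupport (w j)) :
    ∃ B : ℕ → ℝ, (∀ j, 0 < B j) ∧ ∀ c : ℕ → ℝ, (∀ j, 0 ≤ c j) → (∀ j, c j * B j ≤ (1 / 2) ^ j) →
      (∀ y, Summable fun j => c j * w j y) ∧ ContDiff ℝ ∞ (fun z => ∑' j, c j * w j z) ∧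
      ∀ y v : H, (Summable fun j => c j * fderiv ℝ (fderiv ℝ (w j)) y v v) ∧
        fderiv ℝ (fderiv ℝ fun z => ∑' j, c j * w j z) y v v = ∑' j, c j * fderiv ℝ (fderiv ℝ (w j)) y v v := by
  obtain ⟨B, hB, hmain⟩ := z4_bound w hw hs
  refine ⟨B, hB, fun c hc hcB => ?_⟩
  obtain ⟨u, hu, hit⟩ := hmain c hc hcB
  obtain ⟨h1, h2, h3⟩ := z4_core (fun j z => c j * w j z) (fun j => contDiff_const.mul (hw j)) u hu hit
  refine ⟨h1, h2, fun y v => ?_⟩
  have h4 := (h3 y).mapL ((ContinuousLinearMap.apply ℝ ℝ v).comp (ContinuousLinearMap.apply ℝ (H →L[ℝ] ℝ) v))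
  have h5 : (fun n => ((ContinuousLinearMap.apply ℝ ℝ v).comp (ContinuousLinearMap.apply ℝ (H →L[ℝ] ℝ) v))
      (fderiv ℝ (fderiv ℝ (fun z => c n * w n z)) y)) = fun n => c n * fderiv ℝ (fderiv ℝ (w n)) y v v := by
    funext n
    exact z4_second (hw n) (c n) y v
  rw [h5] at h4
  exact ⟨h4.summable, h4.tsum_eq.symm⟩

theorem series_loc {H : Type*} [NormedAddCommGroup H] [NormedSpace ℝ H] [FiniteDimensional ℝ H] {U K : Set H}
    (hU : IsOpen U) (hK : IsCompact K) (hKU : K ⊆ U) {u : ℕ → H → ℝ} (hu : ∀ j, ContDiffOn ℝ ∞ (u j) U) :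
    ∃ B : ℕ → ℝ, (∀ j, 0 < B j) ∧ ∀ c : ℕ → ℝ, (∀ j, 0 ≤ c j) → (∀ j, c j * B j ≤ (1 / 2) ^ j) → ∀ y ∈ interior K,
      (Summable fun j => c j * u j y) ∧ ContDiffAt ℝ ∞ (fun z => ∑' j, c j * u j z) y ∧
      ∀ v : H, (Summable fun j => c j * fderiv ℝ (fderiv ℝ (u j)) y v v) ∧
        fderiv ℝ (fderiv ℝ fun z => ∑' j, c j * u j z) y v v = ∑' j, c j * fderiv ℝ (fderiv ℝ (u j)) y v v := by
  obtain ⟨ρ, L, hρ, hL, hLU, h0, h1⟩ := z4_bump hU hK hKU
  have hw := fun j => z4_mul hU hρ hL hLU h0 (hu j)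
  obtain ⟨B, hB, hmain⟩ := z4_series (fun j z => ρ z * u j z) (fun j => (hw j).1) (fun j => (hw j).2)
  refine ⟨B, hB, fun c hc hcB y hy => ?_⟩
  obtain ⟨hs1, hs2, hs3⟩ := hmain c hc hcB
  have hev := h1 y (interior_subset hy)
  have hy1 : ρ y = 1 := hev.self_of_nhds
  have huw : ∀ j, u j =ᶠ[𝓝 y] fun z => ρ z * u j z := by
    intro j
    filter_upwards [hev] with z hz
    rw [hz, one_mul]
  have hF : (fun z => ∑' j, c j * u j z) =ᶠ[𝓝 y] fun z => ∑' j, c j * (ρ z * u j z) := by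
    filter_upwards [hev] with z hz
    simp only [hz, one_mul]
  have hd : ∀ j, fderiv ℝ (fderiv ℝ (u j)) y = fderiv ℝ (fderiv ℝ fun z => ρ z * u j z) y := fun j =>
    (huw j).fderiv.fderiv_eq
  have hdF : fderiv ℝ (fderiv ℝ fun z => ∑' j, c j * u j z) y =
      fderiv ℝ (fderiv ℝ fun z => ∑' j, c j * (ρ z * u j z)) y := hF.fderiv.fderiv_eq
  refine ⟨?_, hs2.contDiffAt.congr_of_eventuallyEq hF, fun v => ?_⟩
  · have h2 := hs1 y
    simpa only [hy1, one_mul] using h2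
  · obtain ⟨h2, h3⟩ := hs3 y v
    rw [hdF]
    simp only [hd]
    exact ⟨h2, h3⟩

end HFC
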