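import Pool.Agent.HDP.ZDefs
import Pool.Agent.HDP.Z2
import Pool.Agent.HDP.Z4
import Pool.Agent.HDW.W16a

/-!
# HDP/Z5: infinite combinations of semi-positive forms in a class

`combo`: `f = ∑ c j * F j` with small positive coefficients `c j`, `∑ c j ≤ 1`. Finitely many balls in charts cover `M`;
by `series_loc` (Z4) `f` is smooth and `dd^c f = ∑ c j dd^c (F j)`, and
`β + dd^c f = (1 - ∑ c j) β + ∑ c j (β + dd^c (F j))`.
-/

set_option autoImplicit false

noncomputable section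

open scoped Manifold ContDiff Topology
open Filter

namespace HFC

open Pool.Agent.FBR

universe u

private theorem Z5_sum {c w : ℕ → ℝ} {a : ℝ} (ha : 0 ≤ a) (hc0 : ∀ j, 0 < c j)
    (hc1 : ∀ j, c j ≤ (1 / 2) * (1 / 2) ^ j) (hw : ∀ j, 0 ≤ a + w j) (hs : Summable fun j => c j * w j) :
    0 ≤ a + ∑' j, c j * w j ∧ ((∃ j, 0 < a + w j) → 0 < a + ∑' j, c j * w j) := by
  have hg : Summable fun j : ℕ => (1 / 2 : ℝ) * (1 / 2) ^ j := summable_geometric_two.mul_left (1 / 2)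
  have hcs : Summable c := Summable.of_nonneg_of_le (fun j => (hc0 j).le) hc1 hg
  have hc2 : ∑' j, c j ≤ 1 := by
    have h1 := hcs.tsum_le_tsum hc1 hg
    rw [tsum_mul_left, tsum_geometric_two] at h1
    linarith
  have hca : Summable fun j => c j * a := hcs.mul_right a
  have hsum : Summable fun j => c j * (a + w j) := by
    have h1 := hca.add hs
    refine h1.congr fun j => ?_
    ring
  have heq : ∑' j, c j * (a + w j) = (∑' j, c j) * a + ∑' j, c j * w j := by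
    rw [← tsum_mul_right, ← hca.tsum_add hs]
    exact tsum_congr fun j => by ring
  have hnn : ∀ j, 0 ≤ c j * (a + w j) := fun j => mul_nonneg (hc0 j).le (hw j)
  have h3 : a + ∑' j, c j * w j = (1 - ∑' j, c j) * a + ∑' j, c j * (a + w j) := by
    rw [heq]
    ring
  have h4 : 0 ≤ (1 - ∑' j, c j) * a := mul_nonneg (by linarith) ha
  constructor
  · rw [h3]
    exact add_nonneg h4 (tsum_nonneg hnn)
  · rintro ⟨j, hj⟩
    rw [h3]
    have h5 := hsum.le_tsum j fun i _ => hnn i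
    have h6 := mul_pos (hc0 j) hj
    linarith

private theorem Z5_coef {X : Type*} (t : Finset X) {B : X → ℕ → ℝ} (hB : ∀ p j, 0 < B p j) :
    ∃ c : ℕ → ℝ, (∀ j, 0 < c j) ∧ (∀ j, c j ≤ (1 / 2) * (1 / 2) ^ j) ∧
      ∀ p ∈ t, ∀ j, c j * B p j ≤ (1 / 2) ^ j := by
  have hS : ∀ j, 0 ≤ ∑ p ∈ t, B p j := fun j => Finset.sum_nonneg fun p _ => (hB p j).le
  have hh : ∀ j : ℕ, (0 : ℝ) < (1 / 2) * (1 / 2) ^ j := fun j => by positivity
  have h1 : ∀ j, 0 < 1 + ∑ p ∈ t, B p j := fun j => by linarith [hS j]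
  refine ⟨fun j => (1 / 2) * (1 / 2) ^ j / (1 + ∑ p ∈ t, B p j), fun j => div_pos (hh j) (h1 j), fun j => ?_,
    fun p hp j => ?_⟩
  · exact div_le_self (hh j).le (by linarith [hS j])
  · have h2 : B p j ≤ 1 + ∑ p ∈ t, B p j := by
      have h3 := Finset.single_le_sum (f := fun q => B q j) (fun q _ => (hB q j).le) hp
      have h4 : B p j ≤ ∑ p ∈ t, B p j := h3
      linarith
    have h5 : (1 / 2) * (1 / 2) ^ j / (1 + ∑ p ∈ t, B p j) * B p j ≤
        (1 / 2) * (1 / 2) ^ j / (1 + ∑ p ∈ t, B p j) * (1 + ∑ p ∈ t, B p j) :=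
      mul_le_mul_of_nonneg_left h2 (div_pos (hh j) (h1 j)).le
    rw [div_mul_cancel₀ _ (h1 j).ne'] at h5
    have h6 : (0 : ℝ) < (1 / 2) ^ j := by positivity
    show (1 / 2) * (1 / 2) ^ j / (1 + ∑ p ∈ t, B p j) * B p j ≤ (1 / 2) ^ j
    linarith

theorem combo (M : CM.{u}) {b : Form M.E M.X} (hb : b.Semi) {F : ℕ → M.X → ℝ} (hF : ∀ j, SmF M.E (F j))
    (h0 : ∀ j, PsF b (F j)) : ∃ f : M.X → ℝ, SmF M.E f ∧ PsF b f ∧ ∀ (x : M.X) (v : M.E),
      (∃ j, 0 < ev (b.val x) v (Complex.I • v) + lev (F j) x v) → 0 < ev (b.val x) v (Complex.I • v) + lev f x v := by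
  have hrad : ∀ p : M.X, ∃ ρ : ℝ, 0 < ρ ∧
      Metric.closedBall (chartAt M.E p p) ρ ⊆ (chartAt M.E p).target := fun p =>
    Metric.nhds_basis_closedBall.mem_iff.1 ((chartAt M.E p).open_target.mem_nhds (mem_chart_target M.E p))
  choose ρ hρ hρU using hrad
  obtain ⟨t, ht⟩ := CompactSpace.elim_nhds_subcover
    (fun p : M.X => (chartAt M.E p).source ∩ chartAt M.E p ⁻¹' Metric.ball (chartAt M.E p p) (ρ p))
    (fun p => Filter.inter_mem (chart_source_mem_nhds M.E p)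
      (((chartAt M.E p).continuousAt (mem_chart_source M.E p)).preimage_mem_nhds (Metric.ball_mem_nhds _ (hρ p))))
  have hcov : ∀ x : M.X, ∃ p ∈ t, x ∈ (chartAt M.E p).source ∧
      chartAt M.E p x ∈ Metric.ball (chartAt M.E p p) (ρ p) := by
    intro x
    have hx : x ∈ ⋃ p ∈ t, ((chartAt M.E p).source ∩ chartAt M.E p ⁻¹' Metric.ball (chartAt M.E p p) (ρ p)) := by
      rw [ht]
      exact trivial
    obtain ⟨p, hp, hxp⟩ := Set.mem_iUnion₂.1 hx
    exact ⟨p, hp, hxp.1, hxp.2⟩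
  have hz4 := fun p : M.X => series_loc (chartAt M.E p).open_target (isCompact_closedBall (chartAt M.E p p) (ρ p))
    (hρU p) (u := fun j => inCh (F j) p)
    (fun j y hy => ((hF j).at (hol_symm hy).sm).contDiffWithinAt)
  choose B hB0 hB using hz4
  obtain ⟨c, hc0, hc1, hcB⟩ := Z5_coef t hB0
  have hloc : ∀ p ∈ t, ∀ y ∈ Metric.ball (chartAt M.E p p) (ρ p), _ := fun p hp y hy =>
    hB p c (fun j => (hc0 j).le) (hcB p hp) y (Metric.ball_subset_interior_closedBall hy)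
  have hbt : ∀ p y, y ∈ Metric.ball (chartAt M.E p p) (ρ p) → y ∈ (chartAt M.E p).target := fun p y hy =>
    hρU p (Metric.ball_subset_closedBall hy)
  have hsm : SmF M.E fun x => ∑' j, c j * F j x := by
    refine smF_of_par (G := M.E) fun x => ?_
    obtain ⟨p, hp, hxs, hxb⟩ := hcov x
    refine ⟨(chartAt M.E p).symm, Metric.ball (chartAt M.E p p) (ρ p), Metric.isOpen_ball,
      ⟨chartAt M.E p x, hxb, (chartAt M.E p).left_inv hxs⟩, fun y hy => ⟨(hol_symm (hbt p y hy)).sm,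
        dvec_symm_bij (hbt p y hy)⟩, fun y hy => ?_⟩
    exact (hloc p hp y hy).2.1.contDiffWithinAt
  have hlev : ∀ (x : M.X) (v : M.E), (Summable fun j => c j * lev (F j) x v) ∧
      lev (fun x => ∑' j, c j * F j x) x v = ∑' j, c j * lev (F j) x v := by
    intro x v
    obtain ⟨p, hp, hxs, hxb⟩ := hcov x
    have hzt := hbt p _ hxb
    have hx : (chartAt M.E p).symm (chartAt M.E p x) = x := (chartAt M.E p).left_inv hxs
    obtain ⟨u, hu⟩ := (dvec_symm_bij hzt).2 v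
    obtain ⟨-, -, hd⟩ := hloc p hp _ hxb
    obtain ⟨s1, e1⟩ := hd u
    obtain ⟨s2, e2⟩ := hd (Complex.I • u)
    have hj : ∀ j, c j * lev (F j) x v = (c j * fderiv ℝ (fderiv ℝ (inCh (F j) p)) (chartAt M.E p x) u u +
        c j * fderiv ℝ (fderiv ℝ (inCh (F j) p)) (chartAt M.E p x) (Complex.I • u) (Complex.I • u)) * (1 / 2) := by
      intro j
      have h1 := (lev_comp (hF j) (hol_symm hzt) u).1
      rw [hu, hx, ddc_self] at h1
      rw [← h1]
      show c j * ((1 / 2) * (fderiv ℝ (fderiv ℝ (inCh (F j) p)) (chartAt M.E p x) u u +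
        fderiv ℝ (fderiv ℝ (inCh (F j) p)) (chartAt M.E p x) (Complex.I • u) (Complex.I • u))) = _
      ring
    have hs : Summable fun j => c j * lev (F j) x v := by
      refine ((s1.add s2).mul_right (1 / 2)).congr fun j => ?_
      rw [hj]
    refine ⟨hs, ?_⟩
    have h1 := (lev_comp hsm (hol_symm hzt) u).1
    rw [hu, hx, ddc_self] at h1
    rw [← h1, tsum_congr hj, tsum_mul_right, s1.tsum_add s2, ← e1, ← e2]
    show (1 / 2) * (fderiv ℝ (fderiv ℝ fun z => ∑' j, c j * inCh (F j) p z) (chartAt M.E p x) u u +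
      fderiv ℝ (fderiv ℝ fun z => ∑' j, c j * inCh (F j) p z) (chartAt M.E p x) (Complex.I • u) (Complex.I • u)) = _
    ring
  refine ⟨fun x => ∑' j, c j * F j x, hsm, fun x v => ?_, fun x v hj => ?_⟩
  · obtain ⟨hs, he⟩ := hlev x v
    rw [he]
    exact (Z5_sum (hb x v) hc0 hc1 (fun j => h0 j x v) hs).1
  · obtain ⟨hs, he⟩ := hlev x v
    rw [he]
    exact (Z5_sum (hb x v) hc0 hc1 (fun j => h0 j x v) hs).2 hj

end HFC
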