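import Pool.Agent.HDP.ZDefs
import Pool.Agent.HDP.Z2
import Pool.Agent.HDP.N2

/-!
# HDP/Z6: a pluripolar set from quasi-plurisubharmonic functions

The sum of a semi-positive form and a Hermitian metric is a Hermitian metric (`herm_add`). If the functions `f j ≤ 0` have the
maximum `0` and `β + dd^c (f j) ≥ -g`, then the set on which `f j ≤ -4^j` for all `j` is pluripolar (`pluri_of`): take the
partial sums of `∑ 2^(-j-1) f j`; the limit is integrable near a point of a chart.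
-/

set_option autoImplicit false

noncomputable section

open scoped Manifold ContDiff Topology
open Filter

namespace HFC

open Pool.Agent.FBR

universe u

private theorem Z6_ev_add {H : Type*} [NormedAddCommGroup H] [NormedSpace ℂ H] (a c : Bil H) (u v : H) : ev (a + c) u v = ev a u v + ev c u v := rfl

theorem herm_add (M : CM.{u}) {b : Form M.E M.X} (hb : b.Semi) {g : M.X → Bil M.E} (hg : Herm g) :
    Herm fun x => b.val x + g x := by
  refine ⟨?_, ?_, ?_, ?_⟩
  · intro p u v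
    have h1 : ContDiffOn ℝ ∞ (fun y => coef b.val p y u v) (chartAt M.E p).target :=
      ((b.smooth p).clm_apply contDiffOn_const).clm_apply contDiffOn_const
    exact h1.add (hg.smooth p u v)
  · intro x v
    rw [Z6_ev_add, hg.alt]
    show b.val x v v + 0 = 0
    rw [b.alt, add_zero]
  · intro x u v
    rw [Z6_ev_add, Z6_ev_add, hg.j]
    show b.val x (Complex.I • u) (Complex.I • v) + ev (g x) u v = b.val x u v + ev (g x) u v
    rw [b.j]
  · intro x v hv
    rw [Z6_ev_add]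
    have h1 : 0 ≤ b.val x v (Complex.I • v) := hb x v
    have h2 : ev (b.val x) v (Complex.I • v) = b.val x v (Complex.I • v) := rfl
    have h3 := hg.pos x v hv
    rw [h2]
    linarith

/-- the partial sums -/
private def Z6_P {Z : Type*} (f : ℕ → Z → ℝ) (m : ℕ) (x : Z) : ℝ :=
  ∑ j ∈ Finset.range m, (1 / 2 : ℝ) ^ (j + 1) * f j x

private theorem Z6_succ {Z : Type*} (f : ℕ → Z → ℝ) (m : ℕ) (x : Z) :
    Z6_P f (m + 1) x = Z6_P f m x + (1 / 2 : ℝ) ^ (m + 1) * f m x := Finset.sum_range_succ _ _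

private theorem Z6_lev (M : CM.{u}) {f : ℕ → M.X → ℝ} (hf : ∀ j, SmF M.E (f j)) (x : M.X) (v : M.E) {G : ℝ}
    (hG : 0 ≤ G) (h : ∀ j, -G ≤ lev (f j) x v) (m : ℕ) :
    SmF M.E (Z6_P f m) ∧ -((1 - (1 / 2 : ℝ) ^ m) * G) ≤ lev (Z6_P f m) x v := by
  induction m with
  | zero =>
    have h1 : Z6_P f 0 = fun _ : M.X => (0 : ℝ) := by
      funext y
      exact Finset.sum_range_zero _
    rw [h1]
    refine ⟨SmF.const 0, ?_⟩
    rw [lev_const]
    simp
  | succ m ih =>
    have h1 : Z6_P f (m + 1) = fun y => Z6_P f m y + (fun z => (1 / 2 : ℝ) ^ (m + 1) * f m z) y := by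
      funext y
      exact Z6_succ f m y
    have h2 : SmF M.E fun z => (1 / 2 : ℝ) ^ (m + 1) * f m z := (SmF.const _).mul (hf m)
    rw [h1]
    refine ⟨ih.1.add h2, ?_⟩
    rw [lev_add ih.1 h2, lev_cmul (hf m)]
    have h3 : (1 / 2 : ℝ) ^ (m + 1) * -G ≤ (1 / 2 : ℝ) ^ (m + 1) * lev (f m) x v :=
      mul_le_mul_of_nonneg_left (h m) (by positivity)
    have h4 : (1 / 2 : ℝ) ^ (m + 1) = (1 / 2 : ℝ) ^ m * (1 / 2) := pow_succ _ _
    have h5 := ih.2
    rw [h4] at h3 ⊢
    linarith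

open MeasureTheory in
private theorem Z6_fin {H : Type*} [MeasurableSpace H] {ν : Measure H} [(ae ν).NeBot] {F : ℕ → H → ℝ} {C : ℝ}
    (hF : ∀ j, Integrable (F j) ν) (h0 : ∀ j y, 0 ≤ F j y) (hC : ∀ j, ∫ y, F j y ∂ν ≤ C) :
    ∀ᵐ y ∂ν, ∃ K : ℝ, ∀ m : ℕ, ∑ j ∈ Finset.range m, (1 / 2 : ℝ) ^ (j + 1) * F j y ≤ K := by
  have hC0 : 0 ≤ C := (integral_nonneg (h0 0)).trans (hC 0)
  have h1 : ∀ j, Integrable (fun y => (1 / 2 : ℝ) ^ (j + 1) * F j y) ν := fun j => (hF j).const_mul _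
  have h2 : ∀ j y, 0 ≤ (1 / 2 : ℝ) ^ (j + 1) * F j y := fun j y => mul_nonneg (by positivity) (h0 j y)
  have h3 : ∫⁻ y, ∑' j, ENNReal.ofReal ((1 / 2 : ℝ) ^ (j + 1) * F j y) ∂ν ≠ ⊤ := by
    rw [lintegral_tsum fun j => (h1 j).aestronglyMeasurable.aemeasurable.ennreal_ofReal]
    have h4 : ∀ j, ∫⁻ y, ENNReal.ofReal ((1 / 2 : ℝ) ^ (j + 1) * F j y) ∂ν ≤
        ENNReal.ofReal ((1 / 2 : ℝ) ^ j * C) := by
      intro j
      rw [← ofReal_integral_eq_lintegral_ofReal (h1 j) (Filter.Eventually.of_forall (h2 j)), integral_const_mul]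
      apply ENNReal.ofReal_le_ofReal
      have h5 : (1 / 2 : ℝ) ^ (j + 1) ≤ (1 / 2 : ℝ) ^ j :=
        pow_le_pow_of_le_one (by norm_num) (by norm_num) (Nat.le_succ j)
      exact mul_le_mul h5 (hC j) (integral_nonneg (h0 j)) (by positivity)
    refine ne_top_of_le_ne_top ?_ (ENNReal.tsum_le_tsum h4)
    have h6 : Summable fun j : ℕ => (1 / 2 : ℝ) ^ j * C :=
      (summable_geometric_of_lt_one (by norm_num) (by norm_num)).mul_right C
    rw [← ENNReal.ofReal_tsum_of_nonneg (fun j => by positivity) h6]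
    exact ENNReal.ofReal_ne_top
  have h7 : AEMeasurable (fun y => ∑' j, ENNReal.ofReal ((1 / 2 : ℝ) ^ (j + 1) * F j y)) ν :=
    AEMeasurable.ennreal_tsum fun j => (h1 j).aestronglyMeasurable.aemeasurable.ennreal_ofReal
  filter_upwards [ae_lt_top' h7 h3] with y hy
  refine ⟨(∑' j, ENNReal.ofReal ((1 / 2 : ℝ) ^ (j + 1) * F j y)).toReal, fun m => ?_⟩
  rw [← ENNReal.ofReal_le_iff_le_toReal hy.ne, ENNReal.ofReal_sum_of_nonneg fun j _ => h2 j y]
  exact ENNReal.sum_le_tsum _

theorem pluri_of (M : CM.{u}) {b : Form M.E M.X} (hb : b.Semi) {g : M.X → Bil M.E} (hg : Herm g) {f : ℕ → M.X → ℝ}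
    (hf : ∀ j, SmF M.E (f j)) (h0 : ∀ j x, f j x ≤ 0) (h1 : ∀ j, ∃ x, f j x = 0)
    (ha : ∀ j, Above b g (f j) fun _ => -1) : Pluripolar (E := M.E) {x | ∀ j : ℕ, f j x ≤ -(4 : ℝ) ^ j} := by
  have hG : ∀ (x : M.X) (v : M.E), 0 ≤ ev (b.val x) v (Complex.I • v) + ev (g x) v (Complex.I • v) := by
    intro x v
    have h2 : 0 ≤ ev (b.val x) v (Complex.I • v) := hb x v
    by_cases hv : v = 0
    · have h3 : ev (g x) v (Complex.I • v) = 0 := by
        rw [hv]
        show g x 0 (Complex.I • 0) = 0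
        rw [map_zero]
        rfl
      rw [h3, add_zero]
      exact h2
    · exact add_nonneg h2 (hg.pos x v hv).le
  have hl : ∀ (x : M.X) (v : M.E) (j : ℕ),
      -(ev (b.val x) v (Complex.I • v) + ev (g x) v (Complex.I • v)) ≤ lev (f j) x v := by
    intro x v j
    have h2 := ha j x v
    linarith
  refine ⟨fun x => b.val x + g x, Z6_P f, herm_add M hb hg, ?_, ?_, ?_, ?_, ?_⟩
  · intro m
    obtain ⟨x, -⟩ := h1 0
    exact (Z6_lev M hf x 0 (hG x 0) (hl x 0) m).1
  · refine antitone_nat_of_succ_le fun m x => ?_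
    rw [Z6_succ]
    have h2 : (1 / 2 : ℝ) ^ (m + 1) * f m x ≤ 0 := mul_nonpos_of_nonneg_of_nonpos (by positivity) (h0 m x)
    linarith
  · intro m x v
    refine le_trans ?_ (Z6_lev M hf x v (hG x v) (hl x v) m).2
    rw [Z6_ev_add]
    have h2 := hG x v
    have h3 : (0 : ℝ) ≤ (1 / 2 : ℝ) ^ m := by positivity
    nlinarith
  · intro x hx
    have h2 : ∀ m : ℕ, Z6_P f m x ≤ -((m : ℝ) / 2) := by
      intro m
      induction m with
      | zero =>
        have h3 : Z6_P f 0 x = 0 := Finset.sum_range_zero _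
        rw [h3]
        simp
      | succ m ih =>
        rw [Z6_succ]
        have h3 : (1 / 2 : ℝ) ^ (m + 1) * f m x ≤ (1 / 2 : ℝ) ^ (m + 1) * -(4 : ℝ) ^ m :=
          mul_le_mul_of_nonneg_left (hx m) (by positivity)
        have h4 : (1 / 2 : ℝ) ^ (m + 1) * (4 : ℝ) ^ m = (1 / 2) * 2 ^ m := by
          rw [pow_succ, show (4 : ℝ) = 2 * 2 by norm_num, mul_pow]
          have h5 : (1 / 2 : ℝ) ^ m * 2 ^ m = 1 := by
            rw [← mul_pow]
            norm_num
          linear_combination (1 / 2 * 2 ^ m) * h5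
        have h5 : (1 : ℝ) ≤ 2 ^ m := one_le_pow₀ (by norm_num)
        push_cast
        rw [mul_neg, h4] at h3
        linarith
    refine tendsto_atBot_mono h2 ?_
    exact tendsto_neg_atTop_atBot.comp (tendsto_natCast_atTop_atTop.atTop_div_const (by norm_num))
  · obtain ⟨p, -⟩ := h1 0
    let _ : MeasurableSpace M.E := borel M.E
    have : BorelSpace M.E := ⟨rfl⟩
    have : FiniteDimensional ℝ M.E := FiniteDimensional.complexToReal M.E
    have : ProperSpace M.E := FiniteDimensional.proper ℂ M.E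
    obtain ⟨r, hr, hb1, C, hC⟩ := l1_chart M b g hg (MeasureTheory.Measure.addHaar : MeasureTheory.Measure M.E) p
      (mem_chart_target M.E p)
    have hne : (MeasureTheory.ae ((MeasureTheory.Measure.addHaar : MeasureTheory.Measure M.E).restrict
        (Metric.ball (chartAt M.E p p) r))).NeBot := by
      rw [MeasureTheory.ae_restrict_neBot]
      exact (Metric.measure_ball_pos _ _ hr).ne'
    have h2 := Z6_fin (ν := (MeasureTheory.Measure.addHaar : MeasureTheory.Measure M.E).restrict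
      (Metric.ball (chartAt M.E p p) r)) (F := fun j y => |inCh (f j) p y|) (C := C)
      (fun j => (hC (f j) (hf j) (h0 j) (h1 j) (ha j)).1.abs) (fun j y => abs_nonneg _)
      (fun j => (hC (f j) (hf j) (h0 j) (h1 j) (ha j)).2)
    obtain ⟨y, K, hK⟩ := h2.exists
    refine ⟨(chartAt M.E p).symm y, -K, fun m => ?_⟩
    have h3 : Z6_P f m ((chartAt M.E p).symm y) =
        -∑ j ∈ Finset.range m, (1 / 2 : ℝ) ^ (j + 1) * |inCh (f j) p y| := by
      rw [← Finset.sum_neg_distrib]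
      refine Finset.sum_congr rfl fun j _ => ?_
      have h4 : |inCh (f j) p y| = -f j ((chartAt M.E p).symm y) := abs_of_nonpos (h0 j _)
      rw [h4, mul_neg, neg_neg]
    rw [h3]
    exact neg_le_neg (hK m)

end HFC
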