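import Pool.Agent.HDP.Z3
import Pool.Agent.HDP.Z5
import Pool.Agent.HDP.Z6
import Pool.Agent.HDP.Z9
import Pool.Agent.HDP.Z10
import Pool.Agent.HDW.W16

/-!
# HDP/Z11: the theorem on the degeneracy set

The functions `f j` of `wk_of` (HDW/W16) for `κ j = min ((1/2)^j) (δ (1 + 4^j)^(-p) / 2)`, the functions `F j` of `trunc_of` (Z3) and
the function `h` of `combo` (Z5). On `Degen b h` all `f j` are at most `-4^j`, so this closed set (`degen_closed`, Z9) is pluripolar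
(`pluri_of`, Z6), and it contains the supports of the positive pluriclosed currents which kill `β` (`supp_of`, Z10).
-/

set_option autoImplicit false

noncomputable section

open scoped Manifold ContDiff Topology
open Filter

namespace HFC

open Pool.Agent.FBR

universe u

private theorem Z11_mono {E X : Type u} [NormedAddCommGroup E] [NormedSpace ℂ E] [TopologicalSpace X] [ChartedSpace E X]
    {A B : Set X} (h : A ⊆ B) (hB : Pluripolar (E := E) B) : Pluripolar (E := E) A := by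
  obtain ⟨g, Φ, hg, h1, h2, h3, h4, h5⟩ := hB
  exact ⟨g, Φ, hg, h1, h2, h3, fun x hx => h4 x (h hx), h5⟩

private theorem Z11_nn {E X : Type u} [NormedAddCommGroup E] [NormedSpace ℂ E] [TopologicalSpace X] [ChartedSpace E X]
    {g : X → Bil E} (hg : Herm g) (x : X) (v : E) : 0 ≤ ev (g x) v (Complex.I • v) := by
  by_cases hv : v = 0
  · subst hv
    simp [ev]
  · exact (hg.pos x v hv).le

private theorem Z11_le {E X : Type u} [NormedAddCommGroup E] [NormedSpace ℂ E] [TopologicalSpace X] [ChartedSpace E X]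
    {b : Form E X} {g : X → Bil E} (hg : Herm g) {f θ θ' : X → ℝ} (hle : ∀ x, θ' x ≤ θ x)
    (h : Above b g f θ) : Above b g f θ' := by
  intro x v
  exact (mul_le_mul_of_nonneg_right (hle x) (Z11_nn hg x v)).trans (h x v)

theorem off_pluripolar (M : CM.{u}) (hn : 2 ≤ Module.finrank ℂ M.E) (b : Form M.E M.X) (hb : b.Semi)
    (hb' : ∃ x, b.PosAt x) (g : M.X → Bil M.E) (hg : Herm g) (p : ℝ) (hp : 0 < p)
    (hpn : (Module.finrank ℂ M.E : ℝ) - 2 < p) :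
    ∃ (δ : ℝ) (h : M.X → ℝ), 0 < δ ∧ SmF M.E h ∧ PsF b h ∧ IsClosed (Degen b h) ∧ Pluripolar (E := M.E) (Degen b h) ∧
      (∀ T : (M.X → Bil M.E) →ₗ[ℝ] ℝ, PCur T → T b.val = 0 → SuppIn T (Degen b h)) ∧
      ∀ κ : ℝ, 0 < κ → ∃ f : M.X → ℝ, SmF M.E f ∧ (∀ x, f x ≤ 0) ∧ (∃ x, f x = 0) ∧
        (∀ x ∈ Degen b h, f x ≤ -(1 / κ)) ∧ Above b g f fun x => δ * (1 - f x) ^ (-p) - κ := by
  obtain ⟨δ, hδ, hw⟩ := wk_of M hn b hb hb' g hg p hp hpn
  have hq : ∀ j : ℕ, 0 < δ * (1 + (4 : ℝ) ^ j) ^ (-p) := fun j =>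
    mul_pos hδ (Real.rpow_pos_of_pos (by positivity) _)
  have hk : ∀ j : ℕ, 0 < min ((1 / 2 : ℝ) ^ j) (δ * (1 + (4 : ℝ) ^ j) ^ (-p) / 2) := fun j =>
    lt_min (by positivity) (half_pos (hq j))
  choose f h1 h2 h3 h4 using fun j : ℕ => hw _ (hk j)
  have hF := fun j : ℕ => trunc_of hb hg hδ hp (by positivity : (0 : ℝ) ≤ 4 ^ j)
    (lt_of_le_of_lt (min_le_right ((1 / 2 : ℝ) ^ j) _) (half_lt_self (hq j))) (h1 j) (h2 j) (h4 j)
  choose F k1 k2 k3 using hF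
  obtain ⟨φ, l1, l2, l3⟩ := combo M hb k1 k2
  have hsub : ∀ x ∈ Degen b φ, ∀ j : ℕ, f j x ≤ -(4 : ℝ) ^ j := by
    rintro x ⟨v, hv, hx⟩ j
    by_contra hj
    exact absurd (l3 x v ⟨j, k3 j x (not_le.1 hj) v hv⟩) (not_lt.2 hx)
  have hab : ∀ (j : ℕ) (κ : ℝ), (1 / 2 : ℝ) ^ j ≤ κ → Above b g (f j) fun x => δ * (1 - f j x) ^ (-p) - κ := by
    intro j κ hκ
    refine Z11_le hg (fun x => ?_) (h4 j)
    have h5 := min_le_left ((1 / 2 : ℝ) ^ j) (δ * (1 + (4 : ℝ) ^ j) ^ (-p) / 2)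
    have h6 := h5.trans hκ
    linarith
  have hpl : Pluripolar (E := M.E) {x | ∀ j : ℕ, f j x ≤ -(4 : ℝ) ^ j} := by
    refine pluri_of M hb hg h1 h2 h3 fun j => ?_
    refine Z11_le hg (fun x => ?_) (hab j 1 (pow_le_one₀ (by norm_num) (by norm_num)))
    have h5 : 0 ≤ δ * (1 - f j x) ^ (-p) := mul_nonneg hδ.le (Real.rpow_nonneg (by linarith [h2 j x]) _)
    linarith
  refine ⟨δ, φ, hδ, l1, l2, degen_closed M b l1, Z11_mono hsub hpl, fun T hT hT0 => supp_of M b l1 l2 T hT hT0,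
    fun κ hκ => ?_⟩
  obtain ⟨j1, hj1⟩ := exists_pow_lt_of_lt_one hκ (by norm_num : (1 / 2 : ℝ) < 1)
  obtain ⟨j2, hj2⟩ := pow_unbounded_of_one_lt (1 / κ) (by norm_num : (1 : ℝ) < 4)
  have e1 : (1 / 2 : ℝ) ^ (max j1 j2) ≤ κ :=
    (pow_le_pow_of_le_one (by norm_num) (by norm_num) (le_max_left j1 j2)).trans hj1.le
  have e2 : 1 / κ ≤ (4 : ℝ) ^ (max j1 j2) :=
    hj2.le.trans (pow_le_pow_right₀ (by norm_num) (le_max_right j1 j2))
  refine ⟨f (max j1 j2), h1 _, h2 _, h3 _, fun x hx => ?_, hab _ κ e1⟩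
  have h5 := hsub x hx (max j1 j2)
  linarith

end HFC
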