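import Pool.Agent.HDP.ZDefs
import Pool.Agent.HDP.Z1
import Pool.Agent.HDP.Z2

/-!
# HDP/Z3: a semi-positive form from an approximate weighted Kähler current

The function `χ (f + K)` for the convex cut-off function `χ` of Z1.
-/

set_option autoImplicit false

noncomputable section

open scoped Manifold ContDiff Topology

namespace HFC

open Pool.Agent.FBR

universe u

private theorem Z3_alg {c B L l G θ : ℝ} (h0 : 0 ≤ c) (h1 : c ≤ 1) (hB : 0 ≤ B) (hl : c * L ≤ l) (h : θ * G ≤ B + L) :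
    c * (θ * G) ≤ B + l := by
  have h2 : c * (θ * G) ≤ c * (B + L) := mul_le_mul_of_nonneg_left h h0
  have h3 : 0 ≤ (1 - c) * B := mul_nonneg (by linarith) hB
  linarith

theorem trunc_of {E X : Type u} [NormedAddCommGroup E] [NormedSpace ℂ E] [TopologicalSpace X] [ChartedSpace E X]
    {b : Form E X} (hb : b.Semi) {g : X → Bil E} (hg : Herm g) {δ p κ K : ℝ} (hδ : 0 < δ) (hp : 0 < p) (hK : 0 ≤ K)
    (hκ : κ < δ * (1 + K) ^ (-p)) {f : X → ℝ} (hf : SmF E f) (h0 : ∀ x, f x ≤ 0)
    (h : Above b g f fun x => δ * (1 - f x) ^ (-p) - κ) :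
    ∃ F : X → ℝ, SmF E F ∧ PsF b F ∧ ∀ x, -K < f x → ∀ v : E, v ≠ 0 →
      0 < ev (b.val x) v (Complex.I • v) + lev F x v := by
  obtain ⟨χ, hχ, c0, c1, c2, cz, cp⟩ := exists_chi
  have hfK : SmF E (fun x => f x + K) := hf.add (SmF.const K)
  have hlev : ∀ (x : X) (v : E), deriv χ (f x + K) * lev f x v ≤ lev (fun x => χ (f x + K)) x v := by
    intro x v
    have h2 := lev_real hfK hχ c2 x v
    rw [lev_add hf (SmF.const K), lev_const, add_zero] at h2
    exact h2
  have hB : ∀ (x : X) (v : E), 0 ≤ ev (b.val x) v (Complex.I • v) := fun x v => hb x v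
  have hfac : ∀ x, -K < f x → 0 < δ * (1 - f x) ^ (-p) - κ := by
    intro x hx
    have h2 : (1 + K) ^ (-p) ≤ (1 - f x) ^ (-p) :=
      Real.rpow_le_rpow_of_nonpos (by linarith [h0 x]) (by linarith) (by linarith)
    have h3 := mul_le_mul_of_nonneg_left h2 hδ.le
    linarith
  have hpos : ∀ x, -K < f x → ∀ v : E, v ≠ 0 →
      0 < ev (b.val x) v (Complex.I • v) + lev (fun x => χ (f x + K)) x v := by
    intro x hx v hv
    have h2 := Z3_alg (c0 (f x + K)) (c1 (f x + K)) (hB x v) (hlev x v) (h x v)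
    have h3 : 0 < deriv χ (f x + K) := cp _ (by linarith)
    have h4 := mul_pos h3 (mul_pos (hfac x hx) (hg.pos x v hv))
    exact lt_of_lt_of_le h4 h2
  refine ⟨fun x => χ (f x + K), smF_real hfK hχ, ?_, hpos⟩
  intro x v
  by_cases hx : -K < f x
  · by_cases hv : v = 0
    · have h2 := Z3_alg (c0 (f x + K)) (c1 (f x + K)) (hB x v) (hlev x v) (h x v)
      have h3 : ev (g x) v (Complex.I • v) = 0 := by
        rw [hv, smul_zero]
        exact hg.alt x 0
      rw [h3, mul_zero, mul_zero] at h2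
      exact h2
    · exact (hpos x hx v hv).le
  · have h2 := hlev x v
    have h3 : deriv χ (f x + K) = 0 := cz _ (by linarith)
    rw [h3, zero_mul] at h2
    linarith [hB x v]

end HFC
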