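import Pool.Agent.HDG.RDefs
import Pool.Agent.FBR.SmFn
import Pool.Agent.FBR.Ops

/-!
# HDP/Z8: a Hermitian metric on a compact complex manifold

The standard form of `E` is pulled back by the charts, and the pull backs are glued by a partition of unity.
-/

set_option autoImplicit false

noncomputable section

open scoped Manifold ContDiff Topology

namespace HFC

open Pool.Agent.FBR

universe u

/-- the standard form on `ℂ` -/
private def Z8_B0 : ℂ →L[ℝ] ℂ →L[ℝ] ℝ :=
  ((ContinuousLinearMap.compL ℝ ℂ ℂ ℝ Complex.imCLM).comp (ContinuousLinearMap.mul ℝ ℂ)).comp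
    (Complex.conjCLE : ℂ →L[ℝ] ℂ)

private theorem Z8_B0_apply (z w : ℂ) : Z8_B0 z w = z.re * w.im - z.im * w.re := by
  show ((starRingEnd ℂ) z * w).im = _
  simp [Complex.mul_im]
  ring

private theorem Z8_h0 {E : Type u} [NormedAddCommGroup E] [NormedSpace ℂ E] [FiniteDimensional ℂ E] :
    ∃ h : Bil E, (∀ v, h v v = 0) ∧ (∀ u v, h (Complex.I • u) (Complex.I • v) = h u v) ∧
      ∀ v, v ≠ 0 → 0 < h v (Complex.I • v) := by
  have e := Module.finBasis ℂ E
  obtain ⟨L, hL⟩ : ∃ L : Fin (Module.finrank ℂ E) → E →L[ℝ] ℂ, ∀ k v, L k v = e.repr v k :=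
    ⟨fun k => (LinearMap.toContinuousLinearMap (e.coord k)).restrictScalars ℝ, fun k v => rfl⟩
  refine ⟨∑ k, (Z8_B0.bilinearComp (L k) (L k)), fun v => ?_, fun u v => ?_, fun v hv => ?_⟩
  · simp only [sum_apply, ContinuousLinearMap.bilinearComp_apply, Z8_B0_apply]
    refine Finset.sum_eq_zero fun k _ => ?_
    ring
  · simp only [sum_apply, ContinuousLinearMap.bilinearComp_apply, Z8_B0_apply]
    refine Finset.sum_congr rfl fun k _ => ?_
    rw [hL, hL, hL, hL, map_smul, map_smul]
    simp only [Finsupp.smul_apply, smul_eq_mul, Complex.mul_re, Complex.mul_im, Complex.I_re, Complex.I_im]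
    ring
  · simp only [sum_apply, ContinuousLinearMap.bilinearComp_apply, Z8_B0_apply]
    have h1 : ∀ k, (L k v).re * (L k (Complex.I • v)).im - (L k v).im * (L k (Complex.I • v)).re =
        Complex.normSq (e.repr v k) := by
      intro k
      rw [hL, hL, map_smul]
      simp only [Finsupp.smul_apply, smul_eq_mul, Complex.mul_re, Complex.mul_im, Complex.I_re, Complex.I_im,
        Complex.normSq_apply]
      ring
    rw [Finset.sum_congr rfl fun k _ => h1 k]
    have h2 : ∃ k, e.repr v k ≠ 0 := by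
      by_contra hc
      push Not at hc
      refine hv ?_
      have h3 : e.repr v = 0 := Finsupp.ext hc
      simpa using h3
    obtain ⟨k, hk⟩ := h2
    exact Finset.sum_pos' (fun k _ => Complex.normSq_nonneg _) ⟨k, Finset.mem_univ k, Complex.normSq_pos.2 hk⟩

section

variable {E X : Type u} [NormedAddCommGroup E] [NormedSpace ℂ E] [TopologicalSpace X] [ChartedSpace E X]

/-- the derivative of the chart at `p`, at the point `x` -/
private def Z8_D (p x : X) : E →L[ℝ] E := fderiv ℝ (chartAt E p ∘ (chartAt E x).symm) (chartAt E x x)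

variable [IsManifold 𝓘(ℂ, E) ω X]

private theorem Z8_I {p x : X} (hx : x ∈ (chartAt E p).source) (v : E) :
    Z8_D p x (Complex.I • v) = Complex.I • Z8_D p x v := by
  have h0 : (chartAt E x).symm (chartAt E x x) = x := (chartAt E x).left_inv (mem_chart_source E x)
  have h1 : Hol E (chartAt E x).symm (chartAt E x x) := hol_symm (mem_chart_target E x)
  have h2 := (hol_iff (p := p) h1.1 (by rw [h0]; exact hx)).1 h1
  have h3 : DifferentiableAt ℂ (chartAt E p ∘ (chartAt E x).symm) (chartAt E x x) :=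
    h2.differentiableAt (by simp)
  unfold Z8_D
  rw [h3.fderiv_restrictScalars ℝ]
  simp

private theorem Z8_comp {p q : X} {y : E} (hy : y ∈ (chartAt E q).target)
    (hp : (chartAt E q).symm y ∈ (chartAt E p).source) (u : E) :
    Z8_D p ((chartAt E q).symm y) (dvec E (chartAt E q).symm y u) =
      fderiv ℝ (chartAt E p ∘ (chartAt E q).symm) y u := by
  rw [dvec_chart (hol_symm hy).sm hp]
  rfl

private theorem Z8_inj {p x : X} (hx : x ∈ (chartAt E p).source) {v : E} (hv : v ≠ 0) : Z8_D p x v ≠ 0 := by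
  have h0 : (chartAt E p).symm (chartAt E p x) = x := (chartAt E p).left_inv hx
  have hy : chartAt E p x ∈ (chartAt E p).target := (chartAt E p).map_source hx
  obtain ⟨w, hw⟩ := (dvec_symm_bij hy).2 v
  have h1 := Z8_comp (p := p) hy (by rw [h0]; exact hx) w
  rw [h0, hw] at h1
  have h2 : chartAt E p ∘ (chartAt E p).symm =ᶠ[nhds (chartAt E p x)] id := by
    filter_upwards [(chartAt E p).open_target.mem_nhds hy] with z hz
    simp [(chartAt E p).right_inv hz]
  rw [h2.fderiv_eq, fderiv_id] at h1
  rw [h1]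
  intro h3
  refine hv ?_
  have h4 : w = 0 := h3
  rw [← hw, h4, map_zero]

end

theorem exists_herm (M : CM.{u}) : ∃ g : M.X → Bil M.E, Herm g := by
  obtain ⟨h, ha, hj, hp⟩ := Z8_h0 (E := M.E)
  obtain ⟨n, c, χ, h1, h2, h3, h4⟩ := pou (E := M.E) (X := M.X) (fun x => (chartAt M.E x).source)
    (fun x => (chartAt M.E x).open_source) (fun x => mem_chart_source M.E x)
  have hs : ∀ i x, χ i x ≠ 0 → x ∈ (chartAt M.E (c i)).source := fun i x hx =>
    h3 i (subset_tsupport _ hx)
  have hev : ∀ x u v, (∑ i, χ i x • h.bilinearComp (Z8_D (c i) x) (Z8_D (c i) x)) u v =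
      ∑ i, χ i x * h (Z8_D (c i) x u) (Z8_D (c i) x v) := by
    intro x u v
    simp only [sum_apply, smul_apply,
      ContinuousLinearMap.bilinearComp_apply, smul_eq_mul]
  refine ⟨fun x => ∑ i, χ i x • h.bilinearComp (Z8_D (c i) x) (Z8_D (c i) x), ?_, ?_, ?_, ?_⟩
  · intro p u v
    have h5 : ∀ y, cB (fun x => ∑ i, χ i x • h.bilinearComp (Z8_D (c i) x) (Z8_D (c i) x)) p u v y =
        ∑ i, χ i ((chartAt M.E p).symm y) *
          h (Z8_D (c i) ((chartAt M.E p).symm y) (dvec M.E (chartAt M.E p).symm y u))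
            (Z8_D (c i) ((chartAt M.E p).symm y) (dvec M.E (chartAt M.E p).symm y v)) := by
      intro y
      exact hev _ _ _
    refine ContDiffOn.congr ?_ fun y _ => h5 y
    refine ContDiffOn.sum fun i _ => ?_
    intro y hy
    refine ContDiffAt.contDiffWithinAt ?_
    by_cases hi : (chartAt M.E p).symm y ∈ tsupport (χ i)
    · have hx := h3 i hi
      have hc : ContinuousAt (chartAt M.E p).symm y := (chartAt M.E p).continuousAt_symm hy
      have e1 : (fun y => χ i ((chartAt M.E p).symm y) *
          h (Z8_D (c i) ((chartAt M.E p).symm y) (dvec M.E (chartAt M.E p).symm y u))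
            (Z8_D (c i) ((chartAt M.E p).symm y) (dvec M.E (chartAt M.E p).symm y v))) =ᶠ[nhds y]
          fun y => (χ i ∘ (chartAt M.E p).symm) y *
            (h.bilinearComp (fderiv ℝ (chartAt M.E (c i) ∘ (chartAt M.E p).symm) y)
              (fderiv ℝ (chartAt M.E (c i) ∘ (chartAt M.E p).symm) y)) u v := by
        filter_upwards [(chartAt M.E p).open_target.mem_nhds hy,
          hc.eventually ((chartAt M.E (c i)).open_source.mem_nhds hx)] with z hz hz2
        rw [Z8_comp hz hz2, Z8_comp hz hz2]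
        rfl
      refine ContDiffAt.congr_of_eventuallyEq ?_ e1
      refine ContDiffAt.mul ((h1 i).at (hol_symm hy).sm) ?_
      have e2 := contDiffAt_pull (fun _ : M.E => h) (chartAt M.E (c i) ∘ (chartAt M.E p).symm) y
        contDiffAt_const ((sm_iff (p := c i) hc hx).1 (hol_symm hy).sm)
      exact (e2.clm_apply contDiffAt_const).clm_apply contDiffAt_const
    · have hc : ContinuousAt (chartAt M.E p).symm y := (chartAt M.E p).continuousAt_symm hy
      have e0 : χ i =ᶠ[nhds ((chartAt M.E p).symm y)] 0 := notMem_tsupport_iff_eventuallyEq.1 hi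
      have e1 := hc.eventually e0
      refine ContDiffAt.congr_of_eventuallyEq (f := fun _ => (0 : ℝ)) contDiffAt_const ?_
      filter_upwards [e1] with z hz
      rw [hz]
      show (0 : ℝ) * _ = 0
      ring
  · intro x v
    show (∑ i, χ i x • h.bilinearComp (Z8_D (c i) x) (Z8_D (c i) x)) v v = 0
    rw [hev]
    exact Finset.sum_eq_zero fun i _ => by rw [ha, mul_zero]
  · intro x u v
    show (∑ i, χ i x • h.bilinearComp (Z8_D (c i) x) (Z8_D (c i) x)) (Complex.I • u) (Complex.I • v) =
      (∑ i, χ i x • h.bilinearComp (Z8_D (c i) x) (Z8_D (c i) x)) u v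
    rw [hev, hev]
    refine Finset.sum_congr rfl fun i _ => ?_
    by_cases hi : χ i x = 0
    · rw [hi, zero_mul, zero_mul]
    · rw [Z8_I (hs i x hi), Z8_I (hs i x hi), hj]
  · intro x v hv
    show 0 < (∑ i, χ i x • h.bilinearComp (Z8_D (c i) x) (Z8_D (c i) x)) v (Complex.I • v)
    rw [hev]
    have h6 : ∃ i, χ i x ≠ 0 := by
      by_contra hc
      push Not at hc
      have h7 := h4 x
      rw [Finset.sum_eq_zero fun i _ => hc i] at h7
      exact zero_ne_one h7
    obtain ⟨i, hi⟩ := h6
    have hpos : ∀ j, χ j x ≠ 0 → 0 < χ j x * h (Z8_D (c j) x v) (Z8_D (c j) x (Complex.I • v)) := by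
      intro j hj0
      rw [Z8_I (hs j x hj0)]
      exact mul_pos (lt_of_le_of_ne (h2 j x) (Ne.symm hj0)) (hp _ (Z8_inj (hs j x hj0) hv))
    refine Finset.sum_pos' (fun j _ => ?_) ⟨i, Finset.mem_univ i, hpos i hi⟩
    by_cases hj0 : χ j x = 0
    · rw [hj0, zero_mul]
    · exact (hpos j hj0).le

end HFC
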