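import Pool.Agent.HDP.Z3
import Pool.Agent.HDP.Z5
import Pool.Agent.HDP.Z6
import Pool.Agent.HDP.Z8
import Pool.Agent.HDW.W16

/-!
# HDP/Z7: a semi-positive form whose degeneracy set is pluripolar

`wk_of` with `p = finrank` gives functions `f j` for `κ j = min 1 (δ (1 + 4^j)^(-p) / 2)`, `trunc_of` the functions `F j`, and `combo`
the function `f`. The degeneracy set of `f` is contained in the set of the points at which `f j ≤ -4^j` for all `j`, and this set
is pluripolar by `pluri_of`.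
-/

set_option autoImplicit false

noncomputable section

open scoped Manifold ContDiff Topology
open Filter

namespace HFC

open Pool.Agent.FBR

universe u

private theorem Z7_mono {E X : Type u} [NormedAddCommGroup E] [NormedSpace ℂ E] [TopologicalSpace X] [ChartedSpace E X]
    {A B : Set X} (h : A ⊆ B) (hB : Pluripolar (E := E) B) : Pluripolar (E := E) A := by
  obtain ⟨g, Φ, hg, h1, h2, h3, h4, h5⟩ := hB
  exact ⟨g, Φ, hg, h1, h2, h3, fun x hx => h4 x (h hx), h5⟩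

private theorem Z7_nn {E X : Type u} [NormedAddCommGroup E] [NormedSpace ℂ E] [TopologicalSpace X] [ChartedSpace E X]
    {g : X → Bil E} (hg : Herm g) (x : X) (v : E) : 0 ≤ ev (g x) v (Complex.I • v) := by
  by_cases hv : v = 0
  · subst hv
    simp [ev]
  · exact (hg.pos x v hv).le

private theorem Z7_above {E X : Type u} [NormedAddCommGroup E] [NormedSpace ℂ E] [TopologicalSpace X] [ChartedSpace E X]
    {b : Form E X} {g : X → Bil E} (hg : Herm g) {f : X → ℝ} {δ p κ : ℝ} (hδ : 0 < δ) (hκ : κ ≤ 1) (hf : ∀ x, f x ≤ 0)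
    (h : Above b g f fun x => δ * (1 - f x) ^ (-p) - κ) : Above b g f fun _ => -1 := by
  intro x v
  have h1 : 0 ≤ δ * (1 - f x) ^ (-p) := mul_nonneg hδ.le (Real.rpow_nonneg (by linarith [hf x]) _)
  have h2 : (-1 : ℝ) * ev (g x) v (Complex.I • v) ≤ (δ * (1 - f x) ^ (-p) - κ) * ev (g x) v (Complex.I • v) :=
    mul_le_mul_of_nonneg_right (by linarith) (Z7_nn hg x v)
  exact h2.trans (h x v)

theorem degen_pluripolar (M : CM.{u}) (hn : 2 ≤ Module.finrank ℂ M.E) (b : Form M.E M.X) (hb : b.Semi)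
    (hb' : ∃ x, b.PosAt x) : ∃ f : M.X → ℝ, SmF M.E f ∧ PsF b f ∧ Pluripolar (E := M.E) (Degen b f) := by
  obtain ⟨g, hg⟩ := exists_herm M
  have hp : (0 : ℝ) < (Module.finrank ℂ M.E : ℝ) := by
    have : (2 : ℝ) ≤ (Module.finrank ℂ M.E : ℝ) := by exact_mod_cast hn
    linarith
  obtain ⟨δ, hδ, hw⟩ := wk_of M hn b hb hb' g hg (Module.finrank ℂ M.E : ℝ) hp (by linarith)
  have hq : ∀ j : ℕ, 0 < δ * (1 + (4 : ℝ) ^ j) ^ (-(Module.finrank ℂ M.E : ℝ)) := fun j =>
    mul_pos hδ (Real.rpow_pos_of_pos (by positivity) _)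
  have hk : ∀ j : ℕ, 0 < min 1 (δ * (1 + (4 : ℝ) ^ j) ^ (-(Module.finrank ℂ M.E : ℝ)) / 2) := fun j =>
    lt_min one_pos (half_pos (hq j))
  choose f h1 h2 h3 h4 using fun j : ℕ => hw _ (hk j)
  have hF := fun j : ℕ => trunc_of hb hg hδ hp (by positivity : (0 : ℝ) ≤ 4 ^ j)
    (lt_of_le_of_lt (min_le_right 1 _) (half_lt_self (hq j))) (h1 j) (h2 j) (h4 j)
  choose F k1 k2 k3 using hF
  obtain ⟨φ, l1, l2, l3⟩ := combo M hb k1 k2
  refine ⟨φ, l1, l2, Z7_mono ?_ (pluri_of M hb hg h1 h2 h3 fun j => Z7_above hg hδ (min_le_left 1 _) (h2 j) (h4 j))⟩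
  rintro x ⟨v, hv, hx⟩ j
  by_contra hj
  exact absurd (l3 x v ⟨j, k3 j x (not_le.1 hj) v hv⟩) (not_lt.2 hx)

end HFC
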