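import Pool.Agent.HDP.ZDefs
import Pool.Agent.HDP.QDefs

/-!
# HDP: positive pluriclosed currents of bidimension (1,1)

`M` is a compact connected complex manifold (`CM`), modelled on `E = M.E`. A current of bidimension `(1,1)` is given by its
values on the smooth real `(1,1)`-forms. (A linear functional on this subspace is the restriction of a linear functional `T` on
all fields of bilinear forms, so nothing is lost; positive functionals are continuous.)
-/

set_option autoImplicit false

noncomputable section

open scoped Manifold ContDiff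

namespace HFC

open Pool.Agent.FBR

universe u

variable {E X : Type u} [NormedAddCommGroup E] [NormedSpace ℂ E] [TopologicalSpace X] [ChartedSpace E X]

/-- `T` is a positive pluriclosed current of bidimension `(1,1)`: `T γ ≥ 0` for the real `(1,1)`-forms `γ ≥ 0`, and `T γ = 0` if
`γ = dd^c f` -/
structure PCur (T : (X → Bil E) →ₗ[ℝ] ℝ) : Prop where
  pos : ∀ γ, Real11 γ → (∀ (x : X) (v : E), 0 ≤ ev (γ x) v (Complex.I • v)) → 0 ≤ T γ
  pc : ∀ (γ : X → Bil E) (f : X → ℝ), Real11 γ → SmF E f →
    (∀ (x : X) (v : E), ev (γ x) v (Complex.I • v) = lev f x v) → T γ = 0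

/-- the support of the current `T` is contained in `A`: `T γ = 0` for the real `(1,1)`-forms `γ` which vanish near `A` -/
def SuppIn (T : (X → Bil E) →ₗ[ℝ] ℝ) (A : Set X) : Prop :=
  ∀ γ : X → Bil E, Real11 γ → (∃ U : Set X, IsOpen U ∧ A ⊆ U ∧ ∀ x ∈ U, γ x = 0) → T γ = 0

end HFC
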