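import Pool.Agent.HDP.ZE

/-!
# HDP: the three assertions of the theorem on the degeneracy set

`M` is a compact connected complex manifold (`CM`), modelled on `E = M.E`.
-/

set_option autoImplicit false

noncomputable section

open scoped Manifold ContDiff

namespace HFC

open Pool.Agent.FBR

universe u

variable {E X : Type u} [NormedAddCommGroup E] [NormedSpace ℂ E] [TopologicalSpace X] [ChartedSpace E X]

/-- `h` is smooth, `β + dd^c h ≥ 0` on `X`, and the set of the points where this form is not positive definite is closed and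
pluripolar -/
def OffPluri (b : Form E X) (h : X → ℝ) : Prop :=
  SmF E h ∧ PsF b h ∧ IsClosed (Degen b h) ∧ Pluripolar (E := E) (Degen b h)

/-- every positive pluriclosed current `T` of bidimension `(1,1)` with `T(β) = 0` has its support in `A` -/
def ObstIn (b : Form E X) (A : Set X) : Prop :=
  ∀ T : (X → Bil E) →ₗ[ℝ] ℝ, PCur T → T b.val = 0 → SuppIn T A

/-- for every `κ > 0` there is a smooth function `f ≤ 0` with maximum `0`, and `f ≤ -1 / κ` on `A`, such that
`β + dd^c f ≥ (δ (1 - f) ^ (-p) - κ) g` on `X` -/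
def WeightOn (b : Form E X) (g : X → Bil E) (p δ : ℝ) (A : Set X) : Prop :=
  ∀ κ : ℝ, 0 < κ → ∃ f : X → ℝ, SmF E f ∧ (∀ x, f x ≤ 0) ∧ (∃ x, f x = 0) ∧ (∀ x ∈ A, f x ≤ -(1 / κ)) ∧
    Above b g f fun x => δ * (1 - f x) ^ (-p) - κ

end HFC
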